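import Pool.Agent.Ovp.Defs

namespace Pool.Agent.Ovp

open scoped LinearAlgebra.Projectivization

variable {K V : Type} [Field K] [AddCommGroup V] [Module K V]
variable {F : Ovo.HF K V} {S : V → Prop} {x z m m' z' x' : V}

/-- The perpendicular subspace. -/
def pp (F : Ovo.HF K V) (T : Submodule K V) : Submodule K V where
  carrier := {v | ∀ t ∈ T, F.H v t = 0}
  add_mem' := fun {a b} ha hb t ht => by rw [F.addl, ha t ht, hb t ht, add_zero]
  zero_mem' := fun t _ => F.zerol t
  smul_mem' := fun c v hv t ht => by rw [F.smull, hv t ht, mul_zero]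

-- BEGIN row syl
/-- |orbit G a| |G_a| = |G| and |orbit Q a| |Q_a| = |Q| (orbit stabiliser). |Q| is the p part
of |G|, Q_a maps injectively into G_a and is a p-group, so |Q_a| divides |G_a|, and is a p-power,
so |Q_a| p^k divides the p part of |G| = |Q|: |orbit Q a| is at least p^k. The orbit of Q is
inside the orbit of G (p^k elements), so they are equal. -/
theorem syl {G α : Type} [Group G] [Finite G] [MulAction G α] {p k : ℕ} [Fact p.Prime]
    (Q : Sylow p G) (a : α) (h : Nat.card (MulAction.orbit G a) = p ^ k) {b : α}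
    (hb : b ∈ MulAction.orbit G a) : ∃ g ∈ (Q : Subgroup G), g • a = b := by
  classical
  have hp : p.Prime := Fact.out
  have hn : Nat.card (Q : Subgroup G) = p ^ (Nat.card G).factorization p := Q.card_eq_multiplicity
  have hH : Nat.card (MulAction.stabilizer G a) * p ^ k = Nat.card G := by
    rw [← h, ← Subgroup.card_mul_index (MulAction.stabilizer G a), MulAction.index_stabilizer,
      Nat.card_coe_set_eq]
  have hQ : Nat.card (MulAction.stabilizer (Q : Subgroup G) a) *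
      (MulAction.orbit (Q : Subgroup G) a).ncard = Nat.card (Q : Subgroup G) := by
    rw [← Subgroup.card_mul_index (MulAction.stabilizer (Q : Subgroup G) a),
      MulAction.index_stabilizer]
  have hdvd : Nat.card (MulAction.stabilizer (Q : Subgroup G) a) ∣
      Nat.card (MulAction.stabilizer G a) := by
    have h1 : (MulAction.stabilizer (Q : Subgroup G) a).map (Q : Subgroup G).subtype ≤
        MulAction.stabilizer G a := by
      rintro g ⟨g', hg', rfl⟩
      exact hg'
    have h2 := Subgroup.card_dvd_of_le h1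
    rwa [Subgroup.card_map_of_injective (Q : Subgroup G).subtype_injective] at h2
  obtain ⟨j, hj, hj2⟩ := (Nat.dvd_prime_pow hp).1 (hn ▸ Dvd.intro _ hQ)
  have h3 : p ^ (j + k) ∣ Nat.card G := by
    rw [← hH, pow_add, ← hj2]
    exact Nat.mul_dvd_mul_right hdvd _
  have h4 : j + k ≤ (Nat.card G).factorization p :=
    (hp.pow_dvd_iff_le_factorization (Nat.card_pos).ne').1 h3
  have h5 : p ^ k ≤ (MulAction.orbit (Q : Subgroup G) a).ncard := by
    rw [hj2, hn] at hQ
    have h6 : p ^ j * p ^ k ≤ p ^ j * (MulAction.orbit (Q : Subgroup G) a).ncard := by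
      rw [hQ, ← pow_add]
      exact Nat.pow_le_pow_right hp.pos h4
    exact Nat.le_of_mul_le_mul_left h6 (pow_pos hp.pos _)
  have hfin : (MulAction.orbit G a).Finite := Set.finite_range _
  have hsub : MulAction.orbit (Q : Subgroup G) a ⊆ MulAction.orbit G a := by
    rintro c ⟨g, rfl⟩
    exact ⟨(g : G), rfl⟩
  have heq : MulAction.orbit (Q : Subgroup G) a = MulAction.orbit G a := by
    refine Set.eq_of_subset_of_ncard_le hsub ?_ hfin
    rw [← Nat.card_coe_set_eq (MulAction.orbit G a), h]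
    exact h5
  rw [← heq] at hb
  obtain ⟨g, hg⟩ := hb
  exact ⟨(g : G), g.2, hg⟩
-- END row syl

-- BEGIN row fixq
private theorem fixq_le (P : Subgroup (V ≃ₗ[K] V)) (A : Submodule K V)
    (hA : ∀ g ∈ P, ∀ v ∈ A, g v ∈ A) (g : P) :
    A ≤ A.comap ((g : V ≃ₗ[K] V) : V →ₗ[K] V) := fun v hv => hA g g.2 v hv

/-- P acts on B / A (or on the set of cosets of A in B), whose cardinality is a nontrivial power
of p (it is an additive group killed by p, not trivial), and fixes 0; so it fixes another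
element (`IsPGroup.exists_fixed_point_of_prime_dvd_card_of_fixed_point`). -/
theorem fixq [Finite V] {p : ℕ} [Fact p.Prime] (hp : ∀ v : V, p • v = 0)
    (P : Subgroup (V ≃ₗ[K] V)) (hP : IsPGroup p P) (A B : Submodule K V) (hAB : A < B)
    (hA : ∀ g ∈ P, ∀ v ∈ A, g v ∈ A) (hB : ∀ g ∈ P, ∀ v ∈ B, g v ∈ B) :
    ∃ v ∈ B, v ∉ A ∧ ∀ g ∈ P, g v - v ∈ A := by
  let X : Submodule K (V ⧸ A) := B.map A.mkQ
  have hmem : ∀ (g : P) (q : V ⧸ A), q ∈ X →
      A.mapQ A ((g : V ≃ₗ[K] V) : V →ₗ[K] V) (fixq_le P A hA g) q ∈ X := by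
    rintro g q ⟨v, hv, rfl⟩
    exact ⟨(g : V ≃ₗ[K] V) v, hB g g.2 v hv, rfl⟩
  let act : MulAction P X :=
    { smul := fun g q => ⟨A.mapQ A ((g : V ≃ₗ[K] V) : V →ₗ[K] V) (fixq_le P A hA g) q.1,
        hmem g q.1 q.2⟩
      one_smul := by
        rintro ⟨q, v, hv, rfl⟩
        rfl
      mul_smul := by
        rintro g h ⟨q, v, hv, rfl⟩
        rfl }
  have hsm : ∀ (g : P) (v : V) (hv : A.mkQ v ∈ X), ((g • (⟨A.mkQ v, hv⟩ : X) : X) : V ⧸ A)
      = A.mkQ ((g : V ≃ₗ[K] V) v) := fun g v hv => rfl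
  have hfq : Finite (V ⧸ A) := Finite.of_surjective A.mkQ A.mkQ_surjective
  have hfX : Finite X := Subtype.finite
  obtain ⟨w, hwB, hwA⟩ := SetLike.exists_of_lt hAB
  have hw0 : A.mkQ w ≠ 0 := by
    intro h
    exact hwA ((Submodule.Quotient.mk_eq_zero A).1 h)
  have hdvd : p ∣ Nat.card X := by
    have h1 : addOrderOf (⟨A.mkQ w, w, hwB, rfl⟩ : X) = p := by
      refine addOrderOf_eq_prime ?_ ?_
      · ext
        show p • A.mkQ w = 0
        rw [← map_nsmul, hp, map_zero]
      · intro h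
        exact hw0 (congrArg Subtype.val h)
    rw [← h1]
    exact addOrderOf_dvd_natCard _
  have h0 : (0 : X) ∈ MulAction.fixedPoints P X := by
    intro g
    ext
    exact map_zero (A.mapQ A ((g : V ≃ₗ[K] V) : V →ₗ[K] V) (fixq_le P A hA g))
  obtain ⟨b, hb1, hb2⟩ := hP.exists_fixed_point_of_prime_dvd_card_of_fixed_point X hdvd h0
  obtain ⟨q, v, hv, rfl⟩ := b
  refine ⟨v, hv, fun hvA => hb2 ?_, fun g hg => ?_⟩
  · ext
    exact ((Submodule.Quotient.mk_eq_zero A).2 hvA).symm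
  · have h2 := hb1 ⟨g, hg⟩
    have h3 : A.mkQ (g v) = A.mkQ v := congrArg Subtype.val h2
    have h4 : A.mkQ (g v - v) = 0 := by rw [map_sub, h3, sub_self]
    exact (Submodule.Quotient.mk_eq_zero A).1 h4
-- END row fixq

-- BEGIN row dualv
private theorem dualv_sum {ι : Type} (s : Finset ι) (v : V) (a : ι → K) (e : ι → V) :
    F.H v (∑ i ∈ s, a i • e i) = ∑ i ∈ s, F.bar (a i) * F.H v (e i) := by
  classical
  induction s using Finset.induction_on with
  | empty => rw [Finset.sum_empty, Finset.sum_empty, F.zeror]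
  | insert i s hi ih => rw [Finset.sum_insert hi, Finset.sum_insert hi, F.addr, F.smulr, ih]

private theorem dualv_lin (F : Ovo.HF K V) {k : ℕ} (e : Fin k → V) :
    ∃ Φ : V →ₗ[K] (Fin k → K), ∀ v i, Φ v i = F.H v (e i) :=
  ⟨{ toFun := fun v i => F.H v (e i)
     map_add' := fun u v => funext fun i => F.addl u v (e i)
     map_smul' := fun a v => funext fun i => F.smull a v (e i) }, fun _ _ => rfl⟩

/-- The linear map V → (Fin k → K), v ↦ (H v (e i)). If it is not onto, a nonzero functional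
vanishes on the range: sum d_i H v (e i) = 0 for all v, i.e. H v (sum (bar d_i) e_i) = 0, so
sum (bar d_i) e_i = 0 (F.nd), d = 0. Contradiction. -/
theorem dualv [Finite V] [Finite K] {k : ℕ} (e : Fin k → V) (he : LinearIndependent K e)
    (c : Fin k → K) : ∃ v, ∀ i, F.H v (e i) = c i := by
  classical
  obtain ⟨Φ, hΦ⟩ := dualv_lin F e
  have hs : LinearMap.range Φ = ⊤ := by
    by_contra hr
    obtain ⟨f, hf, hle⟩ := Submodule.exists_le_ker_of_lt_top _ (lt_top_iff_ne_top.2 hr)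
    have h1 : ∀ v, F.H v (∑ i, F.bar (f fun j => if i = j then 1 else 0) • e i) = 0 := by
      intro v
      have h2 : f (Φ v) = 0 := hle (LinearMap.mem_range_self _ v)
      rw [LinearMap.pi_apply_eq_sum_univ f] at h2
      rw [dualv_sum]
      refine (Finset.sum_congr rfl fun i _ => ?_).trans h2
      rw [F.bb, hΦ, smul_eq_mul, mul_comm]
    have h3 := F.nd _ h1
    have h4 := Fintype.linearIndependent_iff.1 he _ h3
    apply hf
    refine LinearMap.ext fun x => ?_
    rw [LinearMap.pi_apply_eq_sum_univ f]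
    refine (Finset.sum_eq_zero fun i _ => ?_).trans (LinearMap.zero_apply x).symm
    have h5 := congrArg F.bar (h4 i)
    rw [F.bb, map_zero] at h5
    rw [h5, smul_zero]
  obtain ⟨v, hv⟩ := (LinearMap.range_eq_top.1 hs) c
  exact ⟨v, fun i => by rw [← hΦ, hv]⟩
-- END row dualv

-- BEGIN row ppdim
private theorem ppdim_sum {ι : Type} (s : Finset ι) (v : V) (a : ι → K) (e : ι → V)
    (h : ∀ i, F.H v (e i) = 0) : F.H v (∑ i ∈ s, a i • e i) = 0 := by
  classical
  induction s using Finset.induction_on with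
  | empty => rw [Finset.sum_empty, F.zeror]
  | insert i s hi ih => rw [Finset.sum_insert hi, F.addr, F.smulr, h i, mul_zero, ih, add_zero]

/-- pp F T is the kernel of a linear map V → (Fin k → K), k = finrank T (a basis of T), so
its dimension is at least finrank V - k. -/
theorem ppdim [Finite V] [Finite K] (T : Submodule K V) :
    Module.finrank K V ≤ Module.finrank K (pp F T) + Module.finrank K T := by
  classical
  have i2 : Module.Finite K V := Module.Finite.of_finite
  let b := Module.finBasis K T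
  let Φ : V →ₗ[K] (Fin (Module.finrank K T) → K) :=
    { toFun := fun v i => F.H v (b i : V)
      map_add' := fun u v => funext fun i => F.addl u v (b i : V)
      map_smul' := fun a v => funext fun i => F.smull a v (b i : V) }
  have h1 := LinearMap.finrank_range_add_finrank_ker Φ
  have h2 : Module.finrank K (LinearMap.range Φ) ≤ Module.finrank K T := by
    refine (Submodule.finrank_le _).trans (le_of_eq ?_)
    rw [Module.finrank_fin_fun]
  have h3 : LinearMap.ker Φ ≤ pp F T := by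
    intro v hv t ht
    have h4 : ∀ i, F.H v (b i : V) = 0 := fun i => congrFun (LinearMap.mem_ker.1 hv) i
    have h5 : t = ∑ i, b.repr ⟨t, ht⟩ i • (b i : V) := by
      have h6 := congrArg (fun u : T => (u : V)) (b.sum_repr ⟨t, ht⟩)
      simp only [Submodule.coe_sum, Submodule.coe_smul] at h6
      exact h6.symm
    rw [h5]
    exact ppdim_sum _ v _ _ h4
  have h7 := Submodule.finrank_mono h3
  omega
-- END row ppdim

-- BEGIN row normsur
/-- Let N a = a (bar a). For nonzero fixed elements: N is a homomorphism of the units of K to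
the fixed units (at most q - 1 by `Ovo.card_fixed`), with kernel the a with a^(q+1) = 1 (at
most q + 1), q^2 - 1 = (q-1)(q+1): so it is onto. (Any proof will do.) -/
theorem normsur [Finite K] {q : ℕ} (hK : Nat.card K = q ^ 2) (hbar : ∀ a, F.bar a = a ^ q)
    {a : K} (ha : F.bar a = a) : ∃ t : K, t * F.bar t = a := by
  classical
  by_cases h0 : a = 0
  · exact ⟨0, by rw [h0, zero_mul]⟩
  have hq : 2 ≤ q := by
    have h1 : 1 < Nat.card K := Finite.one_lt_card
    rw [hK] at h1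
    by_contra h
    interval_cases q <;> simp at h1
  have hU : Nat.card Kˣ = q ^ 2 - 1 := by rw [Nat.card_units, hK]
  obtain ⟨g, hg⟩ := IsCyclic.exists_generator (α := Kˣ)
  obtain ⟨k, hk⟩ : ∃ k : ℕ, g ^ k = Units.mk0 a h0 := by
    have h1 := hg (Units.mk0 a h0)
    rw [← mem_powers_iff_mem_zpowers] at h1
    exact h1
  have hord : orderOf g = q ^ 2 - 1 := by
    rw [← hU]
    exact orderOf_eq_card_of_forall_mem_zpowers hg
  have h2 : (Units.mk0 a h0) ^ (q - 1) = 1 := by
    apply Units.ext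
    have h3 : a ^ q = a := by rw [← hbar, ha]
    have h4 : a ^ (q - 1) * a = 1 * a := by
      rw [← pow_succ, show q - 1 + 1 = q by omega, h3, one_mul]
    simpa using mul_right_cancel₀ h0 h4
  rw [← hk, ← pow_mul] at h2
  have h5 := orderOf_dvd_of_pow_eq_one h2
  rw [hord] at h5
  have h6 : q ^ 2 - 1 = (q + 1) * (q - 1) := by
    have := Nat.sq_sub_sq q 1
    simpa using this
  rw [h6] at h5
  have h7 : q + 1 ∣ k := Nat.dvd_of_mul_dvd_mul_right (by omega) h5
  obtain ⟨j, hj⟩ := h7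
  refine ⟨((g ^ j : Kˣ) : K), ?_⟩
  rw [hbar, mul_comm, ← pow_succ, ← Units.val_pow_eq_pow_val, ← pow_mul, mul_comm j, ← hj, hk]
  rfl
-- END row normsur

-- BEGIN row isoq
private theorem isoq_inv (P : Subgroup (V ≃ₗ[K] V))
    (hi : ∀ g ∈ P, ∀ u v, F.H (g u) (g v) = F.H u v) (U : Submodule K V)
    (hU : ∀ g ∈ P, ∀ v ∈ U, g v ∈ U) : ∀ g ∈ P, ∀ v ∈ pp F U, g v ∈ pp F U := by
  intro g hg v hv t ht
  have h1 : g⁻¹ t ∈ U := hU g⁻¹ (P.inv_mem hg) t ht
  have h2 : F.H v (g⁻¹ t) = 0 := hv _ h1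
  have h3 : g (g⁻¹ t) = t := by
    rw [← LinearEquiv.mul_apply, mul_inv_cancel]
    rfl
  rw [← h3, hi g hg, h2]

/-- T totally isotropic, g v - v in T' ... : T is invariant and finrank T ≤ 2, finrank V = 6.
T < pp F T by `ppdim`; pp F T is invariant (g isometry, T invariant, T finite so g T = T).
`fixq`: v in pp F T, not in T, g v - v in T. If H v v = 0 done. Else B = pp F (T ⊔ span v):
T ≤ B, T ≠ B by `ppdim`, B invariant (g v = v + t). `fixq`: w in B, not in T. If H w w = 0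
done. Else v + l w with l bar l = - H v v / H w w (`normsur`); it is not in T since
H (v + l w) v = H v v ≠ 0. -/
theorem isoq [Finite V] [Finite K] {q : ℕ} (hK : Nat.card K = q ^ 2)
    (hbar : ∀ a, F.bar a = a ^ q) (hV : Module.finrank K V = 6)
    {p : ℕ} [Fact p.Prime] (hp : ∀ v : V, p • v = 0)
    (P : Subgroup (V ≃ₗ[K] V)) (hP : IsPGroup p P) (hi : ∀ g ∈ P, ∀ u v, F.H (g u) (g v) = F.H u v)
    (T : Submodule K V) (hT : F.TI T) (hT2 : Module.finrank K T ≤ 2)
    (hTg : ∀ g ∈ P, ∀ v ∈ T, g v ∈ T) :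
    ∃ v, v ∉ T ∧ F.H v v = 0 ∧ (∀ t ∈ T, F.H t v = 0) ∧ ∀ g ∈ P, g v - v ∈ T := by
  have hfin : Module.Finite K V := Module.Finite.of_finite
  have h1 : T < pp F T := by
    refine lt_of_le_of_ne (fun t ht s hs => hT t ht s hs) (fun he => ?_)
    have h2 := ppdim (F := F) T
    rw [← he, hV] at h2
    omega
  obtain ⟨v, hvB, hvT, hvg⟩ := fixq hp P hP T (pp F T) h1 hTg (isoq_inv P hi T hTg)
  have hTv : ∀ t ∈ T, F.H t v = 0 := fun t ht => F.sw (hvB t ht)
  by_cases hvv : F.H v v = 0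
  · exact ⟨v, hvT, hvv, hTv, hvg⟩
  have hUmem : ∀ u ∈ T ⊔ Submodule.span K {v}, ∃ t ∈ T, ∃ s : K, u = t + s • v := by
    intro u hu
    obtain ⟨t, ht, y, hy, rfl⟩ := Submodule.mem_sup.1 hu
    obtain ⟨s, rfl⟩ := Submodule.mem_span_singleton.1 hy
    exact ⟨t, ht, s, rfl⟩
  have hvU : v ∈ T ⊔ Submodule.span K {v} :=
    Submodule.mem_sup_right (Submodule.mem_span_singleton_self v)
  have hUg : ∀ g ∈ P, ∀ u ∈ T ⊔ Submodule.span K {v}, g u ∈ T ⊔ Submodule.span K {v} := by
    intro g hg u hu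
    obtain ⟨t, ht, s, rfl⟩ := hUmem u hu
    have h3 : g (t + s • v) = (g t + s • (g v - v)) + s • v := by
      rw [map_add, map_smul, smul_sub]
      abel
    rw [h3]
    exact Submodule.add_mem _ (Submodule.mem_sup_left (T.add_mem (hTg g hg t ht)
      (T.smul_mem s (hvg g hg)))) (Submodule.smul_mem _ s hvU)
  have h4 : T < pp F (T ⊔ Submodule.span K {v}) := by
    refine lt_of_le_of_ne (fun t ht u hu => ?_) (fun he => ?_)
    · obtain ⟨t', ht', s, rfl⟩ := hUmem u hu
      rw [F.addr, F.smulr, hT t ht t' ht', hTv t ht, mul_zero, add_zero]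
    · have h5 := ppdim (F := F) (T ⊔ Submodule.span K {v})
      have h6 : Module.finrank K ↥(T ⊔ Submodule.span K {v}) ≤
          Module.finrank K T + Module.finrank K (Submodule.span K {v}) :=
        Submodule.finrank_add_le_finrank_add_finrank T (Submodule.span K {v})
      have h7 : Module.finrank K (Submodule.span K ({v} : Set V)) ≤ 1 := by
        have := finrank_span_le_card (R := K) ({v} : Set V)
        simpa using this
      rw [← he, hV] at h5
      omega
  obtain ⟨w, hwB, hwT, hwg⟩ := fixq hp P hP T (pp F (T ⊔ Submodule.span K {v})) h4 hTg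
    (isoq_inv P hi _ hUg)
  have hTw : ∀ t ∈ T, F.H t w = 0 := fun t ht => F.sw (hwB t (Submodule.mem_sup_left ht))
  have hwv : F.H w v = 0 := hwB v hvU
  have hvw : F.H v w = 0 := F.sw hwv
  by_cases hww : F.H w w = 0
  · exact ⟨w, hwT, hww, hTw, hwg⟩
  have ha : F.bar (-F.H v v / F.H w w) = -F.H v v / F.H w w := by
    rw [map_div₀, map_neg, F.self_bar, F.self_bar]
  obtain ⟨l, hl⟩ := normsur hK hbar ha
  refine ⟨v + l • w, ?_, ?_, ?_, ?_⟩
  · intro hmem
    have h8 := hTv _ hmem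
    rw [F.addl, F.smull, hwv, mul_zero, add_zero] at h8
    exact hvv h8
  · rw [F.addl, F.addr, F.addr, F.smull, F.smull, F.smulr, F.smulr, hwv, hvw]
    have h9 : l * (F.bar l * F.H w w) = -F.H v v := by
      rw [← mul_assoc, hl, div_mul_cancel₀ _ hww]
    rw [h9]
    ring
  · intro t ht
    rw [F.addr, F.smulr, hTv t ht, hTw t ht, mul_zero, add_zero]
  · intro g hg
    have h10 : g (v + l • w) - (v + l • w) = (g v - v) + l • (g w - w) := by
      rw [map_add, map_smul, smul_sub]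
      abel
    rw [h10]
    exact T.add_mem (hvg g hg) (T.smul_mem l (hwg g hg))
-- END row isoq

-- BEGIN row flag
/-- g x = x: `fixq` with A = ⊥, B = span x. Then `isoq` with T = span x gives z, and with
T = span x ⊔ span z gives m. Linear independence since z is not in span x and m not in
span {x, z}. -/
theorem flag [Finite V] [Finite K] {q : ℕ} (hK : Nat.card K = q ^ 2)
    (hbar : ∀ a, F.bar a = a ^ q) (hV : Module.finrank K V = 6)
    {p : ℕ} [Fact p.Prime] (hp : ∀ v : V, p • v = 0)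
    (P : Subgroup (V ≃ₗ[K] V)) (hP : IsPGroup p P) (hi : ∀ g ∈ P, ∀ u v, F.H (g u) (g v) = F.H u v)
    (hx0 : x ≠ 0) (hxx : F.H x x = 0) (hx : ∀ g ∈ P, ∃ a : K, g x = a • x) :
    (∀ g ∈ P, g x = x) ∧ ∃ z m : V, F.H z z = 0 ∧ F.H m m = 0 ∧ F.H x z = 0 ∧ F.H x m = 0 ∧
      F.H z m = 0 ∧ LinearIndependent K ![x, z, m] ∧ (∀ g ∈ P, ∃ b : K, g z = z + b • x) ∧
      ∀ g ∈ P, ∃ a c : K, g m = m + a • z + c • x := by
  have hgx : ∀ g ∈ P, g x = x := by
    have hlt : (⊥ : Submodule K V) < Submodule.span K {x} := by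
      rw [bot_lt_iff_ne_bot]
      intro h
      exact hx0 (Submodule.span_singleton_eq_bot.1 h)
    obtain ⟨v, hv, hv0, hgv⟩ := fixq hp P hP ⊥ (Submodule.span K {x}) hlt
      (fun g _ v hv => by
        rw [Submodule.mem_bot] at hv ⊢
        rw [hv, map_zero])
      (fun g hg v hv => by
        obtain ⟨a, ha⟩ := hx g hg
        obtain ⟨c, rfl⟩ := Submodule.mem_span_singleton.1 hv
        rw [map_smul, ha, smul_smul]
        exact Submodule.mem_span_singleton.2 ⟨c * a, rfl⟩)
    intro g hg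
    obtain ⟨c, hc⟩ := Submodule.mem_span_singleton.1 hv
    have hc0 : c ≠ 0 := by
      rintro rfl
      rw [zero_smul] at hc
      exact hv0 (by rw [← hc]; exact Submodule.zero_mem _)
    have h1 := hgv g hg
    rw [Submodule.mem_bot, sub_eq_zero, ← hc, map_smul] at h1
    exact smul_right_injective V hc0 h1
  refine ⟨hgx, ?_⟩
  obtain ⟨z, hzT, hzz, hxz, hgz⟩ := isoq hK hbar hV hp P hP hi (Submodule.span K {x})
    (fun u hu v hv => by
      obtain ⟨a, rfl⟩ := Submodule.mem_span_singleton.1 hu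
      obtain ⟨b, rfl⟩ := Submodule.mem_span_singleton.1 hv
      rw [F.smull, F.smulr, hxx, mul_zero, mul_zero])
    (by rw [finrank_span_singleton hx0]; norm_num)
    (fun g hg v hv => by
      obtain ⟨a, rfl⟩ := Submodule.mem_span_singleton.1 hv
      rw [map_smul, hgx g hg]
      exact Submodule.mem_span_singleton.2 ⟨a, rfl⟩)
  have hxz' : F.H x z = 0 := hxz x (Submodule.mem_span_singleton_self x)
  have hzx' : F.H z x = 0 := F.sw hxz'
  have hgz' : ∀ g ∈ P, ∃ b : K, g z = z + b • x := by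
    intro g hg
    obtain ⟨b, hb⟩ := Submodule.mem_span_singleton.1 (hgz g hg)
    exact ⟨b, by rw [hb]; abel⟩
  obtain ⟨m, hmT, hmm, hTm, hgm⟩ := isoq hK hbar hV hp P hP hi (Submodule.span K {x, z})
    (fun u hu v hv => by
      obtain ⟨a, b, rfl⟩ := Submodule.mem_span_pair.1 hu
      obtain ⟨c, d, rfl⟩ := Submodule.mem_span_pair.1 hv
      simp only [F.addl, F.addr, F.smull, F.smulr, hxx, hzz, hxz', hzx', mul_zero, add_zero])
    (by
      classical
      have h1 := finrank_span_finset_le_card (R := K) ({x, z} : Finset V)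
      have h2 : ((({x, z} : Finset V) : Set V)) = {x, z} := by simp
      rw [h2] at h1
      exact h1.trans Finset.card_le_two)
    (fun g hg v hv => by
      obtain ⟨a, b, rfl⟩ := Submodule.mem_span_pair.1 hv
      obtain ⟨c, hc⟩ := hgz' g hg
      rw [map_add, map_smul, map_smul, hgx g hg, hc]
      refine Submodule.mem_span_pair.2 ⟨a + b * c, b, ?_⟩
      rw [add_smul, smul_add, smul_smul]
      abel)
  refine ⟨z, m, hzz, hmm, hxz', hTm x (Submodule.subset_span (by simp)),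
    hTm z (Submodule.subset_span (by simp)), ?_, hgz', ?_⟩
  · rw [Fintype.linearIndependent_iff]
    intro c hc
    rw [Fin.sum_univ_three] at hc
    change c 0 • x + c 1 • z + c 2 • m = 0 at hc
    have h2 : c 2 = 0 := by
      by_contra h
      apply hmT
      refine Submodule.mem_span_pair.2 ⟨-((c 2)⁻¹ * c 0), -((c 2)⁻¹ * c 1), ?_⟩
      have h3 : c 2 • m = -(c 0 • x + c 1 • z) := by
        rw [eq_neg_iff_add_eq_zero, add_comm]
        exact hc
      have h4 : m = (c 2)⁻¹ • (c 2 • m) := by rw [smul_smul, inv_mul_cancel₀ h, one_smul]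
      rw [h4, h3, smul_neg, smul_add, smul_smul, smul_smul, neg_smul, neg_smul, neg_add]
    rw [h2, zero_smul, add_zero] at hc
    have h1 : c 1 = 0 := by
      by_contra h
      apply hzT
      refine Submodule.mem_span_singleton.2 ⟨-((c 1)⁻¹ * c 0), ?_⟩
      have h3 : c 1 • z = -(c 0 • x) := by
        rw [eq_neg_iff_add_eq_zero, add_comm]
        exact hc
      have h4 : z = (c 1)⁻¹ • (c 1 • z) := by rw [smul_smul, inv_mul_cancel₀ h, one_smul]
      rw [h4, h3, smul_neg, smul_smul, neg_smul]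
    rw [h1, zero_smul, add_zero] at hc
    have h0 : c 0 = 0 := by
      rcases smul_eq_zero.1 hc with h | h
      · exact h
      · exact absurd h hx0
    intro i
    fin_cases i
    · exact h0
    · exact h1
    · exact h2
  · intro g hg
    obtain ⟨c, a, hca⟩ := Submodule.mem_span_pair.1 (hgm g hg)
    refine ⟨a, c, ?_⟩
    have h1 : g m = m + (g m - m) := by abel
    rw [h1, ← hca]
    abel
-- END row flag

-- BEGIN row bsex
private theorem bsex_li (F : Ovo.HF K V) {k : ℕ} (e : Fin k → V) (he : LinearIndependent K e)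
    (w u : V) (hw : F.H w u = 1) (hu : ∀ i, F.H (e i) u = 0) :
    LinearIndependent K (Matrix.vecCons w e) := by
  refine linearIndependent_finCons.mpr ⟨he, fun h => ?_⟩
  have h2 : F.H w u = 0 := by
    refine Submodule.span_induction (p := fun v _ => F.H v u = 0) ?_ ?_ ?_ ?_ h
    · rintro _ ⟨i, rfl⟩
      exact hu i
    · exact F.zerol u
    · intro a b _ _ ha hb
      rw [F.addl, ha, hb, add_zero]
    · intro c a _ ha
      rw [F.smull, ha, mul_zero]
  rw [hw] at h2
  exact one_ne_zero h2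

private theorem bsex_adj (F : Ovo.HF K V) {θ : K} (hθ : θ + F.bar θ = 1) (x x1 : V)
    (hx : F.H x x = 0) (h1 : F.H x1 x = 1) :
    F.H (x1 + (-(θ * F.H x1 x1)) • x) (x1 + (-(θ * F.H x1 x1)) • x) = 0 := by
  have h2 : F.H x x1 = 1 := by rw [← F.symm, h1, map_one]
  rw [F.addl, F.addr, F.addr, F.smull, F.smull, F.smulr, F.smulr, hx, h1, h2, map_neg, map_mul,
    F.self_bar]
  linear_combination (-F.H x1 x1) * hθ

private theorem bsex_pr (F : Ovo.HF K V) (a : K) (x x1 y : V) (hx : F.H x y = 0) :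
    F.H (x1 + a • x) y = F.H x1 y := by
  rw [F.addl, F.smull, hx, mul_zero, add_zero]

/-- `dualv` for ![x, z, m]: x1 with H x1 x = 1, H x1 z = 0 = H x1 m; x' = x1 + a x isotropic
(a = - θ H x1 x1). Then z, m, x, x' independent: z1 with H z1 z = 1, products with x, m, x' zero
(`dualv` for ![x, z, m, x']), z' = z1 - θ (H z1 z1) z; then m' likewise (`dualv` for
![x, z, m, x', z']). The six vectors are linearly independent (take products), so they
span (finrank 6). -/
theorem bsex [Finite V] [Finite K] {θ : K} (hθ : θ + F.bar θ = 1)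
    (hV : Module.finrank K V = 6) (h1 : F.H x x = 0) (h2 : F.H z z = 0) (h3 : F.H m m = 0)
    (h4 : F.H x z = 0) (h5 : F.H x m = 0) (h6 : F.H z m = 0)
    (h7 : LinearIndependent K ![x, z, m]) : ∃ m' z' x' : V, Bs F x z m m' z' x' := by
  have h4' := F.sw h4
  have h5' := F.sw h5
  have h6' := F.sw h6
  have hone : ∀ {u v : V}, F.H u v = 1 → F.H v u = 1 := fun {u v} h => by
    rw [← F.symm, h, map_one]
  obtain ⟨x1, hx1⟩ := dualv (F := F) ![x, z, m] h7 ![1, 0, 0]
  have a0 : F.H x1 x = 1 := hx1 0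
  have a1 : F.H x1 z = 0 := hx1 1
  have a2 : F.H x1 m = 0 := hx1 2
  obtain ⟨x', hx'⟩ : ∃ y, y = x1 + (-(θ * F.H x1 x1)) • x := ⟨_, rfl⟩
  have b0 : F.H x' x = 1 := by rw [hx', bsex_pr F _ _ _ _ h1, a0]
  have b1 : F.H x' z = 0 := by rw [hx', bsex_pr F _ _ _ _ h4, a1]
  have b2 : F.H x' m = 0 := by rw [hx', bsex_pr F _ _ _ _ h5, a2]
  have b3 : F.H x' x' = 0 := by rw [hx']; exact bsex_adj F hθ x x1 h1 a0
  have l1 : LinearIndependent K ![x', x, z, m] := by
    refine bsex_li F ![x, z, m] h7 x' x b0 ?_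
    intro i
    fin_cases i
    · exact h1
    · exact h4'
    · exact h5'
  obtain ⟨z1, hz1⟩ := dualv (F := F) ![x', x, z, m] l1 ![0, 0, 1, 0]
  have c0 : F.H z1 x' = 0 := hz1 0
  have c1 : F.H z1 x = 0 := hz1 1
  have c2 : F.H z1 z = 1 := hz1 2
  have c3 : F.H z1 m = 0 := hz1 3
  obtain ⟨z', hz'⟩ : ∃ y, y = z1 + (-(θ * F.H z1 z1)) • z := ⟨_, rfl⟩
  have d0 : F.H z' x' = 0 := by rw [hz', bsex_pr F _ _ _ _ (F.sw b1), c0]
  have d1 : F.H z' x = 0 := by rw [hz', bsex_pr F _ _ _ _ h4', c1]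
  have d2 : F.H z' z = 1 := by rw [hz', bsex_pr F _ _ _ _ h2, c2]
  have d3 : F.H z' m = 0 := by rw [hz', bsex_pr F _ _ _ _ h6, c3]
  have d4 : F.H z' z' = 0 := by rw [hz']; exact bsex_adj F hθ z z1 h2 c2
  have l2 : LinearIndependent K ![z', x', x, z, m] := by
    refine bsex_li F ![x', x, z, m] l1 z' z d2 ?_
    intro i
    fin_cases i
    · exact b1
    · exact h4
    · exact h2
    · exact h6'
  obtain ⟨m1, hm1⟩ := dualv (F := F) ![z', x', x, z, m] l2 ![0, 0, 0, 0, 1]
  have e0 : F.H m1 z' = 0 := hm1 0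
  have e1 : F.H m1 x' = 0 := hm1 1
  have e2 : F.H m1 x = 0 := hm1 2
  have e3 : F.H m1 z = 0 := hm1 3
  have e4 : F.H m1 m = 1 := hm1 4
  obtain ⟨m', hm'⟩ : ∃ y, y = m1 + (-(θ * F.H m1 m1)) • m := ⟨_, rfl⟩
  have f0 : F.H m' z' = 0 := by rw [hm', bsex_pr F _ _ _ _ (F.sw d3), e0]
  have f1 : F.H m' x' = 0 := by rw [hm', bsex_pr F _ _ _ _ (F.sw b2), e1]
  have f2 : F.H m' x = 0 := by rw [hm', bsex_pr F _ _ _ _ h5', e2]
  have f3 : F.H m' z = 0 := by rw [hm', bsex_pr F _ _ _ _ h6', e3]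
  have f4 : F.H m' m = 1 := by rw [hm', bsex_pr F _ _ _ _ h3, e4]
  have f5 : F.H m' m' = 0 := by rw [hm']; exact bsex_adj F hθ m m1 h3 e4
  have l3 : LinearIndependent K ![m', z', x', x, z, m] := by
    refine bsex_li F ![z', x', x, z, m] l2 m' m f4 ?_
    intro i
    fin_cases i
    · exact d3
    · exact b2
    · exact h5
    · exact h6
    · exact h3
  have hsp : Submodule.span K (Set.range ![m', z', x', x, z, m]) = ⊤ :=
    l3.span_eq_top_of_card_eq_finrank' (by rw [hV, Fintype.card_fin])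
  refine ⟨m', z', x', ?_⟩
  refine ⟨h1, h4, h5, F.sw f2, F.sw d1, hone b0, h2, h6, F.sw f3, hone d2, F.sw b1, h3,
    hone f4, F.sw d3, F.sw b2, f5, f0, f1, d4, d0, b3, fun v => ?_⟩
  have hv : v ∈ Submodule.span K (Set.range ![m', z', x', x, z, m]) := by rw [hsp]; trivial
  obtain ⟨c, hc⟩ := (Submodule.mem_span_range_iff_exists_fun K).mp hv
  refine ⟨c 3, c 4, c 5, c 0, c 1, c 2, ?_⟩
  rw [← hc, Fin.sum_univ_six]
  show c 0 • m' + c 1 • z' + c 2 • x' + c 3 • x + c 4 • z + c 5 • m = _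
  abel
-- END row bsex

-- BEGIN row lift2
private theorem lift2_sy (hB : Bs F x z m m' z' x') : F.H z x = 0 ∧ F.H m x = 0 ∧
    F.H m' x = 0 ∧ F.H z' x = 0 ∧ F.H x' x = 1 ∧ F.H m z = 0 ∧ F.H m' z = 0 ∧ F.H z' z = 1 ∧
    F.H x' z = 0 ∧ F.H m' m = 1 ∧ F.H z' m = 0 ∧ F.H x' m = 0 ∧ F.H z' m' = 0 ∧
    F.H x' m' = 0 ∧ F.H x' z' = 0 := by
  refine ⟨F.sw hB.xz, F.sw hB.xm, F.sw hB.xm', F.sw hB.xz', ?_, F.sw hB.zm, F.sw hB.zm', ?_,
    F.sw hB.zx', ?_, F.sw hB.mz', F.sw hB.mx', F.sw hB.m'z', F.sw hB.m'x', F.sw hB.z'x'⟩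
  · rw [← F.symm, hB.xx', map_one]
  · rw [← F.symm, hB.zz', map_one]
  · rw [← F.symm, hB.mm', map_one]

private theorem lift2_co (hB : Bs F x z m m' z' x') (a b c d e f : K) {y : V}
    (hy : y = a • x + b • z + c • m + d • m' + e • z' + f • x') :
    F.H y x = f ∧ F.H y z = e ∧ F.H y m = d ∧ F.H y m' = c ∧ F.H y z' = b ∧ F.H y x' = a := by
  obtain ⟨s1, s2, s3, s4, s5, s6, s7, s8, s9, s10, s11, s12, s13, s14, s15⟩ := lift2_sy hB
  subst hy
  simp only [F.addl, F.smull, hB.xx, hB.xz, hB.xm, hB.xm', hB.xz', hB.xx', hB.zz, hB.zm, hB.zm',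
    hB.zz', hB.zx', hB.mm, hB.mm', hB.mz', hB.mx', hB.m'm', hB.m'z', hB.m'x', hB.z'z', hB.z'x',
    hB.x'x', s1, s2, s3, s4, s5, s6, s7, s8, s9, s10, s11, s12, s13, s14, s15, mul_zero, mul_one,
    add_zero, zero_add, and_self]

/-- As row lift of Rows.lean with u0 = x' + w z' + t m' + ε x: N = span of u0, z - bar w x,
m - bar t x is a maximal TI subspace, its ovoid vector is y = A u0 + B (z - bar w x) +
C (m - bar t x), A ≠ 0, scaled to A = 1; then p = C, s = B, r = ε - B bar w - C bar t. -/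
theorem lift2 [Finite V] (hB : Bs F x z m m' z' x') (hS : F.Ov S) (hx : S x) (w t ε : K)
    (hε : ε + F.bar ε = 0) :
    ∃ p s r : K, S (x' + w • z' + t • m' + p • m + s • z + r • x) ∧
      r + s * F.bar w + p * F.bar t = ε := by
  obtain ⟨s1, s2, s3, s4, s5, s6, s7, s8, s9, s10, s11, s12, s13, s14, s15⟩ := lift2_sy hB
  have huu : F.H (x' + w • z' + t • m' + ε • x) (x' + w • z' + t • m' + ε • x) = 0 := by
    simp only [F.addl, F.smull, F.addr, F.smulr, hB.xx, hB.xz', hB.xm', hB.xx', hB.m'm', hB.m'z',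
      hB.m'x', hB.z'z', hB.z'x', hB.x'x', s3, s4, s5, s13, s14, s15, mul_zero, mul_one,
      add_zero, zero_add]
    rw [add_comm]
    exact hε
  have hzz : F.H (z - F.bar w • x) (z - F.bar w • x) = 0 := by
    simp only [F.subl, F.subr, F.smull, F.smulr, hB.xx, hB.xz, hB.zz, s1, mul_zero, sub_zero]
  have hmm : F.H (m - F.bar t • x) (m - F.bar t • x) = 0 := by
    simp only [F.subl, F.subr, F.smull, F.smulr, hB.xx, hB.xm, hB.mm, s2, mul_zero, sub_zero]
  have hzm : F.H (z - F.bar w • x) (m - F.bar t • x) = 0 := by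
    simp only [F.subl, F.subr, F.smull, F.smulr, hB.xx, hB.xm, hB.zm, s1, mul_zero, sub_zero]
  have hzu : F.H (z - F.bar w • x) (x' + w • z' + t • m' + ε • x) = 0 := by
    simp only [F.subl, F.addr, F.smull, F.smulr, hB.xx, hB.xx', hB.xz', hB.xm', hB.zz', hB.zx',
      hB.zm', s1, mul_zero, mul_one, add_zero, zero_add, sub_self]
  have hmu : F.H (m - F.bar t • x) (x' + w • z' + t • m' + ε • x) = 0 := by
    simp only [F.subl, F.addr, F.smull, F.smulr, hB.xx, hB.xx', hB.xz', hB.xm', hB.mm', hB.mx',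
      hB.mz', s2, mul_zero, mul_one, add_zero, zero_add, sub_self]
  have hTI := F.TI_sup (F.TI_pair hzz hmm hzm) huu (by
    intro n hn
    obtain ⟨n1, hn1, n2, hn2, rfl⟩ := Submodule.mem_sup.1 hn
    obtain ⟨a1, rfl⟩ := Submodule.mem_span_singleton.1 hn1
    obtain ⟨a2, rfl⟩ := Submodule.mem_span_singleton.1 hn2
    rw [F.addl, F.smull, F.smull, hzu, hmu, mul_zero, mul_zero, add_zero])
  obtain ⟨M, hNM, hM⟩ := F.exists_max hTI
  obtain ⟨y, hyM, hy⟩ := hS.ex M hM
  have hz0 := hM.1 y hyM _ (hNM (Submodule.mem_sup_left (Submodule.mem_sup_left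
    (Submodule.mem_span_singleton_self (z - F.bar w • x)))))
  have hm0 := hM.1 y hyM _ (hNM (Submodule.mem_sup_left (Submodule.mem_sup_right
    (Submodule.mem_span_singleton_self (m - F.bar t • x)))))
  have hu0 := hM.1 y hyM _ (hNM (Submodule.mem_sup_right
    (Submodule.mem_span_singleton_self (x' + w • z' + t • m' + ε • x))))
  obtain ⟨a, b, c, d, e, f, hyv⟩ := hB.span y
  obtain ⟨k1, k2, k3, k4, k5, k6⟩ := lift2_co hB a b c d e f hyv
  rw [F.subr, F.smulr, F.bb, k1, k2] at hz0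
  rw [F.subr, F.smulr, F.bb, k1, k3] at hm0
  rw [F.addr, F.addr, F.addr, F.smulr, F.smulr, F.smulr, k1, k4, k5, k6] at hu0
  have he : e = w * f := sub_eq_zero.1 hz0
  have hd : d = t * f := sub_eq_zero.1 hm0
  have hbε : F.bar ε = -ε := (neg_eq_of_add_eq_zero_right hε).symm
  have ha : a = f * ε - b * F.bar w - c * F.bar t := by
    rw [hbε] at hu0
    linear_combination hu0
  by_cases hf : f = 0
  · exfalso
    obtain ⟨l, hl⟩ := hS.par hx hy (F.sw (k1.trans hf))
    have hb : b = 0 := by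
      rw [← k5, hl, F.smull, hB.xz', mul_zero]
    have hc : c = 0 := by
      rw [← k4, hl, F.smull, hB.xm', mul_zero]
    apply hS.ne y hy
    rw [hyv, ha, he, hd, hb, hc, hf]
    simp only [zero_mul, mul_zero, sub_zero, zero_smul, add_zero]
  · refine ⟨f⁻¹ * c, f⁻¹ * b, ε - f⁻¹ * b * F.bar w - f⁻¹ * c * F.bar t, ?_, by ring⟩
    have h1 := hS.sm f⁻¹ y (inv_ne_zero hf) hy
    have h2 : f⁻¹ • y = x' + w • z' + t • m' + (f⁻¹ * c) • m + (f⁻¹ * b) • z +
        (ε - f⁻¹ * b * F.bar w - f⁻¹ * c * F.bar t) • x := by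
      have i1 : f⁻¹ * a = ε - f⁻¹ * b * F.bar w - f⁻¹ * c * F.bar t := by
        rw [ha]
        field_simp
      have i2 : f⁻¹ * e = w := by
        rw [he]
        field_simp
      have i3 : f⁻¹ * d = t := by
        rw [hd]
        field_simp
      have i4 : f⁻¹ * f = 1 := inv_mul_cancel₀ hf
      rw [hyv, smul_add, smul_add, smul_add, smul_add, smul_add, smul_smul, smul_smul, smul_smul,
        smul_smul, smul_smul, smul_smul, i1, i2, i3, i4, one_smul]
      abel
    rw [← h2]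
    exact h1
-- END row lift2

-- BEGIN row trz
/-- At most q by `Ovo.card_trace_zero`. The additive map a ↦ a + bar a has values fixed by bar
(at most q, `Ovo.card_fixed`), so q^2 = |kernel| |image| ≤ |kernel| q. -/
theorem trz [Finite K] {q : ℕ} (hK : Nat.card K = q ^ 2) (hbar : ∀ a, F.bar a = a ^ q) :
    Nat.card {a : K // a + F.bar a = 0} = q := by
  have hq : 0 < q := by
    rcases Nat.eq_zero_or_pos q with h | h
    · have h1 : 0 < Nat.card K := Nat.card_pos
      rw [hK, h] at h1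
      exact absurd h1 (by norm_num)
    · exact h
  apply le_antisymm
  · have h1 := Ovo.card_trace_zero hK
    refine le_trans (le_of_eq ?_) h1
    refine Nat.card_congr (Equiv.subtypeEquivRight fun a => ?_)
    rw [hbar]
  · let φ : K →+ K :=
      { toFun := fun a => a + F.bar a
        map_zero' := by rw [map_zero, add_zero]
        map_add' := fun a b => by rw [map_add]; ring }
    have h1 : Nat.card φ.ker * Nat.card φ.range = q ^ 2 := by
      rw [← AddSubgroup.index_ker, AddSubgroup.card_mul_index, hK]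
    have h2 : Nat.card φ.range ≤ q := by
      refine le_trans ?_ (Ovo.card_fixed hK)
      refine Nat.card_le_card_of_injective
        (fun y : φ.range => (⟨y.1, ?_⟩ : {a : K // a ^ q = a})) ?_
      · obtain ⟨a, ha⟩ := y.2
        rw [← hbar, ← ha]
        change F.bar (a + F.bar a) = a + F.bar a
        rw [map_add, F.bb, add_comm]
      · intro y y' h
        exact Subtype.ext (congrArg (fun u : {a : K // a ^ q = a} => (u : K)) h)
    have h3 : Nat.card φ.ker = Nat.card {a : K // a + F.bar a = 0} :=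
      Nat.card_congr (Equiv.subtypeEquivRight fun a => Iff.rfl)
    rw [← h3]
    have h4 : q * q ≤ Nat.card φ.ker * q := by
      calc q * q = q ^ 2 := (pow_two q).symm
        _ = Nat.card φ.ker * Nat.card φ.range := h1.symm
        _ ≤ Nat.card φ.ker * q := Nat.mul_le_mul_left _ h2
    exact Nat.le_of_mul_le_mul_right h4 hq
-- END row trz

-- BEGIN row cnt
private theorem cnt_dec (hB : Bs F x z m m' z' x') (y : V) (h1 : F.H y x = 1) :
    y = F.H y x' • x + F.H y z' • z + F.H y m' • m + F.H y m • m' + F.H y z • z' + x' := by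
  obtain ⟨a, b, c, d, e, f, rfl⟩ := hB.span y
  have e1 := F.sw hB.xz
  have e2 := F.sw hB.xm
  have e3 := F.sw hB.xm'
  have e4 := F.sw hB.xz'
  have e5 : F.H x' x = 1 := by rw [← F.symm, hB.xx', map_one]
  have e6 := F.sw hB.zm
  have e7 := F.sw hB.zm'
  have e8 : F.H z' z = 1 := by rw [← F.symm, hB.zz', map_one]
  have e9 := F.sw hB.zx'
  have e10 : F.H m' m = 1 := by rw [← F.symm, hB.mm', map_one]
  have e11 := F.sw hB.mz'
  have e12 := F.sw hB.mx'
  have e13 := F.sw hB.m'z'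
  have e14 := F.sw hB.m'x'
  have e15 := F.sw hB.z'x'
  simp only [F.addl, F.smull, hB.xx, hB.xz, hB.xm, hB.xm', hB.xz', hB.xx', hB.zz, hB.zm, hB.zm',
    hB.zz', hB.zx', hB.mm, hB.mm', hB.mz', hB.mx', hB.m'm', hB.m'z', hB.m'x', hB.z'z', hB.z'x',
    hB.x'x', e1, e2, e3, e4, e5, e6, e7, e8, e9, e10, e11, e12, e13, e14, e15, mul_zero, mul_one,
    add_zero, zero_add] at h1 ⊢
  rw [h1, one_smul]

private theorem cnt_prod (hB : Bs F x z m m' z' x') (y y2 : V) (h1 : F.H y x = 1)
    (h2 : F.H y2 x = 1) :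
    F.H y y2 = (F.H y x' + F.H y z' * F.bar (F.H y2 z) + F.H y m' * F.bar (F.H y2 m)) +
      F.bar (F.H y2 x' + F.H y2 z' * F.bar (F.H y z) + F.H y2 m' * F.bar (F.H y m)) := by
  have k : F.H y y2 = F.H y (F.H y2 x' • x + F.H y2 z' • z + F.H y2 m' • m + F.H y2 m • m' +
      F.H y2 z • z' + x') := congrArg (F.H y) (cnt_dec hB y2 h2)
  rw [k]
  simp only [F.addr, F.smulr, map_add, map_mul, F.bb, h1]
  ring

private theorem cnt_val (hB : Bs F x z m m' z' x') (w t p s r : K) :
    F.H (x' + w • z' + t • m' + p • m + s • z + r • x) x = 1 ∧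
    F.H (x' + w • z' + t • m' + p • m + s • z + r • x) z = w ∧
    F.H (x' + w • z' + t • m' + p • m + s • z + r • x) m = t ∧
    F.H (x' + w • z' + t • m' + p • m + s • z + r • x) m' = p ∧
    F.H (x' + w • z' + t • m' + p • m + s • z + r • x) z' = s ∧
    F.H (x' + w • z' + t • m' + p • m + s • z + r • x) x' = r := by
  have e1 := F.sw hB.xz
  have e2 := F.sw hB.xm
  have e3 := F.sw hB.xm'
  have e4 := F.sw hB.xz'
  have e5 : F.H x' x = 1 := by rw [← F.symm, hB.xx', map_one]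
  have e6 := F.sw hB.zm
  have e7 := F.sw hB.zm'
  have e8 : F.H z' z = 1 := by rw [← F.symm, hB.zz', map_one]
  have e9 := F.sw hB.zx'
  have e10 : F.H m' m = 1 := by rw [← F.symm, hB.mm', map_one]
  have e11 := F.sw hB.mz'
  have e12 := F.sw hB.mx'
  have e13 := F.sw hB.m'z'
  have e14 := F.sw hB.m'x'
  have e15 := F.sw hB.z'x'
  simp only [F.addl, F.smull, hB.xx, hB.xz, hB.xm, hB.xm', hB.xz', hB.xx', hB.zz, hB.zm, hB.zm',
    hB.zz', hB.zx', hB.mm, hB.mm', hB.mz', hB.mx', hB.m'm', hB.m'z', hB.m'x', hB.z'z', hB.z'x',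
    hB.x'x', e1, e2, e3, e4, e5, e6, e7, e8, e9, e10, e11, e12, e13, e14, e15, mul_zero, mul_one,
    add_zero, zero_add, and_self]

/-- Map y = x' + w z' + t m' + p m + s z + r x to (w, t, r + s bar w + p bar t) in
K × K × (trace zero): trace zero is H y y = 0. Injective: for y, y2 with the same image
H y y2 = ε + bar ε = 0, so y2 = l y (`Ovo.HF.Ov.par`), l = 1. Onto by `lift2`. -/
theorem cnt [Finite V] [Finite K] {q : ℕ} (hK : Nat.card K = q ^ 2)
    (hbar : ∀ a, F.bar a = a ^ q) (hB : Bs F x z m m' z' x') (hS : F.Ov S) (hx : S x) :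
    Nat.card {y : V // S y ∧ F.H y x = 1} = q ^ 5 := by
  have hz : ∀ y : V, S y → F.H y y = 0 := fun y hy => hS.iso y hy
  let f : {y : V // S y ∧ F.H y x = 1} → K × K × {a : K // a + F.bar a = 0} := fun y =>
    (F.H y.1 z, F.H y.1 m, ⟨F.H y.1 x' + F.H y.1 z' * F.bar (F.H y.1 z) +
      F.H y.1 m' * F.bar (F.H y.1 m), by
      rw [← cnt_prod hB y.1 y.1 y.2.2 y.2.2]; exact hz _ y.2.1⟩)
  have hf : Function.Bijective f := by
    constructor
    · rintro ⟨y, hy, h1⟩ ⟨y2, hy2, h2⟩ he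
      have g1 : F.H y z = F.H y2 z := congrArg Prod.fst he
      have g2 : F.H y m = F.H y2 m := congrArg (fun c => c.2.1) he
      have g3 : F.H y x' + F.H y z' * F.bar (F.H y z) + F.H y m' * F.bar (F.H y m) =
          F.H y2 x' + F.H y2 z' * F.bar (F.H y2 z) + F.H y2 m' * F.bar (F.H y2 m) :=
        congrArg (fun c => (c.2.2 : K)) he
      have h0 : F.H y y2 = 0 := by
        rw [cnt_prod hB y y2 h1 h2, ← g1, ← g2]
        rw [← g1, ← g2] at g3
        rw [← g3, ← cnt_prod hB y y h1 h1]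
        exact hz _ hy
      obtain ⟨l, hl⟩ := hS.par hy hy2 h0
      have hl1 : l = 1 := by
        have := h2
        rw [hl, F.smull, h1, mul_one] at this
        exact this
      apply Subtype.ext
      change y = y2
      rw [hl, hl1, one_smul]
    · rintro ⟨w, t, ε, hε⟩
      obtain ⟨p, s, r, hS', hr⟩ := lift2 hB hS hx w t ε hε
      obtain ⟨k1, k2, k3, k4, k5, k6⟩ := cnt_val hB w t p s r
      refine ⟨⟨_, hS', k1⟩, ?_⟩
      refine Prod.ext k2 (Prod.ext k3 (Subtype.ext ?_))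
      change F.H _ x' + F.H _ z' * F.bar (F.H _ z) + F.H _ m' * F.bar (F.H _ m) = ε
      rw [k2, k3, k4, k5, k6]
      exact hr
  rw [Nat.card_congr (Equiv.ofBijective f hf), Nat.card_prod, Nat.card_prod, trz hK hbar, hK]
  ring
-- END row cnt

-- BEGIN row qpow
/-- |K| = q^2 is a power of p, so is its divisor q. -/
theorem qpow [Finite K] {q p : ℕ} (hK : Nat.card K = q ^ 2) [CharP K p] (hp : p.Prime) :
    ∃ k, q = p ^ k := by
  have : Fintype K := Fintype.ofFinite K
  obtain ⟨n, -, h⟩ := FiniteField.card K p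
  rw [← Nat.card_eq_fintype_card, hK] at h
  have hd : q ∣ p ^ (n : ℕ) := by
    rw [← h]; exact dvd_pow_self q two_ne_zero
  obtain ⟨k, -, hk⟩ := (Nat.dvd_prime_pow hp).1 hd
  exact ⟨k, hk⟩
-- END row qpow

-- BEGIN row orbc
private theorem orbc_mk {u v : V} (hu : u ≠ 0) (hv : v ≠ 0) {l : K} (h : u = l • v) :
    Projectivization.mk K u hu = Projectivization.mk K v hv :=
  (Projectivization.mk_eq_mk_iff' K u v hu hv).2 ⟨l, h.symm⟩

/-- The orbit of the point of y0 under G (acting on ℙ K V) is the set of points of S not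
perpendicular to x; each has exactly one vector with H y x = 1: bijection with the type of
`cnt`. -/
theorem orbc [Finite V] [Finite K] {n : ℕ} (hS : F.Ov S) (G : Subgroup (V ≃ₗ[K] V))
    (hi : ∀ g ∈ G, ∀ u v, F.H (g u) (g v) = F.H u v) (hG : ∀ g ∈ G, ∀ y, S y → S (g y))
    (hx0 : x ≠ 0) (hx : ∀ g ∈ G, ∃ a : K, g x = a • x)
    (ht : ∀ y y', S y → S y' → F.H y x ≠ 0 → F.H y' x ≠ 0 → ∃ g ∈ G, ∃ l : K, g y = l • y')
    {y0 : V} (hy0 : y0 ≠ 0) (hy1 : S y0) (hy2 : F.H y0 x ≠ 0)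
    (hc : Nat.card {y : V // S y ∧ F.H y x = 1} = n) :
    Nat.card (MulAction.orbit G (Projectivization.mk K y0 hy0)) = n := by
  have hsm : ∀ (g : G) (v : V) (hv : v ≠ 0) (hv' : (g : V ≃ₗ[K] V) v ≠ 0),
      g • Projectivization.mk K v hv = Projectivization.mk K ((g : V ≃ₗ[K] V) v) hv' :=
    fun g v hv hv' => rfl
  have hmem : ∀ y : {y : V // S y ∧ F.H y x = 1},
      Projectivization.mk K (y : V) (hS.ne y y.2.1) ∈
        MulAction.orbit G (Projectivization.mk K y0 hy0) := by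
    intro y
    obtain ⟨g, hg, l, hl⟩ := ht y0 y hy1 y.2.1 hy2 (by rw [y.2.2]; exact one_ne_zero)
    refine ⟨⟨g, hg⟩, ?_⟩
    have hne : ((⟨g, hg⟩ : G) : V ≃ₗ[K] V) y0 ≠ 0 := by
      intro h0
      exact hy0 ((LinearEquiv.map_eq_zero_iff _).1 h0)
    show (⟨g, hg⟩ : G) • Projectivization.mk K y0 hy0 = _
    rw [hsm ⟨g, hg⟩ y0 hy0 hne]
    exact orbc_mk hne (hS.ne y y.2.1) hl
  let f : {y : V // S y ∧ F.H y x = 1} → MulAction.orbit G (Projectivization.mk K y0 hy0) :=
    fun y => ⟨Projectivization.mk K (y : V) (hS.ne y y.2.1), hmem y⟩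
  have hf : Function.Bijective f := by
    constructor
    · intro y y' hyy
      have h1 : Projectivization.mk K (y : V) (hS.ne y y.2.1) =
          Projectivization.mk K (y' : V) (hS.ne y' y'.2.1) := congrArg Subtype.val hyy
      obtain ⟨a, ha⟩ := (Projectivization.mk_eq_mk_iff' K _ _ _ _).1 h1
      have h2 : F.H (y : V) x = a * F.H (y' : V) x := by rw [← ha, F.smull]
      rw [y.2.2, y'.2.2, mul_one] at h2
      apply Subtype.ext
      rw [← ha, ← h2, one_smul]
    · rintro ⟨P, g, hg⟩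
      have hne : (g : V ≃ₗ[K] V) y0 ≠ 0 := by
        intro h0
        exact hy0 ((LinearEquiv.map_eq_zero_iff _).1 h0)
      have hSu : S ((g : V ≃ₗ[K] V) y0) := hG g g.2 y0 hy1
      obtain ⟨a, ha⟩ := hx g g.2
      have h3 : F.H ((g : V ≃ₗ[K] V) y0) x ≠ 0 := by
        intro h0
        apply hy2
        rw [← hi g g.2 y0 x, ha, F.smulr, h0, mul_zero]
      have h4 : S ((F.H ((g : V ≃ₗ[K] V) y0) x)⁻¹ • (g : V ≃ₗ[K] V) y0) :=
        hS.sm _ _ (inv_ne_zero h3) hSu
      refine ⟨⟨(F.H ((g : V ≃ₗ[K] V) y0) x)⁻¹ • (g : V ≃ₗ[K] V) y0, h4, ?_⟩, ?_⟩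
      · rw [F.smull, inv_mul_cancel₀ h3]
      · apply Subtype.ext
        have hg' : g • Projectivization.mk K y0 hy0 = P := hg
        show Projectivization.mk K ((F.H ((g : V ≃ₗ[K] V) y0) x)⁻¹ • (g : V ≃ₗ[K] V) y0) _ = P
        rw [← hg', hsm g y0 hy0 hne]
        exact orbc_mk _ hne rfl
  rw [← Nat.card_congr (Equiv.ofBijective f hf), hc]
-- END row orbc

-- BEGIN row tranP
/-- Q the image in V ≃ₗ V of a Sylow p-subgroup of G. For y, y' the points are in one orbit of G
(`orbc`, `syl` with a the point of y): g y is proportional to y' for some g in Q. -/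
theorem tranP [Finite V] [Finite K] {p k : ℕ} [Fact p.Prime] (hS : F.Ov S)
    (G : Subgroup (V ≃ₗ[K] V))
    (hi : ∀ g ∈ G, ∀ u v, F.H (g u) (g v) = F.H u v) (hG : ∀ g ∈ G, ∀ y, S y → S (g y))
    (hx0 : x ≠ 0) (hx : ∀ g ∈ G, ∃ a : K, g x = a • x)
    (ht : ∀ y y', S y → S y' → F.H y x ≠ 0 → F.H y' x ≠ 0 → ∃ g ∈ G, ∃ l : K, g y = l • y')
    (hc : Nat.card {y : V // S y ∧ F.H y x = 1} = p ^ k) :
    ∀ Q : Sylow p G, ∀ y y', S y → S y' → F.H y x ≠ 0 → F.H y' x ≠ 0 →
      ∃ g ∈ (Q : Subgroup G).map G.subtype, ∃ l : K, g y = l • y' := by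
  intro Q y y' hy hy' h h'
  have hf : Finite (V ≃ₗ[K] V) :=
    Finite.of_injective (fun g : V ≃ₗ[K] V => (g : V → V)) DFunLike.coe_injective
  have hy0 := hS.ne y hy
  have hy0' := hS.ne y' hy'
  have hsm : ∀ (g : G) (v : V) (hv : v ≠ 0) (hv' : (g : V ≃ₗ[K] V) v ≠ 0),
      g • Projectivization.mk K v hv = Projectivization.mk K ((g : V ≃ₗ[K] V) v) hv' :=
    fun g v hv hv' => rfl
  have hne : ∀ g : G, (g : V ≃ₗ[K] V) y ≠ 0 := by
    intro g h0
    exact hy0 ((LinearEquiv.map_eq_zero_iff _).1 h0)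
  have hb : Projectivization.mk K y' hy0' ∈ MulAction.orbit G (Projectivization.mk K y hy0) := by
    obtain ⟨g, hg, l, hl⟩ := ht y y' hy hy' h h'
    refine ⟨⟨g, hg⟩, ?_⟩
    show (⟨g, hg⟩ : G) • Projectivization.mk K y hy0 = _
    rw [hsm ⟨g, hg⟩ y hy0 (hne ⟨g, hg⟩)]
    exact (Projectivization.mk_eq_mk_iff' K _ _ _ _).2 ⟨l, hl.symm⟩
  obtain ⟨g, hg, hgb⟩ := syl Q (Projectivization.mk K y hy0)
    (orbc hS G hi hG hx0 hx ht hy0 hy h hc) hb
  rw [hsm g y hy0 (hne g)] at hgb
  obtain ⟨l, hl⟩ := (Projectivization.mk_eq_mk_iff' K _ _ _ _).1 hgb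
  exact ⟨(g : V ≃ₗ[K] V), Subgroup.mem_map.2 ⟨g, hg, rfl⟩, l, hl.symm⟩
-- END row tranP

end Pool.Agent.Ovp
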