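import Pool.Agent.Ovp.Rows
import Pool.Agent.Ovp.Frame

namespace Pool.Agent.Ovp

variable {K V : Type} [Field K] [AddCommGroup V] [Module K V]
variable {F : Ovo.HF K V} {S : V → Prop} {x : V}

-- BEGIN row asm
/-- p the characteristic of K; x ≠ 0 and H x x = 0 (hS). Q a Sylow p-subgroup of G,
P = Q.map G.subtype (an IsPGroup, P ≤ G). `flag` for P, `bsex`, `cnt` and `qpow`: the number is
p^k; `tranP` gives the transitivity of P. So Pg F S P x z m, and `core` is the contradiction. -/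
theorem asm [Finite V] [Finite K] {q : ℕ} (hK : Nat.card K = q ^ 2)
    (hbar : ∀ a, F.bar a = a ^ q) (hV : Module.finrank K V = 6) (hS : F.Ov S) (hSx : S x)
    (G : Subgroup (V ≃ₗ[K] V))
    (hi : ∀ g ∈ G, ∀ u v, F.H (g u) (g v) = F.H u v) (hG : ∀ g ∈ G, ∀ y, S y → S (g y))
    (hx : ∀ g ∈ G, ∃ a : K, g x = a • x)
    (ht : ∀ y y', S y → S y' → F.H y x ≠ 0 → F.H y' x ≠ 0 → ∃ g ∈ G, ∃ l : K, g y = l • y') :
    False := by
  obtain ⟨p, hpc⟩ := CharP.exists K
  haveI := hpc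
  have hp : p.Prime := CharP.char_is_prime K p
  haveI : Fact p.Prime := ⟨hp⟩
  have hx0 := hS.ne x hSx
  have hxx := hS.iso x hSx
  obtain ⟨k, hk⟩ := qpow (q := q) (p := p) hK hp
  let Q : Sylow p G := default
  have hPG : ∀ g ∈ (Q : Subgroup G).map G.subtype, g ∈ G := by
    rintro g ⟨y, -, rfl⟩
    exact y.2
  have hP : IsPGroup p ((Q : Subgroup G).map G.subtype) := Q.isPGroup'.map _
  have hpv : ∀ v : V, p • v = 0 := fun v => by
    rw [← Nat.cast_smul_eq_nsmul K p v, CharP.cast_eq_zero, zero_smul]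
  obtain ⟨hfx, z, m, h2, h3, h4, h5, h6, h7, hz, hm⟩ := flag hK hbar hV hpv
    ((Q : Subgroup G).map G.subtype) hP (fun g hg => hi g (hPG g hg)) hx0 hxx
    (fun g hg => hx g (hPG g hg))
  obtain ⟨θ, hθ⟩ := Ovo.exists_theta hK F.bar hbar F.bb
  obtain ⟨m', z', x', hB⟩ := bsex hθ hV hxx h2 h3 h4 h5 h6 h7
  have hc := cnt hK hbar hB hS hSx
  have hc' : Nat.card {y : V // S y ∧ F.H y x = 1} = p ^ (k * 5) := by
    rw [hc, hk, pow_mul]
  have htr := tranP hS G hi hG hx0 hx ht hc' Q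
  exact core hK hbar hB hS hSx ⟨fun g hg => hi g (hPG g hg), fun g hg => hG g (hPG g hg),
    hfx, hz, hm, htr⟩
-- END row asm

end Pool.Agent.Ovp
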