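import Pool.Agent.Ovp.Twp

namespace Pool.Agent.Ovp.Col

variable {K V : Type} [Field K] [AddCommGroup V] [Module K V]
variable {F : Ovo.HF K V} {S : V → Prop} {x : V} {q : ℕ}

/-- Semilinear similarities. -/
def Sem (F : Ovo.HF K V) (g : Equiv.Perm V) : Prop :=
  ∃ (σ : K ≃+* K) (c : K), c ≠ 0 ∧ (∀ u v : V, g (u + v) = g u + g v) ∧
    (∀ (a : K) (u : V), g (a • u) = σ a • g u) ∧ ∀ u v, F.H (g u) (g v) = c * σ (F.H u v)

/-- The linear part. -/
def lin (K : Type) {V : Type} [Field K] [AddCommGroup V] [Module K V]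
    (P : Subgroup (Equiv.Perm V)) : Subgroup (V ≃ₗ[K] V) :=
  P.comap (MulAction.toPermHom (V ≃ₗ[K] V) V)

-- BEGIN row cntlow
private theorem cntlow_fib {A : Type} [AddCommGroup A] [Module K A] [Finite A] (L : A →ₗ[K] K)
    {c0 : A} (h0 : L c0 = 1) :
    Nat.card {c : A // L c = 1} = Nat.card (LinearMap.ker L) := by
  refine Nat.card_congr
    { toFun := fun c => ⟨c.1 - c0, by rw [LinearMap.mem_ker, map_sub, c.2, h0, sub_self]⟩
      invFun := fun c => ⟨c.1 + c0, by rw [map_add, h0, LinearMap.mem_ker.1 c.2, zero_add]⟩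
      left_inv := fun c => Subtype.ext (sub_add_cancel _ _)
      right_inv := fun c => Subtype.ext (add_sub_cancel_right _ _) }

private theorem cntlow_siz [Finite V] [Finite K] {n : ℕ} (hK : Nat.card K = q ^ 2)
    (hbar : ∀ a, F.bar a = a ^ q) (hV : Module.finrank K V = 2 * n + 2) (hS : F.Ov S) (hx : S x) :
    ∃ e, n ≤ e ∧ Nat.card {y : V // S y ∧ F.H y x = 1} = (q ^ 2) ^ e * q := by
  classical
  obtain ⟨θ, hθ⟩ := Ovo.exists_theta hK F.bar hbar F.bb
  have hxx := hS.iso x hx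
  obtain ⟨M, hM1, hM⟩ := F.exists_max (F.TI_span hxx)
  have hxM : x ∈ M := hM1 (Submodule.mem_span_singleton_self x)
  let lam : V →ₗ[K] K :=
    { toFun := fun v => F.H v x
      map_add' := fun u v => F.addl u v x
      map_smul' := fun a u => by rw [F.smull]; rfl }
  have hlam : M ≤ LinearMap.ker lam := fun v hv => hM.1 v hv x hxM
  let L : (V ⧸ M) →ₗ[K] K := M.liftQ lam hlam
  have hL : ∀ v, L (M.mkQ v) = F.H v x := fun v => rfl
  obtain ⟨v1, hv1⟩ : ∃ v, F.H v x = 1 := by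
    obtain ⟨v, hv⟩ : ∃ v, F.H v x ≠ 0 := by
      by_contra hcon
      push Not at hcon
      exact hS.ne x hx (F.nd x hcon)
    exact ⟨(F.H v x)⁻¹ • v, by rw [F.smull, inv_mul_cancel₀ hv]⟩
  have hrep : ∀ c : {c : V ⧸ M // L c = 1}, ∃ u, M.mkQ u = c.1 ∧ F.H u u = 0 ∧ F.H u x = 1 := by
    rintro ⟨c, hc⟩
    obtain ⟨v, rfl⟩ := M.mkQ_surjective c
    rw [hL] at hc
    have h1 : F.H x v ≠ 0 := by
      rw [← F.symm, hc, map_one]
      exact one_ne_zero
    obtain ⟨a, ha⟩ := Ovo.HF.adjust hθ hxx h1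
    refine ⟨v + a • x, ?_, ha, ?_⟩
    · have h2 : M.mkQ x = 0 := by
        rw [← LinearMap.mem_ker, Submodule.ker_mkQ]
        exact hxM
      rw [map_add, map_smul, h2, smul_zero, add_zero]
    · rw [F.addl, F.smull, hxx, hc, mul_zero, add_zero]
  choose u hu1 hu2 hu3 using hrep
  let cl : {y : V // S y ∧ F.H y x = 1} → {c : V ⧸ M // L c = 1} :=
    fun y => ⟨M.mkQ y.1, by rw [hL]; exact y.2.2⟩
  have hdiff : ∀ y : V, ∀ c : {c : V ⧸ M // L c = 1}, M.mkQ y = c.1 → y - u c ∈ M := by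
    intro y c h1
    rw [← hu1 c] at h1
    rw [← Submodule.ker_mkQ M, LinearMap.mem_ker, map_sub, h1, sub_self]
  have hd : ∀ y, y.1 - u (cl y) ∈ M := fun y => hdiff y.1 (cl y) rfl
  have htz : ∀ y : {y : V // S y ∧ F.H y x = 1},
      F.H (y.1 - u (cl y)) (u (cl y)) + F.bar (F.H (y.1 - u (cl y)) (u (cl y))) = 0 := by
    intro y
    have h1 := hM.1 _ (hd y) _ (hd y)
    have h2 := hS.iso y.1 y.2.1
    have h3 := hu2 (cl y)
    rw [F.symm, F.subl, F.subr, h3]
    rw [F.subl, F.subr, F.subr, h2, h3] at h1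
    linear_combination -h1
  let Φ : {y : V // S y ∧ F.H y x = 1} → {c : V ⧸ M // L c = 1} × {a : K // a + F.bar a = 0} :=
    fun y => (cl y, ⟨F.H (y.1 - u (cl y)) (u (cl y)), htz y⟩)
  have hΦ : Function.Bijective Φ := by
    constructor
    · intro y y' hyy
      have h1 : cl y = cl y' := congrArg Prod.fst hyy
      have h2 : F.H (y.1 - u (cl y)) (u (cl y)) = F.H (y'.1 - u (cl y')) (u (cl y')) :=
        congrArg (fun t : {c : V ⧸ M // L c = 1} × {a : K // a + F.bar a = 0} => (t.2 : K)) hyy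
      rw [← h1] at h2
      have h3 : y'.1 - u (cl y) ∈ M := by
        rw [h1]
        exact hd y'
      exact Subtype.ext (ninj hS hM.1 hxM (hu2 (cl y)) (hu3 (cl y)) y.2.1 y'.2.1 (hd y) h3 h2)
    · rintro ⟨c, ε, hε⟩
      obtain ⟨y, hy1, hy2, hy3⟩ := ngen hS hx hM hxM (hu2 c) (hu3 c) hε
      have hyx : F.H y x = 1 := by
        have h1 := hM.1 _ hy2 x hxM
        rw [F.subl, hu3] at h1
        linear_combination h1
      have hc : cl ⟨y, hy1, hyx⟩ = c := by
        apply Subtype.ext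
        show M.mkQ y = c.1
        rw [← hu1 c, ← sub_eq_zero, ← map_sub, ← LinearMap.mem_ker, Submodule.ker_mkQ]
        exact hy2
      refine ⟨⟨y, hy1, hyx⟩, ?_⟩
      apply Prod.ext hc
      apply Subtype.ext
      show F.H (y - u (cl ⟨y, hy1, hyx⟩)) (u (cl ⟨y, hy1, hyx⟩)) = ε
      rw [hc]
      exact hy3
  have h1 := Nat.card_congr (Equiv.ofBijective Φ hΦ)
  have i1 : Finite (V ⧸ M) := Finite.of_surjective M.mkQ M.mkQ_surjective
  rw [Nat.card_prod, trz hK hbar, cntlow_fib L (c0 := M.mkQ v1) (by rw [hL]; exact hv1),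
    Module.natCard_eq_pow_finrank (K := K) (V := LinearMap.ker L), hK] at h1
  refine ⟨Module.finrank K (LinearMap.ker L), ?_, h1⟩
  have i2 : Module.Finite K V := Module.Finite.of_finite
  have h2 := LinearMap.finrank_range_add_finrank_ker L
  have h3 : Module.finrank K (LinearMap.range L) ≤ 1 := by
    have := Submodule.finrank_le (LinearMap.range L)
    rwa [Module.finrank_self] at this
  have h4 := Submodule.finrank_quotient_add_finrank M
  have h5 := F.card_TI hM.1
  rw [Module.natCard_eq_pow_finrank (K := K) (V := M), Module.natCard_eq_pow_finrank (K := K) (V := V),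
    ← pow_mul] at h5
  have h6 : Module.finrank K M * 2 ≤ Module.finrank K V :=
    (Nat.pow_le_pow_iff_right (Finite.one_lt_card (α := K))).1 h5
  omega

/-- As `cntp` (copy its proof up to h1: the number is |ker L| q, L a functional on V / M which is
not zero): |ker L| |K| = |V / M|, and |M|^2 ≤ |V| = q^(4n+4) (`Ovo.HF.card_TI`), so |V / M| ≥
q^(2n+2), |ker L| ≥ q^(2n). -/
theorem cntlow [Finite V] [Finite K] {n : ℕ} (hK : Nat.card K = q ^ 2)
    (hbar : ∀ a, F.bar a = a ^ q) (hV : Module.finrank K V = 2 * n + 2)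
    (hS : F.Ov S) (hx : S x) :
    q ^ (2 * n + 1) ≤ Nat.card {y : V // S y ∧ F.H y x = 1} := by
  obtain ⟨e, he, h⟩ := cntlow_siz hK hbar hV hS hx
  have hq := Ovo.two_le_q hK
  rw [h, pow_succ, pow_mul]
  exact Nat.mul_le_mul_right _ (Nat.pow_le_pow_right (pow_pos (by omega) 2) he)
-- END row cntlow

-- BEGIN row autk
private theorem autk_aut {K : Type} [Field K] [Finite K] {p m : ℕ} (hp : p.Prime) (hK : Nat.card K = p ^ m) :
    Nat.card (K ≃+* K) = m := by
  classical
  have i0 : Fintype K := Fintype.ofFinite K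
  obtain ⟨r, hr⟩ := CharP.exists K
  have hrp : r.Prime := CharP.char_is_prime K r
  obtain ⟨l, _, hl⟩ := FiniteField.card K r
  have hl' : p ^ m = r ^ (l : ℕ) := by rw [← hK, Nat.card_eq_fintype_card, hl]
  have hpr : p = r := by
    have hm0 : m ≠ 0 := by
      rintro rfl
      rw [pow_zero] at hK
      have := Finite.one_lt_card (α := K)
      omega
    have h5 : p ∣ r ^ (l : ℕ) := by
      rw [← hl']
      exact dvd_pow_self p hm0
    exact (Nat.prime_dvd_prime_iff_eq hp hrp).1 (hp.dvd_of_dvd_pow h5)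
  subst hpr
  have i1 : Fact p.Prime := ⟨hp⟩
  let i2 : Algebra (ZMod p) K := ZMod.algebra K p
  have h1 : Nat.card (K ≃ₐ[ZMod p] K) = Module.finrank (ZMod p) K :=
    IsGalois.card_aut_eq_finrank (ZMod p) K
  have h2 : Nat.card K = p ^ Module.finrank (ZMod p) K := by
    have := Module.natCard_eq_pow_finrank (K := ZMod p) (V := K)
    rwa [Nat.card_zmod] at this
  have h3 : Module.finrank (ZMod p) K = m :=
    Nat.pow_right_injective hp.two_le (by
      show p ^ _ = p ^ _
      rw [← h2, hK])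
  rw [← h3, ← h1]
  refine Nat.card_congr
    { toFun := fun σ => AlgEquiv.ofRingEquiv (f := σ) (fun x => ?_)
      invFun := fun τ => (τ : K ≃+* K)
      left_inv := fun σ => by ext x; rfl
      right_inv := fun τ => by ext x; rfl }
  exact congrArg (fun g : ZMod p →+* K => g x)
    (Subsingleton.elim (((σ : K →+* K)).comp (algebraMap (ZMod p) K)) (algebraMap (ZMod p) K))

/-- A ring automorphism of K is determined by its value at a generator of the units, a root of
the minimal polynomial over the prime field; or: K ≃+* K embeds in K ≃ₐ[ZMod p] K, which has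
finrank (ZMod p) K = k elements (`IsGalois.card_aut_eq_finrank`). -/
theorem autk [Finite K] {p k : ℕ} (hp : p.Prime) (hK : Nat.card K = p ^ k) :
    Finite (K ≃+* K) ∧ Nat.card (K ≃+* K) ≤ k := by
  have h1 : Finite (K ≃+* K) :=
    Finite.of_injective (fun g : K ≃+* K => (g : K → K)) DFunLike.coe_injective
  exact ⟨h1, le_of_eq (autk_aut hp hK)⟩
-- END row autk

-- BEGIN row arq
/-- q = p^h with q^2 = p^k, so k = 2 h; 2 h < p^h unless p = 2 and h ≤ 2 (h ≥ 1). -/
theorem arq {p k : ℕ} (hp : p.Prime) (hq : 1 < q) (h : q ^ 2 = p ^ k) (h2 : q ≠ 2)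
    (h4 : q ≠ 4) : k < q := by
  obtain ⟨h0, -, hq0⟩ := (Nat.dvd_prime_pow hp).1 (show q ∣ p ^ k from ⟨q, by rw [← h]; ring⟩)
  have hk : 2 * h0 = k := by
    apply Nat.pow_right_injective hp.two_le
    show p ^ (2 * h0) = p ^ k
    rw [← h, hq0]
    ring
  rw [← hk]
  rcases (hp.two_le).eq_or_lt with h3 | h3
  · rw [← h3] at hq0
    have h5 : 3 ≤ h0 := by
      by_contra hc
      have hc' : h0 < 3 := Nat.lt_of_not_le hc
      interval_cases h0
      · norm_num at hq0
        omega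
      · norm_num at hq0
        omega
      · norm_num at hq0
        omega
    have key : ∀ m : ℕ, 3 ≤ m → 2 * m < 2 ^ m := by
      intro m hm
      induction m, hm using Nat.le_induction with
      | base => norm_num
      | succ m hm ih =>
        rw [pow_succ]
        omega
    rw [hq0]
    exact key h0 h5
  · have key : ∀ m : ℕ, 2 * m < 3 ^ m := by
      intro m
      induction m with
      | zero => norm_num
      | succ m ih =>
        rw [pow_succ]
        omega
    rw [hq0]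
    exact (key h0).trans_le (Nat.pow_le_pow_left h3 h0)
-- END row arq

-- BEGIN row lp
/-- `MulAction.toPermHom` is injective on V ≃ₗ[K] V (`IsPGroup.comap_of_injective`). -/
theorem lp {p : ℕ} (P : Subgroup (Equiv.Perm V)) (hP : IsPGroup p P) : IsPGroup p (lin K P) := by
  refine hP.comap_of_injective (MulAction.toPermHom (V ≃ₗ[K] V) V) (fun g h hgh => ?_)
  exact LinearEquiv.ext fun v => congrArg (fun e : Equiv.Perm V => e v) hgh
-- END row lp

-- BEGIN row liso
/-- g in lin K P as an element g' of P (g' v = g v): Sem gives σ, c. If H is 0 everywhere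
nothing to prove. Otherwise some u ≠ 0 and a • g u = g (a • u) = σ a • g u, so σ = id and
H (g u) (g v) = c H u v. By induction H (g^k u) (g^k v) = c^k H u v; g^(p^j) = 1 gives c^(p^j) = 1,
so (c - 1)^(p^j) = 0 (`sub_pow_char_pow`), c = 1. -/
theorem liso {p : ℕ} [Fact p.Prime] [CharP K p] (P : Subgroup (Equiv.Perm V)) (hP : IsPGroup p P)
    (hs : ∀ g ∈ P, Sem F g) : ∀ g ∈ lin K P, ∀ u v, F.H (g u) (g v) = F.H u v := by
  intro g hg u v
  by_cases h0 : ∀ u v, F.H u v = 0
  · rw [h0, h0]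
  push Not at h0
  obtain ⟨u0, v0, huv⟩ := h0
  have hg' : MulAction.toPermHom (V ≃ₗ[K] V) V g ∈ P := hg
  obtain ⟨σ, c, hc, -, hsm, hH⟩ := hs _ hg'
  have hap : ∀ w, (MulAction.toPermHom (V ≃ₗ[K] V) V g) w = g w := fun w => rfl
  simp only [hap] at hsm hH
  have hu0 : u0 ≠ 0 := by
    rintro rfl
    exact huv (F.zerol v0)
  have hgu0 : g u0 ≠ 0 := fun h => hu0 (g.map_eq_zero_iff.1 h)
  have hσ : ∀ a, σ a = a := by
    intro a
    have h1 := hsm a u0
    rw [map_smul] at h1
    have h2 : (a - σ a) • g u0 = 0 := by rw [sub_smul, ← h1, sub_self]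
    rcases smul_eq_zero.1 h2 with h3 | h3
    · exact (sub_eq_zero.1 h3).symm
    · exact absurd h3 hgu0
  have hH' : ∀ u v, F.H (g u) (g v) = c * F.H u v := by
    intro u v
    rw [hH, hσ]
  have hpow : ∀ k : ℕ, ∀ u v, F.H ((g ^ k) u) ((g ^ k) v) = c ^ k * F.H u v := by
    intro k
    induction k with
    | zero =>
      intro u v
      simp
    | succ k ih =>
      intro u v
      rw [pow_succ', LinearEquiv.mul_apply, LinearEquiv.mul_apply, hH', ih, pow_succ', mul_assoc]
  obtain ⟨j, hj⟩ := hP ⟨_, hg'⟩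
  have hj1 : (MulAction.toPermHom (V ≃ₗ[K] V) V) (g ^ p ^ j) = 1 := by
    rw [map_pow]
    exact congrArg Subtype.val hj
  have hj2 : g ^ p ^ j = 1 := by
    apply LinearEquiv.ext
    intro w
    exact congrArg (fun e : Equiv.Perm V => e w) hj1
  have hcj : c ^ p ^ j = 1 := by
    have h1 := hpow (p ^ j) u0 v0
    rw [hj2] at h1
    change F.H u0 v0 = _ at h1
    have h2 : (c ^ p ^ j - 1) * F.H u0 v0 = 0 := by rw [sub_mul, ← h1, one_mul, sub_self]
    rcases mul_eq_zero.1 h2 with h3 | h3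
    · exact sub_eq_zero.1 h3
    · exact absurd h3 huv
  have hc1 : c = 1 := by
    have h1 : (c - 1) ^ p ^ j = 0 := by
      rw [sub_pow_char_pow, hcj, one_pow, sub_self]
    exact sub_eq_zero.1 (pow_eq_zero_iff (pow_ne_zero j (Fact.out : p.Prime).ne_zero) |>.1 h1)
  rw [hH', hc1, one_mul]
-- END row liso

-- BEGIN row fibc
/-- For each σ in Aut K which occurs in some g in P1 (with the identity g (a • u) = σ a • g u)
choose one, g_σ. If g in P1 has the same σ then g_σ^{-1} g is K-linear, so it is the image of some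
g0 in lin K P1, and g '' L = g_σ '' (g0 '' L). So (σ, T0) ↦ g_σ '' T0 maps (Aut K) × (the sets
g0 '' L) onto the sets g '' L. -/
theorem fibc [Finite V] [Finite K] (P1 : Subgroup (Equiv.Perm V)) (hs : ∀ g ∈ P1, Sem F g)
    [Finite (K ≃+* K)] (L : Set V) :
    Nat.card {T : Set V // ∃ g ∈ P1, g '' L = T} ≤
      Nat.card (K ≃+* K) * Nat.card {T : Set V // ∃ g ∈ lin K P1, g '' L = T} := by
  classical
  let G : (K ≃+* K) → Equiv.Perm V := fun σ =>
    if h : ∃ g ∈ P1, ∀ (a : K) (u : V), g (a • u) = σ a • g u then h.choose else 1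
  have hG : ∀ σ : K ≃+* K, (∃ g ∈ P1, ∀ (a : K) (u : V), g (a • u) = σ a • g u) →
      G σ ∈ P1 ∧ ∀ (a : K) (u : V), G σ (a • u) = σ a • G σ u := by
    intro σ h
    have h1 : G σ = h.choose := dif_pos h
    rw [h1]
    exact h.choose_spec
  have key : ∀ T : {T : Set V // ∃ g ∈ P1, g '' L = T}, ∃ σ : K ≃+* K,
      ∃ T0 : {T : Set V // ∃ g ∈ lin K P1, g '' L = T}, G σ '' T0.1 = T.1 := by
    rintro ⟨T, g, hg, rfl⟩
    obtain ⟨σ, c, hc, hadd, hsm, hH⟩ := hs g hg
    obtain ⟨h1, h2⟩ := hG σ ⟨g, hg, hsm⟩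
    have hk : (G σ)⁻¹ * g ∈ P1 := P1.mul_mem (P1.inv_mem h1) hg
    obtain ⟨σ', c', hc', hadd', -, -⟩ := hs _ hk
    have hGi : ∀ v, G σ ((G σ)⁻¹ v) = v := fun v => (G σ).apply_symm_apply v
    have hlin : ∀ (a : K) (u : V), ((G σ)⁻¹ * g) (a • u) = a • ((G σ)⁻¹ * g) u := by
      intro a u
      rw [Equiv.Perm.mul_apply, Equiv.Perm.mul_apply, Equiv.Perm.inv_eq_iff_eq, hsm, h2, hGi]
    let k0 : V ≃ₗ[K] V := Equiv.toLinearEquiv ((G σ)⁻¹ * g) ⟨hadd', hlin⟩
    have hk0 : ∀ u, k0 u = ((G σ)⁻¹ * g) u := fun u => rfl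
    have hmem : k0 ∈ lin K P1 := by
      have h3 : MulAction.toPermHom (V ≃ₗ[K] V) V k0 = (G σ)⁻¹ * g := by
        ext u
        rfl
      change MulAction.toPermHom (V ≃ₗ[K] V) V k0 ∈ P1
      rw [h3]
      exact hk
    refine ⟨σ, ⟨k0 '' L, k0, hmem, rfl⟩, ?_⟩
    change G σ '' (k0 '' L) = g '' L
    rw [← Set.image_comp]
    refine Set.image_congr fun u _ => ?_
    change G σ (k0 u) = g u
    rw [hk0, Equiv.Perm.mul_apply, hGi]
  choose σ T0 h using key
  have hinj : Function.Injective fun T : {T : Set V // ∃ g ∈ P1, g '' L = T} => (σ T, T0 T) := by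
    intro T T' hT
    have h1 : σ T = σ T' := congrArg Prod.fst hT
    have h2 : T0 T = T0 T' := congrArg Prod.snd hT
    exact Subtype.ext ((h T).symm.trans (h1 ▸ h2 ▸ h T'))
  have h3 := Nat.card_le_card_of_injective _ hinj
  rwa [Nat.card_prod] at h3
-- END row fibc

-- BEGIN row bjc
/-- g '' (span y0) = span (g y0): the sets are the images of the vectors g y0. -/
theorem bjc [Finite V] (P0 : Subgroup (V ≃ₗ[K] V)) (y0 : V) :
    Nat.card {T : Set V // ∃ g ∈ P0, g '' ((Submodule.span K {y0} : Submodule K V) : Set V) = T} ≤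
      Nat.card {y : V // ∃ g ∈ P0, g y0 = y} := by
  have im : ∀ g : V ≃ₗ[K] V, g '' ((Submodule.span K {y0} : Submodule K V) : Set V) =
      ((Submodule.span K {g y0} : Submodule K V) : Set V) := by
    intro g
    have h1 : (Submodule.span K {y0}).map (g : V →ₗ[K] V) = Submodule.span K {g y0} := by
      rw [Submodule.map_span, Set.image_singleton]
      rfl
    have h2 := congrArg (fun M : Submodule K V => (M : Set V)) h1
    simpa using h2
  refine Nat.card_le_card_of_surjective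
    (fun y : {y : V // ∃ g ∈ P0, g y0 = y} =>
      (⟨((Submodule.span K {y.1} : Submodule K V) : Set V), by
        obtain ⟨g, hg, h⟩ := y.2
        exact ⟨g, hg, by rw [im g, h]⟩⟩ :
        {T : Set V // ∃ g ∈ P0, g '' ((Submodule.span K {y0} : Submodule K V) : Set V) = T})) ?_
  rintro ⟨T, g, hg, h⟩
  refine ⟨⟨g y0, g, hg, rfl⟩, Subtype.ext ?_⟩
  show ((Submodule.span K {g y0} : Submodule K V) : Set V) = T
  rw [← im g, h]
-- END row bjc

-- BEGIN row sylS
/-- `syl` for the action of G on α = Set V (g • T = g '' T, `Set.image`; G acts on V, pointwise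
action on sets) at a = L. -/
theorem sylS [Finite V] {p k : ℕ} [Fact p.Prime] (G : Subgroup (Equiv.Perm V)) (Q : Sylow p G)
    (L : Set V) (h : Nat.card {T : Set V // ∃ g ∈ G, g '' L = T} = p ^ k) :
    Nat.card {T : Set V // ∃ g ∈ (Q : Subgroup G).map G.subtype, g '' L = T} = p ^ k := by
  letI act : MulAction G (Set V) :=
    { smul := fun g T => (g : Equiv.Perm V) '' T
      one_smul := fun T => by
        show ((1 : G) : Equiv.Perm V) '' T = T
        rw [Subgroup.coe_one, Equiv.Perm.coe_one, Set.image_id]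
      mul_smul := fun g g' T => by
        show ((g * g' : G) : Equiv.Perm V) '' T = (g : Equiv.Perm V) '' ((g' : Equiv.Perm V) '' T)
        rw [Subgroup.coe_mul, Equiv.Perm.coe_mul, Set.image_comp] }
  have hact : ∀ (g : G) (T : Set V), g • T = (g : Equiv.Perm V) '' T := fun _ _ => rfl
  have hO : Nat.card (MulAction.orbit G L) = p ^ k := by
    rw [← h]
    refine Nat.card_congr (Equiv.subtypeEquivRight fun T => ?_)
    constructor
    · rintro ⟨g, hg⟩
      exact ⟨g, g.2, hg⟩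
    · rintro ⟨g, hg, hT⟩
      exact ⟨⟨g, hg⟩, hT⟩
  rw [← h]
  refine Nat.card_congr (Equiv.subtypeEquivRight fun T => ?_)
  constructor
  · rintro ⟨g, ⟨g', -, rfl⟩, hT⟩
    exact ⟨g', g'.2, hT⟩
  · rintro ⟨g, hg, hT⟩
    obtain ⟨g', hg', hT'⟩ := syl Q L hO (b := T) ⟨⟨g, hg⟩, hT⟩
    exact ⟨g', ⟨g', hg', rfl⟩, hT'⟩
-- END row sylS

-- BEGIN row orbS
private theorem orbS_im {g : Equiv.Perm V} (hg : Sem F g) (u : V) :
    g '' ((Submodule.span K {u} : Submodule K V) : Set V) =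
      ((Submodule.span K {g u} : Submodule K V) : Set V) := by
  obtain ⟨σ, c, -, -, hsm, -⟩ := hg
  ext v
  constructor
  · rintro ⟨w, hw, rfl⟩
    obtain ⟨a, rfl⟩ := Submodule.mem_span_singleton.1 hw
    rw [hsm]
    exact Submodule.smul_mem _ _ (Submodule.mem_span_singleton_self _)
  · intro hv
    obtain ⟨a, rfl⟩ := Submodule.mem_span_singleton.1 hv
    refine ⟨σ.symm a • u, Submodule.smul_mem _ _ (Submodule.mem_span_singleton_self _), ?_⟩
    rw [hsm, σ.apply_symm_apply]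

private theorem orbS_z {g : Equiv.Perm V} (hg : Sem F g) : g 0 = 0 := by
  obtain ⟨σ, c, -, -, hsm, -⟩ := hg
  have h := hsm 0 0
  rw [zero_smul, map_zero σ, zero_smul] at h
  exact h

/-- The sets g '' (span y0) = span (g y0) are exactly the spans of the y in S with H y x ≠ 0
(by ht; H (g y0) x ≠ 0 since g x = a • x, a ≠ 0, and H (g y0) (g x) = c σ (H y0 x)), and each
contains exactly one y with H y x = 1 (S y by hS.sm). -/
theorem orbS [Finite V] [Finite K] (hS : F.Ov S) (hx0 : x ≠ 0) (G : Subgroup (Equiv.Perm V))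
    (hs : ∀ g ∈ G, Sem F g) (hp : ∀ g ∈ G, ∀ y, S y → S (g y))
    (hx : ∀ g ∈ G, ∃ a : K, g x = a • x)
    (ht : ∀ y y', S y → S y' → F.H y x ≠ 0 → F.H y' x ≠ 0 → ∃ g ∈ G, ∃ l : K, g y = l • y')
    {y0 : V} (hy0 : S y0) (hy1 : F.H y0 x ≠ 0) :
    Nat.card {T : Set V // ∃ g ∈ G, g '' ((Submodule.span K {y0} : Submodule K V) : Set V) = T} =
      Nat.card {y : V // S y ∧ F.H y x = 1} := by
  have hex : ∀ y : {y : V // S y ∧ F.H y x = 1},
      ∃ g ∈ G, g '' ((Submodule.span K {y0} : Submodule K V) : Set V) =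
        ((Submodule.span K {y.1} : Submodule K V) : Set V) := by
    rintro ⟨y, hy, h1⟩
    obtain ⟨g, hg, l, hl⟩ := ht y0 y hy0 hy hy1 (by rw [h1]; exact one_ne_zero)
    refine ⟨g, hg, ?_⟩
    have hl0 : l ≠ 0 := by
      rintro rfl
      rw [zero_smul] at hl
      apply hS.ne y0 hy0
      apply g.injective
      rw [hl, orbS_z (hs g hg)]
    rw [orbS_im (hs g hg), hl, Submodule.span_singleton_smul_eq (IsUnit.mk0 l hl0)]
  let Ψ : {y : V // S y ∧ F.H y x = 1} →
      {T : Set V // ∃ g ∈ G, g '' ((Submodule.span K {y0} : Submodule K V) : Set V) = T} :=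
    fun y => ⟨_, hex y⟩
  have hΨ : Function.Bijective Ψ := by
    constructor
    · rintro ⟨y, hy, h1⟩ ⟨y', hy', h2⟩ he
      have h3 : ((Submodule.span K {y} : Submodule K V) : Set V) =
          ((Submodule.span K {y'} : Submodule K V) : Set V) := congrArg Subtype.val he
      have h4 : y' ∈ ((Submodule.span K {y} : Submodule K V) : Set V) := by
        rw [h3]
        exact Submodule.mem_span_singleton_self y'
      obtain ⟨a, rfl⟩ := Submodule.mem_span_singleton.1 h4
      rw [F.smull, h1, mul_one] at h2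
      subst h2
      apply Subtype.ext
      change y = (1 : K) • y
      rw [one_smul]
    · rintro ⟨T, g, hg, rfl⟩
      obtain ⟨a, ha⟩ := hx g hg
      have h0 : F.H (g y0) x ≠ 0 := by
        intro h
        obtain ⟨σ, c, hc, -, -, hH⟩ := hs g hg
        have h1 := hH y0 x
        rw [ha, F.smulr, h, mul_zero] at h1
        rcases mul_eq_zero.1 h1.symm with h2 | h2
        · exact hc h2
        · exact hy1 ((map_eq_zero σ).1 h2)
      refine ⟨⟨(F.H (g y0) x)⁻¹ • g y0, hS.sm _ _ (inv_ne_zero h0) (hp g hg y0 hy0), ?_⟩, ?_⟩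
      · rw [F.smull, inv_mul_cancel₀ h0]
      · apply Subtype.ext
        change ((Submodule.span K {(F.H (g y0) x)⁻¹ • g y0} : Submodule K V) : Set V) =
          g '' ((Submodule.span K {y0} : Submodule K V) : Set V)
        rw [orbS_im (hs g hg), Submodule.span_singleton_smul_eq
          (IsUnit.mk0 _ (inv_ne_zero h0))]
  exact (Nat.card_congr (Equiv.ofBijective Ψ hΨ)).symm
-- END row orbS

-- BEGIN row col
/-- p the characteristic of K, |K| = p^k = q^2 (1 < q by `Ovo.two_le_q`), k < q (`arq`). y0 in S with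
H y0 x = 1 (`Ovo.HF.exists_z`, scaled). `orbS` and `cntp`: the sets of G number p^j; Q a Sylow
p-subgroup of G, P1 = Q.map G.subtype a p-group; `sylS`. P0 = lin K P1, `lp`, `liso`; `fibc`,
`bjc`, `autk`: p^j ≤ k |P0 y0| and `Two.asmg` for P0: |P0 y0| ≤ q^(2n). `cntlow`: q^(2n+1) ≤ p^j ≤
k q^(2n) < q^(2n+1). Contradiction. -/
theorem col [Finite V] [Finite K] {n : ℕ} (hn : 2 ≤ n) (hK : Nat.card K = q ^ 2)
    (hbar : ∀ a, F.bar a = a ^ q) (hV : Module.finrank K V = 2 * n + 2) (h2 : q ≠ 2) (h4 : q ≠ 4)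
    (hS : F.Ov S) (hSx : S x) (G : Subgroup (Equiv.Perm V))
    (hs : ∀ g ∈ G, Sem F g) (hp : ∀ g ∈ G, ∀ y, S y → S (g y))
    (hx : ∀ g ∈ G, ∃ a : K, g x = a • x)
    (ht : ∀ y y', S y → S y' → F.H y x ≠ 0 → F.H y' x ≠ 0 → ∃ g ∈ G, ∃ l : K, g y = l • y') :
    False := by
  classical
  obtain ⟨p, hpc⟩ := CharP.exists K
  have hpp : p.Prime := CharP.char_is_prime K p
  have : Fact p.Prime := ⟨hpp⟩
  have i0 : Fintype K := Fintype.ofFinite K
  obtain ⟨k, -, hk⟩ := FiniteField.card K p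
  rw [← Nat.card_eq_fintype_card] at hk
  have hkq : (k : ℕ) < q := arq hpp (Ovo.two_le_q hK) (by rw [← hK, hk]) h2 h4
  obtain ⟨hA, hAk⟩ := autk hpp hk
  have hpV : ∀ v : V, p • v = 0 := by
    intro v
    rw [← one_smul K v, ← Nat.cast_smul_eq_nsmul K, CharP.cast_eq_zero, zero_smul]
  obtain ⟨y, hy, hxy⟩ := Ovo.HF.exists_z hK hbar hS hSx
  have hyx : F.H y x ≠ 0 := fun h => hxy (F.sw h)
  obtain ⟨y0, hy0, hy1⟩ : ∃ y0, S y0 ∧ F.H y0 x = 1 :=
    ⟨(F.H y x)⁻¹ • y, hS.sm _ _ (inv_ne_zero hyx) hy, by rw [F.smull, inv_mul_cancel₀ hyx]⟩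
  have hy1' : F.H y0 x ≠ 0 := by rw [hy1]; exact one_ne_zero
  obtain ⟨j, hj⟩ := cntp hK hbar hpp hS hSx
  have horb := orbS hS (hS.ne x hSx) G hs hp hx ht hy0 hy1'
  rw [hj] at horb
  have i1 : Finite (Equiv.Perm V) := inferInstance
  let Q : Sylow p G := default
  have hPG : ∀ g ∈ (Q : Subgroup G).map G.subtype, g ∈ G := by
    rintro g ⟨y, -, rfl⟩
    exact y.2
  have hP1 : IsPGroup p ((Q : Subgroup G).map G.subtype) := Q.isPGroup'.map _
  have hsyl := sylS G Q _ horb
  generalize (Q : Subgroup G).map G.subtype = P1 at hPG hP1 hsyl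
  have hs1 : ∀ g ∈ P1, Sem F g := fun g hg => hs g (hPG g hg)
  have hf := fibc P1 hs1 ((Submodule.span K {y0} : Submodule K V) : Set V)
  rw [hsyl] at hf
  have hb := bjc (lin K P1) y0
  have hlin : ∀ g ∈ lin K P1, ∃ g' ∈ G, ∀ v, g' v = g v := fun g hg => ⟨_, hPG _ hg, fun v => rfl⟩
  have ha := Two.asmg hn hK hbar hV hS hSx hpV (lin K P1) (lp P1 hP1) (liso P1 hP1 hs1)
    (fun g hg y hy => by
      obtain ⟨g', hg', h⟩ := hlin g hg
      rw [← h]
      exact hp g' hg' y hy)
    (fun g hg => by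
      obtain ⟨g', hg', h⟩ := hlin g hg
      rw [← h]
      exact hx g' hg') hy0 hy1
  have hc := cntlow hK hbar hV hS hSx
  rw [hj] at hc
  have hq0 : 0 < q ^ (2 * n) := pow_pos (lt_of_lt_of_le (by norm_num) (Ovo.two_le_q hK)) _
  have h5 : q ^ (2 * n + 1) ≤ (k : ℕ) * q ^ (2 * n) :=
    hc.trans (hf.trans (Nat.mul_le_mul hAk (hb.trans ha)))
  have h6 : (k : ℕ) * q ^ (2 * n) < q ^ (2 * n + 1) := by
    rw [pow_succ, mul_comm (q ^ (2 * n))]
    exact (Nat.mul_lt_mul_right hq0).2 hkq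
  exact absurd h5 (not_le.2 h6)
-- END row col

end Pool.Agent.Ovp.Col
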