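import Pool.Agent.Ovo.Ovg

namespace Pool.Agent.Ovp

variable {K V : Type} [Field K] [AddCommGroup V] [Module K V]

/-- A hyperbolic basis of a six dimensional Hermitian space. -/
structure Bs (F : Ovo.HF K V) (x z m m' z' x' : V) : Prop where
  xx : F.H x x = 0
  xz : F.H x z = 0
  xm : F.H x m = 0
  xm' : F.H x m' = 0
  xz' : F.H x z' = 0
  xx' : F.H x x' = 1
  zz : F.H z z = 0
  zm : F.H z m = 0
  zm' : F.H z m' = 0
  zz' : F.H z z' = 1
  zx' : F.H z x' = 0
  mm : F.H m m = 0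
  mm' : F.H m m' = 1
  mz' : F.H m z' = 0
  mx' : F.H m x' = 0
  m'm' : F.H m' m' = 0
  m'z' : F.H m' z' = 0
  m'x' : F.H m' x' = 0
  z'z' : F.H z' z' = 0
  z'x' : F.H z' x' = 0
  x'x' : F.H x' x' = 0
  span : ∀ v, ∃ a b c d e f : K,
    v = a • x + b • z + c • m + d • m' + e • z' + f • x'

/-- A group of isometries with an invariant flag, transitive on the points of the ovoid away
from `x`. -/
structure Pg (F : Ovo.HF K V) (S : V → Prop) (P : Subgroup (V ≃ₗ[K] V)) (x z m : V) : Prop where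
  iso : ∀ g ∈ P, ∀ u v, F.H (g u) (g v) = F.H u v
  pres : ∀ g ∈ P, ∀ y, S y → S (g y)
  fx : ∀ g ∈ P, g x = x
  fz : ∀ g ∈ P, ∃ b : K, g z = z + b • x
  fm : ∀ g ∈ P, ∃ a c : K, g m = m + a • z + c • x
  tr : ∀ y y', S y → S y' → F.H y x ≠ 0 → F.H y' x ≠ 0 → ∃ g ∈ P, ∃ l : K, g y = l • y'

/-- The matrix of an element on the hyperplane. -/
structure Mt (F : Ovo.HF K V) (x z m m' z' : V) (g : V ≃ₗ[K] V)
    (b a c s e u f t v : K) : Prop where
  gx : g x = x
  gz : g z = z + b • x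
  gm : g m = m + a • z + c • x
  gm' : g m' = m' + s • m + e • z + u • x
  gz' : g z' = z' - F.bar a • m' + f • m + t • z + v • x
  hs : s + F.bar s = 0
  hf : f = F.bar (s * a) - F.bar e
  ht : t + F.bar t = F.bar a * F.bar f + a * f

end Pool.Agent.Ovp
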