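import Pool.Agent.Ovp.Col

namespace Pool.Agent.Ovp.Orb

open Pool.Agent.Ovp.Col

open scoped LinearAlgebra.Projectivization

variable {K V : Type} [Field K] [AddCommGroup V] [Module K V]
variable {F : Ovo.HF K V} {S : V → Prop} {x : V} {q : ℕ}

/-- The line of a vector, as a set. -/
def ln (K : Type) {V : Type} [Field K] [AddCommGroup V] [Module K V] (y : V) : Set V :=
  ((Submodule.span K {y} : Submodule K V) : Set V)

theorem mem_ln {y v : V} : v ∈ ln K y ↔ ∃ a : K, a • y = v := Submodule.mem_span_singleton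

theorem self_ln (y : V) : y ∈ ln K y := mem_ln.2 ⟨1, one_smul K y⟩

theorem ln_smul {a : K} (ha : a ≠ 0) (y : V) : ln K (a • y) = ln K y := by
  ext v
  rw [mem_ln, mem_ln]
  constructor
  · rintro ⟨b, rfl⟩
    exact ⟨b * a, mul_smul b a y⟩
  · rintro ⟨b, rfl⟩
    exact ⟨b * a⁻¹, by rw [smul_smul, mul_assoc, inv_mul_cancel₀ ha, mul_one]⟩

theorem im_ln {g : Equiv.Perm V} (hg : Sem F g) (y : V) : g '' ln K y = ln K (g y) := by
  obtain ⟨σ, c, hc, h1, h2, h3⟩ := hg
  ext v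
  constructor
  · rintro ⟨w, hw, rfl⟩
    obtain ⟨a, rfl⟩ := mem_ln.1 hw
    exact mem_ln.2 ⟨σ a, (h2 a y).symm⟩
  · intro hv
    obtain ⟨a, rfl⟩ := mem_ln.1 hv
    refine ⟨σ.symm a • y, mem_ln.2 ⟨_, rfl⟩, ?_⟩
    rw [h2, RingEquiv.apply_symm_apply]

/-- The number of points of the ovoid. -/
theorem cnto [Finite V] (hS : F.Ov S) (hSx : S x) :
    Nat.card {L : Set V // ∃ y, S y ∧ L = ln K y} =
      Nat.card {y : V // S y ∧ F.H y x = 1} + 1 := by
  classical
  have hxx := hS.iso x hSx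
  have hxn : ∀ y, F.H y x = 1 → ln K x ≠ ln K y := by
    intro y hy h
    have h1 : y ∈ ln K x := by
      rw [h]
      exact self_ln y
    obtain ⟨a, rfl⟩ := mem_ln.1 h1
    rw [F.smull, hxx, mul_zero] at hy
    exact zero_ne_one hy
  let f : Option {y : V // S y ∧ F.H y x = 1} → {L : Set V // ∃ y, S y ∧ L = ln K y} := fun o =>
    match o with
    | none => ⟨ln K x, x, hSx, rfl⟩
    | some y => ⟨ln K y.1, y.1, y.2.1, rfl⟩
  have hf : Function.Bijective f := by
    constructor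
    · rintro (_ | y) (_ | y') h
      · rfl
      · exact absurd (congrArg Subtype.val h) (hxn y'.1 y'.2.2)
      · exact absurd (congrArg Subtype.val h).symm (hxn y.1 y.2.2)
      · have h1 : ln K y.1 = ln K y'.1 := congrArg Subtype.val h
        have h2 : y.1 ∈ ln K y'.1 := by
          rw [← h1]
          exact self_ln y.1
        obtain ⟨a, ha⟩ := mem_ln.1 h2
        have h3 := y.2.2
        rw [← ha, F.smull, y'.2.2, mul_one] at h3
        rw [h3, one_smul] at ha
        rw [Subtype.ext ha.symm]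
    · rintro ⟨L, y, hy, rfl⟩
      by_cases h : F.H y x = 0
      · obtain ⟨a, ha⟩ := hS.par hy hSx h
        have ha0 : a ≠ 0 := by
          rintro rfl
          rw [zero_smul] at ha
          exact hS.ne x hSx ha
        refine ⟨none, Subtype.ext ?_⟩
        show ln K x = ln K y
        rw [ha, ln_smul ha0]
      · refine ⟨some ⟨(F.H y x)⁻¹ • y, hS.sm _ _ (inv_ne_zero h) hy, ?_⟩, Subtype.ext ?_⟩
        · rw [F.smull, inv_mul_cancel₀ h]
        · exact ln_smul (inv_ne_zero h) y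
  rw [← Nat.card_congr (Equiv.ofBijective f hf), Finite.card_option]

/-- A p-group of semilinear similarities preserving the ovoid fixes a point of it: the number of
points is 1 mod p. -/
theorem fixo [Finite V] [Finite K] {n p : ℕ} (hK : Nat.card K = q ^ 2)
    (hbar : ∀ a, F.bar a = a ^ q) (hV : Module.finrank K V = 2 * n + 2) (hS : F.Ov S)
    [Fact p.Prime] [CharP K p] (P : Subgroup (Equiv.Perm V)) (hP : IsPGroup p P)
    (hs : ∀ g ∈ P, Sem F g) (hp : ∀ g ∈ P, ∀ y, S y → S (g y)) :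
    ∃ x, S x ∧ ∀ g ∈ P, g '' ln K x = ln K x := by
  have hpp : p.Prime := Fact.out
  obtain ⟨M, -, hM⟩ := F.exists_max F.TI_bot
  obtain ⟨x0, -, hx0⟩ := hS.ex M hM
  obtain ⟨k, hk⟩ := cntp hK hbar hpp hS hx0
  have h1 := cntlow hK hbar hV hS hx0
  have h2 := Ovo.two_le_q hK
  rw [hk] at h1
  have hk0 : k ≠ 0 := by
    rintro rfl
    rw [pow_zero, pow_succ] at h1
    have := Nat.one_le_pow (2 * n) q (by omega)
    nlinarith
  have hnd : ¬ p ∣ Nat.card {L : Set V // ∃ y, S y ∧ L = ln K y} := by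
    rw [cnto hS hx0, hk]
    intro h
    have h3 := (Nat.dvd_add_right (dvd_pow_self p hk0)).1 h
    exact hpp.one_lt.ne' (Nat.dvd_one.1 h3)
  let act : MulAction P {L : Set V // ∃ y, S y ∧ L = ln K y} :=
    { smul := fun g L => ⟨(g : Equiv.Perm V) '' L.1, by
        obtain ⟨y, hy, hL⟩ := L.2
        exact ⟨(g : Equiv.Perm V) y, hp g g.2 y hy, by rw [hL, im_ln (hs g g.2)]⟩⟩
      one_smul := fun L => Subtype.ext (by
        show ((1 : P) : Equiv.Perm V) '' L.1 = L.1
        rw [Subgroup.coe_one, Equiv.Perm.coe_one, Set.image_id])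
      mul_smul := fun g g' L => Subtype.ext (by
        show ((g * g' : P) : Equiv.Perm V) '' L.1 = (g : Equiv.Perm V) '' ((g' : Equiv.Perm V) '' L.1)
        rw [Subgroup.coe_mul, Equiv.Perm.coe_mul, Set.image_comp]) }
  obtain ⟨⟨L, y, hy, rfl⟩, hL⟩ := hP.nonempty_fixed_point_of_prime_not_dvd_card _ hnd
  refine ⟨y, hy, fun g hg => ?_⟩
  exact congrArg Subtype.val (hL ⟨g, hg⟩)

/-- `sylo` for the action on sets. -/
theorem sylp [Finite V] {p k : ℕ} [Fact p.Prime] (G : Subgroup (Equiv.Perm V)) (Q : Sylow p G)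
    (L : Set V) (h : p ^ k ∣ Nat.card {T : Set V // ∃ g ∈ G, g '' L = T}) :
    p ^ k ≤ Nat.card {T : Set V // ∃ g ∈ (Q : Subgroup G).map G.subtype, g '' L = T} := by
  let act : MulAction G (Set V) :=
    { smul := fun g T => (g : Equiv.Perm V) '' T
      one_smul := fun T => by
        show ((1 : G) : Equiv.Perm V) '' T = T
        rw [Subgroup.coe_one, Equiv.Perm.coe_one, Set.image_id]
      mul_smul := fun g g' T => by
        show ((g * g' : G) : Equiv.Perm V) '' T = (g : Equiv.Perm V) '' ((g' : Equiv.Perm V) '' T)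
        rw [Subgroup.coe_mul, Equiv.Perm.coe_mul, Set.image_comp] }
  have hO : Nat.card (MulAction.orbit G L) = Nat.card {T : Set V // ∃ g ∈ G, g '' L = T} := by
    refine Nat.card_congr (Equiv.subtypeEquivRight fun T => ?_)
    constructor
    · rintro ⟨g, hg⟩
      exact ⟨g, g.2, hg⟩
    · rintro ⟨g, hg, hT⟩
      exact ⟨⟨g, hg⟩, hT⟩
  rw [← hO] at h
  refine (Two.sylo Q L h).trans (le_of_eq ?_)
  refine Nat.card_congr (Equiv.subtypeEquivRight fun T => ?_)
  constructor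
  · rintro ⟨g, hg⟩
    exact ⟨((g : G) : Equiv.Perm V), ⟨g, g.2, rfl⟩, hg⟩
  · rintro ⟨g, ⟨g', hg', rfl⟩, hT⟩
    exact ⟨⟨g', hg'⟩, hT⟩

/-- The orbits of the linear part of a p-group. -/
theorem linp [Finite V] [Finite K] {n p : ℕ} (hn : 2 ≤ n) (hK : Nat.card K = q ^ 2)
    (hbar : ∀ a, F.bar a = a ^ q) (hV : Module.finrank K V = 2 * n + 2) (hS : F.Ov S)
    [Fact p.Prime] [CharP K p] (P : Subgroup (Equiv.Perm V)) (hP : IsPGroup p P)
    (hs : ∀ g ∈ P, Sem F g) (hp : ∀ g ∈ P, ∀ y, S y → S (g y)) {y0 : V} (hy0 : S y0) :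
    Nat.card {T : Set V // ∃ g ∈ lin K P, g '' ln K y0 = T} ≤ q ^ (2 * n) := by
  have hpv : ∀ v : V, p • v = 0 := fun v => by
    rw [← Nat.cast_smul_eq_nsmul K p v, CharP.cast_eq_zero, zero_smul]
  obtain ⟨x, hSx, hfx⟩ := fixo hK hbar hV hS P hP hs hp
  have hlin : ∀ g ∈ lin K P, ∃ g' ∈ P, ∀ v, g' v = g v := fun g hg => ⟨_, hg, fun v => rfl⟩
  have hx : ∀ g ∈ lin K P, ∃ a : K, g x = a • x := by
    intro g hg
    obtain ⟨g', hg', h1⟩ := hlin g hg
    have h2 : g' x ∈ ln K x := by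
      rw [← hfx g' hg']
      exact ⟨x, self_ln x, rfl⟩
    obtain ⟨a, ha⟩ := mem_ln.1 h2
    exact ⟨a, by rw [ha, h1]⟩
  have hpr : ∀ g ∈ lin K P, ∀ y, S y → S (g y) := by
    intro g hg y hy
    obtain ⟨g', hg', h1⟩ := hlin g hg
    rw [← h1]
    exact hp g' hg' y hy
  by_cases h : F.H y0 x = 0
  · obtain ⟨a, ha⟩ := hS.par hy0 hSx h
    have ha0 : a ≠ 0 := by
      rintro rfl
      rw [zero_smul] at ha
      exact hS.ne x hSx ha
    have hL : ln K y0 = ln K x := by rw [ha, ln_smul ha0]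
    have hsub : Subsingleton {T : Set V // ∃ g ∈ lin K P, g '' ln K y0 = T} := by
      have key : ∀ T : {T : Set V // ∃ g ∈ lin K P, g '' ln K y0 = T}, T.1 = ln K x := by
        rintro ⟨T, g, hg, rfl⟩
        obtain ⟨g', hg', h1⟩ := hlin g hg
        rw [← hfx g' hg', hL]
        exact Set.image_congr fun v _ => (h1 v).symm
      exact ⟨fun T T' => Subtype.ext ((key T).trans (key T').symm)⟩
    have h1 := Ovo.two_le_q hK
    exact (Finite.card_le_one_iff_subsingleton.2 hsub).trans (Nat.one_le_pow _ _ (by omega))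
  · have h1 : ln K y0 = ln K ((F.H y0 x)⁻¹ • y0) := (ln_smul (inv_ne_zero h) y0).symm
    rw [h1]
    refine (bjc (lin K P) _).trans ?_
    exact Two.asmg hn hK hbar hV hS hSx hpv (lin K P) (lp P hP) (liso P hP hs) hpr hx
      (hS.sm _ _ (inv_ne_zero h) hy0) (by rw [F.smull, inv_mul_cancel₀ h])

/-- Semilinear similarities: a power of p dividing the length of an orbit. -/
theorem osem [Finite V] [Finite K] {n p k : ℕ} (hn : 2 ≤ n) (hK : Nat.card K = q ^ 2)
    (hbar : ∀ a, F.bar a = a ^ q) (hV : Module.finrank K V = 2 * n + 2) (hS : F.Ov S)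
    [Fact p.Prime] [CharP K p] (G : Subgroup (Equiv.Perm V))
    (hs : ∀ g ∈ G, Sem F g) (hp : ∀ g ∈ G, ∀ y, S y → S (g y)) {y0 : V} (hy0 : S y0)
    (h : p ^ k ∣ Nat.card {T : Set V // ∃ g ∈ G, g '' ln K y0 = T}) :
    p ^ k ≤ Nat.card (K ≃+* K) * q ^ (2 * n) := by
  let Q : Sylow p G := default
  have hPG : ∀ g ∈ (Q : Subgroup G).map G.subtype, g ∈ G := by
    rintro g ⟨y, -, rfl⟩
    exact y.2
  have hP : IsPGroup p ((Q : Subgroup G).map G.subtype) := Q.isPGroup'.map _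
  have i1 : Finite (K ≃+* K) :=
    Finite.of_injective (fun g : K ≃+* K => (g : K → K)) DFunLike.coe_injective
  refine (sylp G Q _ h).trans ((fibc _ (fun g hg => hs g (hPG g hg)) _).trans ?_)
  exact Nat.mul_le_mul_left _ (linp hn hK hbar hV hS _ hP (fun g hg => hs g (hPG g hg))
    (fun g hg => hp g (hPG g hg)) hy0)

/-- Linear isometries: a power of p dividing the length of an orbit. -/
theorem olin [Finite V] [Finite K] {n p k : ℕ} (hn : 2 ≤ n) (hK : Nat.card K = q ^ 2)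
    (hbar : ∀ a, F.bar a = a ^ q) (hV : Module.finrank K V = 2 * n + 2) (hS : F.Ov S)
    [Fact p.Prime] [CharP K p] (G : Subgroup (Equiv.Perm V))
    (hs : ∀ g ∈ G, Sem F g) (hl : ∀ g ∈ G, ∀ (a : K) (v : V), g (a • v) = a • g v)
    (hp : ∀ g ∈ G, ∀ y, S y → S (g y)) {y0 : V} (hy0 : S y0)
    (h : p ^ k ∣ Nat.card {T : Set V // ∃ g ∈ G, g '' ln K y0 = T}) :
    p ^ k ≤ q ^ (2 * n) := by
  let Q : Sylow p G := default
  have hPG : ∀ g ∈ (Q : Subgroup G).map G.subtype, g ∈ G := by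
    rintro g ⟨y, -, rfl⟩
    exact y.2
  have hP : IsPGroup p ((Q : Subgroup G).map G.subtype) := Q.isPGroup'.map _
  refine (sylp G Q _ h).trans (le_trans (le_of_eq ?_) (linp hn hK hbar hV hS _ hP
    (fun g hg => hs g (hPG g hg)) (fun g hg => hp g (hPG g hg)) hy0))
  refine Nat.card_congr (Equiv.subtypeEquivRight fun T => ?_)
  constructor
  · rintro ⟨g, hg, hT⟩
    obtain ⟨σ, c, -, h1, -, -⟩ := hs g (hPG g hg)
    let g0 : V ≃ₗ[K] V :=
      { toFun := g
        map_add' := h1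
        map_smul' := hl g (hPG g hg)
        invFun := g.symm
        left_inv := g.symm_apply_apply
        right_inv := g.apply_symm_apply }
    have h2 : MulAction.toPermHom (V ≃ₗ[K] V) V g0 = g := by
      ext v
      rfl
    refine ⟨g0, ?_, hT⟩
    show MulAction.toPermHom (V ≃ₗ[K] V) V g0 ∈ (Q : Subgroup G).map G.subtype
    rw [h2]
    exact hg
  · rintro ⟨g, hg, hT⟩
    exact ⟨_, hg, hT⟩

end Pool.Agent.Ovp.Orb
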