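import Pool.Agent.Ovp.Len
import Pool.Agent.Ovp.Orb

namespace Pool.Agent.Ovp.Gen

variable {K V : Type} [Field K] [AddCommGroup V] [Module K V]
variable {F : Ovo.HF K V} {S : V → Prop} {x : V} {q : ℕ}

/-- The field automorphisms which occur in G form a group. -/
def fs (K : Type) {V : Type} [Field K] [AddCommGroup V] [Module K V]
    (G : Subgroup (Equiv.Perm V)) : Subgroup (RingAut K) where
  carrier := {s | ∃ g ∈ G, ∀ (a : K) (v : V), g (a • v) = s a • g v}
  mul_mem' := by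
    rintro s t ⟨g, hg, hs⟩ ⟨h, hh, ht⟩
    refine ⟨g * h, G.mul_mem hg hh, fun a v => ?_⟩
    show g (h (a • v)) = (s (t a)) • g (h v)
    rw [ht, hs]
  one_mem' := ⟨1, G.one_mem, fun a v => rfl⟩
  inv_mem' := by
    rintro s ⟨g, hg, hs⟩
    refine ⟨g⁻¹, G.inv_mem hg, fun a v => ?_⟩
    apply g.injective
    have h1 : g (g⁻¹ (a • v)) = a • v := Equiv.apply_symm_apply g _
    have h2 : g (g⁻¹ v) = v := Equiv.apply_symm_apply g _
    have h3 : s (s⁻¹ a) = a := RingEquiv.apply_symm_apply s a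
    rw [h1, hs, h2, h3]

theorem fdvd {P G : Subgroup (Equiv.Perm V)} (h : P ≤ G) :
    Nat.card (Len.fld K P) ∣ Nat.card (Len.fld K G) := by
  have h1 : fs K P ≤ fs K G := by
    rintro s ⟨g, hg, hs⟩
    exact ⟨g, h hg, hs⟩
  exact Subgroup.card_dvd_of_le h1

/-- The orbit of a set under a p-group has p-power length. -/
theorem ppow [Finite V] {p : ℕ} [Fact p.Prime] (P : Subgroup (Equiv.Perm V)) (hP : IsPGroup p P)
    (L : Set V) : ∃ e, Nat.card {T : Set V // ∃ g ∈ P, g '' L = T} = p ^ e := by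
  let := Len.actS V
  obtain ⟨e, he⟩ := hP.card_orbit L
  refine ⟨e, ?_⟩
  rw [← he]
  refine Nat.card_congr (Equiv.subtypeEquivRight fun T => ?_)
  constructor
  · rintro ⟨g, hg, h⟩
    exact ⟨⟨g, hg⟩, h⟩
  · rintro ⟨g, h⟩
    exact ⟨g, g.2, h⟩

/-- No fixed point: `Len.htwo` for a Sylow p-subgroup, which fixes a point of the ovoid. -/
theorem htwo0 [Finite V] [Finite K] {n : ℕ} (hn : 2 ≤ n) (hK : Nat.card K = q ^ 2)
    (hbar : ∀ a, F.bar a = a ^ q) (hV : Module.finrank K V = 2 * n + 2)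
    (hS : F.Ov S) {p : ℕ} [Fact p.Prime] [CharP K p]
    (G : Subgroup (Equiv.Perm V))
    (hs : ∀ g ∈ G, Col.Sem F g) (hp : ∀ g ∈ G, ∀ y, S y → S (g y)) {y0 : V} (hy0 : S y0) {k : ℕ}
    (h : p ^ k ∣ Nat.card {T : Set V //
      ∃ g ∈ G, g '' ((Submodule.span K {y0} : Submodule K V) : Set V) = T}) :
    ∃ j, p ^ j ∣ Nat.card (Len.fld K G) ∧ p ^ k ≤ p ^ j * q ^ (2 * n) := by
  classical
  have hpp : p.Prime := Fact.out
  have hq := Ovo.two_le_q hK
  let Q : Sylow p G := default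
  have hPG : (Q : Subgroup G).map G.subtype ≤ G := by
    rintro g ⟨y, -, rfl⟩
    exact y.2
  have hP : IsPGroup p ((Q : Subgroup G).map G.subtype) := Q.isPGroup'.map _
  have h1 := Orb.sylp G Q _ h
  obtain ⟨x, hSx, hfx⟩ := Orb.fixo hK hbar hV hS _ hP (fun g hg => hs g (hPG hg))
    (fun g hg => hp g (hPG hg))
  have hx : ∀ g ∈ (Q : Subgroup G).map G.subtype, ∃ a : K, g x = a • x := by
    intro g hg
    have h2 : g x ∈ Orb.ln K x := by
      rw [← hfx g hg]
      exact ⟨x, Orb.self_ln x, rfl⟩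
    obtain ⟨a, ha⟩ := Orb.mem_ln.1 h2
    exact ⟨a, ha.symm⟩
  obtain ⟨e, he⟩ := ppow _ hP ((Submodule.span K {y0} : Submodule K V) : Set V)
  by_cases hy : F.H y0 x = 0
  · obtain ⟨a, ha⟩ := hS.par hSx hy0 (F.sw hy)
    have ha0 : a ≠ 0 := by
      rintro rfl
      exact hS.ne y0 hy0 (by rw [ha, zero_smul])
    have h2 : ((Submodule.span K {y0} : Submodule K V) : Set V) = Orb.ln K x := by
      rw [ha]
      exact Orb.ln_smul ha0 x
    have h3 : Nat.card {T : Set V // ∃ g ∈ (Q : Subgroup G).map G.subtype,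
        g '' ((Submodule.span K {y0} : Submodule K V) : Set V) = T} ≤ 1 := by
      rw [Finite.card_le_one_iff_subsingleton]
      constructor
      rintro ⟨T, g, hg, hT⟩ ⟨T', g', hg', hT'⟩
      apply Subtype.ext
      show T = T'
      rw [← hT, ← hT', h2, hfx g hg, hfx g' hg']
    refine ⟨0, one_dvd _, ?_⟩
    rw [pow_zero, one_mul]
    exact (h1.trans h3).trans (Nat.one_le_pow _ _ (by omega))
  · obtain ⟨j, hj1, hj2⟩ := Len.htwo hn hK hbar hV hS hSx _ (fun g hg => hs g (hPG hg))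
      (fun g hg => hp g (hPG hg)) hx hy0 hy (k := e) (by rw [he])
    refine ⟨j, hj1.trans (fdvd hPG), ?_⟩
    exact (h1.trans_eq he).trans hj2

end Pool.Agent.Ovp.Gen
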