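import Pool.Agent.Ovp.Col

namespace Pool.Agent.Ovp.Len

open scoped LinearAlgebra.Projectivization

variable {K V : Type} [Field K] [AddCommGroup V] [Module K V]
variable {F : Ovo.HF K V} {S : V → Prop} {x : V} {q : ℕ}

/-- The field automorphisms which occur in G. -/
def fld (K : Type) {V : Type} [Field K] [AddCommGroup V] [Module K V]
    (G : Subgroup (Equiv.Perm V)) : Set (K ≃+* K) :=
  {s | ∃ g ∈ G, ∀ (a : K) (v : V), g (a • v) = s a • g v}

/-- Permutations of V act on sets of vectors by images. -/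
@[instance_reducible] def actS (V : Type) : MulAction (Equiv.Perm V) (Set V) where
  smul g T := g '' T
  one_smul T := by
    show (1 : Equiv.Perm V) '' T = T
    simp
  mul_smul g h T := by
    show (g * h : Equiv.Perm V) '' T = g '' (h '' T)
    rw [Set.image_image]
    rfl

/-- |G a| |G_a| = |G| = |range| |ker| = |range| |ker_a| |ker a|, |ker_a| divides |G_a|. -/
theorem dvo {G H α : Type} [Group G] [Finite G] [Group H] [MulAction G α] (σ : G →* H) (a : α) :
    Nat.card (MulAction.orbit G a) ∣ Nat.card σ.range * Nat.card (MulAction.orbit σ.ker a) := by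
  have h1 : Nat.card (MulAction.stabilizer G a) * Nat.card (MulAction.orbit G a) =
      Nat.card G := by
    rw [← Subgroup.card_mul_index (MulAction.stabilizer G a), MulAction.index_stabilizer,
      Nat.card_coe_set_eq]
  have h2 : Nat.card (MulAction.stabilizer σ.ker a) * Nat.card (MulAction.orbit σ.ker a) =
      Nat.card σ.ker := by
    rw [← Subgroup.card_mul_index (MulAction.stabilizer σ.ker a), MulAction.index_stabilizer,
      Nat.card_coe_set_eq]
  have h3 : Nat.card σ.ker * Nat.card σ.range = Nat.card G := by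
    rw [← Subgroup.card_mul_index σ.ker, Subgroup.index_ker]
  have h4 : Nat.card (MulAction.stabilizer σ.ker a) ∣ Nat.card (MulAction.stabilizer G a) := by
    have h5 : (MulAction.stabilizer σ.ker a).map σ.ker.subtype ≤ MulAction.stabilizer G a := by
      rintro g ⟨g', hg', rfl⟩
      exact hg'
    have h6 := Subgroup.card_dvd_of_le h5
    rwa [Subgroup.card_map_of_injective σ.ker.subtype_injective] at h6
  obtain ⟨m, hm⟩ := h4
  refine ⟨m, ?_⟩
  apply Nat.eq_of_mul_eq_mul_left (Nat.card_pos : 0 < Nat.card (MulAction.stabilizer σ.ker a))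
  rw [← h3, ← h2, hm] at h1
  linarith

/-- The automorphism s of g is unique (x ≠ 0), so g ↦ s is a homomorphism. -/
theorem sh (hx : x ≠ 0) (G : Subgroup (Equiv.Perm V))
    (hG : ∀ g ∈ G, ∃ s : K ≃+* K, ∀ (a : K) (v : V), g (a • v) = s a • g v)
    (h0 : ∀ g ∈ G, g 0 = 0) :
    ∃ σ : G →* RingAut K, (∀ (g : G) (a : K) (v : V),
      (g : Equiv.Perm V) (a • v) = (σ g) a • (g : Equiv.Perm V) v) ∧
      Nat.card (fld K G) = Nat.card σ.range := by
  have hne : ∀ g ∈ G, g x ≠ 0 := by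
    intro g hg h
    apply hx
    apply g.injective
    rw [h, h0 g hg]
  have huniq : ∀ g ∈ G, ∀ s s' : K ≃+* K, (∀ (a : K) (v : V), g (a • v) = s a • g v) →
      (∀ (a : K) (v : V), g (a • v) = s' a • g v) → s = s' := by
    intro g hg s s' h h'
    ext a
    have h1 : (s a - s' a) • g x = 0 := by rw [sub_smul, ← h, ← h', sub_self]
    rcases smul_eq_zero.1 h1 with h2 | h2
    · exact sub_eq_zero.1 h2
    · exact absurd h2 (hne g hg)
  choose! s hs using hG
  let σ : G →* RingAut K := MonoidHom.mk' (fun g => s g) (by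
    rintro ⟨g, hg⟩ ⟨h, hh⟩
    apply huniq (g * h) (G.mul_mem hg hh)
    · exact hs _ (G.mul_mem hg hh)
    · intro a v
      show g (h (a • v)) = (s g) ((s h) a) • g (h v)
      rw [hs h hh, hs g hg])
  refine ⟨σ, fun g a v => hs g g.2 a v, ?_⟩
  have h1 : fld K G = (σ.range : Set (RingAut K)) := by
    ext t
    constructor
    · rintro ⟨g, hg, ht⟩
      exact ⟨⟨g, hg⟩, huniq g hg _ _ (hs g hg) ht⟩
    · rintro ⟨⟨g, hg⟩, rfl⟩
      exact ⟨g, hg, hs g hg⟩
  rw [h1]
  rfl

/-- span {g y} ↔ point of g y: a bijection between the two orbits (elements of ker σ are linear). -/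
theorem otr (G : Subgroup (Equiv.Perm V)) (ha : ∀ g ∈ G, ∀ u v : V, g (u + v) = g u + g v)
    (σ : G →* RingAut K)
    (hσ : ∀ (g : G) (a : K) (v : V), (g : Equiv.Perm V) (a • v) = (σ g) a • (g : Equiv.Perm V) v)
    (hu : ∀ g : G, (∀ (a : K) (v : V), (g : Equiv.Perm V) (a • v) = a • (g : Equiv.Perm V) v) →
      σ g = 1) {y : V} (hy : y ≠ 0) :
    letI := actS V
    Nat.card (MulAction.orbit σ.ker ((Submodule.span K {y} : Submodule K V) : Set V)) =
      Nat.card (MulAction.orbit (Col.lin K G) (Projectivization.mk K y hy)) := by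
  let := actS V
  have hsub : ∀ (g : V ≃ₗ[K] V) (P : ℙ K V), P = g • Projectivization.mk K y hy →
      (P.submodule : Set V) = g '' ((Submodule.span K {y} : Submodule K V) : Set V) := by
    rintro g P rfl
    have hgy : g y ≠ 0 := fun h => hy (g.map_eq_zero_iff.1 h)
    have h1 : g • Projectivization.mk K y hy = Projectivization.mk K (g y) hgy := rfl
    rw [h1, Projectivization.submodule_mk]
    ext w
    constructor
    · intro hw
      obtain ⟨a, rfl⟩ := Submodule.mem_span_singleton.1 hw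
      exact ⟨a • y, Submodule.smul_mem _ _ (Submodule.mem_span_singleton_self y), map_smul g a y⟩
    · rintro ⟨w', hw', rfl⟩
      obtain ⟨a, rfl⟩ := Submodule.mem_span_singleton.1 hw'
      rw [map_smul]
      exact Submodule.smul_mem _ _ (Submodule.mem_span_singleton_self _)
  have hmem : ∀ P : MulAction.orbit (Col.lin K G) (Projectivization.mk K y hy),
      (P.1.submodule : Set V) ∈
        MulAction.orbit σ.ker ((Submodule.span K {y} : Submodule K V) : Set V) := by
    rintro ⟨P, ⟨g, hg⟩, hP⟩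
    have hg' : MulAction.toPermHom (V ≃ₗ[K] V) V g ∈ G := hg
    have hk : (⟨_, hg'⟩ : G) ∈ σ.ker := hu ⟨_, hg'⟩ (fun a v => map_smul g a v)
    refine ⟨⟨⟨_, hg'⟩, hk⟩, ?_⟩
    exact (hsub g P hP.symm).symm
  let f : MulAction.orbit (Col.lin K G) (Projectivization.mk K y hy) →
      MulAction.orbit σ.ker ((Submodule.span K {y} : Submodule K V) : Set V) :=
    fun P => ⟨_, hmem P⟩
  have hf : Function.Bijective f := by
    constructor
    · intro P Q h
      have h1 : (P.1.submodule : Set V) = (Q.1.submodule : Set V) := congrArg Subtype.val h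
      exact Subtype.ext (Projectivization.submodule_injective (SetLike.coe_injective h1))
    · rintro ⟨T, ⟨⟨g, hg⟩, hk⟩, rfl⟩
      have hlin : ∀ (a : K) (v : V), g (a • v) = a • g v := by
        intro a v
        have h1 := hσ ⟨g, hg⟩ a v
        rw [(MonoidHom.mem_ker).1 hk] at h1
        exact h1
      let g0 : V ≃ₗ[K] V :=
        { g with
          map_add' := ha g hg
          map_smul' := hlin }
      have hg0 : g0 ∈ Col.lin K G := by
        show MulAction.toPermHom (V ≃ₗ[K] V) V g0 ∈ G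
        have h1 : MulAction.toPermHom (V ≃ₗ[K] V) V g0 = g := by
          ext v
          rfl
        rw [h1]
        exact hg
      refine ⟨⟨g0 • Projectivization.mk K y hy, ⟨g0, hg0⟩, rfl⟩, ?_⟩
      apply Subtype.ext
      exact hsub g0 _ rfl
  exact (Nat.card_congr (Equiv.ofBijective f hf)).symm

/-- σ from `sh`; `dvo`, `otr`; p ^ k = p ^ j * p ^ i with p ^ j dividing the number of field
automorphisms and p ^ i the length of the orbit of the linear part; a Sylow p-subgroup of the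
linear part consists of isometries (`Col.liso`), `sylo` and `Two.asmg` bound p ^ i. -/
theorem htwo [Finite V] [Finite K] {n : ℕ} (hn : 2 ≤ n) (hK : Nat.card K = q ^ 2)
    (hbar : ∀ a, F.bar a = a ^ q) (hV : Module.finrank K V = 2 * n + 2)
    (hS : F.Ov S) (hSx : S x) {p : ℕ} [Fact p.Prime] [CharP K p]
    (G : Subgroup (Equiv.Perm V))
    (hs : ∀ g ∈ G, Col.Sem F g) (hp : ∀ g ∈ G, ∀ y, S y → S (g y))
    (hx : ∀ g ∈ G, ∃ a : K, g x = a • x) {y0 : V} (hy0 : S y0) (hy1 : F.H y0 x ≠ 0) {k : ℕ}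
    (h : p ^ k ∣ Nat.card {T : Set V //
      ∃ g ∈ G, g '' ((Submodule.span K {y0} : Submodule K V) : Set V) = T}) :
    ∃ j, p ^ j ∣ Nat.card (fld K G) ∧ p ^ k ≤ p ^ j * q ^ (2 * n) := by
  classical
  let := actS V
  have hpp : p.Prime := Fact.out
  have hx0 := hS.ne x hSx
  have hpv : ∀ v : V, p • v = 0 := fun v => by
    rw [← Nat.cast_smul_eq_nsmul K p v, CharP.cast_eq_zero, zero_smul]
  have ha : ∀ g ∈ G, ∀ u v : V, g (u + v) = g u + g v := by
    intro g hg
    obtain ⟨σ, c, -, h1, -, -⟩ := hs g hg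
    exact h1
  have h0 : ∀ g ∈ G, g 0 = 0 := by
    intro g hg
    have h1 := ha g hg 0 0
    rw [add_zero] at h1
    exact left_eq_add.1 h1
  obtain ⟨σ, hσ, hd⟩ := sh hx0 G (fun g hg => by
    obtain ⟨s, c, -, -, h1, -⟩ := hs g hg
    exact ⟨s, h1⟩) h0
  have hu : ∀ g : G, (∀ (a : K) (v : V), (g : Equiv.Perm V) (a • v) = a • (g : Equiv.Perm V) v) →
      σ g = 1 := by
    intro g hg
    ext a
    have h1 : ((σ g) a - a) • (g : Equiv.Perm V) x = 0 := by
      rw [sub_smul, ← hσ, ← hg, sub_self]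
    rcases smul_eq_zero.1 h1 with h2 | h2
    · exact sub_eq_zero.1 h2
    · exact absurd ((g : Equiv.Perm V).injective (h2.trans (h0 g g.2).symm)) hx0
  obtain ⟨y1, hy1e⟩ : ∃ y1, y1 = (F.H y0 x)⁻¹ • y0 := ⟨_, rfl⟩
  have hSy1 : S y1 := by
    rw [hy1e]
    exact hS.sm _ _ (inv_ne_zero hy1) hy0
  have hy1x : F.H y1 x = 1 := by
    rw [hy1e, F.smull, inv_mul_cancel₀ hy1]
  have hy10 : y1 ≠ 0 := hS.ne _ hSy1
  have hsp : Submodule.span K {y0} = Submodule.span K {y1} := by
    rw [hy1e]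
    exact (Submodule.span_singleton_smul_eq (IsUnit.mk0 _ (inv_ne_zero hy1)) y0).symm
  rw [hsp] at h
  have hcard : Nat.card {T : Set V //
      ∃ g ∈ G, g '' ((Submodule.span K {y1} : Submodule K V) : Set V) = T} =
      Nat.card (MulAction.orbit G ((Submodule.span K {y1} : Submodule K V) : Set V)) := by
    apply Nat.card_congr
    apply Equiv.subtypeEquivRight
    intro T
    constructor
    · rintro ⟨g, hg, hT⟩
      exact ⟨⟨g, hg⟩, hT⟩
    · rintro ⟨⟨g, hg⟩, hT⟩
      exact ⟨g, hg, hT⟩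
  rw [hcard] at h
  have h1 := h.trans (dvo σ ((Submodule.span K {y1} : Submodule K V) : Set V))
  obtain ⟨a, b, h2, h3, h4⟩ := (Nat.dvd_mul).1 h1
  obtain ⟨j, -, hj⟩ := (Nat.dvd_prime_pow hpp).1 ⟨b, h4.symm⟩
  obtain ⟨i, -, hi⟩ := (Nat.dvd_prime_pow hpp).1 ⟨a, by rw [mul_comm]; exact h4.symm⟩
  subst hj
  subst hi
  refine ⟨j, by rw [hd]; exact h2, ?_⟩
  rw [← h4]
  apply Nat.mul_le_mul_left
  rw [otr G ha σ hσ hu hy10] at h3
  have i1 : Finite (V ≃ₗ[K] V) :=
    Finite.of_injective (fun g : V ≃ₗ[K] V => (g : V → V)) DFunLike.coe_injective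
  let Q : Sylow p (Col.lin K G) := default
  have hPG : ∀ g ∈ (Q : Subgroup (Col.lin K G)).map (Col.lin K G).subtype, g ∈ Col.lin K G := by
    rintro g ⟨y, -, rfl⟩
    exact y.2
  have hP : IsPGroup p ((Q : Subgroup (Col.lin K G)).map (Col.lin K G).subtype) :=
    Q.isPGroup'.map _
  have hsy := Two.sylo Q _ h3
  have hP' := hP.map (MulAction.toPermHom (V ≃ₗ[K] V) V)
  have hiso := Col.liso (F := F) (K := K) _ hP' (by
    rintro g ⟨g', hg', rfl⟩
    exact hs _ (hPG g' hg'))
  have h5 := Two.asmg hn hK hbar hV hS hSx hpv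
    ((Q : Subgroup (Col.lin K G)).map (Col.lin K G).subtype) hP
    (fun g hg => hiso g (by exact ⟨g, hg, rfl⟩))
    (fun g hg y hy => hp _ (hPG g hg) y hy) (fun g hg => hx _ (hPG g hg)) hSy1 hy1x
  refine hsy.trans (le_trans ?_ h5)
  have hne : ∀ y : {y : V // ∃ g ∈ (Q : Subgroup (Col.lin K G)).map (Col.lin K G).subtype,
      g y1 = y}, y.1 ≠ 0 := by
    rintro ⟨y, g, -, rfl⟩
    exact fun h0 => hy10 (g.map_eq_zero_iff.1 h0)
  have hin : ∀ y : {y : V // ∃ g ∈ (Q : Subgroup (Col.lin K G)).map (Col.lin K G).subtype,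
      g y1 = y}, Projectivization.mk K y.1 (hne y) ∈
        MulAction.orbit (Q : Subgroup (Col.lin K G)) (Projectivization.mk K y1 hy10) := by
    rintro ⟨y, g, ⟨g', hg', rfl⟩, rfl⟩
    exact ⟨⟨g', hg'⟩, rfl⟩
  refine Nat.card_le_card_of_surjective (fun y => (⟨_, hin y⟩ :
    MulAction.orbit (Q : Subgroup (Col.lin K G)) (Projectivization.mk K y1 hy10))) ?_
  rintro ⟨_, ⟨g, rfl⟩⟩
  exact ⟨⟨(g : Col.lin K G).1 y1, (g : Col.lin K G).1, ⟨g, g.2, rfl⟩, rfl⟩, Subtype.ext rfl⟩

/-- `Col.orbS`, `cntp`, `Col.cntlow` and `htwo`: q ≤ p ^ j ≤ d ≤ |Aut K|. -/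
theorem hone [Finite V] [Finite K] {n : ℕ} (hn : 2 ≤ n) (hK : Nat.card K = q ^ 2)
    (hbar : ∀ a, F.bar a = a ^ q) (hV : Module.finrank K V = 2 * n + 2)
    (hS : F.Ov S) (hSx : S x) (G : Subgroup (Equiv.Perm V))
    (hs : ∀ g ∈ G, Col.Sem F g) (hp : ∀ g ∈ G, ∀ y, S y → S (g y))
    (hx : ∀ g ∈ G, ∃ a : K, g x = a • x)
    (ht : ∀ y y', S y → S y' → F.H y x ≠ 0 → F.H y' x ≠ 0 → ∃ g ∈ G, ∃ l : K, g y = l • y') :
    (q = 2 ∨ q = 4) ∧ Nat.card (fld K G) = q := by
  classical
  obtain ⟨p, hpc⟩ := CharP.exists K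
  have := hpc
  have hpp : p.Prime := CharP.char_is_prime K p
  have : Fact p.Prime := ⟨hpp⟩
  have hq := Ovo.two_le_q hK
  obtain ⟨y0, hy0, hxy0⟩ := Ovo.HF.exists_z hK hbar hS hSx
  have hy0x : F.H y0 x ≠ 0 := fun h => hxy0 (F.sw h)
  obtain ⟨k, hk⟩ := cntp hK hbar hpp hS hSx
  have ho := Col.orbS hS (hS.ne x hSx) G hs hp hx ht hy0 hy0x
  rw [hk] at ho
  obtain ⟨j, hj1, hj2⟩ := htwo hn hK hbar hV hS hSx G hs hp hx hy0 hy0x (p := p) (k := k)
    (by rw [ho])
  have hc := Col.cntlow hK hbar hV hS hSx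
  rw [hk] at hc
  have i0 : Fintype K := Fintype.ofFinite K
  obtain ⟨m, _, hm⟩ := FiniteField.card K p
  rw [← Nat.card_eq_fintype_card] at hm
  obtain ⟨i1, hau⟩ := Col.autk hpp hm
  have := i1
  have h1 : Nat.card (fld K G) ≤ Nat.card (K ≃+* K) :=
    Nat.card_le_card_of_injective (fun s : fld K G => (s : K ≃+* K)) Subtype.val_injective
  have hdpos : 0 < Nat.card (fld K G) := by
    have : Nonempty (fld K G) := ⟨⟨RingEquiv.refl K, 1, G.one_mem, fun a v => rfl⟩⟩
    exact Nat.card_pos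
  have h2 : p ^ j ≤ Nat.card (fld K G) := Nat.le_of_dvd hdpos hj1
  have h3 : q ≤ p ^ j := by
    have h4 : q * q ^ (2 * n) ≤ p ^ j * q ^ (2 * n) := by
      calc q * q ^ (2 * n) = q ^ (2 * n + 1) := by rw [pow_succ, mul_comm]
        _ ≤ p ^ k := hc
        _ ≤ _ := hj2
    exact Nat.le_of_mul_le_mul_right h4 (pow_pos (by omega) _)
  have h5 : q ≤ (m : ℕ) := h3.trans (h2.trans (h1.trans hau))
  have h6 : q ^ 2 = p ^ (m : ℕ) := by rw [← hK, hm]
  have h7 : q = 2 ∨ q = 4 := by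
    by_contra hcon
    push Not at hcon
    have := Col.arq hpp (by omega) h6 hcon.1 hcon.2
    omega
  have h8 : (m : ℕ) = q := by
    have hp2 : p = 2 := by
      have h9 : p ∣ q ^ 2 := by
        rw [h6]
        exact dvd_pow_self p m.ne_zero
      have h10 : p ∣ q := hpp.dvd_of_dvd_pow h9
      rcases h7 with h7 | h7
      · rw [h7] at h10
        exact (Nat.prime_dvd_prime_iff_eq hpp Nat.prime_two).1 h10
      · rw [h7] at h10
        have h11 : p ∣ 2 ^ 2 := h10
        exact (Nat.prime_dvd_prime_iff_eq hpp Nat.prime_two).1 (hpp.dvd_of_dvd_pow h11)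
    subst hp2
    rcases h7 with h7 | h7
    · rw [h7] at h6 ⊢
      exact (Nat.pow_right_injective (le_refl 2) (show 2 ^ 2 = 2 ^ (m : ℕ) from h6)).symm
    · rw [h7] at h6 ⊢
      exact (Nat.pow_right_injective (le_refl 2) (show 2 ^ 4 = 2 ^ (m : ℕ) from by
        rw [← h6]; norm_num)).symm
  exact ⟨h7, by omega⟩

end Pool.Agent.Ovp.Len
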