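import Pool.Agent.Ovp.Asm

namespace Pool.Agent.Ovp

variable {K V : Type} [Field K] [AddCommGroup V] [Module K V]
variable {F : Ovo.HF K V} {S : V → Prop} {x : V}

/-- The restriction of the form to a nondegenerate subspace. -/
def FW (F : Ovo.HF K V) (W : Submodule K V) (hW : ∀ u ∈ W, (∀ v ∈ W, F.H v u = 0) → u = 0) :
    Ovo.HF K W where
  bar := F.bar
  bb := F.bb
  H := fun u v => F.H (u : V) (v : V)
  addl := fun u v w => F.addl _ _ _
  smull := fun a u w => F.smull _ _ _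
  symm := fun u v => F.symm _ _
  nd := fun u hu => Subtype.ext (hW u u.2 (fun v hv => hu ⟨v, hv⟩))

/-- The derived ovoid. -/
def SW (S : V → Prop) (Z W : Submodule K V) (w : W) : Prop :=
  w ≠ 0 ∧ ∃ ζ ∈ Z, S ((w : V) + ζ)

/-- The group induced on `W` modulo `Z` by the stabiliser of `Z` in `P`. -/
def PW (P : Subgroup (V ≃ₗ[K] V)) (Z W : Submodule K V) : Subgroup (W ≃ₗ[K] W) where
  carrier := {h | ∃ g ∈ P, (∀ ζ, g ζ ∈ Z ↔ ζ ∈ Z) ∧ ∀ w : W, ((h w : W) : V) - g (w : V) ∈ Z}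
  mul_mem' := by
    rintro h h' ⟨g, hg, hg1, hg2⟩ ⟨g', hg', hg1', hg2'⟩
    refine ⟨g * g', mul_mem hg hg', fun ζ => (hg1 _).trans (hg1' _), fun w => ?_⟩
    have h1 := Z.add_mem (hg2 (h' w)) ((hg1 _).2 (hg2' w))
    rw [map_sub] at h1
    simpa using h1
  one_mem' := ⟨1, one_mem P, fun ζ => Iff.rfl, fun w => by simp⟩
  inv_mem' := by
    rintro h ⟨g, hg, hg1, hg2⟩
    have e1 : ∀ v, g ((g⁻¹ : V ≃ₗ[K] V) v) = v := fun v => LinearEquiv.apply_symm_apply g v
    have e2 : ∀ v : W, h ((h⁻¹ : W ≃ₗ[K] W) v) = v := fun v => LinearEquiv.apply_symm_apply h v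
    refine ⟨g⁻¹, inv_mem hg, fun ζ => ?_, fun w => ?_⟩
    · rw [← hg1, e1]
    · rw [← hg1, map_sub, e1]
      have h1 := Z.neg_mem (hg2 ((h⁻¹ : W ≃ₗ[K] W) w))
      rw [e2] at h1
      simpa using h1

-- BEGIN row ppeq
private theorem ppeq_sum {ι : Type} (F : Ovo.HF K V) (s : Finset ι) (v : V) (a : ι → K)
    (e : ι → V) (h : ∀ i, F.H v (e i) = 0) : F.H v (∑ i ∈ s, a i • e i) = 0 := by
  classical
  induction s using Finset.induction_on with
  | empty => rw [Finset.sum_empty, F.zeror]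
  | insert i s hi ih => rw [Finset.sum_insert hi, F.addr, F.smulr, h i, mul_zero, ih, add_zero]

/-- pp F T is the kernel of v ↦ (H v (e i)), e a basis of T (k = finrank T vectors), which is
onto K^k by `dualv`; rank-nullity. -/
theorem ppeq [Finite V] [Finite K] (F : Ovo.HF K V) (T : Submodule K V) :
    Module.finrank K V = Module.finrank K (pp F T) + Module.finrank K T := by
  classical
  have i2 : Module.Finite K V := Module.Finite.of_finite
  let b := Module.finBasis K T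
  let Φ : V →ₗ[K] (Fin (Module.finrank K T) → K) :=
    { toFun := fun v i => F.H v (b i : V)
      map_add' := fun u v => funext fun i => F.addl u v (b i : V)
      map_smul' := fun a v => funext fun i => F.smull a v (b i : V) }
  have h1 := LinearMap.finrank_range_add_finrank_ker Φ
  have hli : LinearIndependent K (fun i => (b i : V)) :=
    b.linearIndependent.map' T.subtype (Submodule.ker_subtype T)
  have h2 : LinearMap.range Φ = ⊤ := by
    rw [LinearMap.range_eq_top]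
    intro c
    obtain ⟨v, hv⟩ := dualv (F := F) (fun i => (b i : V)) hli c
    exact ⟨v, funext hv⟩
  rw [h2, finrank_top, Module.finrank_fin_fun] at h1
  have h3 : LinearMap.ker Φ = pp F T := by
    refine le_antisymm ?_ ?_
    · intro v hv t ht
      have h4 : ∀ i, F.H v (b i : V) = 0 := fun i => congrFun (LinearMap.mem_ker.1 hv) i
      have h5 : t = ∑ i, b.repr ⟨t, ht⟩ i • (b i : V) := by
        have h6 := congrArg (fun u : T => (u : V)) (b.sum_repr ⟨t, ht⟩)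
        simp only [Submodule.coe_sum, Submodule.coe_smul] at h6
        exact h6.symm
      rw [h5]
      exact ppeq_sum F _ v _ _ h4
    · intro v hv
      rw [LinearMap.mem_ker]
      exact funext fun i => hv _ (b i).2
  rw [h3] at h1
  omega
-- END row ppeq

-- BEGIN row ppp
/-- T ≤ pp (pp T), equal dimensions by `ppeq` twice. -/
theorem ppp [Finite V] [Finite K] (F : Ovo.HF K V) (T : Submodule K V) :
    pp F (pp F T) = T := by
  have h1 : T ≤ pp F (pp F T) := fun t ht s hs => F.sw (hs t ht)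
  have h2 := ppeq F T
  have h3 := ppeq F (pp F T)
  exact (Submodule.eq_of_le_of_finrank_eq h1 (by omega)).symm
-- END row ppp

-- BEGIN row isoqg
private theorem isoqg_inv (P : Subgroup (V ≃ₗ[K] V))
    (hi : ∀ g ∈ P, ∀ u v, F.H (g u) (g v) = F.H u v) (U : Submodule K V)
    (hU : ∀ g ∈ P, ∀ v ∈ U, g v ∈ U) : ∀ g ∈ P, ∀ v ∈ pp F U, g v ∈ pp F U := by
  intro g hg v hv t ht
  have h1 : g⁻¹ t ∈ U := hU g⁻¹ (P.inv_mem hg) t ht
  have h2 : F.H v (g⁻¹ t) = 0 := hv _ h1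
  have h3 : g (g⁻¹ t) = t := by
    rw [← LinearEquiv.mul_apply, mul_inv_cancel]
    rfl
  rw [← h3, hi g hg, h2]

/-- Exactly the proof of row isoq of Frame.lean (there finrank V = 6, finrank T ≤ 2): T < pp F T
and, if H v v ≠ 0, T < pp F (T ⊔ span v), by `ppdim` and 2 finrank T + 2 ≤ finrank V. -/
theorem isoqg [Finite V] [Finite K] {q : ℕ} (hK : Nat.card K = q ^ 2)
    (hbar : ∀ a, F.bar a = a ^ q)
    {p : ℕ} [Fact p.Prime] (hp : ∀ v : V, p • v = 0)
    (P : Subgroup (V ≃ₗ[K] V)) (hP : IsPGroup p P) (hi : ∀ g ∈ P, ∀ u v, F.H (g u) (g v) = F.H u v)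
    (T : Submodule K V) (hT : F.TI T)
    (hT2 : 2 * Module.finrank K T + 2 ≤ Module.finrank K V)
    (hTg : ∀ g ∈ P, ∀ v ∈ T, g v ∈ T) :
    ∃ v, v ∉ T ∧ F.H v v = 0 ∧ (∀ t ∈ T, F.H t v = 0) ∧ ∀ g ∈ P, g v - v ∈ T := by
  have hfin : Module.Finite K V := Module.Finite.of_finite
  have h1 : T < pp F T := by
    refine lt_of_le_of_ne (fun t ht s hs => hT t ht s hs) (fun he => ?_)
    have h2 := ppdim (F := F) T
    rw [← he] at h2
    omega
  obtain ⟨v, hvB, hvT, hvg⟩ := fixq hp P hP T (pp F T) h1 hTg (isoqg_inv P hi T hTg)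
  have hTv : ∀ t ∈ T, F.H t v = 0 := fun t ht => F.sw (hvB t ht)
  by_cases hvv : F.H v v = 0
  · exact ⟨v, hvT, hvv, hTv, hvg⟩
  have hUmem : ∀ u ∈ T ⊔ Submodule.span K {v}, ∃ t ∈ T, ∃ s : K, u = t + s • v := by
    intro u hu
    obtain ⟨t, ht, y, hy, rfl⟩ := Submodule.mem_sup.1 hu
    obtain ⟨s, rfl⟩ := Submodule.mem_span_singleton.1 hy
    exact ⟨t, ht, s, rfl⟩
  have hvU : v ∈ T ⊔ Submodule.span K {v} :=
    Submodule.mem_sup_right (Submodule.mem_span_singleton_self v)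
  have hUg : ∀ g ∈ P, ∀ u ∈ T ⊔ Submodule.span K {v}, g u ∈ T ⊔ Submodule.span K {v} := by
    intro g hg u hu
    obtain ⟨t, ht, s, rfl⟩ := hUmem u hu
    have h3 : g (t + s • v) = (g t + s • (g v - v)) + s • v := by
      rw [map_add, map_smul, smul_sub]
      abel
    rw [h3]
    exact Submodule.add_mem _ (Submodule.mem_sup_left (T.add_mem (hTg g hg t ht)
      (T.smul_mem s (hvg g hg)))) (Submodule.smul_mem _ s hvU)
  have h4 : T < pp F (T ⊔ Submodule.span K {v}) := by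
    refine lt_of_le_of_ne (fun t ht u hu => ?_) (fun he => ?_)
    · obtain ⟨t', ht', s, rfl⟩ := hUmem u hu
      rw [F.addr, F.smulr, hT t ht t' ht', hTv t ht, mul_zero, add_zero]
    · have h5 := ppdim (F := F) (T ⊔ Submodule.span K {v})
      have h6 : Module.finrank K ↥(T ⊔ Submodule.span K {v}) ≤
          Module.finrank K T + Module.finrank K (Submodule.span K {v}) :=
        Submodule.finrank_add_le_finrank_add_finrank T (Submodule.span K {v})
      have h7 : Module.finrank K (Submodule.span K ({v} : Set V)) ≤ 1 := by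
        have := finrank_span_le_card (R := K) ({v} : Set V)
        simpa using this
      rw [← he] at h5
      omega
  obtain ⟨w, hwB, hwT, hwg⟩ := fixq hp P hP T (pp F (T ⊔ Submodule.span K {v})) h4 hTg
    (isoqg_inv P hi _ hUg)
  have hTw : ∀ t ∈ T, F.H t w = 0 := fun t ht => F.sw (hwB t (Submodule.mem_sup_left ht))
  have hwv : F.H w v = 0 := hwB v hvU
  have hvw : F.H v w = 0 := F.sw hwv
  by_cases hww : F.H w w = 0
  · exact ⟨w, hwT, hww, hTw, hwg⟩
  have ha : F.bar (-F.H v v / F.H w w) = -F.H v v / F.H w w := by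
    rw [map_div₀, map_neg, F.self_bar, F.self_bar]
  obtain ⟨l, hl⟩ := normsur hK hbar ha
  refine ⟨v + l • w, ?_, ?_, ?_, ?_⟩
  · intro hmem
    have h8 := hTv _ hmem
    rw [F.addl, F.smull, hwv, mul_zero, add_zero] at h8
    exact hvv h8
  · rw [F.addl, F.addr, F.addr, F.smull, F.smull, F.smulr, F.smulr, hwv, hvw]
    have h9 : l * (F.bar l * F.H w w) = -F.H v v := by
      rw [← mul_assoc, hl, div_mul_cancel₀ _ hww]
    rw [h9]
    ring
  · intro t ht
    rw [F.addr, F.smulr, hTv t ht, hTw t ht, mul_zero, add_zero]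
  · intro g hg
    have h10 : g (v + l • w) - (v + l • w) = (g v - v) + l • (g w - w) := by
      rw [map_add, map_smul, smul_sub]
      abel
    rw [h10]
    exact T.add_mem (hvg g hg) (T.smul_mem l (hwg g hg))
-- END row isoqg

-- BEGIN row exD
private theorem exD_mem {D : Submodule K V} {v u : V} (hu : u ∈ D ⊔ Submodule.span K {v}) :
    ∃ t ∈ D, ∃ s : K, u = t + s • v := by
  obtain ⟨t, ht, y, hy, rfl⟩ := Submodule.mem_sup.1 hu
  obtain ⟨s, rfl⟩ := Submodule.mem_span_singleton.1 hy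
  exact ⟨t, ht, s, rfl⟩

private theorem exD_rank [Finite V] {D : Submodule K V} {v : V} (hv : v ∉ D) :
    Module.finrank K ↥(D ⊔ Submodule.span K {v}) = Module.finrank K D + 1 := by
  have hfin : Module.Finite K V := Module.Finite.of_finite
  have hv0 : v ≠ 0 := fun h => hv (by rw [h]; exact D.zero_mem)
  have h1 := Submodule.finrank_sup_add_finrank_inf_eq D (Submodule.span K {v})
  have h2 : D ⊓ Submodule.span K {v} = ⊥ := by
    rw [eq_bot_iff]
    rintro u ⟨hu1, hu2⟩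
    obtain ⟨s, rfl⟩ := Submodule.mem_span_singleton.1 hu2
    rcases eq_or_ne s 0 with hs | hs
    · rw [hs, zero_smul]
      exact Submodule.zero_mem _
    · exact absurd ((D.smul_mem_iff hs).1 hu1) hv
  rw [h2, finrank_bot, finrank_span_singleton hv0, add_zero] at h1
  exact h1

/-- Induction on j from T = span x (j = 0): T ⊔ span v, v from `isoqg` (TI by `F.TI_sup`;
invariant as g v = v + t; dimension one more). -/
theorem exD [Finite V] [Finite K] {q : ℕ} (hK : Nat.card K = q ^ 2)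
    (hbar : ∀ a, F.bar a = a ^ q)
    {p : ℕ} [Fact p.Prime] (hp : ∀ v : V, p • v = 0)
    (P : Subgroup (V ≃ₗ[K] V)) (hP : IsPGroup p P) (hi : ∀ g ∈ P, ∀ u v, F.H (g u) (g v) = F.H u v)
    (hx0 : x ≠ 0) (hxx : F.H x x = 0) (hx : ∀ g ∈ P, ∃ a : K, g x = a • x)
    (j : ℕ) (hj : 2 * j + 2 ≤ Module.finrank K V) :
    ∃ D : Submodule K V, F.TI D ∧ x ∈ D ∧ (∀ g ∈ P, ∀ v ∈ D, g v ∈ D) ∧
      Module.finrank K D = j + 1 := by
  induction j with
  | zero =>
    refine ⟨Submodule.span K {x}, F.TI_span hxx, Submodule.mem_span_singleton_self x, ?_, ?_⟩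
    · intro g hg v hv
      obtain ⟨s, rfl⟩ := Submodule.mem_span_singleton.1 hv
      obtain ⟨a, ha⟩ := hx g hg
      rw [map_smul, ha]
      exact Submodule.smul_mem _ s (Submodule.smul_mem _ a (Submodule.mem_span_singleton_self x))
    · rw [finrank_span_singleton hx0]
  | succ j ih =>
    obtain ⟨D, hD1, hD2, hD3, hD4⟩ := ih (by omega)
    obtain ⟨v, hv1, hv2, hv3, hv4⟩ := isoqg hK hbar hp P hP hi D hD1 (by rw [hD4]; omega) hD3
    refine ⟨D ⊔ Submodule.span K {v}, F.TI_sup hD1 hv2 hv3, Submodule.mem_sup_left hD2, ?_, ?_⟩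
    · intro g hg u hu
      obtain ⟨t, ht, s, rfl⟩ := exD_mem hu
      have h3 : g (t + s • v) = (g t + s • (g v - v)) + s • v := by
        rw [map_add, map_smul, smul_sub]
        abel
      rw [h3]
      exact Submodule.add_mem _ (Submodule.mem_sup_left (D.add_mem (hD3 g hg t ht)
        (D.smul_mem s (hv4 g hg)))) (Submodule.smul_mem _ s
          (Submodule.mem_sup_right (Submodule.mem_span_singleton_self v)))
    · rw [exD_rank hv1, hD4]
-- END row exD

-- BEGIN row exZ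
/-- the functional v ↦ H v y of D -/
private def exZ_f (F : Ovo.HF K V) (D : Submodule K V) (y : V) : D →ₗ[K] K where
  toFun := fun v => F.H (v : V) y
  map_add' := fun _ _ => F.addl _ _ _
  map_smul' := fun _ _ => F.smull _ _ _

private theorem exZ_mem (F : Ovo.HF K V) (D : Submodule K V) (y v : V) :
    v ∈ (LinearMap.ker (exZ_f F D y)).map D.subtype ↔ v ∈ D ∧ F.H y v = 0 := by
  rw [Submodule.mem_map]
  constructor
  · rintro ⟨u, hu, rfl⟩
    exact ⟨u.2, F.sw hu⟩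
  · rintro ⟨h1, h2⟩
    exact ⟨⟨v, h1⟩, F.sw h2, rfl⟩

private theorem exZ_fr [Finite V] [Finite K] (F : Ovo.HF K V) (D : Submodule K V) {x y : V}
    (hxD : x ∈ D) (hy : F.H y x ≠ 0) :
    Module.finrank K ((LinearMap.ker (exZ_f F D y)).map D.subtype) + 1 = Module.finrank K D := by
  have hfin : Module.Finite K V := Module.Finite.of_finite
  have h1 : Function.Surjective (exZ_f F D y) := by
    intro c
    have h2 : F.H x y ≠ 0 := fun h => hy (F.sw h)
    refine ⟨(c * (F.H x y)⁻¹) • ⟨x, hxD⟩, ?_⟩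
    rw [map_smul]
    show c * (F.H x y)⁻¹ * F.H x y = c
    rw [mul_assoc, inv_mul_cancel₀ h2, mul_one]
  have h3 := LinearMap.finrank_range_add_finrank_ker (exZ_f F D y)
  rw [LinearMap.range_eq_top.2 h1, finrank_top, Module.finrank_self] at h3
  rw [Submodule.finrank_map_subtype_eq, ← h3, add_comm]

/-- Z = D ⊓ {v | H v y0 = 0}: the kernel of a functional of D which is not zero at x. If y is
perpendicular to Z and H y x ≠ 0, then D ⊓ {v | H v y = 0} contains Z and has the same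
dimension (it is not D, x is not in it), so it is Z. -/
theorem exZ [Finite V] [Finite K] {D : Submodule K V} {y0 : V} (hxD : x ∈ D)
    (hy : F.H y0 x ≠ 0) :
    ∃ Z : Submodule K V, Z ≤ D ∧ x ∉ Z ∧ Module.finrank K Z + 1 = Module.finrank K D ∧
      ∀ y, F.H y x ≠ 0 → (∀ ζ ∈ Z, F.H y ζ = 0) → ∀ v, v ∈ Z ↔ (v ∈ D ∧ F.H y v = 0) := by
  have hfin : Module.Finite K V := Module.Finite.of_finite
  refine ⟨(LinearMap.ker (exZ_f F D y0)).map D.subtype, ?_, ?_, exZ_fr F D hxD hy, ?_⟩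
  · intro v hv
    exact ((exZ_mem F D y0 v).1 hv).1
  · intro hx
    exact hy ((exZ_mem F D y0 x).1 hx).2
  · intro y hyx hyZ v
    have h1 : (LinearMap.ker (exZ_f F D y0)).map D.subtype =
        (LinearMap.ker (exZ_f F D y)).map D.subtype := by
      apply Submodule.eq_of_le_of_finrank_eq
      · intro u hu
        exact (exZ_mem F D y u).2 ⟨((exZ_mem F D y0 u).1 hu).1, hyZ u hu⟩
      · have h2 := exZ_fr F D hxD hy
        have h3 := exZ_fr F D hxD hyx
        omega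
    rw [h1]
    exact exZ_mem F D y v
-- END row exZ

-- BEGIN row exW
/-- Z ≤ pp F Z. W a complement of Z inside pp F Z. Dimension: `ppeq`. If u in W is
perpendicular to W, it is perpendicular to Z ⊔ W = pp F Z, so u in pp (pp Z) = Z (`ppp`), so
u = 0. -/
theorem exW [Finite V] [Finite K] {Z : Submodule K V} (hZ : F.TI Z) :
    ∃ W : Submodule K V, Z ⊓ W = ⊥ ∧ Z ⊔ W = pp F Z ∧
      Module.finrank K W + 2 * Module.finrank K Z = Module.finrank K V ∧
      ∀ u ∈ W, (∀ v ∈ W, F.H v u = 0) → u = 0 := by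
  have hle : Z ≤ pp F Z := fun ζ hζ t ht => hZ ζ hζ t ht
  obtain ⟨C, hC⟩ := Z.exists_isCompl
  have h1 : Z ⊓ (C ⊓ pp F Z) = ⊥ := by
    rw [← inf_assoc, hC.inf_eq_bot, bot_inf_eq]
  have h2 : Z ⊔ (C ⊓ pp F Z) = pp F Z := by
    rw [← sup_inf_assoc_of_le C hle, hC.sup_eq_top, top_inf_eq]
  refine ⟨C ⊓ pp F Z, h1, h2, ?_, ?_⟩
  · have h3 := Submodule.finrank_sup_add_finrank_inf_eq Z (C ⊓ pp F Z)
    rw [h1, h2, finrank_bot, add_zero] at h3
    have h4 := ppeq F Z
    omega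
  · intro u hu hv
    have h5 : u ∈ pp F (pp F Z) := by
      intro t ht
      rw [← h2] at ht
      obtain ⟨ζ, hζ, w, hw, rfl⟩ := Submodule.mem_sup.1 ht
      rw [F.addr, hu.2 ζ hζ, F.sw (hv w hw), add_zero]
    rw [ppp] at h5
    have h6 : u ∈ Z ⊓ (C ⊓ pp F Z) := ⟨h5, hu⟩
    rw [h1] at h6
    exact (Submodule.mem_bot K).1 h6
-- END row exW

-- BEGIN row swov
private theorem swov_pp {Z W : Submodule K V} (hs : Z ⊔ W = pp F Z) {w t : V} (hw : w ∈ W)
    (ht : t ∈ Z) : F.H w t = 0 := by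
  have h : w ∈ pp F Z := hs ▸ Submodule.mem_sup_right hw
  exact h t ht

private theorem swov_max {Z W : Submodule K V} (hZ : F.TI Z) (hs : Z ⊔ W = pp F Z)
    (hW : ∀ u ∈ W, (∀ v ∈ W, F.H v u = 0) → u = 0) {M : Submodule K W}
    (hM : Maximal (FW F W hW).TI M) : Maximal F.TI (Z ⊔ M.map W.subtype) := by
  refine ⟨?_, ?_⟩
  · intro a ha b hb
    obtain ⟨z, hz, y, hy, rfl⟩ := Submodule.mem_sup.1 ha
    obtain ⟨z', hz', y', hy', rfl⟩ := Submodule.mem_sup.1 hb
    obtain ⟨m, hm, rfl⟩ := Submodule.mem_map.1 hy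
    obtain ⟨m', hm', rfl⟩ := Submodule.mem_map.1 hy'
    have h1 : F.H (W.subtype m) (W.subtype m') = 0 := hM.1 m hm m' hm'
    have h2 : F.H (W.subtype m) z' = 0 := swov_pp hs m.2 hz'
    have h3 : F.H z (W.subtype m') = 0 := F.sw (swov_pp hs m'.2 hz)
    rw [F.addl, F.addr, F.addr, hZ z hz z' hz', h1, h2, h3]
    simp
  · intro M2 hM2 hle v hv
    have h1 : v ∈ Z ⊔ W := by
      rw [hs]
      exact fun t ht => hM2 v hv t (hle (Submodule.mem_sup_left ht))
    obtain ⟨z, hz, w, hw, rfl⟩ := Submodule.mem_sup.1 h1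
    have hw2 : w ∈ M2 := by
      have h2 := M2.sub_mem hv (hle (Submodule.mem_sup_left hz))
      rwa [add_sub_cancel_left] at h2
    have h3 : (⟨w, hw⟩ : W) ∈ M := by
      refine (FW F W hW).mem_of_perp hM (hM2 w hw2 w hw2) fun m hm => ?_
      exact hM2 (m : V) (hle (Submodule.mem_sup_right (Submodule.mem_map_of_mem hm))) w hw2
    exact Submodule.add_mem _ (Submodule.mem_sup_left hz)
      (Submodule.mem_sup_right (Submodule.mem_map.2 ⟨⟨w, hw⟩, h3, rfl⟩))

/-- ex: M maximal TI in W (subspace of the type W); M1 = Z ⊔ M.map W.subtype is TI; if M2 ≥ M1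
is TI, v in M2, then v in pp F Z = Z ⊔ W, v = ζ + w, w isotropic and perpendicular to M, so
w in M (`Ovo.HF.mem_of_perp` for FW): M1 is maximal. Its ovoid vector is ζ + w, w in M, and
w ≠ 0 by hno. uniq: two such are in M1, so proportional, w2 - a w1 is in Z ⊓ W = ⊥. -/
theorem swov {Z W : Submodule K V} (hS : F.Ov S) (hZ : F.TI Z)
    (hd : Z ⊓ W = ⊥) (hs : Z ⊔ W = pp F Z)
    (hW : ∀ u ∈ W, (∀ v ∈ W, F.H v u = 0) → u = 0) (hno : ∀ ζ ∈ Z, ¬ S ζ) :
    (FW F W hW).Ov (SW S Z W) := by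
  refine ⟨fun w hw => hw.1, ?_, ?_, ?_, ?_⟩
  · rintro w ⟨-, ζ, hζ, h⟩
    have h1 := hS.iso _ h
    rw [F.addl, F.addr, F.addr, swov_pp hs w.2 hζ, F.sw (swov_pp hs w.2 hζ), hZ ζ hζ ζ hζ] at h1
    have h2 : F.H (w : V) (w : V) = 0 := by simpa using h1
    exact h2
  · rintro a w ha ⟨hw, ζ, hζ, h⟩
    refine ⟨smul_ne_zero ha hw, a • ζ, Z.smul_mem a hζ, ?_⟩
    rw [Submodule.coe_smul, ← smul_add]
    exact hS.sm a _ ha h
  · intro M hM
    obtain ⟨v, hv, hSv⟩ := hS.ex _ (swov_max hZ hs hW hM)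
    obtain ⟨z, hz, y, hy, rfl⟩ := Submodule.mem_sup.1 hv
    obtain ⟨m, hm, rfl⟩ := Submodule.mem_map.1 hy
    refine ⟨m, hm, ?_, z, hz, ?_⟩
    · rintro rfl
      rw [map_zero, add_zero] at hSv
      exact hno z hz hSv
    · rw [add_comm]
      exact hSv
  · rintro M hM v hv w hw ⟨-, ζ, hζ, h⟩ ⟨-, ζ', hζ', h'⟩
    have m1 : ∀ (u : W) (η : V), u ∈ M → η ∈ Z → (u : V) + η ∈ Z ⊔ M.map W.subtype :=
      fun u η hu hη => Submodule.add_mem _
        (Submodule.mem_sup_right (Submodule.mem_map.2 ⟨u, hu, rfl⟩)) (Submodule.mem_sup_left hη)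
    obtain ⟨a, ha⟩ := hS.uniq _ (swov_max hZ hs hW hM) _ (m1 v ζ hv hζ) _ (m1 w ζ' hw hζ') h h'
    refine ⟨a, Subtype.ext (sub_eq_zero.1 ?_)⟩
    have h1 : (w : V) - ((a • v : W) : V) = a • ζ - ζ' := by
      rw [Submodule.coe_smul]
      have h2 : (w : V) = a • ((v : V) + ζ) - ζ' := eq_sub_of_add_eq ha
      rw [h2, smul_add]
      abel
    have h3 : (w : V) - ((a • v : W) : V) ∈ Z ⊓ W := by
      refine ⟨?_, W.sub_mem w.2 (a • v).2⟩
      rw [h1]
      exact Z.sub_mem (Z.smul_mem a hζ) hζ'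
    rw [hd] at h3
    exact (Submodule.mem_bot K).1 h3
-- END row swov

-- BEGIN row lif
/-- For w in W, g w is in pp F Z = Z ⊔ W (g isometry, g Z = Z): the component in W is unique
(hd), linear in w, and injective: if g w in Z then w in Z. Finite dimensional, so an
equivalence. -/
theorem lif [Finite V] [Finite K] {Z W : Submodule K V} (hd : Z ⊓ W = ⊥) (hs : Z ⊔ W = pp F Z)
    {g : V ≃ₗ[K] V} (hi : ∀ u v, F.H (g u) (g v) = F.H u v) (hg : ∀ ζ, g ζ ∈ Z ↔ ζ ∈ Z) :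
    ∃ h : W ≃ₗ[K] W, ∀ w : W, ((h w : W) : V) - g (w : V) ∈ Z := by
  have hWp : ∀ w ∈ W, w ∈ pp F Z := fun w hw => hs ▸ Submodule.mem_sup_right hw
  have hz : ∀ v, v ∈ Z → v ∈ W → v = 0 := fun v h1 h2 => by
    have h3 : v ∈ Z ⊓ W := ⟨h1, h2⟩
    rw [hd] at h3
    exact (Submodule.mem_bot K).1 h3
  have hex : ∀ w : W, ∃ w' : W, (w' : V) - g (w : V) ∈ Z := by
    intro w
    have h1 : g (w : V) ∈ pp F Z := by
      intro t ht
      have h2 : g (g.symm t) = t := g.apply_symm_apply t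
      rw [← h2, hi]
      refine hWp w w.2 _ ((hg _).1 ?_)
      rw [h2]
      exact ht
    rw [← hs] at h1
    obtain ⟨z, hz1, w', hw', he⟩ := Submodule.mem_sup.1 h1
    refine ⟨⟨w', hw'⟩, ?_⟩
    have h3 : w' - g (w : V) = -z := by rw [← he]; abel
    show w' - g (w : V) ∈ Z
    rw [h3]
    exact Z.neg_mem hz1
  choose f hf using hex
  have huniq : ∀ a b : W, (a : V) - b ∈ Z → a = b := fun a b h =>
    Subtype.ext (sub_eq_zero.1 (hz _ h (W.sub_mem a.2 b.2)))
  have hadd : ∀ a b, f (a + b) = f a + f b := fun a b => huniq _ _ (by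
    have e : ((f (a + b) : W) : V) - ((f a + f b : W) : V) =
        (((f (a + b) : W) : V) - g ((a + b : W) : V)) - (((f a : W) : V) - g (a : V)) -
          (((f b : W) : V) - g (b : V)) := by
      rw [Submodule.coe_add, Submodule.coe_add, map_add]
      abel
    rw [e]
    exact Z.sub_mem (Z.sub_mem (hf (a + b)) (hf a)) (hf b))
  have hsm : ∀ (c : K) a, f (c • a) = c • f a := fun c a => huniq _ _ (by
    have e : ((f (c • a) : W) : V) - ((c • f a : W) : V) =
        (((f (c • a) : W) : V) - g ((c • a : W) : V)) - c • (((f a : W) : V) - g (a : V)) := by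
      rw [Submodule.coe_smul, Submodule.coe_smul, map_smul, smul_sub]
      abel
    rw [e]
    exact Z.sub_mem (hf (c • a)) (Z.smul_mem c (hf a)))
  let L : W →ₗ[K] W := { toFun := f, map_add' := hadd, map_smul' := hsm }
  have hL : ∀ a, L a = f a := fun _ => rfl
  have hinj : Function.Injective L := by
    rw [injective_iff_map_eq_zero]
    intro a ha
    have h1 := hf a
    rw [← hL, ha] at h1
    have h2 : g (a : V) ∈ Z := by
      have h3 := Z.neg_mem h1
      simpa using h3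
    exact Subtype.ext (hz _ ((hg _).1 h2) a.2)
  exact ⟨LinearEquiv.ofBijective L ⟨hinj, Finite.injective_iff_surjective.1 hinj⟩, fun w => hf w⟩
-- END row lif

-- BEGIN row pwiso
/-- h w = g w + ζ, h w' = g w' + ζ', and g w, g w' are in pp F Z, Z is TI. -/
theorem pwiso {P : Subgroup (V ≃ₗ[K] V)} {Z W : Submodule K V}
    (hi : ∀ g ∈ P, ∀ u v, F.H (g u) (g v) = F.H u v) (hZ : F.TI Z) (hs : Z ⊔ W = pp F Z)
    (hW : ∀ u ∈ W, (∀ v ∈ W, F.H v u = 0) → u = 0) {h : W ≃ₗ[K] W} (hh : h ∈ PW P Z W)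
    (u v : W) : (FW F W hW).H (h u) (h v) = (FW F W hW).H u v := by
  obtain ⟨g, hg, hg1, hg2⟩ := hh
  change F.H ((h u : W) : V) ((h v : W) : V) = F.H (u : V) (v : V)
  have hWp : ∀ w : W, ∀ t ∈ Z, F.H (w : V) t = 0 := by
    intro w t ht
    have h1 : (w : V) ∈ pp F Z := by
      rw [← hs]
      exact Submodule.mem_sup_right w.2
    exact h1 t ht
  have key : ∀ A B a b : V, a ∈ Z → b ∈ Z → (∀ t ∈ Z, F.H A t = 0) → (∀ t ∈ Z, F.H B t = 0) →
      F.H A B = F.H (A - a) (B - b) := by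
    intro A B a b ha hb hA hB
    rw [F.subl, F.subr, F.subr, hA b hb, F.sw (hB a ha), hZ a ha b hb]
    simp
  have h2 := key ((h u : W) : V) ((h v : W) : V) _ _ (hg2 u) (hg2 v) (hWp (h u)) (hWp (h v))
  rw [sub_sub_cancel, sub_sub_cancel, hi g hg] at h2
  exact h2
-- END row pwiso

-- BEGIN row pwpres
/-- S (w + ζ), so S (g w + g ζ), and g w + g ζ = h w + (an element of Z). h w ≠ 0. -/
theorem pwpres {P : Subgroup (V ≃ₗ[K] V)} {Z W : Submodule K V}
    (hp : ∀ g ∈ P, ∀ y, S y → S (g y)) {h : W ≃ₗ[K] W} (hh : h ∈ PW P Z W) (w : W)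
    (hw : SW S Z W w) : SW S Z W (h w) := by
  obtain ⟨g, hg, hg1, hg2⟩ := hh
  obtain ⟨hw0, ζ, hζ, hS⟩ := hw
  refine ⟨fun h0 => hw0 (by simpa using h0), g ζ - (((h w : W) : V) - g (w : V)),
    Z.sub_mem ((hg1 ζ).2 hζ) (hg2 w), ?_⟩
  have e : ((h w : W) : V) + (g ζ - (((h w : W) : V) - g (w : V))) = g ((w : V) + ζ) := by
    rw [map_add]
    abel
  rw [e]
  exact hp g hg _ hS
-- END row pwpres

-- BEGIN row pwx
/-- x = xw + ζ0. g x = a x, so h xw = g xw + ζ1 = a x - g ζ0 + ζ1 = a xw + (an element of Z),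
and the difference is in Z ⊓ W = ⊥. -/
theorem pwx {P : Subgroup (V ≃ₗ[K] V)} {Z W : Submodule K V} (hd : Z ⊓ W = ⊥)
    (hx : ∀ g ∈ P, ∃ a : K, g x = a • x) {xw : W} (hxw : x - (xw : V) ∈ Z)
    {h : W ≃ₗ[K] W} (hh : h ∈ PW P Z W) : ∃ a : K, h xw = a • xw := by
  obtain ⟨g, hg, hgZ, hgh⟩ := hh
  obtain ⟨a, ha⟩ := hx g hg
  refine ⟨a, Subtype.ext ?_⟩
  have h5 : ((h xw : W) : V) - ((a • xw : W) : V) ∈ Z := by
    have h7 : ((h xw : W) : V) - ((a • xw : W) : V) =
        (((h xw : W) : V) - g (xw : V)) + (a • (x - (xw : V)) - g (x - (xw : V))) := by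
      rw [map_sub, ha, Submodule.coe_smul, smul_sub]
      abel
    rw [h7]
    exact Z.add_mem (hgh xw) (Z.sub_mem (Z.smul_mem a hxw) ((hgZ _).2 hxw))
  have h6 : ((h xw : W) : V) - ((a • xw : W) : V) ∈ Z ⊓ W :=
    ⟨h5, W.sub_mem (h xw).2 (a • xw : W).2⟩
  rw [hd, Submodule.mem_bot] at h6
  exact sub_eq_zero.1 h6
-- END row pwx

-- BEGIN row pwtr
/-- y + ζ, y' + ζ' in S. They are perpendicular to Z, and their products with x are those of
y, y' with xw, not 0. ht: g in P with g (y + ζ) = l (y' + ζ'), l ≠ 0. By hc (twice) v in Z iff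
v in D and H (y + ζ) v = 0; g maps D onto D (finite), so g v in Z iff v in Z. `lif` gives h,
in PW, h y = g y + .. = l y' modulo Z, and equal by hd. -/
theorem pwtr [Finite V] [Finite K] {P : Subgroup (V ≃ₗ[K] V)} {Z W D : Submodule K V}
    (hi : ∀ g ∈ P, ∀ u v, F.H (g u) (g v) = F.H u v) (hS : F.Ov S) (hZ : F.TI Z)
    (hd : Z ⊓ W = ⊥) (hs : Z ⊔ W = pp F Z) (hD : F.TI D) (hxD : x ∈ D) (hZD : Z ≤ D)
    (hDg : ∀ g ∈ P, ∀ v ∈ D, g v ∈ D)
    (hc : ∀ y, F.H y x ≠ 0 → (∀ ζ ∈ Z, F.H y ζ = 0) → ∀ v, v ∈ Z ↔ (v ∈ D ∧ F.H y v = 0))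
    {xw : W} (hxw : x - (xw : V) ∈ Z)
    (ht : ∀ y y', S y → S y' → F.H y x ≠ 0 → F.H y' x ≠ 0 → ∃ g ∈ P, ∃ l : K, g y = l • y')
    (y y' : W) (hy : SW S Z W y) (hy' : SW S Z W y')
    (h1 : F.H (y : V) (xw : V) ≠ 0) (h2 : F.H (y' : V) (xw : V) ≠ 0) :
    ∃ h ∈ PW P Z W, ∃ l : K, h y = l • y' := by
  obtain ⟨-, ζ, hζ, hSy⟩ := hy
  obtain ⟨-, ζ', hζ', hSy'⟩ := hy'
  have hWp : ∀ w : W, ∀ t ∈ Z, F.H (w : V) t = 0 := fun w t ht' => by
    have h3 : (w : V) ∈ pp F Z := by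
      rw [← hs]
      exact Submodule.mem_sup_right w.2
    exact h3 t ht'
  have hyx : ∀ (w : W) (t : V), t ∈ Z → F.H ((w : V) + t) x = F.H (w : V) (xw : V) := by
    intro w t ht'
    have h3 : F.H (w : V) (x - (xw : V)) = 0 := hWp w _ hxw
    rw [F.subr] at h3
    rw [F.addl, hD t (hZD ht') x hxD, add_zero]
    exact sub_eq_zero.1 h3
  have hyp : ∀ (w : W) (t : V), t ∈ Z → ∀ t' ∈ Z, F.H ((w : V) + t) t' = 0 := by
    intro w t ht' t' ht''
    rw [F.addl, hWp w t' ht'', hZ t ht' t' ht'', add_zero]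
  have h3 : F.H ((y : V) + ζ) x ≠ 0 := by
    rw [hyx y ζ hζ]
    exact h1
  have h4 : F.H ((y' : V) + ζ') x ≠ 0 := by
    rw [hyx y' ζ' hζ']
    exact h2
  obtain ⟨g, hg, l, hl⟩ := ht _ _ hSy hSy' h3 h4
  have hl0 : l ≠ 0 := by
    rintro rfl
    rw [zero_smul] at hl
    exact hS.ne _ hSy (g.map_eq_zero_iff.1 hl)
  have hgi : ∀ v, (g⁻¹ : V ≃ₗ[K] V) (g v) = v := fun v => LinearEquiv.symm_apply_apply g v
  have hgZ : ∀ v, g v ∈ Z ↔ v ∈ Z := by
    intro v
    rw [hc _ h4 (hyp y' ζ' hζ') (g v), hc _ h3 (hyp y ζ hζ) v]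
    have h5 : F.H ((y : V) + ζ) v = l * F.H ((y' : V) + ζ') (g v) := by
      rw [← hi g hg ((y : V) + ζ) v, hl, F.smull]
    constructor
    · rintro ⟨h6, h7⟩
      refine ⟨?_, by rw [h5, h7, mul_zero]⟩
      have h8 := hDg _ (P.inv_mem hg) _ h6
      rwa [hgi] at h8
    · rintro ⟨h6, h7⟩
      refine ⟨hDg g hg v h6, ?_⟩
      rw [h5] at h7
      exact (mul_eq_zero.1 h7).resolve_left hl0
  obtain ⟨h, hh⟩ := lif hd hs (hi g hg) hgZ
  refine ⟨h, ⟨g, hg, hgZ, hh⟩, l, Subtype.ext ?_⟩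
  have h5 : ((h y : W) : V) - ((l • y' : W) : V) ∈ Z := by
    have h6 := hh y
    rw [map_add] at hl
    have h7 : ((h y : W) : V) - ((l • y' : W) : V) =
        (((h y : W) : V) - g (y : V)) + (l • ζ' - g ζ) := by
      rw [eq_sub_of_add_eq hl, Submodule.coe_smul, smul_add]
      abel
    rw [h7]
    exact Z.add_mem h6 (Z.sub_mem (Z.smul_mem l hζ') ((hgZ ζ).2 hζ))
  have h6 : ((h y : W) : V) - ((l • y' : W) : V) ∈ Z ⊓ W :=
    ⟨h5, W.sub_mem (h y).2 (l • y' : W).2⟩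
  rw [hd, Submodule.mem_bot] at h6
  exact sub_eq_zero.1 h6
-- END row pwtr

-- BEGIN row ngen
/-- u isotropic, H u x = 1, u1 = u + ε x (isotropic, H u1 x = 1), N = span u1 ⊔
(M ⊓ {v | H v u = 0}). N is TI. Maximal: v in a TI M' ≥ N; v' = v - H v x • u1 is isotropic,
perpendicular to x and to M ⊓ u^perp, so to M (M = span x ⊔ M ⊓ u^perp as H x u = 1), so in M
(`Ovo.HF.mem_of_perp`), and H v' u = 0: v in N. The ovoid vector of N is y = A u1 + d; A ≠ 0,
otherwise y in M, y = l x (hS.uniq in M), H x u = 1 against H d u = 0. Scale A = 1: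
y - u = ε x + d, H (y - u) u = ε. -/
theorem ngen [Finite V] (hS : F.Ov S) (hx : S x) {M : Submodule K V} (hM : Maximal F.TI M)
    (hxM : x ∈ M) {u : V} (hu : F.H u u = 0) (hux : F.H u x = 1) {ε : K}
    (hε : ε + F.bar ε = 0) :
    ∃ y, S y ∧ y - u ∈ M ∧ F.H (y - u) u = ε := by
  have hxx := hS.iso x hx
  have hxu : F.H x u = 1 := by rw [← F.symm, hux, map_one]
  let D : Submodule K V :=
    { carrier := {v | v ∈ M ∧ F.H v u = 0}
      add_mem' := fun ha hb => ⟨M.add_mem ha.1 hb.1, by rw [F.addl, ha.2, hb.2, add_zero]⟩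
      zero_mem' := ⟨M.zero_mem, F.zerol u⟩
      smul_mem' := fun c v hv => ⟨M.smul_mem c hv.1, by rw [F.smull, hv.2, mul_zero]⟩ }
  have hu1 : F.H (u + ε • x) (u + ε • x) = 0 := by
    rw [F.addl, F.addr, F.addr, F.smull, F.smull, F.smulr, F.smulr, hu, hux, hxu, hxx]
    linear_combination hε
  have hTD : F.TI D := fun a ha b hb => hM.1 a ha.1 b hb.1
  have hDu1 : ∀ d ∈ D, F.H d (u + ε • x) = 0 := by
    intro d hd
    rw [F.addr, F.smulr, hd.2, hM.1 d hd.1 x hxM]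
    ring
  have hN := F.TI_sup hTD hu1 hDu1
  obtain ⟨M', hNM, hM'⟩ := F.exists_max hN
  obtain ⟨y, hyM, hy⟩ := hS.ex M' hM'
  have hu1M : u + ε • x ∈ M' :=
    hNM (Submodule.mem_sup_right (Submodule.mem_span_singleton_self _))
  have hDM : ∀ d ∈ D, d ∈ M' := fun d hd => hNM (Submodule.mem_sup_left hd)
  obtain ⟨A, hA⟩ : ∃ A, A = F.H y x := ⟨_, rfl⟩
  obtain ⟨w, hw⟩ : ∃ w, w = y - A • (u + ε • x) := ⟨_, rfl⟩
  have hwM' : w ∈ M' := by
    rw [hw]
    exact M'.sub_mem hyM (M'.smul_mem A hu1M)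
  have hwx : F.H w x = 0 := by
    rw [hw, F.subl, F.smull, F.addl, F.smull, hux, hxx, hA]
    ring
  have hwu : F.H w u = 0 := by
    have h1 := hM'.1 w hwM' _ hu1M
    rw [F.addr, F.smulr, hwx, mul_zero, add_zero] at h1
    exact h1
  have hwM : w ∈ M := by
    refine F.mem_of_perp hM (hM'.1 w hwM' w hwM') ?_
    intro μ hμ
    have hd : μ - F.H μ u • x ∈ D :=
      ⟨M.sub_mem hμ (M.smul_mem _ hxM), by rw [F.subl, F.smull, hxu, mul_one, sub_self]⟩
    have h1 := hM'.1 _ (hDM _ hd) w hwM'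
    rw [F.subl, F.smull, F.sw hwx, mul_zero, sub_zero] at h1
    exact h1
  have hA0 : A ≠ 0 := by
    intro h0
    have hyw : y = w := by rw [hw, h0, zero_smul, sub_zero]
    have hyM0 : y ∈ M := by
      rw [hyw]
      exact hwM
    obtain ⟨a, ha⟩ := hS.uniq M hM y hyM0 x hxM hy hx
    have h1 : F.H x u = F.H (a • y) u := by rw [← ha]
    rw [F.smull, hyw, hwu, mul_zero, hxu] at h1
    exact one_ne_zero h1
  have hyy : A⁻¹ • y - u = ε • x + A⁻¹ • w := by
    rw [hw, smul_sub, smul_smul, inv_mul_cancel₀ hA0, one_smul]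
    abel
  refine ⟨A⁻¹ • y, hS.sm _ _ (inv_ne_zero hA0) hy, ?_, ?_⟩
  · rw [hyy]
    exact M.add_mem (M.smul_mem _ hxM) (M.smul_mem _ hwM)
  · rw [hyy, F.addl, F.smull, F.smull, hxu, hwu]
    ring
-- END row ngen

-- BEGIN row ninj
/-- H y y' = H (u + a) (u + a') with a, a' in M: = H u a' + H a u = bar ε + ε = 0 (ε =
H a u = H a' u, and 0 = H y y = ε + bar ε). So y' = l y, l = 1 as y' - y in M, H (y' - y) x = 0.
-/
theorem ninj [Finite V] (hS : F.Ov S) {M : Submodule K V} (hM : F.TI M) (hxM : x ∈ M)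
    {u y y' : V} (hu : F.H u u = 0) (hux : F.H u x = 1) (hy : S y) (hy' : S y')
    (h1 : y - u ∈ M) (h2 : y' - u ∈ M) (h3 : F.H (y - u) u = F.H (y' - u) u) : y = y' := by
  have e1 : y = u + (y - u) := by abel
  have e2 : y' = u + (y' - u) := by abel
  have k1 : F.H y x = 1 := by
    rw [e1, F.addl, hux, hM _ h1 _ hxM, add_zero]
  have k2 : F.H y' x = 1 := by
    rw [e2, F.addl, hux, hM _ h2 _ hxM, add_zero]
  have k3 : F.H (y - u) u + F.bar (F.H (y - u) u) = 0 := by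
    have := hS.iso y hy
    rw [e1, F.addl, F.addr, F.addr, hu, hM _ h1 _ h1, add_zero, zero_add,
      ← F.symm (y - u) u] at this
    rw [add_comm]
    exact this
  have k4 : F.H y y' = 0 := by
    rw [e1, e2, F.addl, F.addr, F.addr, hu, hM _ h1 _ h2, add_zero, zero_add,
      ← F.symm (y' - u) u, ← h3, add_comm]
    exact k3
  obtain ⟨l, hl⟩ := hS.par hy hy' k4
  have hl1 : l = 1 := by
    have : F.H y' x = l * F.H y x := by rw [hl, F.smull]
    rw [k1, k2, mul_one] at this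
    exact this.symm
  rw [hl, hl1, one_smul]
-- END row ninj

-- BEGIN row cntp
private theorem cntp_fib {A : Type} [AddCommGroup A] [Module K A] [Finite A] (L : A →ₗ[K] K)
    {c0 : A} (h0 : L c0 = 1) :
    Nat.card {c : A // L c = 1} = Nat.card (LinearMap.ker L) := by
  refine Nat.card_congr
    { toFun := fun c => ⟨c.1 - c0, by rw [LinearMap.mem_ker, map_sub, c.2, h0, sub_self]⟩
      invFun := fun c => ⟨c.1 + c0, by rw [map_add, h0, LinearMap.mem_ker.1 c.2, zero_add]⟩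
      left_inv := fun c => Subtype.ext (sub_add_cancel _ _)
      right_inv := fun c => Subtype.ext (add_sub_cancel_right _ _) }

/-- M maximal TI, x in M (`F.exists_max`). For each class c of V / M with H c x = 1 choose an
isotropic u_c in c (`Ovo.HF.adjust`, adding a multiple of x). y ↦ (class of y, H (y - u) u)
is a bijection from {y in S, H y x = 1} to (classes with H c x = 1) × (trace zero elements):
`ninj`, `ngen`. The number of classes with H c x = 1 times |K| is |V / M| (H · x is a nonzero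
functional on V / M), `trz` gives q; |K|, |V / M|, q are powers of p (`qpow`,
`Module.card_eq_pow_finrank`), so the number is a power of p. -/
theorem cntp [Finite V] [Finite K] {q p : ℕ} (hK : Nat.card K = q ^ 2)
    (hbar : ∀ a, F.bar a = a ^ q) [CharP K p] (hp : p.Prime) (hS : F.Ov S) (hx : S x) :
    ∃ k, Nat.card {y : V // S y ∧ F.H y x = 1} = p ^ k := by
  classical
  obtain ⟨θ, hθ⟩ := Ovo.exists_theta hK F.bar hbar F.bb
  have hxx := hS.iso x hx
  obtain ⟨M, hM1, hM⟩ := F.exists_max (F.TI_span hxx)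
  have hxM : x ∈ M := hM1 (Submodule.mem_span_singleton_self x)
  let lam : V →ₗ[K] K :=
    { toFun := fun v => F.H v x
      map_add' := fun u v => F.addl u v x
      map_smul' := fun a u => by rw [F.smull]; rfl }
  have hlam : M ≤ LinearMap.ker lam := fun v hv => hM.1 v hv x hxM
  let L : (V ⧸ M) →ₗ[K] K := M.liftQ lam hlam
  have hL : ∀ v, L (M.mkQ v) = F.H v x := fun v => rfl
  obtain ⟨v1, hv1⟩ : ∃ v, F.H v x = 1 := by
    obtain ⟨v, hv⟩ : ∃ v, F.H v x ≠ 0 := by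
      by_contra hcon
      push Not at hcon
      exact hS.ne x hx (F.nd x hcon)
    exact ⟨(F.H v x)⁻¹ • v, by rw [F.smull, inv_mul_cancel₀ hv]⟩
  have hrep : ∀ c : {c : V ⧸ M // L c = 1}, ∃ u, M.mkQ u = c.1 ∧ F.H u u = 0 ∧ F.H u x = 1 := by
    rintro ⟨c, hc⟩
    obtain ⟨v, rfl⟩ := M.mkQ_surjective c
    rw [hL] at hc
    have h1 : F.H x v ≠ 0 := by
      rw [← F.symm, hc, map_one]
      exact one_ne_zero
    obtain ⟨a, ha⟩ := Ovo.HF.adjust hθ hxx h1
    refine ⟨v + a • x, ?_, ha, ?_⟩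
    · have h2 : M.mkQ x = 0 := by
        rw [← LinearMap.mem_ker, Submodule.ker_mkQ]
        exact hxM
      rw [map_add, map_smul, h2, smul_zero, add_zero]
    · rw [F.addl, F.smull, hxx, hc, mul_zero, add_zero]
  choose u hu1 hu2 hu3 using hrep
  let cl : {y : V // S y ∧ F.H y x = 1} → {c : V ⧸ M // L c = 1} :=
    fun y => ⟨M.mkQ y.1, by rw [hL]; exact y.2.2⟩
  have hdiff : ∀ y : V, ∀ c : {c : V ⧸ M // L c = 1}, M.mkQ y = c.1 → y - u c ∈ M := by
    intro y c h1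
    rw [← hu1 c] at h1
    rw [← Submodule.ker_mkQ M, LinearMap.mem_ker, map_sub, h1, sub_self]
  have hd : ∀ y, y.1 - u (cl y) ∈ M := fun y => hdiff y.1 (cl y) rfl
  have htz : ∀ y : {y : V // S y ∧ F.H y x = 1},
      F.H (y.1 - u (cl y)) (u (cl y)) + F.bar (F.H (y.1 - u (cl y)) (u (cl y))) = 0 := by
    intro y
    have h1 := hM.1 _ (hd y) _ (hd y)
    have h2 := hS.iso y.1 y.2.1
    have h3 := hu2 (cl y)
    rw [F.symm, F.subl, F.subr, h3]
    rw [F.subl, F.subr, F.subr, h2, h3] at h1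
    linear_combination -h1
  let Φ : {y : V // S y ∧ F.H y x = 1} → {c : V ⧸ M // L c = 1} × {a : K // a + F.bar a = 0} :=
    fun y => (cl y, ⟨F.H (y.1 - u (cl y)) (u (cl y)), htz y⟩)
  have hΦ : Function.Bijective Φ := by
    constructor
    · intro y y' hyy
      have h1 : cl y = cl y' := congrArg Prod.fst hyy
      have h2 : F.H (y.1 - u (cl y)) (u (cl y)) = F.H (y'.1 - u (cl y')) (u (cl y')) :=
        congrArg (fun t : {c : V ⧸ M // L c = 1} × {a : K // a + F.bar a = 0} => (t.2 : K)) hyy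
      rw [← h1] at h2
      have h3 : y'.1 - u (cl y) ∈ M := by
        rw [h1]
        exact hd y'
      exact Subtype.ext (ninj hS hM.1 hxM (hu2 (cl y)) (hu3 (cl y)) y.2.1 y'.2.1 (hd y) h3 h2)
    · rintro ⟨c, ε, hε⟩
      obtain ⟨y, hy1, hy2, hy3⟩ := ngen hS hx hM hxM (hu2 c) (hu3 c) hε
      have hyx : F.H y x = 1 := by
        have h1 := hM.1 _ hy2 x hxM
        rw [F.subl, hu3] at h1
        linear_combination h1
      have hc : cl ⟨y, hy1, hyx⟩ = c := by
        apply Subtype.ext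
        show M.mkQ y = c.1
        rw [← hu1 c, ← sub_eq_zero, ← map_sub, ← LinearMap.mem_ker, Submodule.ker_mkQ]
        exact hy2
      refine ⟨⟨y, hy1, hyx⟩, ?_⟩
      apply Prod.ext hc
      apply Subtype.ext
      show F.H (y - u (cl ⟨y, hy1, hyx⟩)) (u (cl ⟨y, hy1, hyx⟩)) = ε
      rw [hc]
      exact hy3
  have h1 := Nat.card_congr (Equiv.ofBijective Φ hΦ)
  have i1 : Finite (V ⧸ M) := Finite.of_surjective M.mkQ M.mkQ_surjective
  rw [Nat.card_prod, trz hK hbar, cntp_fib L (c0 := M.mkQ v1) (by rw [hL]; exact hv1),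
    Module.natCard_eq_pow_finrank (K := K) (V := LinearMap.ker L), hK] at h1
  obtain ⟨k, hk⟩ := qpow hK hp
  refine ⟨k * 2 * Module.finrank K (LinearMap.ker L) + k, ?_⟩
  rw [h1, hk, pow_add, pow_mul, pow_mul]
-- END row cntp

-- BEGIN row asmg
/-- P = Q.map G.subtype for a Sylow p-subgroup Q of G; `cntp`, `tranP`: P transitive. D from
`exD` with j = n - 2 (finrank D = n - 1), y0 in S with H y0 x ≠ 0 (`Ovo.HF.exists_z`), Z from `exZ` (finrank
n - 2, TI as Z ≤ D), W from `exW` (finrank 6). hno: if ζ in Z, S ζ then H x ζ = 0 so ζ = l x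
(`par`), l ≠ 0, x in Z. xw from x in pp F Z = Z ⊔ W; SW xw. `asm` for FW F W, SW S Z W, xw,
PW P Z W with `swov`, `pwiso`, `pwpres`, `pwx`, `pwtr`. -/
theorem asmg [Finite V] [Finite K] {q n : ℕ} (hn : 2 ≤ n) (hK : Nat.card K = q ^ 2)
    (hbar : ∀ a, F.bar a = a ^ q) (hV : Module.finrank K V = 2 * n + 2) (hS : F.Ov S) (hSx : S x)
    (G : Subgroup (V ≃ₗ[K] V))
    (hi : ∀ g ∈ G, ∀ u v, F.H (g u) (g v) = F.H u v) (hG : ∀ g ∈ G, ∀ y, S y → S (g y))
    (hx : ∀ g ∈ G, ∃ a : K, g x = a • x)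
    (ht : ∀ y y', S y → S y' → F.H y x ≠ 0 → F.H y' x ≠ 0 → ∃ g ∈ G, ∃ l : K, g y = l • y') :
    False := by
  obtain ⟨p, hpc⟩ := CharP.exists K
  haveI := hpc
  have hp : p.Prime := CharP.char_is_prime K p
  haveI : Fact p.Prime := ⟨hp⟩
  have hx0 := hS.ne x hSx
  have hxx := hS.iso x hSx
  let Q : Sylow p G := default
  have hPG : ∀ g ∈ (Q : Subgroup G).map G.subtype, g ∈ G := by
    rintro g ⟨y, -, rfl⟩
    exact y.2
  have hP : IsPGroup p ((Q : Subgroup G).map G.subtype) := Q.isPGroup'.map _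
  have hpv : ∀ v : V, p • v = 0 := fun v => by
    rw [← Nat.cast_smul_eq_nsmul K p v, CharP.cast_eq_zero, zero_smul]
  obtain ⟨k, hc⟩ := cntp hK hbar hp hS hSx
  have htr := tranP hS G hi hG hx0 hx ht hc Q
  obtain ⟨D, hD, hxD, hDg, hDd⟩ := exD hK hbar hpv ((Q : Subgroup G).map G.subtype) hP
    (fun g hg => hi g (hPG g hg)) hx0 hxx (fun g hg => hx g (hPG g hg)) (n - 2)
    (by rw [hV]; omega)
  obtain ⟨y0, hy0, hxy0⟩ := Ovo.HF.exists_z hK hbar hS hSx
  have hy0x : F.H y0 x ≠ 0 := fun h => hxy0 (F.sw h)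
  obtain ⟨Z, hZD, hxZ, hZd, hcZ⟩ := exZ hxD hy0x
  have hZ : F.TI Z := fun u hu v hv => hD u (hZD hu) v (hZD hv)
  obtain ⟨W, hd, hs, hWd, hW⟩ := exW hZ
  have hW6 : Module.finrank K W = 6 := by omega
  have hno : ∀ ζ ∈ Z, ¬ S ζ := by
    intro ζ hζ hSζ
    obtain ⟨l, hl⟩ := hS.par hSx hSζ (hD x hxD ζ (hZD hζ))
    have hl0 : l ≠ 0 := by
      intro h
      apply hS.ne ζ hSζ
      rw [hl, h, zero_smul]
    apply hxZ
    have h1 : x = l⁻¹ • ζ := by rw [hl, smul_smul, inv_mul_cancel₀ hl0, one_smul]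
    rw [h1]
    exact Z.smul_mem _ hζ
  have hxp : x ∈ pp F Z := fun t ht => hD x hxD t (hZD ht)
  rw [← hs] at hxp
  obtain ⟨ζ0, hζ0, w0, hw0, hxw⟩ := Submodule.mem_sup.mp hxp
  have hxw1 : x - w0 = ζ0 := by
    rw [← hxw]
    abel
  have hxw' : x - ((⟨w0, hw0⟩ : W) : V) ∈ Z := by
    show x - w0 ∈ Z
    rw [hxw1]
    exact hζ0
  have hSxw : SW S Z W ⟨w0, hw0⟩ := by
    refine ⟨?_, ζ0, hζ0, ?_⟩
    · intro h
      have h1 : w0 = 0 := congrArg Subtype.val h
      apply hxZ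
      rw [← hxw, h1, add_zero]
      exact hζ0
    · show S (w0 + ζ0)
      rw [add_comm, hxw]
      exact hSx
  have hSO := swov hS hZ hd hs hW hno
  exact asm (F := FW F W hW) (S := SW S Z W) (x := ⟨w0, hw0⟩) hK hbar hW6 hSO hSxw
    (PW ((Q : Subgroup G).map G.subtype) Z W)
    (fun h hh u v => pwiso (fun g hg => hi g (hPG g hg)) hZ hs hW hh u v)
    (fun h hh y hy => pwpres (fun g hg => hG g (hPG g hg)) hh y hy)
    (fun h hh => pwx hd (fun g hg => hx g (hPG g hg)) hxw' hh)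
    (fun y y' hy hy' h1 h2 => pwtr (fun g hg => hi g (hPG g hg)) hS hZ hd hs hD hxD hZD hDg hcZ
      hxw' htr y y' hy hy' h1 h2)
-- END row asmg

end Pool.Agent.Ovp
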