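import Pool.Agent.Ovp.Defs

namespace Pool.Agent.Ovp

variable {K V : Type} [Field K] [AddCommGroup V] [Module K V]
variable {F : Ovo.HF K V} {S : V → Prop} {P : Subgroup (V ≃ₗ[K] V)} {x z m m' z' x' : V}

-- BEGIN row hcomb
private theorem hcomb_aux (hB : Bs F x z m m' z' x') (a1 b1 c1 d1 e1 f1 : K) :
    F.H x (a1 • x + b1 • z + c1 • m + d1 • m' + e1 • z' + f1 • x') = F.bar f1 ∧
    F.H z (a1 • x + b1 • z + c1 • m + d1 • m' + e1 • z' + f1 • x') = F.bar e1 ∧
    F.H m (a1 • x + b1 • z + c1 • m + d1 • m' + e1 • z' + f1 • x') = F.bar d1 ∧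
    F.H m' (a1 • x + b1 • z + c1 • m + d1 • m' + e1 • z' + f1 • x') = F.bar c1 ∧
    F.H z' (a1 • x + b1 • z + c1 • m + d1 • m' + e1 • z' + f1 • x') = F.bar b1 ∧
    F.H x' (a1 • x + b1 • z + c1 • m + d1 • m' + e1 • z' + f1 • x') = F.bar a1 := by
  have h1 : F.H x' x = 1 := by rw [← F.symm x x', hB.xx', map_one]
  have h2 : F.H z' z = 1 := by rw [← F.symm z z', hB.zz', map_one]
  have h3 : F.H m' m = 1 := by rw [← F.symm m m', hB.mm', map_one]
  simp only [F.addr, F.smulr]
  refine ⟨?_, ?_, ?_, ?_, ?_, ?_⟩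
  · rw [hB.xx, hB.xz, hB.xm, hB.xm', hB.xz', hB.xx']
    ring
  · rw [F.sw hB.xz, hB.zz, hB.zm, hB.zm', hB.zz', hB.zx']
    ring
  · rw [F.sw hB.xm, F.sw hB.zm, hB.mm, hB.mm', hB.mz', hB.mx']
    ring
  · rw [F.sw hB.xm', F.sw hB.zm', h3, hB.m'm', hB.m'z', hB.m'x']
    ring
  · rw [F.sw hB.xz', h2, F.sw hB.mz', F.sw hB.m'z', hB.z'z', hB.z'x']
    ring
  · rw [h1, F.sw hB.zx', F.sw hB.mx', F.sw hB.m'x', F.sw hB.z'x', hB.x'x']
    ring

/-- Expand by additivity and the Gram matrix; F.sw gives the symmetric zeros, and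
H x' x = bar (H x x') = 1 etc. -/
theorem hcomb (hB : Bs F x z m m' z' x') (a b c d e f a1 b1 c1 d1 e1 f1 : K) :
    F.H (a • x + b • z + c • m + d • m' + e • z' + f • x')
      (a1 • x + b1 • z + c1 • m + d1 • m' + e1 • z' + f1 • x') =
    a * F.bar f1 + b * F.bar e1 + c * F.bar d1 + d * F.bar c1 + e * F.bar b1 + f * F.bar a1 := by
  obtain ⟨h1, h2, h3, h4, h5, h6⟩ := hcomb_aux hB a1 b1 c1 d1 e1 f1
  rw [F.addl, F.addl, F.addl, F.addl, F.addl, F.smull, F.smull, F.smull, F.smull, F.smull,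
    F.smull, h1, h2, h3, h4, h5, h6]
-- END row hcomb

-- BEGIN row indep
/-- Take `F.H` of both sides with x', z', m', m, z, x. -/
theorem indep (hB : Bs F x z m m' z' x') {a b c d e f a1 b1 c1 d1 e1 f1 : K}
    (h : a • x + b • z + c • m + d • m' + e • z' + f • x' =
      a1 • x + b1 • z + c1 • m + d1 • m' + e1 • z' + f1 • x') :
    a = a1 ∧ b = b1 ∧ c = c1 ∧ d = d1 ∧ e = e1 ∧ f = f1 := by
  have key : ∀ p q r s t w : K,
      a * F.bar w + b * F.bar t + c * F.bar s + d * F.bar r + e * F.bar q + f * F.bar p =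
      a1 * F.bar w + b1 * F.bar t + c1 * F.bar s + d1 * F.bar r + e1 * F.bar q + f1 * F.bar p := by
    intro p q r s t w
    rw [← hcomb hB a b c d e f p q r s t w, ← hcomb hB a1 b1 c1 d1 e1 f1 p q r s t w, h]
  refine ⟨?_, ?_, ?_, ?_, ?_, ?_⟩
  · simpa using key 0 0 0 0 0 1
  · simpa using key 0 0 0 0 1 0
  · simpa using key 0 0 0 1 0 0
  · simpa using key 0 0 1 0 0 0
  · simpa using key 0 1 0 0 0 0
  · simpa using key 1 0 0 0 0 0
-- END row indep

-- BEGIN row h90
/-- e = θ s : θ s - bar θ bar s = θ s + bar θ s = s. -/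
theorem h90 {θ : K} (hθ : θ + F.bar θ = 1) {s : K} (hs : s + F.bar s = 0) :
    ∃ e : K, e - F.bar e = s := by
  refine ⟨θ * s, ?_⟩
  rw [map_mul]
  linear_combination s * hθ - F.bar θ * hs
-- END row h90

-- BEGIN row pig
/-- Otherwise `f` is an injection of `K` (q^2 elements) into the set of a with a + a^q = 0
(at most q elements, `Ovo.card_trace_zero`). -/
theorem pig [Finite K] {q : ℕ} (hK : Nat.card K = q ^ 2) (hbar : ∀ a, F.bar a = a ^ q)
    (f : K → K) (hf : ∀ c, f c + F.bar (f c) = 0) : ∃ c c', c ≠ c' ∧ f c = f c' := by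
  by_contra hcon
  push Not at hcon
  have h2 := Ovo.two_le_q hK
  have h3 : Nat.card K ≤ Nat.card {a : K // a + a ^ q = 0} := by
    refine Nat.card_le_card_of_injective (fun a => ⟨f a, by rw [← hbar]; exact hf a⟩) ?_
    intro a b hab
    by_contra hne
    exact hcon a b hne (congrArg Subtype.val hab)
  have h4 := h3.trans (Ovo.card_trace_zero hK)
  rw [hK] at h4
  nlinarith
-- END row pig

-- BEGIN row nebar
/-- Otherwise all q^2 elements are fixed by a ↦ a^q, but at most q are (`Ovo.card_fixed`). -/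
theorem nebar [Finite K] {q : ℕ} (hK : Nat.card K = q ^ 2) (hbar : ∀ a, F.bar a = a ^ q) :
    ∃ θ : K, F.bar θ ≠ θ := by
  by_contra hcon
  push Not at hcon
  have h2 := Ovo.two_le_q hK
  have h3 : Nat.card K ≤ Nat.card {a : K // a ^ q = a} := by
    refine Nat.card_le_card_of_injective (fun a => ⟨a, by rw [← hbar]; exact hcon a⟩) ?_
    intro a b hab
    exact congrArg (fun c : {a : K // a ^ q = a} => (c : K)) hab
  have h4 := h3.trans (Ovo.card_fixed hK)
  rw [hK] at h4
  nlinarith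
-- END row nebar

-- BEGIN row sqr
/-- In characteristic two (1 + 1 = 0) squaring is injective on the finite field K, so
surjective: s * s = a; then (bar s) * (bar s) = a = s * s, so bar s = s by injectivity. -/
theorem sqr [Finite K] (h2 : (1 + 1 : K) = 0) {a : K} (ha : F.bar a = a) :
    ∃ s : K, F.bar s = s ∧ s * s = a := by
  have inj : Function.Injective (fun s : K => s * s) := by
    intro s t hst
    have hst' : s * s = t * t := hst
    have h : (s - t) * (s - t) = 0 := by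
      linear_combination hst' + (t * t - s * t) * h2
    have := mul_self_eq_zero.mp h
    exact sub_eq_zero.mp this
  obtain ⟨s, hs⟩ := Finite.injective_iff_surjective.mp inj a
  have hs' : s * s = a := hs
  refine ⟨s, inj ?_, hs'⟩
  change F.bar s * F.bar s = s * s
  rw [← map_mul, hs', ha]
-- END row sqr

-- BEGIN row mtex
/-- Write g m' and g z' in the basis. H (g m') x = H (g m') (g x) = H m' x = 0;
H (g m') (g z) = 0 gives H (g m') z = 0; H (g m') (g m) = 1 gives H (g m') m = 1: so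
g m' = m' + s m + e z + u x; H (g m') (g m') = 0 gives hs. H (g z') x = 0;
H (g z') (g z) = 1 gives H (g z') z = 1; H (g z') (g m) = 0 gives H (g z') m = - bar a (the
coefficient of m'); H (g m') (g z') = 0 gives bar f - s a + e = 0; H (g z') (g z') = 0 gives
ht. -/
theorem mtex (hB : Bs F x z m m' z' x') {g : V ≃ₗ[K] V} (hi : ∀ u v, F.H (g u) (g v) = F.H u v)
    {b a c : K} (hx : g x = x) (hz : g z = z + b • x) (hm : g m = m + a • z + c • x) :
    ∃ s e u f t v : K, Mt F x z m m' z' g b a c s e u f t v := by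
  have zx := F.sw hB.xz
  have mx := F.sw hB.xm
  have m'x := F.sw hB.xm'
  have z'x := F.sw hB.xz'
  have x'x : F.H x' x = 1 := by rw [← F.symm x x', hB.xx', map_one]
  have mz := F.sw hB.zm
  have m'z := F.sw hB.zm'
  have z'z : F.H z' z = 1 := by rw [← F.symm z z', hB.zz', map_one]
  have x'z := F.sw hB.zx'
  have m'm : F.H m' m = 1 := by rw [← F.symm m m', hB.mm', map_one]
  have z'm := F.sw hB.mz'
  have x'm := F.sw hB.mx'
  have cx : ∀ A B C D E G : K,
      F.H (A • x + B • z + C • m + D • m' + E • z' + G • x') x = G := by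
    intro A B C D E G
    simp only [F.addl, F.smull, hB.xx, zx, mx, m'x, z'x, x'x]
    ring
  have cz : ∀ A B C D E G : K,
      F.H (A • x + B • z + C • m + D • m' + E • z' + G • x') z = E := by
    intro A B C D E G
    simp only [F.addl, F.smull, hB.xz, hB.zz, mz, m'z, z'z, x'z]
    ring
  have cm : ∀ A B C D E G : K,
      F.H (A • x + B • z + C • m + D • m' + E • z' + G • x') m = D := by
    intro A B C D E G
    simp only [F.addl, F.smull, hB.xm, hB.zm, hB.mm, m'm, z'm, x'm]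
    ring
  obtain ⟨u, e, s, D, E, G, h1⟩ := hB.span (g m')
  have hG : G = 0 := by
    have h := hi m' x
    rwa [hx, h1, cx, m'x] at h
  have hE : E = 0 := by
    have h := hi m' z
    rw [hz, F.addr, F.smulr, h1, cz, cx, m'z, hG, mul_zero, add_zero] at h
    exact h
  have hD : D = 1 := by
    have h := hi m' m
    rw [hm, F.addr, F.addr, F.smulr, F.smulr, h1, cm, cz, cx, m'm, hG, hE, mul_zero, mul_zero,
      add_zero, add_zero] at h
    exact h
  obtain ⟨v, t, f, D2, E2, G2, h2⟩ := hB.span (g z')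
  have hG2 : G2 = 0 := by
    have h := hi z' x
    rwa [hx, h2, cx, z'x] at h
  have hE2 : E2 = 1 := by
    have h := hi z' z
    rw [hz, F.addr, F.smulr, h2, cz, cx, z'z, hG2, mul_zero, add_zero] at h
    exact h
  have hD2 : D2 = - F.bar a := by
    have h := hi z' m
    rw [hm, F.addr, F.addr, F.smulr, F.smulr, h2, cm, cz, cx, z'm, hG2, hE2, mul_zero, mul_one,
      add_zero] at h
    linear_combination h
  rw [hG, hE, hD] at h1
  rw [hG2, hE2, hD2] at h2
  refine ⟨s, e, u, f, t, v, ⟨hx, hz, hm, ?_, ?_, ?_, ?_, ?_⟩⟩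
  · rw [h1]; module
  · rw [h2]; module
  · have h := hi m' m'
    rw [h1, hcomb hB, hB.m'm'] at h
    simp only [map_zero, map_one] at h
    linear_combination h
  · have h := hi z' m'
    rw [h1, h2, hcomb hB, F.sw hB.m'z'] at h
    simp only [map_zero, map_one, map_mul] at h ⊢
    linear_combination h
  · have h := hi z' z'
    rw [h2, hcomb hB, hB.z'z'] at h
    simp only [map_zero, map_one, map_neg, F.bb] at h
    linear_combination h
-- END row mtex

-- BEGIN row mx
/-- For an element with b = 0: H (g x') x = 1, H (g x') z = 0, H (g x') (g m) = 0 gives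
H (g x') m = - bar c; H (g x') (g m') = 0 gives the coefficient of m; the rest is free, and
H (g x') (g x') = 0 is not used. -/
theorem mx (hB : Bs F x z m m' z' x') {g : V ≃ₗ[K] V} (hi : ∀ u v, F.H (g u) (g v) = F.H u v)
    {a c s e u f t v : K} (hg : Mt F x z m m' z' g 0 a c s e u f t v) :
    ∃ y w : K, g x' = x' - F.bar c • m' + (F.bar s * F.bar c - F.bar u) • m + y • z + w • x := by
  have g1 : F.H x' x = 1 := by rw [← F.symm x x', hB.xx', map_one]
  obtain ⟨p, q, r, n, y, w, hx⟩ := hB.span (g x')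
  have gx : g x = x := hg.gx
  have gz : g z = z := by rw [hg.gz]; simp
  have hw : w = 1 := by
    have h1 := hi x' x
    rw [gx, hx, g1] at h1
    have h2 := hcomb hB p q r n y w 1 0 0 0 0 0
    simp only [zero_smul, add_zero, one_smul, map_zero, map_one, mul_zero, mul_one, zero_add] at h2
    rw [h2] at h1
    exact h1
  have hy : y = 0 := by
    have h1 := hi x' z
    rw [gz, hx, F.sw hB.zx'] at h1
    have h2 := hcomb hB p q r n y w 0 1 0 0 0 0
    simp only [zero_smul, add_zero, one_smul, map_zero, map_one, mul_zero, mul_one, zero_add] at h2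
    rw [h2] at h1
    exact h1
  subst hw hy
  have hn : n = - F.bar c := by
    have h1 := hi x' m
    rw [hg.gm, hx, F.sw hB.mx'] at h1
    have h2 := hcomb hB p q r n 0 1 c a 1 0 0 0
    simp only [zero_smul, add_zero, one_smul, map_zero, map_one, mul_zero, mul_one, zero_add,
      one_mul, zero_mul] at h2 h1
    rw [show m + a • z + c • x = c • x + a • z + m by abel, h2] at h1
    exact eq_neg_of_add_eq_zero_left h1
  subst hn
  have hr : r = F.bar s * F.bar c - F.bar u := by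
    have h1 := hi x' m'
    rw [hg.gm', hx, F.sw hB.m'x'] at h1
    have h2 := hcomb hB p q r (- F.bar c) 0 1 u e s 1 0 0
    simp only [zero_smul, add_zero, one_smul, map_zero, map_one, mul_zero, mul_one, zero_add,
      one_mul, zero_mul] at h2 h1
    rw [show m' + s • m + e • z + u • x = u • x + e • z + s • m + m' by abel, h2] at h1
    linear_combination h1
  subst hr
  refine ⟨q, p, ?_⟩
  rw [hx]
  simp only [zero_smul, add_zero, one_smul, neg_smul]
  abel
-- END row mx

-- BEGIN row lift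
private theorem lift_co (hB : Bs F x z m m' z' x') (a b c d e f : K) :
    F.H (a • x + b • z + c • m + d • m' + e • z' + f • x') x = f ∧
    F.H (a • x + b • z + c • m + d • m' + e • z' + f • x') z = e ∧
    F.H (a • x + b • z + c • m + d • m' + e • z' + f • x') m = d ∧
    F.H (a • x + b • z + c • m + d • m' + e • z' + f • x') m' = c ∧
    F.H (a • x + b • z + c • m + d • m' + e • z' + f • x') z' = b ∧
    F.H (a • x + b • z + c • m + d • m' + e • z' + f • x') x' = a := by
  have h1 : F.H x' x = 1 := by rw [← F.symm x x', hB.xx', map_one]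
  have h2 : F.H z' z = 1 := by rw [← F.symm z z', hB.zz', map_one]
  have h3 : F.H m' m = 1 := by rw [← F.symm m m', hB.mm', map_one]
  refine ⟨?_, ?_, ?_, ?_, ?_, ?_⟩
  · simp only [F.addl, F.smull, hB.xx, F.sw hB.xz, F.sw hB.xm, F.sw hB.xm', F.sw hB.xz', h1]
    ring
  · simp only [F.addl, F.smull, hB.xz, hB.zz, F.sw hB.zm, F.sw hB.zm', h2, F.sw hB.zx']
    ring
  · simp only [F.addl, F.smull, hB.xm, hB.zm, hB.mm, h3, F.sw hB.mz', F.sw hB.mx']
    ring
  · simp only [F.addl, F.smull, hB.xm', hB.zm', hB.mm', hB.m'm', F.sw hB.m'z', F.sw hB.m'x']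
    ring
  · simp only [F.addl, F.smull, hB.xz', hB.zz', hB.mz', hB.m'z', hB.z'z', F.sw hB.z'x']
    ring
  · simp only [F.addl, F.smull, hB.xx', hB.zx', hB.mx', hB.m'x', hB.z'x', hB.x'x']
    ring

private theorem lift_ti [Finite V] {u v w : V} (h1 : F.H u u = 0) (h2 : F.H v v = 0)
    (h3 : F.H w w = 0) (h4 : F.H u v = 0) (h5 : F.H u w = 0) (h6 : F.H v w = 0) :
    ∃ M, Maximal F.TI M ∧ u ∈ M ∧ v ∈ M ∧ w ∈ M := by
  have h7 : F.TI (Submodule.span K {u} ⊔ Submodule.span K {v} ⊔ Submodule.span K {w}) := by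
    apply F.TI_sup (F.TI_pair h1 h2 h4) h3
    intro n hn
    obtain ⟨a, ha, b, hb, rfl⟩ := Submodule.mem_sup.1 hn
    obtain ⟨s, rfl⟩ := Submodule.mem_span_singleton.1 ha
    obtain ⟨s', rfl⟩ := Submodule.mem_span_singleton.1 hb
    rw [F.addl, F.smull, F.smull, h5, h6, mul_zero, mul_zero, add_zero]
  obtain ⟨M, hM1, hM2⟩ := F.exists_max h7
  refine ⟨M, hM2, hM1 ?_, hM1 ?_, hM1 ?_⟩
  · exact Submodule.mem_sup_left (Submodule.mem_sup_left (Submodule.mem_span_singleton_self u))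
  · exact Submodule.mem_sup_left (Submodule.mem_sup_right (Submodule.mem_span_singleton_self v))
  · exact Submodule.mem_sup_right (Submodule.mem_span_singleton_self w)

/-- The span N of u0 = x' + w z' + t m', z - bar w x, m - bar t x is totally isotropic, and
maximal (if v is perpendicular to N and isotropic... : any TI M' containing N is inside N: take
v in M' in coordinates (p x + q z + r m + r' m' + q' z' + p' x') ; subtract p' u0, then the
perpendicularity to z - bar w x and m - bar t x kills the coefficients of z' and m', so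
v - p' u0 is in the span of x, z, m, and perpendicular to u0, so in N). Its ovoid vector is
y = A u0 + B (z - bar w x) + C (m - bar t x). If A = 0 then H x y = 0 so y = l x by
`Ovo.HF.Ov.par` (Sx), hence B = C = 0, y = 0, contradiction. Scale by A inverse. -/
theorem lift [Finite V] (hB : Bs F x z m m' z' x') (hS : F.Ov S) (hx : S x) (w t : K) :
    ∃ p q r : K, S (x' + w • z' + t • m' + p • m + q • z + r • x) := by
  have e0 : x' + w • z' + t • m' =
      (0 : K) • x + (0 : K) • z + (0 : K) • m + t • m' + w • z' + (1 : K) • x' := by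
    simp only [zero_smul, one_smul]
    abel
  have hu0 : F.H (x' + w • z' + t • m') (x' + w • z' + t • m') = 0 := by
    rw [e0, hcomb hB]
    simp only [map_zero, map_one]
    ring
  obtain ⟨k1, k2, k3, -, -, -⟩ := lift_co hB 0 0 0 t w 1
  rw [← e0] at k1 k2 k3
  have hz1 : F.H (z - F.bar w • x) (x' + w • z' + t • m') = 0 := by
    apply F.sw
    rw [F.subr, F.smulr, k1, k2, F.bb]
    ring
  have hm1 : F.H (m - F.bar t • x) (x' + w • z' + t • m') = 0 := by
    apply F.sw
    rw [F.subr, F.smulr, k1, k3, F.bb]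
    ring
  have hzz1 : F.H (z - F.bar w • x) (z - F.bar w • x) = 0 := by
    simp only [F.subl, F.subr, F.smull, F.smulr, hB.zz, hB.xx, hB.xz, F.sw hB.xz]
    ring
  have hmm1 : F.H (m - F.bar t • x) (m - F.bar t • x) = 0 := by
    simp only [F.subl, F.subr, F.smull, F.smulr, hB.mm, hB.xx, hB.xm, F.sw hB.xm]
    ring
  have hzm1 : F.H (z - F.bar w • x) (m - F.bar t • x) = 0 := by
    simp only [F.subl, F.subr, F.smull, F.smulr, hB.zm, hB.xx, hB.xm, F.sw hB.xz]
    ring
  obtain ⟨M, hM, hz2, hm2, hu2⟩ := lift_ti hzz1 hmm1 hu0 hzm1 hz1 hm1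
  obtain ⟨y, hyM, hy⟩ := hS.ex M hM
  obtain ⟨a, b, c, d, e, f, hy1⟩ := hB.span y
  obtain ⟨j1, j2, j3, j4, j5, j6⟩ := lift_co hB a b c d e f
  rw [← hy1] at j1 j2 j3 j4 j5 j6
  have he : e = w * f := by
    have h1 := hM.1 y hyM _ hz2
    rw [F.subr, F.smulr, j1, j2, F.bb] at h1
    linear_combination h1
  have hd : d = t * f := by
    have h1 := hM.1 y hyM _ hm2
    rw [F.subr, F.smulr, j1, j3, F.bb] at h1
    linear_combination h1
  have hf : f ≠ 0 := by
    intro h0
    rw [h0, mul_zero] at he hd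
    have h1 : F.H x y = 0 := F.sw (by rw [j1, h0])
    obtain ⟨l, hl⟩ := hS.par hx hy h1
    have hb : b = 0 := by rw [← j5, hl, F.smull, hB.xz', mul_zero]
    have hc : c = 0 := by rw [← j4, hl, F.smull, hB.xm', mul_zero]
    have h2 := hM.1 y hyM _ hu2
    rw [F.addr, F.addr, F.smulr, F.smulr, j6, j5, j4, hb, hc, mul_zero, mul_zero, add_zero,
      add_zero] at h2
    apply hS.ne y hy
    rw [hy1, h2, hb, hc, hd, he, h0]
    simp only [zero_smul, add_zero]
  refine ⟨f⁻¹ * c, f⁻¹ * b, f⁻¹ * a, ?_⟩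
  have h1 := hS.sm f⁻¹ y (inv_ne_zero hf) hy
  have h2 : f⁻¹ • y = x' + w • z' + t • m' + (f⁻¹ * c) • m + (f⁻¹ * b) • z + (f⁻¹ * a) • x := by
    rw [hy1, he, hd]
    simp only [smul_add, smul_smul]
    rw [show f⁻¹ * (t * f) = t by field_simp, show f⁻¹ * (w * f) = w by field_simp,
      inv_mul_cancel₀ hf, one_smul]
    abel
  rw [h2] at h1
  exact h1
-- END row lift

-- BEGIN row othree
/-- Suppose bar c u + c bar u = 0. Put w0 = bar c m' + bar u m. By `mx` (s = 0)
g x' = x' - w0 + k z + T x, T + bar T = 0 (from H (g x') (g x') = 0). Choose s0 with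
bar s0 - s0 = T (h90), u0 = A m + B m' with A c + B u = s0 (A = s0 / c, B = 0), rho with
rho + bar rho = - H u0 u0 (here H u0 u0 = 0: rho = 0), kap = - bar s0, and
N = span of z, w0 + kap x, v0 = x' + u0. Then N is totally isotropic (H v0 (w0 + kap x) =
bar kap + H u0 w0 = - s0 + s0 = 0), g w0 = w0 + (trace) x + (..) z = w0 + (..) z,
g v0 = v0 - (w0 + kap x) + (..) z, so g N = N. Take a maximal TI M containing N
(`F.exists_max`); M = N, as in `lift` (or: M is contained in the perp of N, which is N).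
Its ovoid vector y = A1 v0 + B1 (w0 + kap x) + C1 z. If A1 = 0 then H x y = 0, y = l x, and
comparing coefficients (c not 0) y = 0, contradiction. g y is in N and in S, so H y (g y) = 0
and g y = l y; the coefficient of x' gives l = 1; but g y - y = - A1 (w0 + kap x) + (..) z is
not 0. Contradiction. -/
theorem othree [Finite V] {θ : K} (hθ : θ + F.bar θ = 1) (hB : Bs F x z m m' z' x')
    (hS : F.Ov S) (hx : S x) {g : V ≃ₗ[K] V}
    (hi : ∀ u v, F.H (g u) (g v) = F.H u v) (hp : ∀ y, S y → S (g y))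
    {a c e u f t v : K} (hg : Mt F x z m m' z' g 0 a c 0 e u f t v) (hc : c ≠ 0) :
    F.bar c * u + c * F.bar u ≠ 0 := by
  intro h0
  have hcb : F.bar c ≠ 0 := by
    intro h1
    apply hc
    rw [← F.bb c, h1, map_zero]
  obtain ⟨k, T, hgx'⟩ := mx hB hi hg
  have hgx : g x = x := hg.gx
  have hgz : g z = z := by rw [hg.gz, zero_smul, add_zero]
  have hgm : g m = m + a • z + c • x := hg.gm
  have hgm' : g m' = m' + e • z + u • x := by rw [hg.gm', zero_smul, add_zero]
  rw [map_zero, zero_mul, zero_sub] at hgx'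
  have hT : T + F.bar T = 0 := by
    have h1 := hi x' x'
    have h2 : g x' = T • x + k • z + (-F.bar u) • m + (-F.bar c) • m' + (0 : K) • z' +
        (1 : K) • x' := by
      rw [hgx']
      simp only [zero_smul, one_smul, neg_smul, add_zero]
      abel
    rw [h2, hcomb hB, hB.x'x'] at h1
    simp only [map_zero, map_one, map_neg, F.bb] at h1
    linear_combination h1 - h0
  obtain ⟨s1, hs1⟩ := h90 hθ hT
  -- `s0 = bar s1`
  set A : K := F.bar s1 / c with hA
  have hAc : A * c = F.bar s1 := by rw [hA]; field_simp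
  have hAb : F.bar A * F.bar c = s1 := by rw [← map_mul, hAc, F.bb]
  set w1 : V := F.bar c • m' + F.bar u • m + (-s1) • x with hw1
  set v0 : V := x' + A • m with hv0
  have ew : w1 = (-s1) • x + (0 : K) • z + F.bar u • m + F.bar c • m' + (0 : K) • z' +
      (0 : K) • x' := by
    rw [hw1]
    simp only [zero_smul, add_zero]
    abel
  have ev : v0 = (0 : K) • x + (0 : K) • z + A • m + (0 : K) • m' + (0 : K) • z' +
      (1 : K) • x' := by
    rw [hv0]
    simp only [zero_smul, add_zero, zero_add, one_smul]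
    abel
  have ez : z = (0 : K) • x + (1 : K) • z + (0 : K) • m + (0 : K) • m' + (0 : K) • z' +
      (0 : K) • x' := by
    simp only [zero_smul, add_zero, zero_add, one_smul]
  have hww : F.H w1 w1 = 0 := by
    rw [ew, hcomb hB]
    simp only [map_zero, map_neg, F.bb]
    linear_combination h0
  have hvv : F.H v0 v0 = 0 := by
    rw [ev, hcomb hB]
    simp only [map_zero, map_one]
    ring
  have hvw : F.H v0 w1 = 0 := by
    rw [ew, ev, hcomb hB]
    simp only [map_zero, map_neg, F.bb]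
    linear_combination hAc
  obtain ⟨z1, z2, z3, z4, z5, z6⟩ := lift_co hB (-s1) 0 (F.bar u) (F.bar c) 0 0
  rw [← ew] at z1 z2 z3 z4 z5 z6
  obtain ⟨y1, y2, y3, y4, y5, y6⟩ := lift_co hB 0 0 A 0 0 1
  rw [← ev] at y1 y2 y3 y4 y5 y6
  obtain ⟨M, hM, hw2, hv2, hz2⟩ := lift_ti hww hvv hB.zz (F.sw hvw) z2 y2
  obtain ⟨y, hyM, hy⟩ := hS.ex M hM
  obtain ⟨a1, b1, c1, d1, e1, f1, hy1⟩ := hB.span y
  obtain ⟨j1, j2, j3, j4, j5, j6⟩ := lift_co hB a1 b1 c1 d1 e1 f1
  rw [← hy1] at j1 j2 j3 j4 j5 j6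
  have q1 : F.H y z = 0 := hM.1 y hyM z hz2
  have q2 : F.H y w1 = 0 := hM.1 y hyM w1 hw2
  have q3 : F.H y v0 = 0 := hM.1 y hyM v0 hv2
  have he1 : e1 = 0 := by rw [← j2, q1]
  have r2 : d1 * u + c1 * c - F.bar s1 * f1 = 0 := by
    have h1 := q2
    rw [hw1, F.addr, F.addr, F.smulr, F.smulr, F.smulr, j1, j3, j4, F.bb, F.bb, map_neg] at h1
    linear_combination h1
  have r3 : a1 + F.bar A * d1 = 0 := by
    have h1 := q3
    rw [hv0, F.addr, F.smulr, j6, j3] at h1
    exact h1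
  have hf1 : f1 ≠ 0 := by
    intro h1
    have h2 : F.H x y = 0 := F.sw (by rw [j1, h1])
    obtain ⟨l, hl⟩ := hS.par hx hy h2
    have g1 : d1 = 0 := by rw [← j3, hl, F.smull, hB.xm, mul_zero]
    have g2 : c1 = 0 := by rw [← j4, hl, F.smull, hB.xm', mul_zero]
    have g3 : b1 = 0 := by rw [← j5, hl, F.smull, hB.xz', mul_zero]
    have g4 : a1 = 0 := by rw [g1, mul_zero, add_zero] at r3; exact r3
    apply hS.ne y hy
    rw [hy1, g1, g2, g3, g4, he1, h1]
    simp only [zero_smul, add_zero]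
  -- the vector in the plane
  set B : K := d1 / F.bar c with hBd
  have hBc : B * F.bar c = d1 := by rw [hBd]; field_simp
  have hyN : y = f1 • v0 + B • w1 + b1 • z := by
    rw [hy1, hv0, hw1, he1]
    have g1 : d1 = B * F.bar c := hBc.symm
    have g2 : c1 = f1 * A + B * F.bar u := by
      have h1 : c * (c1 - (f1 * A + B * F.bar u)) = 0 := by
        linear_combination r2 + u * hBc - f1 * hAc - B * h0
      rcases mul_eq_zero.1 h1 with h2 | h2
      · exact absurd h2 hc
      · linear_combination h2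
    have g3 : a1 = B * (-s1) := by
      linear_combination r3 + F.bar A * hBc - B * hAb
    rw [g1, g2, g3]
    simp only [smul_add, smul_smul, add_smul, zero_smul, add_zero]
    abel
  have hgw : g w1 = w1 + (F.bar c * e + F.bar u * a) • z := by
    rw [hw1, map_add, map_add, map_smul, map_smul, map_smul, hgx, hgm, hgm']
    have h1 : F.bar c * u = -(F.bar u * c) := by linear_combination h0
    simp only [smul_add, smul_smul, add_smul, h1, neg_smul]
    abel
  have hgv : g v0 = v0 - w1 + (k + A * a) • z := by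
    rw [hv0, map_add, map_smul, hgx', hgm, hw1]
    have h1 : T = s1 - F.bar s1 := hs1.symm
    have h2 : A * c = F.bar s1 := hAc
    simp only [smul_add, smul_smul, add_smul, h1, h2, neg_smul, sub_smul]
    abel
  have hgy : g y = y - f1 • w1 + (f1 * (k + A * a) + B * (F.bar c * e + F.bar u * a)) • z := by
    conv_lhs => rw [hyN]
    conv_rhs => rw [hyN]
    rw [map_add, map_add, map_smul, map_smul, map_smul, hgv, hgw, hgz]
    simp only [smul_add, smul_sub, smul_smul, add_smul, mul_add]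
    abel
  have hygy : F.H y (g y) = 0 := by
    rw [hgy, F.addr, F.subr, F.smulr, F.smulr, q1, q2, hS.iso y hy]
    ring
  obtain ⟨l, hl⟩ := hS.par hy (hp y hy) hygy
  have hl1 : l = 1 := by
    have h1 : F.H (g y) x = F.H y x := by
      conv_lhs => rw [← hgx]
      exact hi y x
    rw [hl, F.smull, j1] at h1
    have h2 : (l - 1) * f1 = 0 := by linear_combination h1
    rcases mul_eq_zero.1 h2 with h3 | h3
    · linear_combination h3
    · exact absurd h3 hf1
  rw [hl1, one_smul] at hl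
  have h5 : F.H (g y) m = F.H y m := by rw [hl]
  rw [hgy, F.addl, F.subl, F.smull, F.smull, z3, hB.zm] at h5
  have h6 : f1 * F.bar c = 0 := by linear_combination -h5
  rcases mul_eq_zero.1 h6 with h7 | h7
  · exact hf1 h7
  · exact hcb h7
-- END row othree

-- BEGIN row bshift
/-- Direct: expand each of the relations; the span: v = a x + b z + ... + e z' + f x' equals
(a - b b1 ) x + b (z + b1 x) + c m + d m' + (e + f bar b1) z' + f (x' - bar b1 z'). -/
theorem bshift (hB : Bs F x z m m' z' x') (b1 : K) :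
    Bs F x (z + b1 • x) m m' z' (x' - F.bar b1 • z') := by
  have zx := F.sw hB.xz
  have mx := F.sw hB.xm
  have m'x := F.sw hB.xm'
  have z'x := F.sw hB.xz'
  have mz := F.sw hB.zm
  have m'z := F.sw hB.zm'
  have x'z := F.sw hB.zx'
  have m'm := F.sw hB.mz'
  have z'm := F.sw hB.mz'
  have x'm := F.sw hB.mx'
  have z'm' := F.sw hB.m'z'
  have x'm' := F.sw hB.m'x'
  have x'z' := F.sw hB.z'x'
  have x'x : F.H x' x = 1 := by rw [← F.symm, hB.xx', map_one]
  have z'z : F.H z' z = 1 := by rw [← F.symm, hB.zz', map_one]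
  refine { xx := ?_, xz := ?_, xm := hB.xm, xm' := hB.xm', xz' := hB.xz', xx' := ?_, zz := ?_, zm := ?_, zm' := ?_, zz' := ?_, zx' := ?_, mm := hB.mm, mm' := hB.mm', mz' := hB.mz', mx' := ?_, m'm' := hB.m'm', m'z' := hB.m'z', m'x' := ?_, z'z' := hB.z'z', z'x' := ?_, x'x' := ?_, span := ?_ }
  · exact hB.xx
  · rw [F.addr, F.smulr, hB.xz, hB.xx]
    ring
  · rw [F.subr, F.smulr, hB.xx', hB.xz']
    ring
  · rw [F.addl, F.addr, F.addr, F.smull, F.smulr, F.smull, F.smulr, hB.zz, zx, hB.xz, hB.xx]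
    ring
  · rw [F.addl, F.smull, hB.zm, hB.xm]
    ring
  · rw [F.addl, F.smull, hB.zm', hB.xm']
    ring
  · rw [F.addl, F.smull, hB.zz', hB.xz']
    ring
  · rw [F.addl, F.smull, F.subr, F.subr, F.smulr, F.smulr, hB.zx', hB.zz', hB.xx', hB.xz', F.bb]
    ring
  · rw [F.subr, F.smulr, hB.mx', hB.mz']
    ring
  · rw [F.subr, F.smulr, hB.m'x', hB.m'z']
    ring
  · rw [F.subr, F.smulr, hB.z'x', hB.z'z']
    ring
  · rw [F.subl, F.subr, F.subr, F.smull, F.smulr, F.smull, F.smulr, hB.x'x', x'z', hB.z'x',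
      hB.z'z']
    ring
  · intro v
    obtain ⟨a, b, c, d, e, f, h⟩ := hB.span v
    refine ⟨a - b * b1, b, c, d, e + f * F.bar b1, f, ?_⟩
    rw [h]
    module
-- END row bshift

-- BEGIN row pshift
/-- g (z + b1 x) = (z + b1 x) + b x; g m = m + a (z + b1 x) + (c - a b1) x. -/
theorem pshift (hP : Pg F S P x z m) (b1 : K) : Pg F S P x (z + b1 • x) m := by
  refine ⟨hP.iso, hP.pres, hP.fx, ?_, ?_, hP.tr⟩
  · intro g hg
    obtain ⟨b, hb⟩ := hP.fz g hg
    refine ⟨b, ?_⟩
    rw [map_add, map_smul, hP.fx g hg, hb]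
    abel
  · intro g hg
    obtain ⟨a, c, hac⟩ := hP.fm g hg
    refine ⟨a, c - a * b1, ?_⟩
    rw [hac]
    module
-- END row pshift

-- BEGIN row mshift
/-- Substitute z = (z + b1 x) - b1 x in the four images. -/
theorem mshift {g : V ≃ₗ[K] V} {a c s e u f t v : K}
    (hg : Mt F x z m m' z' g 0 a c s e u f t v) (b1 : K) :
    Mt F x (z + b1 • x) m m' z' g 0 a (c - a * b1) s e (u - e * b1) f t (v - t * b1) := by
  refine { gx := hg.gx, gz := ?_, gm := ?_, gm' := ?_, gz' := ?_, hs := hg.hs, hf := hg.hf, ht := hg.ht }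
  · rw [map_add, map_smul, hg.gz, hg.gx]
    module
  · rw [hg.gm]
    module
  · rw [hg.gm']
    module
  · rw [hg.gz']
    module
-- END row mshift

-- BEGIN row othree2
/-- For each b1 the shifted basis and `othree` give bar c (u - e b1) + c bar (u - e b1) ≠ 0
(a = 0). If e ≠ 0 take b1 = u / e: contradiction. So e = 0, and b1 = 0 gives the rest. -/
theorem othree2 [Finite V] {θ : K} (hθ : θ + F.bar θ = 1) (hB : Bs F x z m m' z' x')
    (hS : F.Ov S) (hx : S x) {g : V ≃ₗ[K] V}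
    (hi : ∀ u v, F.H (g u) (g v) = F.H u v) (hp : ∀ y, S y → S (g y))
    {c e u f t v : K} (hg : Mt F x z m m' z' g 0 0 c 0 e u f t v) (hc : c ≠ 0) :
    e = 0 ∧ F.bar c * u + c * F.bar u ≠ 0 := by
  have key : ∀ b1 : K, F.bar c * (u - e * b1) + c * F.bar (u - e * b1) ≠ 0 := by
    intro b1
    have h1 := othree hθ (bshift hB b1) hS hx hi hp (mshift hg b1) (by rw [zero_mul, sub_zero]; exact hc)
    rw [zero_mul, sub_zero] at h1
    exact h1
  have he : e = 0 := by
    by_contra he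
    apply key (u / e)
    rw [mul_div_cancel₀ u he, sub_self, map_zero, mul_zero, mul_zero, add_zero]
  refine ⟨he, ?_⟩
  have h0 := key 0
  rw [mul_zero, sub_zero] at h0
  exact h0
-- END row othree2

-- BEGIN row trb
private theorem trb_pair (hB : Bs F x z m m' z' x') (w t p q r : K) :
    F.H x (x' + w • z' + t • m' + p • m + q • z + r • x) = 1 ∧
      F.H z (x' + w • z' + t • m' + p • m + q • z + r • x) = F.bar w := by
  have h1 := F.sw hB.xz
  constructor
  · rw [F.addr, F.addr, F.addr, F.addr, F.addr, F.smulr, F.smulr, F.smulr, F.smulr, F.smulr,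
      hB.xx', hB.xz', hB.xm', hB.xm, hB.xz, hB.xx]
    ring
  · rw [F.addr, F.addr, F.addr, F.addr, F.addr, F.smulr, F.smulr, F.smulr, F.smulr, F.smulr,
      hB.zx', hB.zz', hB.zm', hB.zm, hB.zz, h1]
    ring

private theorem trb_ne (hB : Bs F x z m m' z' x') (w t p q r : K) :
    F.H (x' + w • z' + t • m' + p • m + q • z + r • x) x ≠ 0 := by
  rw [← F.symm, (trb_pair hB w t p q r).1, map_one]
  exact one_ne_zero

private theorem trb_l {y y1 : V} (h : F.H y x ≠ 0) {g : V ≃ₗ[K] V} {l : K} (hl : g y = l • y1) :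
    F.bar l ≠ 0 := by
  intro h0
  have h1 : l = 0 := by
    have h2 := F.bb l
    rw [h0, map_zero] at h2
    exact h2.symm
  rw [h1, zero_smul] at hl
  have h3 : y = 0 := (map_eq_zero_iff g g.injective).1 hl
  rw [h3] at h
  exact h (F.zerol x)

/-- By `lift` with (w, t) = (0, 0) there is y in S with H y x = 1 and H y z = 0; with
(w, t) = (- bar b, 0) there is y1 in S with H y1 x = 1, H y1 z = - bar b, so
H (z + b x) y1 = 0. By transitivity g y = l y1, g in P; g z = z + b0 x;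
0 = H (g z) (g y) = bar l (H z y1 + b0 H x y1) = bar l (- b + b0), l ≠ 0 (y ≠ 0). So b0 = b. -/
theorem trb [Finite V] (hB : Bs F x z m m' z' x') (hS : F.Ov S) (hx : S x)
    (hP : Pg F S P x z m) (b : K) : ∃ g ∈ P, g z = z + b • x := by
  obtain ⟨p, q, r, hy⟩ := lift hB hS hx 0 0
  obtain ⟨p1, q1, r1, hy1⟩ := lift hB hS hx (-F.bar b) 0
  obtain ⟨g, hg, l, hl⟩ := hP.tr _ _ hy hy1 (trb_ne hB 0 0 p q r) (trb_ne hB (-F.bar b) 0 p1 q1 r1)
  obtain ⟨b0, hb0⟩ := hP.fz g hg
  have hlb := trb_l (trb_ne hB 0 0 p q r) hl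
  have h1 := hP.iso g hg z (x' + (0 : K) • z' + (0 : K) • m' + p • m + q • z + r • x)
  rw [hl, hb0, F.smulr, F.addl, F.smull, (trb_pair hB (-F.bar b) 0 p1 q1 r1).1,
    (trb_pair hB (-F.bar b) 0 p1 q1 r1).2, (trb_pair hB 0 0 p q r).2, map_zero, map_neg, F.bb,
    mul_one] at h1
  have h2 : b0 = b := by
    rcases mul_eq_zero.1 h1 with h | h
    · exact absurd h hlb
    · exact (neg_add_eq_zero.1 h).symm
  exact ⟨g, hg, by rw [hb0, h2]⟩
-- END row trb

-- BEGIN row trc
private theorem trc_pair (hB : Bs F x z m m' z' x') (w t p q r : K) :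
    F.H x (x' + w • z' + t • m' + p • m + q • z + r • x) = 1 ∧
      F.H z (x' + w • z' + t • m' + p • m + q • z + r • x) = F.bar w ∧
      F.H m (x' + w • z' + t • m' + p • m + q • z + r • x) = F.bar t := by
  have h1 := F.sw hB.xz
  have h2 := F.sw hB.xm
  have h3 := F.sw hB.zm
  refine ⟨?_, ?_, ?_⟩
  · rw [F.addr, F.addr, F.addr, F.addr, F.addr, F.smulr, F.smulr, F.smulr, F.smulr, F.smulr,
      hB.xx', hB.xz', hB.xm', hB.xm, hB.xz, hB.xx]
    ring
  · rw [F.addr, F.addr, F.addr, F.addr, F.addr, F.smulr, F.smulr, F.smulr, F.smulr, F.smulr,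
      hB.zx', hB.zz', hB.zm', hB.zm, hB.zz, h1]
    ring
  · rw [F.addr, F.addr, F.addr, F.addr, F.addr, F.smulr, F.smulr, F.smulr, F.smulr, F.smulr,
      hB.mx', hB.mz', hB.mm', hB.mm, h3, h2]
    ring

private theorem trc_ne (hB : Bs F x z m m' z' x') (w t p q r : K) :
    F.H (x' + w • z' + t • m' + p • m + q • z + r • x) x ≠ 0 := by
  rw [← F.symm, (trc_pair hB w t p q r).1, map_one]
  exact one_ne_zero

private theorem trc_l {y y1 : V} (h : F.H y x ≠ 0) {g : V ≃ₗ[K] V} {l : K} (hl : g y = l • y1) :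
    F.bar l ≠ 0 := by
  intro h0
  have h1 : l = 0 := by
    have h2 := F.bb l
    rw [h0, map_zero] at h2
    exact h2.symm
  rw [h1, zero_smul] at hl
  have h3 : y = 0 := (map_eq_zero_iff g g.injective).1 hl
  rw [h3] at h
  exact h (F.zerol x)

/-- As `trb`: y from `lift` (0, 0): H y z = 0 = H y m; y1 from `lift` (0, - bar c): H y1 z = 0,
H y1 m = - bar c. g y = l y1, g in P. g z = z + b0 x, H (g z) (g y) = 0 gives b0 = 0;
g m = m + a z + c0 x and H (g m) (g y) = 0 gives - c + c0 = 0. -/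
theorem trc [Finite V] (hB : Bs F x z m m' z' x') (hS : F.Ov S) (hx : S x)
    (hP : Pg F S P x z m) (c : K) : ∃ g ∈ P, g z = z ∧ ∃ a : K, g m = m + a • z + c • x := by
  obtain ⟨p, q, r, hy⟩ := lift hB hS hx 0 0
  obtain ⟨p1, q1, r1, hy1⟩ := lift hB hS hx 0 (-F.bar c)
  obtain ⟨g, hg, l, hl⟩ := hP.tr _ _ hy hy1 (trc_ne hB 0 0 p q r) (trc_ne hB 0 (-F.bar c) p1 q1 r1)
  obtain ⟨b0, hb0⟩ := hP.fz g hg
  obtain ⟨a, c0, hc0⟩ := hP.fm g hg
  have hlb := trc_l (trc_ne hB 0 0 p q r) hl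
  obtain ⟨e1, e2, e3⟩ := trc_pair hB 0 (-F.bar c) p1 q1 r1
  obtain ⟨d1, d2, d3⟩ := trc_pair hB 0 0 p q r
  have h1 := hP.iso g hg z (x' + (0 : K) • z' + (0 : K) • m' + p • m + q • z + r • x)
  rw [hl, hb0, F.smulr, F.addl, F.smull, e1, e2, d2, map_zero, mul_one, zero_add] at h1
  have hb : b0 = 0 := by
    rcases mul_eq_zero.1 h1 with h | h
    · exact absurd h hlb
    · exact h
  have h2 := hP.iso g hg m (x' + (0 : K) • z' + (0 : K) • m' + p • m + q • z + r • x)
  rw [hl, hc0, F.smulr, F.addl, F.addl, F.smull, F.smull, e1, e2, e3, d3, map_zero, map_neg, F.bb,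
    mul_one, mul_zero, add_zero] at h2
  have hc : c0 = c := by
    rcases mul_eq_zero.1 h2 with h | h
    · exact absurd h hlb
    · exact (neg_add_eq_zero.1 h).symm
  refine ⟨g, hg, ?_, a, ?_⟩
  · rw [hb0, hb, zero_smul, add_zero]
  · rw [hc0, hc]
-- END row trc

-- BEGIN row done
/-- Suppose u ≠ 0. g x' = x' - bar u m + y z + w x (`mx`, c = 0), w + bar w = 0 (from
H (g x') (g x') = 0). Choose t0 with u t0 - bar (u t0) = bar w (h90). By `lift` with (0, t0):
y0 = x' + t0 m' + p m + q z + r x in S. Then g y0 = y0 - bar u m + (w + t0 u) x + (..) z and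
H y0 (g y0) = - u t0 + bar w + bar t0 bar u = 0, so g y0 = l y0 by `Ovo.HF.Ov.par`; the
coefficient of x' gives l = 1, that of m gives bar u = 0. Contradiction. -/
theorem done [Finite V] {θ : K} (hθ : θ + F.bar θ = 1) (hB : Bs F x z m m' z' x')
    (hS : F.Ov S) (hx : S x) {g : V ≃ₗ[K] V}
    (hi : ∀ u v, F.H (g u) (g v) = F.H u v) (hp : ∀ y, S y → S (g y))
    {a e u f t v : K} (hg : Mt F x z m m' z' g 0 a 0 0 e u f t v) : u = 0 := by
  by_contra hu
  obtain ⟨y, w, hx1⟩ := mx hB hi hg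
  have hxx : g x' = w • x + y • z + (-F.bar u) • m + (0 : K) • m' + (0 : K) • z' + (1 : K) • x' := by
    rw [hx1]
    simp only [map_zero]
    module
  have hw : w + F.bar w = 0 := by
    have h := hi x' x'
    rw [hxx, hcomb hB, hB.x'x'] at h
    simpa using h
  have hw' : F.bar w + F.bar (F.bar w) = 0 := by
    rw [F.bb, add_comm]
    exact hw
  obtain ⟨e0, he0⟩ := h90 hθ hw'
  obtain ⟨p, q, r, hy⟩ := lift hB hS hx 0 (e0 / u)
  have hut : e0 / u * u = e0 := div_mul_cancel₀ e0 hu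
  generalize e0 / u = t0 at *
  have hy1 : x' + (0 : K) • z' + t0 • m' + p • m + q • z + r • x =
      r • x + q • z + p • m + t0 • m' + (0 : K) • z' + (1 : K) • x' := by module
  rw [hy1] at hy
  have hgy : g (r • x + q • z + p • m + t0 • m' + (0 : K) • z' + (1 : K) • x') =
      (r + w + t0 * u) • x + (y + t0 * e + p * a + q) • z + (p - F.bar u) • m + t0 • m' +
        (0 : K) • z' + (1 : K) • x' := by
    simp only [map_add, map_smul, hg.gx, hg.gz, hg.gm, hg.gm', hxx, zero_smul, map_zero]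
    module
  have hiso := hS.iso _ hy
  rw [hcomb hB] at hiso
  have h2 : F.bar e0 = F.bar t0 * F.bar u := by rw [← hut, map_mul]
  have hH : F.H (r • x + q • z + p • m + t0 • m' + (0 : K) • z' + (1 : K) • x')
      (g (r • x + q • z + p • m + t0 • m' + (0 : K) • z' + (1 : K) • x')) = 0 := by
    rw [hgy, hcomb hB]
    simp only [map_add, map_sub, map_mul, map_one, map_zero, F.bb] at hiso ⊢
    linear_combination hiso - he0 - hut - h2
  obtain ⟨l, hl⟩ := hS.par hy (hp _ hy) hH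
  have h3 : l • (r • x + q • z + p • m + t0 • m' + (0 : K) • z' + (1 : K) • x') =
      (l * r) • x + (l * q) • z + (l * p) • m + (l * t0) • m' + (l * 0) • z' + (l * 1) • x' := by
    module
  rw [hgy, h3] at hl
  obtain ⟨-, -, h4, -, -, h5⟩ := indep hB hl
  rw [mul_one] at h5
  rw [← h5, one_mul, sub_eq_self] at h4
  exact hu (by rw [← F.bb u, h4, map_zero])
-- END row done

-- BEGIN row dtwo
/-- Take r in P with r z = z, r m = m + a1 z + x (`trc` with c = 1), k = g, k' = r g r^{-1},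
k2 = g k'^{-1} (all in P). Modulo z: k' m' = m' + s m + (u + s) x, so k2 m' = m' - s x modulo z
(k2 m = m modulo z, k2 z = z; more precisely k2 k' m' = g m'). `mtex` for k2 and comparison give
its entries a = 0, c = 0, s = 0, u = - s; `done` gives s = 0. Then `done` for g gives u = 0. -/
theorem dtwo [Finite V] {θ : K} (hθ : θ + F.bar θ = 1) (hB : Bs F x z m m' z' x')
    (hS : F.Ov S) (hx : S x) (hP : Pg F S P x z m) {g : V ≃ₗ[K] V} (hg0 : g ∈ P)
    {a s e u f t v : K} (hg : Mt F x z m m' z' g 0 a 0 s e u f t v) : s = 0 ∧ u = 0 := by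
  have key : s = 0 := by
    obtain ⟨r, hr, hrz, a1, hrm⟩ := trc hB hS hx hP 1
    have hrx := hP.fx r hr
    obtain ⟨s1, e1, u1, f1, t1, v1, hr1⟩ := mtex (b := 0) hB (hP.iso r hr) hrx
      (by rw [hrz, zero_smul, add_zero]) hrm
    obtain ⟨k, hkd⟩ : ∃ k : V ≃ₗ[K] V, k = g * r * (r * g)⁻¹ := ⟨_, rfl⟩
    have hkP : k ∈ P := by
      rw [hkd]
      exact P.mul_mem (P.mul_mem hg0 hr) (P.inv_mem (P.mul_mem hr hg0))
    have hk : ∀ w, k (r (g w)) = g (r w) := by
      intro w
      have h := DFunLike.congr_fun (inv_mul_cancel_right (g * r) (r * g)) w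
      rw [← hkd] at h
      exact h
    have hkx := hP.fx k hkP
    have hkz : k z = z := by
      have h := hk z
      simp only [hg.gz, hrz, hg.gx, zero_smul, add_zero] at h
      exact h
    have hkm : k m = m := by
      have h := hk m
      simp only [hg.gm, hg.gz, hrm, hrz, hg.gx, hrx, map_add, map_smul, hkz, hkx, zero_smul,
        add_zero, one_smul] at h
      have h2 : k m + (a1 • z + x + a • z) = m + (a1 • z + x + a • z) := by
        rw [← sub_eq_zero] at h ⊢
        rw [← h]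
        abel
      exact add_right_cancel h2
    obtain ⟨s2, e2, u2, f2, t2, v2, hk2⟩ := mtex (b := 0) (a := 0) (c := 0) hB (hP.iso k hkP) hkx
      (by rw [hkz, zero_smul, add_zero]) (by rw [hkm, zero_smul, zero_smul, add_zero, add_zero])
    have e3 := hk m'
    simp only [hg.gm', hr1.gm', hk2.gm', hg.gm, hg.gz, hrm, hrz, hg.gx, hrx, map_add, map_smul,
      hkz, hkx, hkm, zero_smul, add_zero, one_smul] at e3
    have e4 := congrArg (fun w => F.H w m') e3
    have e5 := congrArg (fun w => F.H w x') e3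
    simp only [F.addl, F.smull, hB.xx', hB.zx', hB.mx', hB.m'x', mul_zero, mul_one, add_zero,
      zero_add] at e5
    simp only [F.addl, F.smull, hB.xm', hB.zm', hB.mm', hB.m'm', mul_zero, mul_one, add_zero,
      zero_add] at e4
    have hs2 : s2 = 0 := by linear_combination e4
    have hu2 : u2 = -s := by linear_combination e5
    subst hs2
    have h := done hθ hB hS hx (hP.iso k hkP) (hP.pres k hkP) hk2
    rw [hu2] at h
    exact neg_eq_zero.1 h
  subst key
  exact ⟨rfl, done hθ hB hS hx (hP.iso g hg0) (hP.pres g hg0) hg⟩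
-- END row dtwo

-- BEGIN row xg
/-- (k x' for k trivial on M.) H (g x') x = 1, H (g x') z = 0 = H (g x') m; H (g x') (g m') = 0
gives the coefficient of m is 0; H (g x') (g z') = 0 gives the coefficient of z is - bar v;
H (g x') (g x') = 0 gives w + bar w = 0. -/
theorem xg (hB : Bs F x z m m' z' x') {g : V ≃ₗ[K] V} (hi : ∀ u v, F.H (g u) (g v) = F.H u v)
    {e f t v : K} (hg : Mt F x z m m' z' g 0 0 0 0 e 0 f t v) :
    ∃ w : K, g x' = x' - F.bar v • z + w • x ∧ w + F.bar w = 0 := by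
  have g1 : F.H x' x = 1 := by rw [← F.symm x x', hB.xx', map_one]
  have hf : f = - F.bar e := by rw [hg.hf]; simp
  obtain ⟨p, q, r, s, y, w, hx⟩ := hB.span (g x')
  have gx : g x = x := hg.gx
  have gz : g z = z := by rw [hg.gz]; simp
  have gm : g m = m := by rw [hg.gm]; simp
  have gm' : g m' = m' + e • z := by rw [hg.gm']; simp
  have gz' : g z' = z' + f • m + t • z + v • x := by rw [hg.gz']; simp
  -- coefficients
  have hw : w = 1 := by
    have h1 := hi x' x
    rw [gx, hx, g1] at h1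
    have h2 := hcomb hB p q r s y w 1 0 0 0 0 0
    simp only [zero_smul, add_zero, one_smul, map_zero, map_one, mul_zero, mul_one, zero_add] at h2
    rw [h2] at h1
    exact h1
  have hy : y = 0 := by
    have h1 := hi x' z
    rw [gz, hx, F.sw hB.zx'] at h1
    have h2 := hcomb hB p q r s y w 0 1 0 0 0 0
    simp only [zero_smul, add_zero, one_smul, map_zero, map_one, mul_zero, mul_one, zero_add] at h2
    rw [h2] at h1
    exact h1
  have hs : s = 0 := by
    have h1 := hi x' m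
    rw [gm, hx, F.sw hB.mx'] at h1
    have h2 := hcomb hB p q r s y w 0 0 1 0 0 0
    simp only [zero_smul, add_zero, one_smul, map_zero, map_one, mul_zero, mul_one, zero_add] at h2
    rw [h2] at h1
    exact h1
  subst hw hy hs
  have hr : r = 0 := by
    have h1 := hi x' m'
    rw [gm', hx, F.sw hB.m'x'] at h1
    have h2 := hcomb hB p q r 0 0 1 0 e 0 1 0 0
    simp only [zero_smul, add_zero, one_smul, map_zero, map_one, mul_zero, mul_one, zero_add,
      zero_mul] at h2 h1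
    rw [add_comm m' (e • z), h2] at h1
    exact h1
  subst hr
  have hq : q = - F.bar v := by
    have h1 := hi x' z'
    rw [gz', hx, F.sw hB.z'x'] at h1
    have h2 := hcomb hB p q 0 0 0 1 v t f 0 1 0
    simp only [zero_smul, add_zero, one_smul, map_zero, map_one, mul_zero, mul_one, zero_add,
      zero_mul, one_mul] at h2 h1
    rw [show z' + f • m + t • z + v • x = v • x + t • z + f • m + z' by abel, h2] at h1
    exact eq_neg_of_add_eq_zero_left h1
  subst hq
  refine ⟨p, ?_, ?_⟩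
  · rw [hx]
    simp only [zero_smul, add_zero, one_smul, neg_smul]
    abel
  · have h1 := hi x' x'
    rw [hx, hB.x'x', hcomb hB] at h1
    simp only [map_zero, map_one, mul_zero, mul_one, zero_add, zero_mul, one_mul, add_zero] at h1
    exact h1
-- END row xg

-- BEGIN row eone
/-- Suppose e ≠ 0; f = - bar e. With `xg` and y0 = x' + z' + t0 m' + p m + q z + r x in S
(`lift` with (1, t0)): g y0 = y0 + f m + (- bar v + t + t0 e) z + (w + v) x, and H y0 (g y0) =
- e t0 + bar (e t0) - v + bar t + bar w + bar v. By h90 (t + bar t = 0 by ht) choose t0 making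
it 0. Then g y0 = l y0, l = 1 (coefficient of x'), and the coefficient of m gives f = 0, so
e = 0. -/
theorem eone [Finite V] {θ : K} (hθ : θ + F.bar θ = 1) (hB : Bs F x z m m' z' x')
    (hS : F.Ov S) (hx : S x) {g : V ≃ₗ[K] V}
    (hi : ∀ u v, F.H (g u) (g v) = F.H u v) (hp : ∀ y, S y → S (g y))
    {e f t v : K} (hg : Mt F x z m m' z' g 0 0 0 0 e 0 f t v) : e = 0 := by
  by_contra hu
  obtain ⟨w, hx1, hw⟩ := xg hB hi hg
  have hf : f = -F.bar e := by
    have h := hg.hf
    simpa using h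
  have ht : t + F.bar t = 0 := by
    have h := hg.ht
    simpa using h
  have hs : (F.bar t + F.bar w + F.bar v - v) + F.bar (F.bar t + F.bar w + F.bar v - v) = 0 := by
    simp only [map_add, map_sub, F.bb]
    linear_combination ht + hw
  obtain ⟨e0, he0⟩ := h90 hθ hs
  obtain ⟨p, q, r, hy⟩ := lift hB hS hx 1 (e0 / e)
  have hut : e0 / e * e = e0 := div_mul_cancel₀ e0 hu
  generalize e0 / e = t0 at *
  have hy1 : x' + (1 : K) • z' + t0 • m' + p • m + q • z + r • x =
      r • x + q • z + p • m + t0 • m' + (1 : K) • z' + (1 : K) • x' := by module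
  rw [hy1] at hy
  have hgy : g (r • x + q • z + p • m + t0 • m' + (1 : K) • z' + (1 : K) • x') =
      (r + w + v) • x + (q - F.bar v + t + t0 * e) • z + (p + f) • m + t0 • m' +
        (1 : K) • z' + (1 : K) • x' := by
    simp only [map_add, map_smul, hg.gx, hg.gz, hg.gm, hg.gm', hg.gz', hx1, map_zero]
    module
  have hiso := hS.iso _ hy
  rw [hcomb hB] at hiso
  have h2 : F.bar e0 = F.bar t0 * F.bar e := by rw [← hut, map_mul]
  have hH : F.H (r • x + q • z + p • m + t0 • m' + (1 : K) • z' + (1 : K) • x')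
      (g (r • x + q • z + p • m + t0 • m' + (1 : K) • z' + (1 : K) • x')) = 0 := by
    rw [hgy, hcomb hB, hf]
    simp only [map_add, map_sub, map_mul, map_neg, map_one, F.bb] at hiso ⊢
    linear_combination hiso - he0 - hut - h2
  obtain ⟨l, hl⟩ := hS.par hy (hp _ hy) hH
  have h3 : l • (r • x + q • z + p • m + t0 • m' + (1 : K) • z' + (1 : K) • x') =
      (l * r) • x + (l * q) • z + (l * p) • m + (l * t0) • m' + (l * 1) • z' + (l * 1) • x' := by
    module
  rw [hgy, h3] at hl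
  obtain ⟨-, -, h4, -, -, h5⟩ := indep hB hl
  rw [mul_one] at h5
  rw [← h5, one_mul, add_eq_left] at h4
  rw [h4] at hf
  exact hu (by rw [← F.bb e, neg_eq_zero.1 hf.symm, map_zero])
-- END row eone

-- BEGIN row etwo
/-- Suppose v ≠ 0. y0 = x' + w0 z' + p m + q z + r x in S (`lift` with (w0, 0)):
g y0 = y0 - bar v z + (w + w0 v) x and H y0 (g y0) = - v w0 + bar w + bar (w0 v). By h90 choose
w0 making it 0; then g y0 = y0 and bar v = 0. -/
theorem etwo [Finite V] {θ : K} (hθ : θ + F.bar θ = 1) (hB : Bs F x z m m' z' x')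
    (hS : F.Ov S) (hx : S x) {g : V ≃ₗ[K] V}
    (hi : ∀ u v, F.H (g u) (g v) = F.H u v) (hp : ∀ y, S y → S (g y))
    {v : K} (hg : Mt F x z m m' z' g 0 0 0 0 0 0 0 0 v) : v = 0 := by
  by_contra hu
  obtain ⟨w, hx1, hw⟩ := xg hB hi hg
  have hw' : F.bar w + F.bar (F.bar w) = 0 := by
    rw [F.bb, add_comm]
    exact hw
  obtain ⟨e0, he0⟩ := h90 hθ hw'
  obtain ⟨p, q, r, hy⟩ := lift hB hS hx (e0 / v) 0
  have hut : e0 / v * v = e0 := div_mul_cancel₀ e0 hu
  generalize e0 / v = w0 at *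
  have hy1 : x' + w0 • z' + (0 : K) • m' + p • m + q • z + r • x =
      r • x + q • z + p • m + (0 : K) • m' + w0 • z' + (1 : K) • x' := by module
  rw [hy1] at hy
  have hgy : g (r • x + q • z + p • m + (0 : K) • m' + w0 • z' + (1 : K) • x') =
      (r + w + w0 * v) • x + (q - F.bar v) • z + p • m + (0 : K) • m' +
        w0 • z' + (1 : K) • x' := by
    simp only [map_add, map_smul, hg.gx, hg.gz, hg.gm, hg.gm', hg.gz', hx1, map_zero]
    module
  have hiso := hS.iso _ hy
  rw [hcomb hB] at hiso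
  have h2 : F.bar e0 = F.bar w0 * F.bar v := by rw [← hut, map_mul]
  have hH : F.H (r • x + q • z + p • m + (0 : K) • m' + w0 • z' + (1 : K) • x')
      (g (r • x + q • z + p • m + (0 : K) • m' + w0 • z' + (1 : K) • x')) = 0 := by
    rw [hgy, hcomb hB]
    simp only [map_add, map_sub, map_mul, map_one, map_zero, F.bb] at hiso ⊢
    linear_combination hiso - he0 - hut - h2
  obtain ⟨l, hl⟩ := hS.par hy (hp _ hy) hH
  have h3 : l • (r • x + q • z + p • m + (0 : K) • m' + w0 • z' + (1 : K) • x') =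
      (l * r) • x + (l * q) • z + (l * p) • m + (l * 0) • m' + (l * w0) • z' + (l * 1) • x' := by
    module
  rw [hgy, h3] at hl
  obtain ⟨-, h4, -, -, -, h5⟩ := indep hB hl
  rw [mul_one] at h5
  rw [← h5, one_mul, sub_eq_self] at h4
  exact hu (by rw [← F.bb v, h4, map_zero])
-- END row etwo

-- BEGIN row ethree
/-- `dtwo` gives s = u = 0, `eone` gives e = 0 and f = 0. Let r in P with r z = z + x (`trb`),
k' = r g r^{-1}: it fixes x, z, m, m' and k' z' = z' + t (z + x) + v x. So k2 = g k'^{-1} fixes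
x, z, m, m' and k2 z' = z' - t x; `etwo` gives t = 0, and then `etwo` for g gives v = 0. -/
theorem ethree [Finite V] {θ : K} (hθ : θ + F.bar θ = 1) (hB : Bs F x z m m' z' x')
    (hS : F.Ov S) (hx : S x) (hP : Pg F S P x z m) {g : V ≃ₗ[K] V} (hg0 : g ∈ P)
    (hz : g z = z) (hm : g m = m) : g m' = m' ∧ g z' = z' := by
  obtain ⟨s, e, u, f, t, v, hM⟩ := mtex hB (hP.iso g hg0) (b := 0) (a := 0) (c := 0)
    (hP.fx g hg0) (by rw [hz]; simp) (by rw [hm]; simp)
  obtain ⟨hs, hu⟩ := dtwo hθ hB hS hx hP hg0 hM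
  subst hs hu
  have he := eone hθ hB hS hx (hP.iso g hg0) (hP.pres g hg0)
    (f := f) (e := e) (t := t) (v := v) hM
  subst he
  have hf : f = 0 := by
    have h := hM.hf
    rw [zero_mul, map_zero, sub_zero] at h
    exact h
  subst hf
  have gm' : g m' = m' := by
    have h := hM.gm'
    simpa using h
  have gz' : g z' = z' + t • z + v • x := by
    have h := hM.gz'
    simpa using h
  have gx := hP.fx g hg0
  obtain ⟨r, hr, rz⟩ := trb hB hS hx hP 1
  rw [one_smul] at rz
  have rx := hP.fx r hr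
  have hri := P.inv_mem hr
  obtain ⟨b1, iz⟩ := hP.fz r⁻¹ hri
  obtain ⟨a1, c1, im⟩ := hP.fm r⁻¹ hri
  have ix := hP.fx r⁻¹ hri
  obtain ⟨s1, e1, u1, f1, t1, v1, hM1⟩ := mtex hB (hP.iso r⁻¹ hri) ix iz im
  have rr : ∀ w, r (r⁻¹ w) = w := fun w => LinearEquiv.apply_symm_apply r w
  -- the conjugate
  have kx : (r * g * r⁻¹) x = x := by
    show r (g (r⁻¹ x)) = x
    rw [ix, gx, rx]
  have kz : (r * g * r⁻¹) z = z := by
    show r (g (r⁻¹ z)) = z
    have : g (r⁻¹ z) = r⁻¹ z := by rw [iz, map_add, map_smul, hz, gx]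
    rw [this, rr]
  have km : (r * g * r⁻¹) m = m := by
    show r (g (r⁻¹ m)) = m
    have : g (r⁻¹ m) = r⁻¹ m := by
      rw [im, map_add, map_add, map_smul, map_smul, hz, hm, gx]
    rw [this, rr]
  have km' : (r * g * r⁻¹) m' = m' := by
    show r (g (r⁻¹ m')) = m'
    have : g (r⁻¹ m') = r⁻¹ m' := by
      rw [hM1.gm', map_add, map_add, map_add, map_smul, map_smul, map_smul, hz, hm, gx, gm']
    rw [this, rr]
  have kz' : (r * g * r⁻¹) z' = z' + t • z + (t + v) • x := by
    show r (g (r⁻¹ z')) = z' + t • z + (t + v) • x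
    have : g (r⁻¹ z') = r⁻¹ z' + t • z + v • x := by
      rw [hM1.gz', map_add, map_add, map_add, map_sub, map_smul, map_smul, map_smul, map_smul,
        hz, hm, gx, gm', gz']
      abel
    rw [this, map_add, map_add, rr, map_smul, map_smul, rz, rx]
    module
  set k := r * g * r⁻¹ with hk
  have hkP : k ∈ P := P.mul_mem (P.mul_mem hr hg0) hri
  have hk2 : g * k⁻¹ ∈ P := P.mul_mem hg0 (P.inv_mem hkP)
  have ki : ∀ w w', k w = w' → k⁻¹ w' = w := fun w w' h => by
    rw [← h]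
    exact LinearEquiv.symm_apply_apply k w
  have jx : k⁻¹ x = x := ki _ _ kx
  have jz : k⁻¹ z = z := ki _ _ kz
  have jm : k⁻¹ m = m := ki _ _ km
  have jm' : k⁻¹ m' = m' := ki _ _ km'
  have jz' : k⁻¹ z' = z' - t • z - (t + v) • x := by
    have h := ki _ _ kz'
    rw [map_add, map_add, map_smul, map_smul, jz, jx] at h
    rw [eq_sub_of_add_eq (eq_sub_of_add_eq h)]
    abel
  have hM2 : Mt F x z m m' z' (g * k⁻¹) 0 0 0 0 0 0 0 0 (-t) := by
    refine ⟨?_, ?_, ?_, ?_, ?_, ?_, ?_, ?_⟩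
    · show g (k⁻¹ x) = x
      rw [jx, gx]
    · show g (k⁻¹ z) = z + (0 : K) • x
      rw [jz, hz, zero_smul, add_zero]
    · show g (k⁻¹ m) = m + (0 : K) • z + (0 : K) • x
      rw [jm, hm, zero_smul, zero_smul, add_zero, add_zero]
    · show g (k⁻¹ m') = m' + (0 : K) • m + (0 : K) • z + (0 : K) • x
      rw [jm', gm', zero_smul, zero_smul, zero_smul, add_zero, add_zero, add_zero]
    · show g (k⁻¹ z') = z' - F.bar 0 • m' + (0 : K) • m + (0 : K) • z + (-t) • x
      rw [jz', map_sub, map_sub, map_smul, map_smul, hz, gx, gz', map_zero]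
      module
    · simp
    · simp
    · simp
  have ht : t = 0 := by
    have h := etwo hθ hB hS hx (hP.iso _ hk2) (hP.pres _ hk2) hM2
    exact neg_eq_zero.1 h
  subst ht
  have hv : v = 0 := etwo hθ hB hS hx (hP.iso g hg0) (hP.pres g hg0) hM
  subst hv
  refine ⟨gm', ?_⟩
  rw [gz', zero_smul, zero_smul, add_zero, add_zero]
-- END row ethree

-- BEGIN row comm
private theorem comm_k (g h : V ≃ₗ[K] V) (v : V) :
    ((h * g)⁻¹ * (g * h)) v = v ↔ g (h v) = h (g v) := by
  show (h * g).symm (g (h v)) = v ↔ g (h v) = h (g v)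
  rw [LinearEquiv.symm_apply_eq]
  exact Iff.rfl

/-- Apply `ethree` to (h g)^{-1} (g h). -/
theorem comm [Finite V] {θ : K} (hθ : θ + F.bar θ = 1) (hB : Bs F x z m m' z' x')
    (hS : F.Ov S) (hx : S x) (hP : Pg F S P x z m) {g h : V ≃ₗ[K] V} (hg : g ∈ P) (hh : h ∈ P)
    (hz : g (h z) = h (g z)) (hm : g (h m) = h (g m)) :
    g (h m') = h (g m') ∧ g (h z') = h (g z') := by
  have hk : (h * g)⁻¹ * (g * h) ∈ P :=
    P.mul_mem (P.inv_mem (P.mul_mem hh hg)) (P.mul_mem hg hh)
  obtain ⟨h1, h2⟩ := ethree hθ hB hS hx hP hk ((comm_k g h z).2 hz) ((comm_k g h m).2 hm)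
  exact ⟨(comm_k g h m').1 h1, (comm_k g h z').1 h2⟩
-- END row comm

-- BEGIN row sone
/-- `mtex` and `dtwo`: g m' = m' + e z, g z' = z' - bar a m' + f m + t z + v x, f = - bar e.
Suppose a ≠ 0. Take h in P with h z = z + x (`trb`), g2 = h g h^{-1}: g2 z1 = z1 for
z1 = z + x, g2 m = m + a z1 (h^{-1} m = m + (..) z + (..) x, on which g adds a z, and
h z = z1); by `bshift`, `pshift`, `mtex`, `dtwo` with z1: g2 m' = m' + e2 z1. Put r = g g2^{-1}:
r z = z, r m = m - a x, r m' = m' + (e - e2) z - e2 x (g and g2 fix x and z). `othree2` for r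
(c = - a, s = 0): e = e2 and, with u = - e, bar a e + a bar e ≠ 0. g and r commute on z and
m; by `comm` g (r z') = r (g z'). r z' = z' + t' z + v' x (a = 0, s = 0, its e = 0), so
the coefficient of x gives v' + v = v' + v - bar a (- e) + f (- a), i.e.
bar a e + a bar e = 0. Contradiction. -/
theorem sone [Finite V] {θ : K} (hθ : θ + F.bar θ = 1) (hB : Bs F x z m m' z' x')
    (hS : F.Ov S) (hx : S x) (hP : Pg F S P x z m) {g : V ≃ₗ[K] V} (hg : g ∈ P)
    {a : K} (hz : g z = z) (hm : g m = m + a • z) : a = 0 := by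
  by_contra ha
  have hgx : g x = x := hP.fx g hg
  obtain ⟨s, e, u, f, t, v, hM⟩ := mtex hB (hP.iso g hg) (b := 0) (a := a) (c := 0) hgx
    (by rw [hz, zero_smul, add_zero]) (by rw [hm, zero_smul, add_zero])
  obtain ⟨hs0, hu0⟩ := dtwo hθ hB hS hx hP hg hM
  subst hs0 hu0
  -- the conjugate
  obtain ⟨h, hh, hhz⟩ := trb hB hS hx hP 1
  rw [one_smul] at hhz
  have hhx : h x = x := hP.fx h hh
  have hhi : h⁻¹ ∈ P := P.inv_mem hh
  have hinv : ∀ y, h (h⁻¹ y) = y := fun y => by
    rw [← LinearEquiv.mul_apply, mul_inv_cancel, LinearEquiv.coe_one, id]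
  have hinv' : ∀ y, h⁻¹ (h y) = y := fun y => by
    rw [← LinearEquiv.mul_apply, inv_mul_cancel, LinearEquiv.coe_one, id]
  obtain ⟨g2, hg2⟩ : ∃ g2 : V ≃ₗ[K] V, g2 = h * g * h⁻¹ := ⟨_, rfl⟩
  have hg2P : g2 ∈ P := by
    rw [hg2]
    exact P.mul_mem (P.mul_mem hh hg) hhi
  have hg2a : ∀ y, g2 y = h (g (h⁻¹ y)) := fun y => by
    rw [hg2]
    rfl
  have hg2x : g2 x = x := hP.fx g2 hg2P
  have hg2z1 : g2 (z + (1 : K) • x) = z + (1 : K) • x := by
    rw [one_smul, hg2a, ← hhz, hinv', hz]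
  obtain ⟨p, q, hpq⟩ := hP.fm h⁻¹ hhi
  have hg2m : g2 m = m + a • (z + (1 : K) • x) := by
    have h1 : g (h⁻¹ m) = h⁻¹ m + a • z := by
      rw [hpq, map_add, map_add, map_smul, map_smul, hm, hz, hgx]
      abel
    rw [hg2a, h1, map_add, hinv, map_smul, hhz, one_smul]
  have hB1 := bshift hB 1
  have hP1 := pshift hP 1
  obtain ⟨s2, e2, u2, f2, t2, v2, hM2⟩ := mtex hB1 (hP.iso g2 hg2P) (b := 0) (a := a) (c := 0)
    hg2x (by rw [hg2z1, zero_smul, add_zero]) (by rw [hg2m, zero_smul, add_zero])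
  obtain ⟨hs2, hu2⟩ := dtwo hθ hB1 hS hx hP1 hg2P hM2
  subst hs2 hu2
  have hg2m' : g2 m' = m' + e2 • (z + (1 : K) • x) := by
    rw [hM2.gm', zero_smul, zero_smul, add_zero, add_zero]
  -- the inverse of the conjugate
  have hk : ∀ y, g2⁻¹ (g2 y) = y := fun y => by
    rw [← LinearEquiv.mul_apply, inv_mul_cancel, LinearEquiv.coe_one, id]
  have hkx : g2⁻¹ x = x := hP.fx _ (P.inv_mem hg2P)
  have hkz1 : g2⁻¹ (z + (1 : K) • x) = z + (1 : K) • x := by
    have h1 := hk (z + (1 : K) • x)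
    rwa [hg2z1] at h1
  have hkz : g2⁻¹ z = z := by
    rw [map_add, map_smul, hkx] at hkz1
    exact add_right_cancel hkz1
  have hkm : g2⁻¹ m = m - a • (z + (1 : K) • x) := by
    have h1 := hk m
    rw [hg2m, map_add, map_smul, hkz1] at h1
    exact eq_sub_of_add_eq h1
  have hkm' : g2⁻¹ m' = m' - e2 • (z + (1 : K) • x) := by
    have h1 := hk m'
    rw [hg2m', map_add, map_smul, hkz1] at h1
    exact eq_sub_of_add_eq h1
  have hgz1 : g (z + (1 : K) • x) = z + (1 : K) • x := by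
    rw [map_add, map_smul, hz, hgx]
  have hgm' : g m' = m' + e • z := by
    rw [hM.gm', zero_smul, zero_smul, add_zero, add_zero]
  -- the quotient
  obtain ⟨r, hr⟩ : ∃ r : V ≃ₗ[K] V, r = g * g2⁻¹ := ⟨_, rfl⟩
  have hrP : r ∈ P := by
    rw [hr]
    exact P.mul_mem hg (P.inv_mem hg2P)
  have hra : ∀ y, r y = g (g2⁻¹ y) := fun y => by
    rw [hr]
    rfl
  have hrx : r x = x := hP.fx r hrP
  have hrz : r z = z := by rw [hra, hkz, hz]
  have hrm : r m = m + (-a) • x := by
    rw [hra, hkm, map_sub, map_smul, hgz1, hm]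
    module
  have hrm' : r m' = m' + e • z - e2 • (z + (1 : K) • x) := by
    rw [hra, hkm', map_sub, map_smul, hgz1, hgm']
  obtain ⟨sr, er, ur, fr, tr, vr, hMr⟩ := mtex hB (hP.iso r hrP) (b := 0) (a := 0) (c := -a)
    hrx (by rw [hrz, zero_smul, add_zero]) (by rw [hrm, zero_smul, add_zero])
  have h1 := hMr.gm'.symm.trans hrm'
  obtain ⟨hur, her, hsr, -, -, -⟩ := indep hB (a := ur) (b := er) (c := sr) (d := 1) (e := 0)
    (f := 0) (a1 := -e2) (b1 := e - e2) (c1 := 0) (d1 := 1) (e1 := 0) (f1 := 0)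
    (by linear_combination (norm := module) h1)
  subst hsr
  obtain ⟨her0, hne⟩ := othree2 hθ hB hS hx (hP.iso r hrP) (hP.pres r hrP) hMr
    (neg_ne_zero.2 ha)
  have hee : e2 = e := (sub_eq_zero.1 (her.symm.trans her0)).symm
  obtain ⟨-, hcz⟩ := comm hθ hB hS hx hP hg hrP (by rw [hrz, hz, hrz])
    (by rw [hrm, hm, map_add, map_add, map_smul, map_smul, hrm, hrz, hgx, hm]; abel)
  have hfr : fr = 0 := by
    have h2 := hMr.hf
    rw [her0, mul_zero, map_zero, sub_zero] at h2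
    exact h2
  have hf : f = -F.bar e := by
    have h2 := hM.hf
    rw [zero_mul, map_zero, zero_sub] at h2
    exact h2
  rw [hMr.gz', hM.gz'] at hcz
  simp only [map_add, map_sub, map_smul] at hcz
  rw [hM.gz', hMr.gz', hrm', hrm, hrx, hrz, hgx, hz, hm, hgm'] at hcz
  rw [map_zero, hfr, hee] at hcz
  obtain ⟨h3, -, -, -, -, -⟩ := indep hB (a := v + vr) (b := t + tr) (c := f) (d := -F.bar a)
    (e := 1) (f := 0) (a1 := vr + F.bar a * e - f * a + v) (b1 := t + tr) (c1 := f)
    (d1 := -F.bar a) (e1 := 1) (f1 := 0) (by linear_combination (norm := module) hcz)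
  refine hne ?_
  rw [hur, hee, map_neg, map_neg]
  rw [hf] at h3
  linear_combination -h3
-- END row sone

-- BEGIN row stwo
/-- If a ≠ 0 shift by b1 = c / a: g m = m + a (z + b1 x), and `sone` (with `bshift`, `pshift`)
gives a = 0. -/
theorem stwo [Finite V] {θ : K} (hθ : θ + F.bar θ = 1) (hB : Bs F x z m m' z' x')
    (hS : F.Ov S) (hx : S x) (hP : Pg F S P x z m) {g : V ≃ₗ[K] V} (hg : g ∈ P)
    {a c : K} (hz : g z = z) (hm : g m = m + a • z + c • x) : a = 0 := by
  by_contra ha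
  refine ha (sone hθ (bshift hB (c / a)) hS hx (pshift hP (c / a)) hg ?_ ?_)
  · rw [map_add, map_smul, hz, hP.fx g hg]
  · have h1 : a * (c / a) = c := by field_simp
    rw [hm, smul_add, smul_smul, h1, add_assoc]
-- END row stwo

-- BEGIN row rel1
/-- g and r commute on z and m (r has a = 0 by `stwo`), so by `comm` on m': comparing the
coefficients of x in r (g m') = g (r m') : s c1 = s1 c + e1 b. -/
theorem rel1 [Finite V] {θ : K} (hθ : θ + F.bar θ = 1) (hB : Bs F x z m m' z' x')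
    (hS : F.Ov S) (hx : S x) (hP : Pg F S P x z m) {g r : V ≃ₗ[K] V} (hg : g ∈ P) (hr : r ∈ P)
    {b a c s e u f t v c1 s1 e1 u1 f1 t1 v1 : K}
    (hg1 : Mt F x z m m' z' g b a c s e u f t v)
    (hr1 : Mt F x z m m' z' r 0 0 c1 s1 e1 u1 f1 t1 v1) :
    s * c1 = s1 * c + e1 * b := by
  have hrz : r z = z := by rw [hr1.gz, zero_smul, add_zero]
  have hrm : r m = m + c1 • x := by rw [hr1.gm, zero_smul, add_zero]
  have hz : g (r z) = r (g z) := by rw [hrz, hg1.gz, map_add, map_smul, hrz, hr1.gx]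
  have hm : g (r m) = r (g m) := by
    rw [hrm, hg1.gm]
    simp only [map_add, map_smul, hrm, hrz, hr1.gx, hg1.gx, hg1.gm]
    abel
  have h := (comm hθ hB hS hx hP hg hr hz hm).1
  rw [hr1.gm', hg1.gm'] at h
  simp only [map_add, map_smul, hg1.gx, hg1.gz, hg1.gm, hg1.gm', hr1.gx, hrz, hrm, hr1.gm'] at h
  have h2 := congrArg (fun v => F.H v x') h
  simp only [F.addl, F.smull, hB.xx', hB.zx', hB.mx', hB.m'x'] at h2
  linear_combination -h2
-- END row rel1

-- BEGIN row szero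
/-- For c in K let r_c in P be as in `trc` (a = 0 by `stwo`) with `mtex` entries; s(r_c) has
trace zero (hs). `pig`: c ≠ c' with s(r_c) = s(r_c'). r0 = (r_c')^{-1} r_c in P has b = 0,
a = 0, c0 = c - c' ≠ 0, s = 0; by `othree2` its e is 0. `rel1` with r0: s c0 = 0. -/
theorem szero [Finite K] [Finite V] {q : ℕ} (hK : Nat.card K = q ^ 2)
    (hbar : ∀ a, F.bar a = a ^ q) {θ : K} (hθ : θ + F.bar θ = 1)
    (hB : Bs F x z m m' z' x') (hS : F.Ov S) (hx : S x) (hP : Pg F S P x z m)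
    {g : V ≃ₗ[K] V} (hg : g ∈ P)
    {b a c s e u f t v : K} (hg1 : Mt F x z m m' z' g b a c s e u f t v) : s = 0 := by
  have hex : ∀ d : K, ∃ r ∈ P, ∃ s e u f t v : K, Mt F x z m m' z' r 0 0 d s e u f t v := by
    intro d
    obtain ⟨r, hr, hz, a', hm⟩ := trc hB hS hx hP d
    have ha : a' = 0 := stwo hθ hB hS hx hP hr hz hm
    subst ha
    have hz0 : r z = z + (0 : K) • x := by rw [hz, zero_smul, add_zero]
    obtain ⟨s', e', u', f', t', v', hM⟩ := mtex hB (hP.iso r hr) (hP.fx r hr) hz0 hm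
    exact ⟨r, hr, s', e', u', f', t', v', hM⟩
  choose r hr s' e' u' f' t' v' hM using hex
  obtain ⟨d, d', hdd, hss⟩ := pig hK hbar s' (fun d => (hM d).hs)
  have hr0 : (r d')⁻¹ * r d ∈ P := P.mul_mem (P.inv_mem (hr d')) (hr d)
  have key : ∀ w, r d' (((r d')⁻¹ * r d) w) = r d w := fun w => (r d').apply_symm_apply (r d w)
  have hrz : ∀ d, r d z = z := fun d => by rw [(hM d).gz, zero_smul, add_zero]
  have hz0 : ((r d')⁻¹ * r d) z = z + (0 : K) • x := by
    apply (r d').injective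
    rw [key, hrz, zero_smul, add_zero, hrz]
  have hm0 : ((r d')⁻¹ * r d) m = m + (0 : K) • z + (d - d') • x := by
    apply (r d').injective
    rw [key, map_add, map_add, map_smul, map_smul, (hM d).gm, (hM d').gm, (hM d').gx, hrz]
    module
  obtain ⟨s0, e0, u0, f0, t0, v0, hM0⟩ :=
    mtex hB (hP.iso _ hr0) (hP.fx _ hr0) hz0 hm0
  have k1 := key m'
  rw [hM0.gm', (hM d).gm'] at k1
  simp only [map_add, map_smul, (hM d').gm', (hM d').gm, (hM d').gx, hrz] at k1
  have k2 := congrArg (fun w => F.H w m') k1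
  simp only [F.addl, F.smull, hB.mm', hB.m'm', hB.zm', hB.xm'] at k2
  have hs0 : s0 = 0 := by linear_combination k2 + hss
  subst hs0
  have hd0 : d - d' ≠ 0 := sub_ne_zero.mpr hdd
  obtain ⟨he0, -⟩ := othree2 hθ hB hS hx (hP.iso _ hr0) (hP.pres _ hr0) hM0 hd0
  have h5 := rel1 hθ hB hS hx hP hg hr0 hg1 hM0
  rw [he0, zero_mul, zero_mul, add_zero] at h5
  exact (mul_eq_zero.mp h5).resolve_right hd0
-- END row szero

-- BEGIN row rmat
/-- r z = z. `mtex` entries; a = 0 by `stwo`, s = 0 by `szero`. If c ≠ 0: `othree2`. If c = 0: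
`ethree` gives r m' = m', r z' = z', so u = e = t = v = 0 (compare, `indep`). f = - bar e. -/
theorem rmat [Finite K] [Finite V] {q : ℕ} (hK : Nat.card K = q ^ 2)
    (hbar : ∀ a, F.bar a = a ^ q) {θ : K} (hθ : θ + F.bar θ = 1)
    (hB : Bs F x z m m' z' x') (hS : F.Ov S) (hx : S x) (hP : Pg F S P x z m)
    {r : V ≃ₗ[K] V} (hr : r ∈ P) (hz : r z = z) :
    ∃ c u t v : K, Mt F x z m m' z' r 0 0 c 0 0 u 0 t v ∧
      (c ≠ 0 → F.bar c * u + c * F.bar u ≠ 0) := by
  obtain ⟨a, c, hm⟩ := hP.fm r hr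
  have hx' := hP.fx r hr
  have hi := hP.iso r hr
  have hz0 : r z = z + (0 : K) • x := by rw [hz, zero_smul, add_zero]
  obtain ⟨s, e, u, f, t, v, hM⟩ := mtex hB hi hx' hz0 hm
  have ha : a = 0 := stwo hθ hB hS hx hP hr hz hm
  subst ha
  have hs : s = 0 := szero hK hbar hθ hB hS hx hP hr hM
  subst hs
  by_cases hc : c = 0
  · subst hc
    have hm0 : r m = m := by rw [hm, zero_smul, zero_smul, add_zero, add_zero]
    obtain ⟨h1, h2⟩ := ethree hθ hB hS hx hP hr hz hm0
    have h3 := hM.gm'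
    rw [h1] at h3
    have h4 := hM.gz'
    rw [h2] at h4
    have he := congrArg (fun w => F.H w z') h3
    have hu := congrArg (fun w => F.H w x') h3
    have ht := congrArg (fun w => F.H w z') h4
    have hv := congrArg (fun w => F.H w x') h4
    simp only [F.addl, F.subl, F.smull, hB.xx', hB.zx', hB.mx', hB.m'x', hB.xz', hB.zz', hB.mz',
      hB.m'z', hB.z'z', hB.z'x'] at he hu ht hv
    have he' : e = 0 := by linear_combination -he
    have hu' : u = 0 := by linear_combination -hu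
    have ht' : t = 0 := by linear_combination -ht
    have hv' : v = 0 := by linear_combination -hv
    subst he' hu' ht' hv'
    have hf : f = 0 := by
      have := hM.hf
      simpa using this
    subst hf
    exact ⟨0, 0, 0, 0, hM, fun h => absurd rfl h⟩
  · obtain ⟨he, hn⟩ := othree2 hθ hB hS hx hi (hP.pres r hr) hM hc
    subst he
    have hf : f = 0 := by
      have := hM.hf
      simpa using this
    subst hf
    exact ⟨c, u, t, v, hM, fun _ => hn⟩
-- END row rmat

-- BEGIN row rel2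
/-- g and r commute on z and m, so by `comm` on z'; compare the coefficients of x in
r (g z') = g (r z'): - bar a u1 + f c1 = t1 b. -/
theorem rel2 [Finite V] {θ : K} (hθ : θ + F.bar θ = 1) (hB : Bs F x z m m' z' x')
    (hS : F.Ov S) (hx : S x) (hP : Pg F S P x z m) {g r : V ≃ₗ[K] V} (hg : g ∈ P) (hr : r ∈ P)
    {b a c s e u f t v c1 u1 t1 v1 : K}
    (hg1 : Mt F x z m m' z' g b a c s e u f t v)
    (hr1 : Mt F x z m m' z' r 0 0 c1 0 0 u1 0 t1 v1) :
    f * c1 - F.bar a * u1 = t1 * b := by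
  have rz : r z = z := by rw [hr1.gz, zero_smul, add_zero]
  have rm : r m = m + c1 • x := by rw [hr1.gm, zero_smul, add_zero]
  have rm' : r m' = m' + u1 • x := by
    rw [hr1.gm', zero_smul, zero_smul, add_zero, add_zero]
  have rz' : r z' = z' + t1 • z + v1 • x := by
    rw [hr1.gz', map_zero, zero_smul, zero_smul, sub_zero, add_zero]
  obtain ⟨-, h⟩ := comm hθ hB hS hx hP hg hr
    (by rw [rz, hg1.gz, map_add, map_smul, rz, hr1.gx])
    (by rw [rm, hg1.gm, map_add, map_add, map_add, map_smul, map_smul, map_smul, rz, rm, hr1.gx,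
          hg1.gx, hg1.gm]
        abel)
  rw [rz', hg1.gz'] at h
  simp only [map_add, map_sub, map_smul, hg1.gx, hg1.gz, hg1.gz', hr1.gx, rz, rm, rm', rz'] at h
  have h2 := congrArg (fun w => F.H w x') h
  simp only [F.addl, F.subl, F.smull, hB.xx', hB.zx', hB.mx', hB.m'x', hB.z'x'] at h2
  linear_combination -h2
-- END row rel2

-- BEGIN row muz
/-- For c in K: r_c from `trc`, `rmat`; t(r_c) has trace 0 (ht with a = f = 0). `pig`: c ≠ c' with the
same t; r0 = (r_c')^{-1} r_c has c0 = c - c' ≠ 0, t = 0, u0 with bar c0 u0 + c0 bar u0 ≠ 0. Put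
n = u0 / c0 : n + bar n = (bar c0 u0 + c0 bar u0) / (c0 bar c0) ≠ 0. `rel2` with r0:
f c0 = bar a u0, so f = bar a n for all g in P. -/
theorem muz [Finite K] [Finite V] {q : ℕ} (hK : Nat.card K = q ^ 2)
    (hbar : ∀ a, F.bar a = a ^ q) {θ : K} (hθ : θ + F.bar θ = 1)
    (hB : Bs F x z m m' z' x') (hS : F.Ov S) (hx : S x) (hP : Pg F S P x z m) :
    ∃ n : K, n + F.bar n ≠ 0 ∧ ∀ g ∈ P, ∀ b a c s e u f t v : K,
      Mt F x z m m' z' g b a c s e u f t v → f = F.bar a * n := by
  have hex : ∀ c : K, ∃ r ∈ P, ∃ u t v : K, Mt F x z m m' z' r 0 0 c 0 0 u 0 t v := by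
    intro c
    obtain ⟨r, hr, hz, a, hm⟩ := trc hB hS hx hP c
    obtain ⟨c', u, t, v, hM, -⟩ := rmat hK hbar hθ hB hS hx hP hr hz
    have h1 := hM.gm
    rw [hm] at h1
    have h2 := congrArg (fun w => F.H w x') h1
    simp only [F.addl, F.smull, hB.xx', hB.zx', hB.mx'] at h2
    have h3 : c' = c := by linear_combination -h2
    subst h3
    exact ⟨r, hr, u, t, v, hM⟩
  choose r hr u t v hM using hex
  obtain ⟨c, c', hcc, htt⟩ := pig hK hbar t (fun c => by
    have h1 := (hM c).ht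
    rw [h1, map_zero]
    ring)
  have hr0 : (r c')⁻¹ * r c ∈ P := P.mul_mem (P.inv_mem (hr c')) (hr c)
  have key : ∀ w, r c' (((r c')⁻¹ * r c) w) = r c w := fun w => (r c').apply_symm_apply (r c w)
  have hrz : ∀ d, r d z = z := fun d => by rw [(hM d).gz, zero_smul, add_zero]
  have hz0 : ((r c')⁻¹ * r c) z = z := by
    apply (r c').injective
    rw [key, hrz, hrz]
  obtain ⟨c0, u0, t0, v0, hM0, hn0⟩ := rmat hK hbar hθ hB hS hx hP hr0 hz0
  have k1 := key m
  rw [hM0.gm, (hM c).gm, map_add, map_add, map_smul, map_smul, (hM c').gm, (hM c').gx, hrz] at k1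
  have k2 := congrArg (fun w => F.H w x') k1
  simp only [F.addl, F.smull, hB.xx', hB.zx', hB.mx'] at k2
  have hc0 : c0 = c - c' := by linear_combination k2
  have hc0' : c0 ≠ 0 := by
    rw [hc0]
    exact sub_ne_zero.mpr hcc
  have k3 := key z'
  rw [hM0.gz', (hM c).gz'] at k3
  simp only [map_add, map_sub, map_smul, (hM c').gz', (hM c').gx, (hM c').gm, (hM c').gm', hrz] at k3
  have k4 := congrArg (fun w => F.H w z') k3
  simp only [F.addl, F.subl, F.smull, hB.xz', hB.zz', hB.mz', hB.m'z', hB.z'z'] at k4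
  have ht0 : t0 = 0 := by
    simp only [map_zero] at k4
    linear_combination k4 + htt
  have hnn := hn0 hc0'
  have hbc : F.bar c0 ≠ 0 := by
    intro h
    apply hc0'
    have := F.bb c0
    rw [h, map_zero] at this
    exact this.symm
  refine ⟨u0 / c0, ?_, ?_⟩
  · intro h
    apply hnn
    rw [map_div₀] at h
    field_simp at h
    linear_combination h
  · intro g hg b a c s e u f t v hg1
    have h1 := rel2 hθ hB hS hx hP hg hr0 hg1 hM0
    rw [ht0] at h1
    field_simp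
    linear_combination h1
-- END row muz

-- BEGIN row cmt
/-- s = 0 for both (hypothesis), e = - a bar n, e1 = - a1 bar n (from hf: f = - bar e). Let
r = (h g)^{-1} (g h), in P; r z = z, so `rmat` gives its entries (c2, u2, t2). g (h m) =
h (g m) + c2 x gives c2 = a1 b - a b1; on m': u2 = e1 b - e b1 = - bar n c2; on z' (coefficient
of z): t + t1 + bar a1 a (n + bar n) = t + t1 + bar a a1 (n + bar n) + t2. -/
theorem cmt [Finite K] [Finite V] {q : ℕ} (hK : Nat.card K = q ^ 2)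
    (hbar : ∀ a, F.bar a = a ^ q) {θ : K} (hθ : θ + F.bar θ = 1)
    (hB : Bs F x z m m' z' x') (hS : F.Ov S) (hx : S x) (hP : Pg F S P x z m)
    {n : K} {g h : V ≃ₗ[K] V} (hg : g ∈ P) (hh : h ∈ P)
    {b a c e u f t v b1 a1 c1 e1 u1 f1 t1 v1 : K}
    (hg1 : Mt F x z m m' z' g b a c 0 e u f t v)
    (hh1 : Mt F x z m m' z' h b1 a1 c1 0 e1 u1 f1 t1 v1)
    (hf : f = F.bar a * n) (hf1 : f1 = F.bar a1 * n) :
    ∃ r ∈ P, ∃ c2 u2 t2 v2 : K, Mt F x z m m' z' r 0 0 c2 0 0 u2 0 t2 v2 ∧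
      c2 = a1 * b - a * b1 ∧ u2 = - F.bar n * c2 ∧
      t2 = (n + F.bar n) * (F.bar a1 * a - F.bar a * a1) := by
  have he : e = -(a * F.bar n) := by
    have h1 := hg1.hf
    rw [zero_mul, map_zero, hf] at h1
    have h2 := congrArg F.bar h1
    rw [map_mul, map_sub, map_zero, F.bb, F.bb] at h2
    linear_combination h2
  have he1 : e1 = -(a1 * F.bar n) := by
    have h1 := hh1.hf
    rw [zero_mul, map_zero, hf1] at h1
    have h2 := congrArg F.bar h1
    rw [map_mul, map_sub, map_zero, F.bb, F.bb] at h2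
    linear_combination h2
  have hE : ∀ y, h (g (((h * g)⁻¹ * (g * h)) y)) = g (h y) := by
    intro y
    have h1 : (h * g) (((h * g)⁻¹ * (g * h)) y) = (g * h) y := by
      rw [← LinearEquiv.mul_apply, ← mul_assoc, mul_inv_cancel, one_mul]
    exact h1
  have hr : (h * g)⁻¹ * (g * h) ∈ P :=
    P.mul_mem (P.inv_mem (P.mul_mem hh hg)) (P.mul_mem hg hh)
  generalize (h * g)⁻¹ * (g * h) = r at hE hr
  have hz : r z = z := by
    apply g.injective
    apply h.injective
    rw [hE]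
    simp only [hg1.gz, hh1.gz, map_add, map_smul, hg1.gx, hh1.gx]
    abel
  obtain ⟨c2, u2, t2, v2, hm, -⟩ := rmat hK hbar hθ hB hS hx hP hr hz
  have x'x : F.H x' x' = 0 := hB.x'x'
  have hc2 : c2 = a1 * b - a * b1 := by
    have E := congrArg (fun y => F.H y x') (hE m)
    simp only [hm.gm, hg1.gm, hh1.gm, map_add, map_smul, hg1.gz, hh1.gz, hg1.gx, hh1.gx,
      F.addl, F.smull, hB.mx', hB.zx', hB.xx'] at E
    linear_combination E
  refine ⟨r, hr, c2, u2, t2, v2, hm, hc2, ?_, ?_⟩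
  · have E := congrArg (fun y => F.H y x') (hE m')
    simp only [hm.gm', hg1.gm', hh1.gm', map_add, map_smul, hg1.gm, hh1.gm, hg1.gz, hh1.gz,
      hg1.gx, hh1.gx, F.addl, F.smull, hB.mx', hB.zx', hB.xx', hB.m'x'] at E
    rw [hc2]
    rw [he, he1] at E
    linear_combination E
  · have E := congrArg (fun y => F.H y z') (hE z')
    simp only [hm.gz', hg1.gz', hh1.gz', map_add, map_sub, map_smul, hg1.gm', hh1.gm', hg1.gm,
      hh1.gm, hg1.gz, hh1.gz, hg1.gx, hh1.gx, F.addl, F.subl, F.smull, hB.mz', hB.zz', hB.xz',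
      hB.m'z', hB.z'z', map_zero] at E
    rw [he, he1, hf, hf1] at E
    linear_combination E
-- END row cmt

-- BEGIN row caseAi
/-- `rel2` with t1 = 0 and g0 (f = bar a n, a ≠ 0): u = n c for all r. `cmt` for g, h:
c2 (n + bar n) = 0, so a1 b = a b1. With h0 having b = 1 (`trb`): a = kap b for all g. kap ≠ 0
since a(g0) ≠ 0. So for each a there is g in P with that a (take b = a / kap). In `cmt` t2 = 0
(hypothesis), with a = 1, a1 = ω: bar ω = ω, contradiction with hω. -/
theorem caseAi [Finite K] [Finite V] {q : ℕ} (hK : Nat.card K = q ^ 2)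
    (hbar : ∀ a, F.bar a = a ^ q) {θ : K} (hθ : θ + F.bar θ = 1) {ω : K} (hω : F.bar ω ≠ ω)
    (hB : Bs F x z m m' z' x') (hS : F.Ov S) (hx : S x) (hP : Pg F S P x z m)
    {n : K} (hn : n + F.bar n ≠ 0)
    (hf : ∀ g ∈ P, ∀ b a c s e u f t v : K,
      Mt F x z m m' z' g b a c s e u f t v → f = F.bar a * n)
    (ht : ∀ r ∈ P, ∀ c u t v : K, Mt F x z m m' z' r 0 0 c 0 0 u 0 t v → t = 0)
    {g0 : V ≃ₗ[K] V} (hg0 : g0 ∈ P) {b a c s e u f t v : K}
    (hg1 : Mt F x z m m' z' g0 b a c s e u f t v) (ha : a ≠ 0) : False := by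
  have key : ∀ b : K, ∃ g ∈ P, ∃ a c e u f t v : K,
      Mt F x z m m' z' g b a c 0 e u f t v := by
    intro b'
    obtain ⟨g, hg, hgz⟩ := trb hB hS hx hP b'
    obtain ⟨a', c', hgm⟩ := hP.fm g hg
    obtain ⟨s', e', u', f', t', v', M⟩ := mtex hB (hP.iso g hg) (hP.fx g hg) hgz hgm
    have hs := szero hK hbar hθ hB hS hx hP hg M
    rw [hs] at M
    exact ⟨g, hg, a', c', e', u', f', t', v', M⟩
  have hbi : F.bar a ≠ 0 := by
    intro h
    exact ha (by rw [← F.bb a, h, map_zero])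
  have hu : ∀ r ∈ P, ∀ c u t v : K, Mt F x z m m' z' r 0 0 c 0 0 u 0 t v → u = n * c := by
    intro r hr c' u' t' v' M
    have h1 := rel2 hθ hB hS hx hP hg0 hr hg1 M
    have h2 := ht r hr _ _ _ _ M
    have h3 := hf g0 hg0 _ _ _ _ _ _ _ _ _ hg1
    rw [h2, h3] at h1
    have h4 : F.bar a * (n * c' - u') = 0 := by linear_combination h1
    rcases mul_eq_zero.1 h4 with h5 | h5
    · exact absurd h5 hbi
    · exact (sub_eq_zero.1 h5).symm
  have pair : ∀ g ∈ P, ∀ h ∈ P, ∀ b a c e u f t v b1 a1 c1 e1 u1 f1 t1 v1 : K,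
      Mt F x z m m' z' g b a c 0 e u f t v → Mt F x z m m' z' h b1 a1 c1 0 e1 u1 f1 t1 v1 →
      a1 * b = a * b1 ∧ F.bar a1 * a = F.bar a * a1 := by
    intro g hg h hh b a c e u f t v b1 a1 c1 e1 u1 f1 t1 v1 Mg Mh
    obtain ⟨r, hr, c2, u2, t2, v2, Mr, e1', e2', e3'⟩ := cmt hK hbar hθ hB hS hx hP hg hh Mg Mh
      (hf g hg _ _ _ _ _ _ _ _ _ Mg) (hf h hh _ _ _ _ _ _ _ _ _ Mh)
    have h1 := hu r hr _ _ _ _ Mr
    have h2 := ht r hr _ _ _ _ Mr
    have h3 : (n + F.bar n) * c2 = 0 := by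
      rw [h1] at e2'
      linear_combination e2'
    have h4 := (mul_eq_zero.1 h3).resolve_left hn
    have h5 : (n + F.bar n) * (F.bar a1 * a - F.bar a * a1) = 0 := by rw [← e3', h2]
    have h6 := (mul_eq_zero.1 h5).resolve_left hn
    exact ⟨sub_eq_zero.1 (by rw [← e1', h4]), sub_eq_zero.1 h6⟩
  obtain ⟨h0, hh0, κ, c0, e0, u0, f0, t0, v0, M0⟩ := key 1
  have hs0 := szero hK hbar hθ hB hS hx hP hg0 hg1
  rw [hs0] at hg1
  have hκ : κ ≠ 0 := by
    intro h
    have h1 := (pair h0 hh0 g0 hg0 _ _ _ _ _ _ _ _ _ _ _ _ _ _ _ _ M0 hg1).1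
    rw [h, mul_one, zero_mul] at h1
    exact ha h1
  obtain ⟨g, hg, a1, c1, e1, u1, f1, t1, v1, M1⟩ := key κ⁻¹
  obtain ⟨g', hg', a2, c2, e2, u2, f2, t2, v2, M2⟩ := key (κ⁻¹ * ω)
  have ha1 : a1 = 1 := by
    have h1 := (pair h0 hh0 g hg _ _ _ _ _ _ _ _ _ _ _ _ _ _ _ _ M0 M1).1
    rw [mul_one, mul_inv_cancel₀ hκ] at h1
    exact h1
  have ha2 : a2 = ω := by
    have h1 := (pair h0 hh0 g' hg' _ _ _ _ _ _ _ _ _ _ _ _ _ _ _ _ M0 M2).1
    rw [mul_one, mul_inv_cancel_left₀ hκ] at h1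
    exact h1
  have h7 := (pair g hg g' hg' _ _ _ _ _ _ _ _ _ _ _ _ _ _ _ _ M1 M2).2
  rw [ha1, ha2, map_one, mul_one, one_mul] at h7
  exact hω h7
-- END row caseAi

-- BEGIN row caseAii
private theorem caseAii_inv {F : Ovo.HF K V} {x : V} {g : V ≃ₗ[K] V} (hg : F.El x g) :
    F.El x g⁻¹ where
  isom := fun u v => by
    have h := hg.isom (g⁻¹ u) (g⁻¹ v)
    rw [← LinearEquiv.mul_apply, ← LinearEquiv.mul_apply, mul_inv_cancel] at h
    exact h.symm
  fix := by
    have h := congrArg (fun y => g⁻¹ y) hg.fix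
    simp only [← LinearEquiv.mul_apply, inv_mul_cancel] at h
    exact h.symm
  triv := fun u hu => by
    have e1 : g (g⁻¹ u) = u := by
      rw [← LinearEquiv.mul_apply, mul_inv_cancel]; rfl
    have h0 : F.H (g⁻¹ u) x = 0 := by
      have h := hg.isom (g⁻¹ u) x
      rw [e1, hg.fix, hu] at h
      exact h.symm
    obtain ⟨a, ha⟩ := hg.triv _ h0
    rw [e1] at ha
    refine ⟨-a, ?_⟩
    rw [neg_smul, ← sub_eq_add_neg, eq_sub_iff_add_eq]
    exact ha.symm

private theorem caseAii_el (hB : Bs F x z m m' z' x') {g : V ≃ₗ[K] V}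
    (hi : ∀ u v, F.H (g u) (g v) = F.H u v) {b c u v : K}
    (hg : Mt F x z m m' z' g b 0 c 0 0 u 0 0 v) : F.El x g where
  isom := hi
  fix := hg.gx
  triv := fun y hy => by
    obtain ⟨A, B, C, D, E, G, h1⟩ := hB.span y
    have x'x : F.H x' x = 1 := by rw [← F.symm x x', hB.xx', map_one]
    have hG : G = 0 := by
      rw [h1] at hy
      simp only [F.addl, F.smull, hB.xx, F.sw hB.xz, F.sw hB.xm, F.sw hB.xm', F.sw hB.xz', x'x]
        at hy
      linear_combination hy
    rw [hG, zero_smul, add_zero] at h1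
    refine ⟨B * b + C * c + D * u + E * v, ?_⟩
    rw [h1]
    simp only [map_add, map_smul, hg.gx, hg.gz, hg.gm, hg.gm', hg.gz', map_zero]
    module

/-- Every g in P has a = 0, s = 0 (`szero`), f = 0, e = 0: g m = m + c x, g m' = m' + u x,
g z' = z' + t z + v x, t trace zero (ht). Choose for each b an element g_b (`trb`); `pig`
for t: b ≠ b' with the same t; g1 = (g_b')^{-1} g_b has b1 = b - b' ≠ 0 and t = 0, so it is an
elation (`Ovo.HF.El`). E = set of elations in P is a subgroup G; all r in P with r z = z are in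
it (t = 0). Let y0 in S with H y0 x = 1, H y0 z = 0, H y0 m = 0 (`lift` (0,0)). The map
c ↦ W x y0 r_c is injective into `Ovo.HF.img` (its product with m is - bar c) with product 0
with z, and W x y0 g1 has product - bar b1 ≠ 0 with z. So `Ovo.HF.img` has more than q^2
elements, against `Ovo.HF.card_img`. -/
theorem caseAii [Finite K] [Finite V] {q : ℕ} (hK : Nat.card K = q ^ 2)
    (hbar : ∀ a, F.bar a = a ^ q) {θ : K} (hθ : θ + F.bar θ = 1)
    (hB : Bs F x z m m' z' x') (hS : F.Ov S) (hx : S x) (hP : Pg F S P x z m)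
    (ht : ∀ r ∈ P, ∀ c u t v : K, Mt F x z m m' z' r 0 0 c 0 0 u 0 t v → t = 0)
    (ha : ∀ g ∈ P, ∀ b a c s e u f t v : K,
      Mt F x z m m' z' g b a c s e u f t v → a = 0 ∧ s = 0 ∧ e = 0) : False := by
  classical
  -- the matrix of an element of `P`
  have mat : ∀ g ∈ P, ∀ b : K, g z = z + b • x → ∀ a c : K, g m = m + a • z + c • x →
      ∃ u t v : K, a = 0 ∧ Mt F x z m m' z' g b 0 c 0 0 u 0 t v := by
    intro g hg b hz a c hm
    obtain ⟨s, e, u, f, t, v, hM⟩ := mtex hB (hP.iso g hg) (hP.fx g hg) hz hm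
    obtain ⟨h1, h2, h3⟩ := ha g hg _ _ _ _ _ _ _ _ _ hM
    subst h1 h2 h3
    have h4 : f = 0 := by
      have := hM.hf
      simpa using this
    subst h4
    exact ⟨u, t, v, rfl, hM⟩
  have x'x : F.H x' x = 1 := by rw [← F.symm x x', hB.xx', map_one]
  -- the elements `g_b`
  have hgb : ∀ b : K, ∃ g ∈ P, ∃ c u t v : K, Mt F x z m m' z' g b 0 c 0 0 u 0 t v := by
    intro b
    obtain ⟨g, hg, hz⟩ := trb hB hS hx hP b
    obtain ⟨a, c, hm⟩ := hP.fm g hg
    obtain ⟨u, t, v, -, hM⟩ := mat g hg b hz a c hm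
    exact ⟨g, hg, c, u, t, v, hM⟩
  choose gb hgbP cb ub tb vb hMb using hgb
  obtain ⟨b, b', hbb, htt⟩ := pig hK hbar tb (fun b => by
    have h := (hMb b).ht
    rw [h, map_zero, zero_mul, add_zero])
  have hg1P : (gb b')⁻¹ * gb b ∈ P := P.mul_mem (P.inv_mem (hgbP b')) (hgbP b)
  have hg1 : ∀ y, gb b' (((gb b')⁻¹ * gb b) y) = gb b y := by
    intro y
    rw [← LinearEquiv.mul_apply, mul_inv_cancel_left]
  generalize (gb b')⁻¹ * gb b = g1 at hg1P hg1
  have hz1 : g1 z = z + (b - b') • x := by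
    apply (gb b').injective
    rw [hg1, (hMb b).gz, map_add, map_smul, (hMb b').gz, (hMb b').gx]
    module
  obtain ⟨a1, c1, hm1⟩ := hP.fm g1 hg1P
  obtain ⟨u1, t1, v1, -, hM1⟩ := mat g1 hg1P _ hz1 a1 c1 hm1
  have ht1 : t1 = 0 := by
    have h := hg1 z'
    rw [hM1.gz', (hMb b).gz'] at h
    simp only [map_add, map_smul, (hMb b').gz, (hMb b').gz', (hMb b').gx, map_zero,
      zero_smul, sub_zero, add_zero] at h
    have h2 : (vb b' + t1 * b' + v1) • x + (tb b' + t1) • z + (0 : K) • m + (0 : K) • m' +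
        (1 : K) • z' + (0 : K) • x' =
        vb b • x + tb b • z + (0 : K) • m + (0 : K) • m' + (1 : K) • z' + (0 : K) • x' := by
      have e1 : (vb b' + t1 * b' + v1) • x + (tb b' + t1) • z + (0 : K) • m + (0 : K) • m' +
        (1 : K) • z' + (0 : K) • x' = z' + tb b' • z + vb b' • x + t1 • (z + b' • x) + v1 • x := by
        module
      have e2 : vb b • x + tb b • z + (0 : K) • m + (0 : K) • m' + (1 : K) • z' + (0 : K) • x' =
        z' + tb b • z + vb b • x := by module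
      rw [e1, e2, ← h]
    obtain ⟨-, h3, -⟩ := indep hB h2
    rw [htt] at h3
    linear_combination h3
  subst ht1
  -- the group of the elations of `P`
  let G : Subgroup (V ≃ₗ[K] V) :=
    { carrier := {g | g ∈ P ∧ F.El x g}
      mul_mem' := fun {g h} hg hh => ⟨P.mul_mem hg.1 hh.1, hg.2.mul hh.2⟩
      one_mem' := ⟨P.one_mem, ⟨fun _ _ => rfl, rfl, fun u _ => ⟨0, by
        rw [zero_smul, add_zero]; rfl⟩⟩⟩
      inv_mem' := fun {g} hg => ⟨P.inv_mem hg.1, caseAii_inv hg.2⟩ }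
  have hG : ∀ g ∈ G, F.El x g := fun g hg => hg.2
  have hGP : ∀ g ∈ G, g ∈ P := fun g hg => hg.1
  have hGS : ∀ g ∈ G, ∀ v, S v → S (g v) := fun g hg v hv => hP.pres g (hGP g hg) v hv
  -- the vector `y0`
  obtain ⟨p, q1, r, hy⟩ := lift hB hS hx 0 0
  generalize hy0 : x' + (0 : K) • z' + (0 : K) • m' + p • m + q1 • z + r • x = y0 at hy
  have hyx : F.H y0 x = 1 := by
    rw [← hy0]
    simp only [F.addl, F.smull, hB.xx, F.sw hB.xz, F.sw hB.xm, x'x, zero_mul, mul_zero, add_zero]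
  have hxy : F.H x y0 = 1 := by rw [← F.symm, hyx, map_one]
  have hyz : F.H y0 z = 0 := by
    rw [← hy0]
    simp only [F.addl, F.smull, hB.xz, hB.zz, F.sw hB.zm, F.sw hB.zx', zero_mul, mul_zero,
      add_zero]
  have hym : F.H y0 m = 0 := by
    rw [← hy0]
    simp only [F.addl, F.smull, hB.xm, hB.zm, hB.mm, F.sw hB.mx', zero_mul, mul_zero, add_zero]
  have hne : F.H x y0 ≠ 0 := by rw [hxy]; exact one_ne_zero
  have hcard := Ovo.HF.card_img hK hbar hS hx hy hne G hG hGS
  -- products with `W`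
  have hgyx : ∀ g ∈ P, F.H (g y0) x = 1 := by
    intro g hg
    have h := hP.iso g hg y0 x
    rwa [hP.fx g hg, hyx] at h
  have Wz : ∀ g ∈ P, ∀ b : K, g z = z + b • x → F.H (F.W x y0 g) z = - F.bar b := by
    intro g hg b hb
    have h := hP.iso g hg y0 z
    rw [hb, F.addr, F.smulr, hgyx g hg, hyz] at h
    rw [Ovo.HF.W, Ovo.HF.pr, F.subl, F.subl, F.smull, hB.xz, hyz]
    linear_combination h
  have Wm : ∀ g ∈ P, ∀ c : K, g m = m + c • x → F.H (F.W x y0 g) m = - F.bar c := by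
    intro g hg c hc
    have h := hP.iso g hg y0 m
    rw [hc, F.addr, F.smulr, hgyx g hg, hym] at h
    rw [Ovo.HF.W, Ovo.HF.pr, F.subl, F.subl, F.smull, hB.xm, hym]
    linear_combination h
  -- the elements `r_c`
  have hrc : ∀ c : K, ∃ g ∈ G, g z = z + (0 : K) • x ∧ g m = m + c • x := by
    intro c
    obtain ⟨g, hg, hz, a, hm⟩ := trc hB hS hx hP c
    have hz0 : g z = z + (0 : K) • x := by rw [zero_smul, add_zero, hz]
    obtain ⟨u, t, v, ha0, hM⟩ := mat g hg 0 hz0 a c hm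
    have ht0 := ht g hg c u t v hM
    subst ht0
    refine ⟨g, ⟨hg, caseAii_el hB (hP.iso g hg) hM⟩, hz0, ?_⟩
    rw [hm, ha0, zero_smul, add_zero]
  choose rc hrcG hrcz hrcm using hrc
  have hg1G : g1 ∈ G := ⟨hg1P, caseAii_el hB (hP.iso g1 hg1P) hM1⟩
  -- the injection
  let φ : Option K → Ovo.HF.img hne G hG := fun o =>
    match o with
    | none => ⟨F.W x y0 g1, g1, hg1G, rfl⟩
    | some c => ⟨F.W x y0 (rc c), rc c, hrcG c, rfl⟩
  have hinj : Function.Injective φ := by
    have h1 : ∀ c : K, φ none ≠ φ (some c) := by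
      intro c h
      have h2 : F.W x y0 g1 = F.W x y0 (rc c) := congrArg Subtype.val h
      have h3 := Wz g1 hg1P _ hz1
      rw [h2, Wz _ (hGP _ (hrcG c)) 0 (hrcz c), map_zero, map_sub] at h3
      apply hbb
      have h4 : F.bar b = F.bar b' := by linear_combination h3
      rw [← F.bb b, h4, F.bb]
    intro o o' h
    rcases o with _ | c <;> rcases o' with _ | c'
    · rfl
    · exact absurd h (h1 c')
    · exact absurd h.symm (h1 c)
    · have h2 : F.W x y0 (rc c) = F.W x y0 (rc c') := congrArg Subtype.val h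
      have h3 := Wm _ (hGP _ (hrcG c)) c (hrcm c)
      rw [h2, Wm _ (hGP _ (hrcG c')) c' (hrcm c')] at h3
      have h4 : F.bar c = F.bar c' := by linear_combination h3
      rw [← F.bb c, h4, F.bb]
  have h5 := Nat.card_le_card_of_injective φ hinj
  rw [Finite.card_option, hK] at h5
  omega
-- END row caseAii

-- BEGIN row caseBo
/-- Omega: for all g: t1 b = bar a (n c1 - u1) (`rel2` with r1), b can be 1, so
n c1 - u1 ≠ 0; w = (n c1 - u1) / t1, b = w bar a for all g, w ≠ 0. For r with entries c u t: (choose g with a ≠ 0) `rel2`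
gives bar a (n c - u) = t w bar a, so u = n c - w t. -/
theorem caseBo [Finite K] [Finite V] {q : ℕ} (hK : Nat.card K = q ^ 2)
    (hbar : ∀ a, F.bar a = a ^ q) {θ : K} (hθ : θ + F.bar θ = 1)
    (hB : Bs F x z m m' z' x') (hS : F.Ov S) (hx : S x) (hP : Pg F S P x z m)
    {n : K}
    (hf : ∀ g ∈ P, ∀ b a c s e u f t v : K,
      Mt F x z m m' z' g b a c s e u f t v → f = F.bar a * n)
    {r1 : V ≃ₗ[K] V} (hr1 : r1 ∈ P) {c1 u1 t1 v1 : K}
    (hr2 : Mt F x z m m' z' r1 0 0 c1 0 0 u1 0 t1 v1) (ht1 : t1 ≠ 0) :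
    ∃ w : K, w ≠ 0 ∧ (∀ g ∈ P, ∀ b a c s e u f t v : K,
      Mt F x z m m' z' g b a c s e u f t v → b = w * F.bar a) ∧
      (∀ r ∈ P, ∀ c u t v : K, Mt F x z m m' z' r 0 0 c 0 0 u 0 t v → u = n * c - w * t) := by
  have key : ∀ g ∈ P, ∀ b a c s e u f t v : K,
      Mt F x z m m' z' g b a c s e u f t v → F.bar a * (n * c1 - u1) = t1 * b := by
    intro g hg b a c s e u f t v hM
    have h1 := rel2 hθ hB hS hx hP hg hr1 hM hr2
    have h2 := hf g hg b a c s e u f t v hM
    rw [h2] at h1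
    linear_combination h1
  obtain ⟨g0, hg0, hz0⟩ := trb hB hS hx hP (1 : K)
  obtain ⟨a0, c0, hm0⟩ := hP.fm g0 hg0
  obtain ⟨s0, e0, u0, f0, t0, v0, hM0⟩ := mtex hB (hP.iso g0 hg0) (hP.fx g0 hg0) hz0 hm0
  have h0 := key g0 hg0 _ _ _ _ _ _ _ _ _ hM0
  rw [mul_one] at h0
  have hd : n * c1 - u1 ≠ 0 := by
    intro h
    rw [h, mul_zero] at h0
    exact ht1 h0.symm
  have ha0 : F.bar a0 ≠ 0 := by
    intro h
    rw [h, zero_mul] at h0
    exact ht1 h0.symm
  refine ⟨(n * c1 - u1) / t1, div_ne_zero hd ht1, ?_, ?_⟩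
  · intro g hg b a c s e u f t v hM
    have h1 := key g hg _ _ _ _ _ _ _ _ _ hM
    field_simp
    linear_combination -h1
  · intro r hr c u t v hM
    have h1 := rel2 hθ hB hS hx hP hg0 hr hM0 hM
    have h2 := hf g0 hg0 _ _ _ _ _ _ _ _ _ hM0
    rw [h2, mul_one] at h1
    have h3 : F.bar a0 * (t1 * (n * c - u) - (n * c1 - u1) * t) = 0 := by
      linear_combination t1 * h1 - t * h0
    have h4 := (mul_eq_zero.mp h3).resolve_left ha0
    field_simp
    linear_combination -h4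
-- END row caseBo

-- BEGIN row caseBr
/-- For a1 in K choose h with b1 = w bar a1 (`trb`; then a(h) = a1), and g with b = w, so a = 1.
`cmt`: c2 = a1 w - w bar a1 = w S1, S1 = a1 - bar a1, u2 = - bar n c2,
t2 = (n + bar n) (bar a1 - a1). If σ + bar σ = 0, a1 from h90 with S1 = σ. -/
theorem caseBr [Finite K] [Finite V] {q : ℕ} (hK : Nat.card K = q ^ 2)
    (hbar : ∀ a, F.bar a = a ^ q) {θ : K} (hθ : θ + F.bar θ = 1)
    (hB : Bs F x z m m' z' x') (hS : F.Ov S) (hx : S x) (hP : Pg F S P x z m)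
    {n : K}
    (hf : ∀ g ∈ P, ∀ b a c s e u f t v : K,
      Mt F x z m m' z' g b a c s e u f t v → f = F.bar a * n)
    {w : K} (hw : w ≠ 0) (hb : ∀ g ∈ P, ∀ b a c s e u f t v : K,
      Mt F x z m m' z' g b a c s e u f t v → b = w * F.bar a)
    {σ : K} (hσ : σ + F.bar σ = 0) :
    ∃ r ∈ P, ∃ v2 : K, Mt F x z m m' z' r 0 0 (w * σ) 0 0 (- F.bar n * (w * σ)) 0
      (- (n + F.bar n) * σ) v2 := by
  obtain ⟨a1, ha1⟩ := h90 hθ hσ
  obtain ⟨g, hg, hgz⟩ := trb hB hS hx hP w
  obtain ⟨h, hh, hhz⟩ := trb hB hS hx hP (w * F.bar a1)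
  obtain ⟨ag, cg, hgm⟩ := hP.fm g hg
  obtain ⟨ah, ch, hhm⟩ := hP.fm h hh
  obtain ⟨sg, eg, ug, fg, tg, vg, Mg⟩ := mtex hB (hP.iso g hg) (hP.fx g hg) hgz hgm
  obtain ⟨sh, eh, uh, fh, th, vh, Mh⟩ := mtex hB (hP.iso h hh) (hP.fx h hh) hhz hhm
  have hag : ag = 1 := by
    have h1 := hb g hg _ _ _ _ _ _ _ _ _ Mg
    have h2 : F.bar ag = 1 := by
      have h3 : w * F.bar ag = w * 1 := by rw [← h1, mul_one]
      exact mul_left_cancel₀ hw h3
    rw [← F.bb ag, h2, map_one]
  have hah : ah = a1 := by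
    have h1 := hb h hh _ _ _ _ _ _ _ _ _ Mh
    have h2 := mul_left_cancel₀ hw h1
    rw [← F.bb ah, ← h2, F.bb]
  have hsg := szero hK hbar hθ hB hS hx hP hg Mg
  have hsh := szero hK hbar hθ hB hS hx hP hh Mh
  rw [hag, hsg] at Mg
  rw [hah, hsh] at Mh
  obtain ⟨r, hr, c2, u2, t2, v2, Mr, e1, e2, e3⟩ := cmt hK hbar hθ hB hS hx hP hg hh Mg Mh
    (hf g hg _ _ _ _ _ _ _ _ _ Mg) (hf h hh _ _ _ _ _ _ _ _ _ Mh)
  have q1 : c2 = w * σ := by rw [e1, ← ha1]; ring
  have q2 : u2 = - F.bar n * (w * σ) := by rw [e2, q1]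
  have q3 : t2 = - (n + F.bar n) * σ := by rw [e3, ← ha1, map_one]; ring
  rw [q2, q3, q1] at Mr
  exact ⟨r, hr, v2, Mr⟩
-- END row caseBr

-- BEGIN row caseB
/-- `caseBo`, `caseBr`. For σ of trace 0: u = n c - w t reads - bar n w σ = n w σ +
w (n + bar n) σ, so (1 + 1) (n + bar n) σ = 0; σ = ω - bar ω ≠ 0, so 1 + 1 = 0 in K and trace
zero means fixed by bar. Let r2 in P with r2 z = z and c = w ω (`trc`, `rmat`), t-entry t2, so u =
n w ω - w t2, t2 fixed by bar. For σ fixed by bar let r = r(σ) r2: c = w (σ + ω), t = (n + bar n) σ + t2 (char 2),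
u = n c - w t. Then bar c u + c bar u = w bar w ((n + bar n) (σ σ + ω bar ω) -
(ω + bar ω) t2). Choose σ (`sqr`) with σ σ = ω bar ω + (ω + bar ω) t2 / (n + bar n) up to
sign: it is 0; c ≠ 0 as ω is not fixed. Contradiction with `rmat` for r. -/
theorem caseB [Finite K] [Finite V] {q : ℕ} (hK : Nat.card K = q ^ 2)
    (hbar : ∀ a, F.bar a = a ^ q) {θ : K} (hθ : θ + F.bar θ = 1) {ω : K} (hω : F.bar ω ≠ ω)
    (hB : Bs F x z m m' z' x') (hS : F.Ov S) (hx : S x) (hP : Pg F S P x z m)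
    {n : K} (hn : n + F.bar n ≠ 0)
    (hf : ∀ g ∈ P, ∀ b a c s e u f t v : K,
      Mt F x z m m' z' g b a c s e u f t v → f = F.bar a * n)
    {r1 : V ≃ₗ[K] V} (hr1 : r1 ∈ P) {c1 u1 t1 v1 : K}
    (hr2 : Mt F x z m m' z' r1 0 0 c1 0 0 u1 0 t1 v1) (ht1 : t1 ≠ 0) : False := by
  obtain ⟨w, hw, hb, hu⟩ := caseBo hK hbar hθ hB hS hx hP hf hr1 hr2 ht1
  have hσ0 : (ω - F.bar ω) + F.bar (ω - F.bar ω) = 0 := by
    rw [map_sub, F.bb]
    ring
  have hne : ω - F.bar ω ≠ 0 := sub_ne_zero.2 (Ne.symm hω)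
  obtain ⟨r, hr, v2, hrm⟩ := caseBr hK hbar hθ hB hS hx hP hf hw hb hσ0
  have hu0 := hu r hr _ _ _ _ hrm
  have h2 : (1 + 1 : K) = 0 := by
    have h3 : (1 + 1) * ((n + F.bar n) * (w * (ω - F.bar ω))) = 0 := by
      linear_combination (-1 : K) * hu0
    rcases mul_eq_zero.1 h3 with h | h
    · exact h
    · exact absurd h (mul_ne_zero hn (mul_ne_zero hw hne))
  obtain ⟨g, hg, hgz, a0, hgm⟩ := trc hB hS hx hP (w * ω)
  obtain ⟨c2, u2, t2, v2', hm2, -⟩ := rmat hK hbar hθ hB hS hx hP hg hgz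
  have hc2 : c2 = w * ω := by
    have E := congrArg (fun y => F.H y x') (hm2.gm.symm.trans hgm)
    simp only [F.addl, F.smull, hB.mx', hB.zx', hB.xx'] at E
    linear_combination E
  have ht2 : F.bar t2 = t2 := by
    have h3 := hm2.ht
    rw [map_zero] at h3
    linear_combination h3 - t2 * h2
  have hN : F.bar (n + F.bar n) = n + F.bar n := by
    rw [map_add, F.bb]
    ring
  have hA : F.bar (ω * F.bar ω + (ω + F.bar ω) * (t2 / (n + F.bar n))) =
      ω * F.bar ω + (ω + F.bar ω) * (t2 / (n + F.bar n)) := by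
    rw [map_add, map_mul, map_mul, map_div₀, hN, ht2, map_add, F.bb]
    ring
  obtain ⟨σ, hσ, hσσ⟩ := sqr h2 hA
  have hσ1 : σ + F.bar σ = 0 := by
    rw [hσ]
    linear_combination σ * h2
  obtain ⟨r3, hr3, v3, hm3⟩ := caseBr hK hbar hθ hB hS hx hP hf hw hb hσ1
  have hz3 : (r3 * g) z = z := by
    rw [LinearEquiv.mul_apply, hgz, hm3.gz, zero_smul, add_zero]
  obtain ⟨c4, u4, t4, v4, hm4, h4⟩ := rmat hK hbar hθ hB hS hx hP (P.mul_mem hr3 hg) hz3
  have hc4 : c4 = w * (σ + ω) := by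
    have E := congrArg (fun y => F.H y x') (show (r3 * g) m = r3 (g m) from rfl)
    simp only [hm4.gm, hm2.gm, map_add, map_smul, hm3.gm, hm3.gz, hm3.gx, F.addl, F.smull,
      hB.mx', hB.zx', hB.xx'] at E
    linear_combination E + hc2
  have ht4 : t4 = -(n + F.bar n) * σ + t2 := by
    have E := congrArg (fun y => F.H y z') (show (r3 * g) z' = r3 (g z') from rfl)
    simp only [hm4.gz', hm2.gz', map_add, map_sub, map_smul, hm3.gz', hm3.gm', hm3.gm, hm3.gz,
      hm3.gx, F.addl, F.subl, F.smull, hB.mz', hB.zz', hB.xz', hB.m'z', hB.z'z', map_zero] at E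
    linear_combination E
  have hu4 := hu (r3 * g) (P.mul_mem hr3 hg) _ _ _ _ hm4
  have hc4n : c4 ≠ 0 := by
    rw [hc4]
    refine mul_ne_zero hw fun h => hω ?_
    have h3 : ω = -σ := by linear_combination h
    rw [h3, map_neg, hσ]
  have hs : (n + F.bar n) * (σ * σ) = (n + F.bar n) * (ω * F.bar ω) + (ω + F.bar ω) * t2 := by
    rw [hσσ]
    field_simp
  apply h4 hc4n
  rw [hu4, hc4, ht4]
  simp only [map_mul, map_sub, map_add, map_neg, F.bb, hσ, ht2]
  linear_combination (w * F.bar w) * hs + (w * F.bar w * ((n + F.bar n) * (ω * F.bar ω) +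
    (n + F.bar n) * σ * (ω + F.bar ω) + (n + F.bar n) * (σ * σ) - σ * t2)) * h2
-- END row caseB

-- BEGIN row core
/-- theta from `Ovo.exists_theta`, ω from `nebar`, n from `muz`; cases `caseAi`, `caseAii`
(a = 0 everywhere; s = 0 by `szero`; f = 0 so e = 0 by hf), `caseB`. -/
theorem core [Finite K] [Finite V] {q : ℕ} (hK : Nat.card K = q ^ 2)
    (hbar : ∀ a, F.bar a = a ^ q) (hB : Bs F x z m m' z' x') (hS : F.Ov S) (hx : S x)
    (hP : Pg F S P x z m) : False := by
  obtain ⟨θ, hθ⟩ := Ovo.exists_theta hK F.bar hbar F.bb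
  obtain ⟨ω, hω⟩ := nebar (F := F) hK hbar
  obtain ⟨n, hn, hf⟩ := muz hK hbar hθ hB hS hx hP
  by_cases ht : ∀ r ∈ P, ∀ c u t v : K, Mt F x z m m' z' r 0 0 c 0 0 u 0 t v → t = 0
  · by_cases ha : ∃ g0 ∈ P, ∃ b a c s e u f t v : K, Mt F x z m m' z' g0 b a c s e u f t v ∧ a ≠ 0
    · obtain ⟨g0, hg0, b, a, c, s, e, u, f, t, v, hg1, ha⟩ := ha
      exact caseAi hK hbar hθ hω hB hS hx hP hn hf ht hg0 hg1 ha
    · push Not at ha
      refine caseAii hK hbar hθ hB hS hx hP ht ?_
      intro g hg b a c s e u f t v hg1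
      have h1 : a = 0 := ha g hg b a c s e u f t v hg1
      have h2 : s = 0 := szero hK hbar hθ hB hS hx hP hg hg1
      have h3 := hf g hg b a c s e u f t v hg1
      have h4 := hg1.hf
      refine ⟨h1, h2, ?_⟩
      rw [h3, h1, h2, map_zero, zero_mul, zero_mul, map_zero, zero_sub, eq_comm, neg_eq_zero] at h4
      have h5 := F.bb e
      rw [h4, map_zero] at h5
      exact h5.symm
  · push Not at ht
    obtain ⟨r1, hr1, c1, u1, t1, v1, hr2, ht1⟩ := ht
    exact caseB hK hbar hθ hω hB hS hx hP hn hf hr1 hr2 ht1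
-- END row core

end Pool.Agent.Ovp
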