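import Pool.Agent.Ovp.Red

namespace Pool.Agent.Ovp.Two

variable {K V : Type} [Field K] [AddCommGroup V] [Module K V]
variable {F : Ovo.HF K V} {S : V → Prop} {P : Subgroup (V ≃ₗ[K] V)} {x z m m' z' x' : V} {q : ℕ}

/-- A group of isometries with an invariant flag and many values of b and c. -/
structure Pg (F : Ovo.HF K V) (S : V → Prop) (P : Subgroup (V ≃ₗ[K] V)) (x z m : V) (q : ℕ) :
    Prop where
  iso : ∀ g ∈ P, ∀ u v, F.H (g u) (g v) = F.H u v
  pres : ∀ g ∈ P, ∀ y, S y → S (g y)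
  fx : ∀ g ∈ P, g x = x
  fz : ∀ g ∈ P, ∃ b : K, g z = z + b • x
  fm : ∀ g ∈ P, ∃ a c : K, g m = m + a • z + c • x
  hb : ∃ g ∈ P, ∃ b : K, b ≠ 0 ∧ g z = z + b • x
  hc : ∀ b1 : K, ∃ g ∈ P, g z = z ∧ ∃ a c : K, g m = m + a • z + c • x ∧ c - a * b1 ≠ 0
  hB : q < Nat.card {b : K // ∃ g ∈ P, g z = z + b • x}
  hC : ∃ b1 : K, q < Nat.card {d : K // ∃ g ∈ P, g z = z ∧ ∃ a c : K,
    g m = m + a • z + c • x ∧ d = c - a * b1}

-- BEGIN row pigt
/-- Otherwise `f` is an injection of `T` (more than q elements) into the set of a with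
a + a^q = 0 (at most q elements, `Ovo.card_trace_zero`). -/
theorem pigt [Finite K] (hK : Nat.card K = q ^ 2) (hbar : ∀ a, F.bar a = a ^ q)
    {T : Type} (hT : q < Nat.card T) (f : T → K) (hf : ∀ c, f c + F.bar (f c) = 0) :
    ∃ c c', c ≠ c' ∧ f c = f c' := by
  by_contra hcon
  push Not at hcon
  have h3 : Nat.card T ≤ Nat.card {a : K // a + a ^ q = 0} := by
    refine Nat.card_le_card_of_injective (fun a => ⟨f a, by rw [← hbar]; exact hf a⟩) ?_
    intro a b hab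
    by_contra hne
    exact hcon a b hne (congrArg Subtype.val hab)
  have h4 := h3.trans (Ovo.card_trace_zero hK)
  omega
-- END row pigt

-- BEGIN row pshift
private theorem pshift_z (g : V ≃ₗ[K] V) (hx : g x = x) (b1 b : K) :
    g (z + b1 • x) = z + b1 • x + b • x ↔ g z = z + b • x := by
  rw [map_add, map_smul, hx]
  constructor
  · intro h
    have h2 : g z + b1 • x = z + b • x + b1 • x := by rw [h]; abel
    exact add_right_cancel h2
  · intro h
    rw [h]; abel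

private theorem pshift_z0 (g : V ≃ₗ[K] V) (hx : g x = x) (b1 : K) :
    g (z + b1 • x) = z + b1 • x ↔ g z = z := by
  rw [map_add, map_smul, hx]
  exact add_left_inj _

/-- The v1 body (`Pool.Agent.Ovp.pshift`) for the old fields; hb and hB: the same elements and values
(g (z + b1 x) = (z + b1 x) + b x iff g z = z + b x); hc for b2: the old hc for b1 + b2; hC: with
b0 - b1. -/
theorem pshift (hP : Pg F S P x z m q) (b1 : K) : Pg F S P x (z + b1 • x) m q := by
  refine ⟨hP.iso, hP.pres, hP.fx, ?_, ?_, ?_, ?_, ?_, ?_⟩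
  · intro g hg
    obtain ⟨b, hb⟩ := hP.fz g hg
    exact ⟨b, (pshift_z g (hP.fx g hg) b1 b).2 hb⟩
  · intro g hg
    obtain ⟨a, c, hac⟩ := hP.fm g hg
    refine ⟨a, c - a * b1, ?_⟩
    rw [hac]
    module
  · obtain ⟨g, hg, b, hb, h⟩ := hP.hb
    exact ⟨g, hg, b, hb, (pshift_z g (hP.fx g hg) b1 b).2 h⟩
  · intro b2
    obtain ⟨g, hg, hz, a, c, hm, hc⟩ := hP.hc (b1 + b2)
    refine ⟨g, hg, (pshift_z0 g (hP.fx g hg) b1).2 hz, a, c - a * b1, ?_, ?_⟩
    · rw [hm]
      module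
    · intro h
      apply hc
      rw [← h]
      ring
  · have he : (fun b : K => ∃ g ∈ P, g (z + b1 • x) = z + b1 • x + b • x) =
        fun b : K => ∃ g ∈ P, g z = z + b • x := by
      funext b
      refine propext ⟨?_, ?_⟩
      · rintro ⟨g, hg, h⟩
        exact ⟨g, hg, (pshift_z g (hP.fx g hg) b1 b).1 h⟩
      · rintro ⟨g, hg, h⟩
        exact ⟨g, hg, (pshift_z g (hP.fx g hg) b1 b).2 h⟩
    rw [he]
    exact hP.hB
  · obtain ⟨b0, h0⟩ := hP.hC
    refine ⟨b0 - b1, ?_⟩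
    have he : (fun d : K => ∃ g ∈ P, g (z + b1 • x) = z + b1 • x ∧ ∃ a c : K,
        g m = m + a • (z + b1 • x) + c • x ∧ d = c - a * (b0 - b1)) =
        fun d : K => ∃ g ∈ P, g z = z ∧ ∃ a c : K,
          g m = m + a • z + c • x ∧ d = c - a * b0 := by
      funext d
      refine propext ⟨?_, ?_⟩
      · rintro ⟨g, hg, hz, a, c, hm, hd⟩
        refine ⟨g, hg, (pshift_z0 g (hP.fx g hg) b1).1 hz, a, c + a * b1, ?_, ?_⟩
        · rw [hm]
          module
        · rw [hd]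
          ring
      · rintro ⟨g, hg, hz, a, c, hm, hd⟩
        refine ⟨g, hg, (pshift_z0 g (hP.fx g hg) b1).2 hz, a, c - a * b1, ?_, ?_⟩
        · rw [hm]
          module
        · rw [hd]
          ring
    rw [he]
    exact h0
-- END row pshift

-- BEGIN row dtwo
/-- The v1 body with r from hP.hc 0 (c1 = c - a 0 ≠ 0 in place of 1): k2 has u = - s c1, so `done`
gives s c1 = 0. -/
theorem dtwo [Finite V] {θ : K} (hθ : θ + F.bar θ = 1) (hB : Bs F x z m m' z' x')
    (hS : F.Ov S) (hx : S x) (hP : Pg F S P x z m q) {g : V ≃ₗ[K] V} (hg0 : g ∈ P)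
    {a s e u f t v : K} (hg : Mt F x z m m' z' g 0 a 0 s e u f t v) : s = 0 ∧ u = 0 := by
  have key : s = 0 := by
    obtain ⟨r, hr, hrz, a1, c1, hrm, hc1⟩ := hP.hc 0
    rw [mul_zero, sub_zero] at hc1
    have hrx := hP.fx r hr
    obtain ⟨s1, e1, u1, f1, t1, v1, hr1⟩ := mtex (b := 0) hB (hP.iso r hr) hrx
      (by rw [hrz, zero_smul, add_zero]) hrm
    obtain ⟨k, hkd⟩ : ∃ k : V ≃ₗ[K] V, k = g * r * (r * g)⁻¹ := ⟨_, rfl⟩
    have hkP : k ∈ P := by
      rw [hkd]
      exact P.mul_mem (P.mul_mem hg0 hr) (P.inv_mem (P.mul_mem hr hg0))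
    have hk : ∀ w, k (r (g w)) = g (r w) := by
      intro w
      have h := DFunLike.congr_fun (inv_mul_cancel_right (g * r) (r * g)) w
      rw [← hkd] at h
      exact h
    have hkx := hP.fx k hkP
    have hkz : k z = z := by
      have h := hk z
      simp only [hg.gz, hrz, hg.gx, zero_smul, add_zero] at h
      exact h
    have hkm : k m = m := by
      have h := hk m
      simp only [hg.gm, hg.gz, hrm, hrz, hg.gx, hrx, map_add, map_smul, hkz, hkx, zero_smul,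
        add_zero, one_smul] at h
      have h2 : k m + (a1 • z + c1 • x + a • z) = m + (a1 • z + c1 • x + a • z) := by
        rw [← sub_eq_zero] at h ⊢
        rw [← h]
        abel
      exact add_right_cancel h2
    obtain ⟨s2, e2, u2, f2, t2, v2, hk2⟩ := mtex (b := 0) (a := 0) (c := 0) hB (hP.iso k hkP) hkx
      (by rw [hkz, zero_smul, add_zero]) (by rw [hkm, zero_smul, zero_smul, add_zero, add_zero])
    have e3 := hk m'
    simp only [hg.gm', hr1.gm', hk2.gm', hg.gm, hg.gz, hrm, hrz, hg.gx, hrx, map_add, map_smul,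
      hkz, hkx, hkm, zero_smul, add_zero, one_smul] at e3
    have e4 := congrArg (fun w => F.H w m') e3
    have e5 := congrArg (fun w => F.H w x') e3
    simp only [F.addl, F.smull, hB.xx', hB.zx', hB.mx', hB.m'x', mul_zero, mul_one, add_zero,
      zero_add] at e5
    simp only [F.addl, F.smull, hB.xm', hB.zm', hB.mm', hB.m'm', mul_zero, mul_one, add_zero,
      zero_add] at e4
    have hs2 : s2 = 0 := by linear_combination e4
    have hu2 : u2 = -(s * c1) := by linear_combination e5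
    subst hs2
    have h := done hθ hB hS hx (hP.iso k hkP) (hP.pres k hkP) hk2
    rw [hu2] at h
    exact (mul_eq_zero.1 (neg_eq_zero.1 h)).resolve_right hc1
  subst key
  exact ⟨rfl, done hθ hB hS hx (hP.iso g hg0) (hP.pres g hg0) hg⟩
-- END row dtwo

-- BEGIN row ethree
/-- The v1 body with r from hP.hb (r z = z + b x, b ≠ 0, in place of b = 1): k2 z' = z' - t b x,
`etwo` gives t b = 0. -/
theorem ethree [Finite V] {θ : K} (hθ : θ + F.bar θ = 1) (hB : Bs F x z m m' z' x')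
    (hS : F.Ov S) (hx : S x) (hP : Pg F S P x z m q) {g : V ≃ₗ[K] V} (hg0 : g ∈ P)
    (hz : g z = z) (hm : g m = m) : g m' = m' ∧ g z' = z' := by
  obtain ⟨s, e, u, f, t, v, hM⟩ := mtex hB (hP.iso g hg0) (b := 0) (a := 0) (c := 0)
    (hP.fx g hg0) (by rw [hz]; simp) (by rw [hm]; simp)
  obtain ⟨hs, hu⟩ := dtwo hθ hB hS hx hP hg0 hM
  subst hs hu
  have he := eone hθ hB hS hx (hP.iso g hg0) (hP.pres g hg0)
    (f := f) (e := e) (t := t) (v := v) hM
  subst he
  have hf : f = 0 := by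
    have h := hM.hf
    rw [zero_mul, map_zero, sub_zero] at h
    exact h
  subst hf
  have gm' : g m' = m' := by
    have h := hM.gm'
    simpa using h
  have gz' : g z' = z' + t • z + v • x := by
    have h := hM.gz'
    simpa using h
  have gx := hP.fx g hg0
  obtain ⟨r, hr, b, hb0, rz⟩ := hP.hb
  have rx := hP.fx r hr
  have hri := P.inv_mem hr
  obtain ⟨b1, iz⟩ := hP.fz r⁻¹ hri
  obtain ⟨a1, c1, im⟩ := hP.fm r⁻¹ hri
  have ix := hP.fx r⁻¹ hri
  obtain ⟨s1, e1, u1, f1, t1, v1, hM1⟩ := mtex hB (hP.iso r⁻¹ hri) ix iz im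
  have rr : ∀ w, r (r⁻¹ w) = w := fun w => LinearEquiv.apply_symm_apply r w
  -- the conjugate
  have kx : (r * g * r⁻¹) x = x := by
    show r (g (r⁻¹ x)) = x
    rw [ix, gx, rx]
  have kz : (r * g * r⁻¹) z = z := by
    show r (g (r⁻¹ z)) = z
    have : g (r⁻¹ z) = r⁻¹ z := by rw [iz, map_add, map_smul, hz, gx]
    rw [this, rr]
  have km : (r * g * r⁻¹) m = m := by
    show r (g (r⁻¹ m)) = m
    have : g (r⁻¹ m) = r⁻¹ m := by
      rw [im, map_add, map_add, map_smul, map_smul, hz, hm, gx]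
    rw [this, rr]
  have km' : (r * g * r⁻¹) m' = m' := by
    show r (g (r⁻¹ m')) = m'
    have : g (r⁻¹ m') = r⁻¹ m' := by
      rw [hM1.gm', map_add, map_add, map_add, map_smul, map_smul, map_smul, hz, hm, gx, gm']
    rw [this, rr]
  have kz' : (r * g * r⁻¹) z' = z' + t • z + (t * b + v) • x := by
    show r (g (r⁻¹ z')) = z' + t • z + (t * b + v) • x
    have : g (r⁻¹ z') = r⁻¹ z' + t • z + v • x := by
      rw [hM1.gz', map_add, map_add, map_add, map_sub, map_smul, map_smul, map_smul, map_smul,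
        hz, hm, gx, gm', gz']
      abel
    rw [this, map_add, map_add, rr, map_smul, map_smul, rz, rx]
    module
  set k := r * g * r⁻¹ with hk
  have hkP : k ∈ P := P.mul_mem (P.mul_mem hr hg0) hri
  have hk2 : g * k⁻¹ ∈ P := P.mul_mem hg0 (P.inv_mem hkP)
  have ki : ∀ w w', k w = w' → k⁻¹ w' = w := fun w w' h => by
    rw [← h]
    exact LinearEquiv.symm_apply_apply k w
  have jx : k⁻¹ x = x := ki _ _ kx
  have jz : k⁻¹ z = z := ki _ _ kz
  have jm : k⁻¹ m = m := ki _ _ km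
  have jm' : k⁻¹ m' = m' := ki _ _ km'
  have jz' : k⁻¹ z' = z' - t • z - (t * b + v) • x := by
    have h := ki _ _ kz'
    rw [map_add, map_add, map_smul, map_smul, jz, jx] at h
    rw [eq_sub_of_add_eq (eq_sub_of_add_eq h)]
    abel
  have hM2 : Mt F x z m m' z' (g * k⁻¹) 0 0 0 0 0 0 0 0 (-(t * b)) := by
    refine ⟨?_, ?_, ?_, ?_, ?_, ?_, ?_, ?_⟩
    · show g (k⁻¹ x) = x
      rw [jx, gx]
    · show g (k⁻¹ z) = z + (0 : K) • x
      rw [jz, hz, zero_smul, add_zero]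
    · show g (k⁻¹ m) = m + (0 : K) • z + (0 : K) • x
      rw [jm, hm, zero_smul, zero_smul, add_zero, add_zero]
    · show g (k⁻¹ m') = m' + (0 : K) • m + (0 : K) • z + (0 : K) • x
      rw [jm', gm', zero_smul, zero_smul, zero_smul, add_zero, add_zero, add_zero]
    · show g (k⁻¹ z') = z' - F.bar 0 • m' + (0 : K) • m + (0 : K) • z + (-(t * b)) • x
      rw [jz', map_sub, map_sub, map_smul, map_smul, hz, gx, gz', map_zero]
      module
    · simp
    · simp
    · simp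
  have ht : t = 0 := by
    have h := etwo hθ hB hS hx (hP.iso _ hk2) (hP.pres _ hk2) hM2
    exact (mul_eq_zero.1 (neg_eq_zero.1 h)).resolve_right hb0
  subst ht
  have hv : v = 0 := etwo hθ hB hS hx (hP.iso g hg0) (hP.pres g hg0) hM
  subst hv
  refine ⟨gm', ?_⟩
  rw [gz', zero_smul, zero_smul, add_zero, add_zero]
-- END row ethree

-- BEGIN row comm
private theorem comm_k (g h : V ≃ₗ[K] V) (v : V) :
    ((h * g)⁻¹ * (g * h)) v = v ↔ g (h v) = h (g v) := by
  show (h * g).symm (g (h v)) = v ↔ g (h v) = h (g v)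
  rw [LinearEquiv.symm_apply_eq]
  exact Iff.rfl

/-- Apply `ethree` to (h g)^{-1} (g h). -/
theorem comm [Finite V] {θ : K} (hθ : θ + F.bar θ = 1) (hB : Bs F x z m m' z' x')
    (hS : F.Ov S) (hx : S x) (hP : Pg F S P x z m q) {g h : V ≃ₗ[K] V} (hg : g ∈ P) (hh : h ∈ P)
    (hz : g (h z) = h (g z)) (hm : g (h m) = h (g m)) :
    g (h m') = h (g m') ∧ g (h z') = h (g z') := by
  have hk : (h * g)⁻¹ * (g * h) ∈ P :=
    P.mul_mem (P.inv_mem (P.mul_mem hh hg)) (P.mul_mem hg hh)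
  obtain ⟨h1, h2⟩ := ethree hθ hB hS hx hP hk ((comm_k g h z).2 hz) ((comm_k g h m).2 hm)
  exact ⟨(comm_k g h m').1 h1, (comm_k g h z').1 h2⟩
-- END row comm

-- BEGIN row sone
/-- The v1 body with h from hP.hb (h z = z + b x, b ≠ 0) and z1 = z + b x: r m = m - a b x,
r m' = m' + (e - e2) z - e2 b x, `othree2`: e = e2 and bar (a b) e b + (a b) bar (e b) ≠ 0, i.e.
b bar b (bar a e + a bar e) ≠ 0; the commutation on z' gives b (bar a e + a bar e) = 0. -/
theorem sone [Finite V] {θ : K} (hθ : θ + F.bar θ = 1) (hB : Bs F x z m m' z' x')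
    (hS : F.Ov S) (hx : S x) (hP : Pg F S P x z m q) {g : V ≃ₗ[K] V} (hg : g ∈ P)
    {a : K} (hz : g z = z) (hm : g m = m + a • z) : a = 0 := by
  by_contra ha
  have hgx : g x = x := hP.fx g hg
  obtain ⟨s, e, u, f, t, v, hM⟩ := mtex hB (hP.iso g hg) (b := 0) (a := a) (c := 0) hgx
    (by rw [hz, zero_smul, add_zero]) (by rw [hm, zero_smul, add_zero])
  obtain ⟨hs0, hu0⟩ := dtwo hθ hB hS hx hP hg hM
  subst hs0 hu0
  -- the conjugate
  obtain ⟨h, hh, b, hb0, hhz⟩ := hP.hb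
  have hhx : h x = x := hP.fx h hh
  have hhi : h⁻¹ ∈ P := P.inv_mem hh
  have hinv : ∀ y, h (h⁻¹ y) = y := fun y => by
    rw [← LinearEquiv.mul_apply, mul_inv_cancel, LinearEquiv.coe_one, id]
  have hinv' : ∀ y, h⁻¹ (h y) = y := fun y => by
    rw [← LinearEquiv.mul_apply, inv_mul_cancel, LinearEquiv.coe_one, id]
  obtain ⟨g2, hg2⟩ : ∃ g2 : V ≃ₗ[K] V, g2 = h * g * h⁻¹ := ⟨_, rfl⟩
  have hg2P : g2 ∈ P := by
    rw [hg2]
    exact P.mul_mem (P.mul_mem hh hg) hhi
  have hg2a : ∀ y, g2 y = h (g (h⁻¹ y)) := fun y => by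
    rw [hg2]
    rfl
  have hg2x : g2 x = x := hP.fx g2 hg2P
  have hg2z1 : g2 (z + b • x) = z + b • x := by
    rw [hg2a, ← hhz, hinv', hz]
  obtain ⟨p, p', hpq⟩ := hP.fm h⁻¹ hhi
  have hg2m : g2 m = m + a • (z + b • x) := by
    have h1 : g (h⁻¹ m) = h⁻¹ m + a • z := by
      rw [hpq, map_add, map_add, map_smul, map_smul, hm, hz, hgx]
      abel
    rw [hg2a, h1, map_add, hinv, map_smul, hhz]
  have hB1 := bshift hB b
  have hP1 := pshift hP b
  obtain ⟨s2, e2, u2, f2, t2, v2, hM2⟩ := mtex hB1 (hP.iso g2 hg2P) (b := 0) (a := a) (c := 0)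
    hg2x (by rw [hg2z1, zero_smul, add_zero]) (by rw [hg2m, zero_smul, add_zero])
  obtain ⟨hs2, hu2⟩ := dtwo hθ hB1 hS hx hP1 hg2P hM2
  subst hs2 hu2
  have hg2m' : g2 m' = m' + e2 • (z + b • x) := by
    rw [hM2.gm', zero_smul, zero_smul, add_zero, add_zero]
  -- the inverse of the conjugate
  have hk : ∀ y, g2⁻¹ (g2 y) = y := fun y => by
    rw [← LinearEquiv.mul_apply, inv_mul_cancel, LinearEquiv.coe_one, id]
  have hkx : g2⁻¹ x = x := hP.fx _ (P.inv_mem hg2P)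
  have hkz1 : g2⁻¹ (z + b • x) = z + b • x := by
    have h1 := hk (z + b • x)
    rwa [hg2z1] at h1
  have hkz : g2⁻¹ z = z := by
    rw [map_add, map_smul, hkx] at hkz1
    exact add_right_cancel hkz1
  have hkm : g2⁻¹ m = m - a • (z + b • x) := by
    have h1 := hk m
    rw [hg2m, map_add, map_smul, hkz1] at h1
    exact eq_sub_of_add_eq h1
  have hkm' : g2⁻¹ m' = m' - e2 • (z + b • x) := by
    have h1 := hk m'
    rw [hg2m', map_add, map_smul, hkz1] at h1
    exact eq_sub_of_add_eq h1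
  have hgz1 : g (z + b • x) = z + b • x := by
    rw [map_add, map_smul, hz, hgx]
  have hgm' : g m' = m' + e • z := by
    rw [hM.gm', zero_smul, zero_smul, add_zero, add_zero]
  -- the quotient
  obtain ⟨r, hr⟩ : ∃ r : V ≃ₗ[K] V, r = g * g2⁻¹ := ⟨_, rfl⟩
  have hrP : r ∈ P := by
    rw [hr]
    exact P.mul_mem hg (P.inv_mem hg2P)
  have hra : ∀ y, r y = g (g2⁻¹ y) := fun y => by
    rw [hr]
    rfl
  have hrx : r x = x := hP.fx r hrP
  have hrz : r z = z := by rw [hra, hkz, hz]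
  have hrm : r m = m + (-(a * b)) • x := by
    rw [hra, hkm, map_sub, map_smul, hgz1, hm]
    module
  have hrm' : r m' = m' + e • z - e2 • (z + b • x) := by
    rw [hra, hkm', map_sub, map_smul, hgz1, hgm']
  obtain ⟨sr, er, ur, fr, tr, vr, hMr⟩ := mtex hB (hP.iso r hrP) (b := 0) (a := 0) (c := -(a * b))
    hrx (by rw [hrz, zero_smul, add_zero]) (by rw [hrm, zero_smul, add_zero])
  have h1 := hMr.gm'.symm.trans hrm'
  obtain ⟨hur, her, hsr, -, -, -⟩ := indep hB (a := ur) (b := er) (c := sr) (d := 1) (e := 0)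
    (f := 0) (a1 := -(e2 * b)) (b1 := e - e2) (c1 := 0) (d1 := 1) (e1 := 0) (f1 := 0)
    (by linear_combination (norm := module) h1)
  subst hsr
  obtain ⟨her0, hne⟩ := othree2 hθ hB hS hx (hP.iso r hrP) (hP.pres r hrP) hMr
    (neg_ne_zero.2 (mul_ne_zero ha hb0))
  have hee : e2 = e := (sub_eq_zero.1 (her.symm.trans her0)).symm
  obtain ⟨-, hcz⟩ := comm hθ hB hS hx hP hg hrP (by rw [hrz, hz, hrz])
    (by rw [hrm, hm, map_add, map_add, map_smul, map_smul, hrm, hrz, hgx, hm]; abel)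
  have hfr : fr = 0 := by
    have h2 := hMr.hf
    rw [her0, mul_zero, map_zero, sub_zero] at h2
    exact h2
  have hf : f = -F.bar e := by
    have h2 := hM.hf
    rw [zero_mul, map_zero, zero_sub] at h2
    exact h2
  rw [hMr.gz', hM.gz'] at hcz
  simp only [map_add, map_sub, map_smul] at hcz
  rw [hM.gz', hMr.gz', hrm', hrm, hrx, hrz, hgx, hz, hm, hgm'] at hcz
  rw [map_zero, hfr, hee] at hcz
  obtain ⟨h3, -, -, -, -, -⟩ := indep hB (a := v + vr) (b := t + tr) (c := f) (d := -F.bar a)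
    (e := 1) (f := 0) (a1 := vr + F.bar a * (e * b) - f * (a * b) + v) (b1 := t + tr) (c1 := f)
    (d1 := -F.bar a) (e1 := 1) (f1 := 0) (by linear_combination (norm := module) hcz)
  refine hne ?_
  rw [hur, hee, map_neg, map_neg, map_mul, map_mul]
  rw [hf] at h3
  linear_combination (-(F.bar b)) * h3
-- END row sone

-- BEGIN row stwo
/-- If a ≠ 0 shift by b1 = c / a: g m = m + a (z + b1 x), and `sone` (with `bshift`, `pshift`)
gives a = 0. -/
theorem stwo [Finite V] {θ : K} (hθ : θ + F.bar θ = 1) (hB : Bs F x z m m' z' x')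
    (hS : F.Ov S) (hx : S x) (hP : Pg F S P x z m q) {g : V ≃ₗ[K] V} (hg : g ∈ P)
    {a c : K} (hz : g z = z) (hm : g m = m + a • z + c • x) : a = 0 := by
  by_contra ha
  refine ha (sone hθ (bshift hB (c / a)) hS hx (pshift hP (c / a)) hg ?_ ?_)
  · rw [map_add, map_smul, hz, hP.fx g hg]
  · have h1 : a * (c / a) = c := by field_simp
    rw [hm, smul_add, smul_smul, h1, add_assoc]
-- END row stwo

-- BEGIN row rel1
/-- g and r commute on z and m (r has a = 0 by `stwo`), so by `comm` on m': comparing the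
coefficients of x in r (g m') = g (r m') : s c1 = s1 c + e1 b. -/
theorem rel1 [Finite V] {θ : K} (hθ : θ + F.bar θ = 1) (hB : Bs F x z m m' z' x')
    (hS : F.Ov S) (hx : S x) (hP : Pg F S P x z m q) {g r : V ≃ₗ[K] V} (hg : g ∈ P) (hr : r ∈ P)
    {b a c s e u f t v c1 s1 e1 u1 f1 t1 v1 : K}
    (hg1 : Mt F x z m m' z' g b a c s e u f t v)
    (hr1 : Mt F x z m m' z' r 0 0 c1 s1 e1 u1 f1 t1 v1) :
    s * c1 = s1 * c + e1 * b := by
  have hrz : r z = z := by rw [hr1.gz, zero_smul, add_zero]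
  have hrm : r m = m + c1 • x := by rw [hr1.gm, zero_smul, add_zero]
  have hz : g (r z) = r (g z) := by rw [hrz, hg1.gz, map_add, map_smul, hrz, hr1.gx]
  have hm : g (r m) = r (g m) := by
    rw [hrm, hg1.gm]
    simp only [map_add, map_smul, hrm, hrz, hr1.gx, hg1.gx, hg1.gm]
    abel
  have h := (comm hθ hB hS hx hP hg hr hz hm).1
  rw [hr1.gm', hg1.gm'] at h
  simp only [map_add, map_smul, hg1.gx, hg1.gz, hg1.gm, hg1.gm', hr1.gx, hrz, hrm, hr1.gm'] at h
  have h2 := congrArg (fun v => F.H v x') h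
  simp only [F.addl, F.smull, hB.xx', hB.zx', hB.mx', hB.m'x'] at h2
  linear_combination -h2
-- END row rel1

-- BEGIN row szero
/-- The v1 body with the pigeonhole `pigt` on the type of hP.hC (for its b1; d = c - a b1 = c, since
a = 0 by `stwo`) in place of `pig`: two elements with different c and the same s. -/
theorem szero [Finite K] [Finite V] (hK : Nat.card K = q ^ 2)
    (hbar : ∀ a, F.bar a = a ^ q) {θ : K} (hθ : θ + F.bar θ = 1)
    (hB : Bs F x z m m' z' x') (hS : F.Ov S) (hx : S x) (hP : Pg F S P x z m q)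
    {g : V ≃ₗ[K] V} (hg : g ∈ P)
    {b a c s e u f t v : K} (hg1 : Mt F x z m m' z' g b a c s e u f t v) : s = 0 := by
  obtain ⟨b1, hC⟩ := hP.hC
  have hex : ∀ d : {d : K // ∃ g ∈ P, g z = z ∧ ∃ a c : K, g m = m + a • z + c • x ∧
      d = c - a * b1}, ∃ r ∈ P, ∃ s e u f t v : K, Mt F x z m m' z' r 0 0 d.1 s e u f t v := by
    rintro ⟨d, r, hr, hz, a', c', hm, rfl⟩
    have ha : a' = 0 := stwo hθ hB hS hx hP hr hz hm
    subst ha
    have hz0 : r z = z + (0 : K) • x := by rw [hz, zero_smul, add_zero]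
    obtain ⟨s', e', u', f', t', v', hM⟩ := mtex hB (hP.iso r hr) (hP.fx r hr) hz0 hm
    refine ⟨r, hr, s', e', u', f', t', v', ?_⟩
    show Mt F x z m m' z' r 0 0 (c' - 0 * b1) s' e' u' f' t' v'
    rw [zero_mul, sub_zero]
    exact hM
  choose r hr s' e' u' f' t' v' hM using hex
  obtain ⟨d, d', hdd, hss⟩ := pigt hK hbar hC s' (fun d => (hM d).hs)
  have hr0 : (r d')⁻¹ * r d ∈ P := P.mul_mem (P.inv_mem (hr d')) (hr d)
  have key : ∀ w, r d' (((r d')⁻¹ * r d) w) = r d w := fun w => (r d').apply_symm_apply (r d w)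
  have hrz : ∀ d, r d z = z := fun d => by rw [(hM d).gz, zero_smul, add_zero]
  have hz0 : ((r d')⁻¹ * r d) z = z + (0 : K) • x := by
    apply (r d').injective
    rw [key, hrz, zero_smul, add_zero, hrz]
  have hm0 : ((r d')⁻¹ * r d) m = m + (0 : K) • z + (d.1 - d'.1) • x := by
    apply (r d').injective
    rw [key, map_add, map_add, map_smul, map_smul, (hM d).gm, (hM d').gm, (hM d').gx, hrz]
    module
  obtain ⟨s0, e0, u0, f0, t0, v0, hM0⟩ :=
    mtex hB (hP.iso _ hr0) (hP.fx _ hr0) hz0 hm0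
  have k1 := key m'
  rw [hM0.gm', (hM d).gm'] at k1
  simp only [map_add, map_smul, (hM d').gm', (hM d').gm, (hM d').gx, hrz] at k1
  have k2 := congrArg (fun w => F.H w m') k1
  simp only [F.addl, F.smull, hB.mm', hB.m'm', hB.zm', hB.xm'] at k2
  have hs0 : s0 = 0 := by linear_combination k2 + hss
  subst hs0
  have hd0 : d.1 - d'.1 ≠ 0 := sub_ne_zero.mpr (fun h => hdd (Subtype.ext h))
  obtain ⟨he0, -⟩ := othree2 hθ hB hS hx (hP.iso _ hr0) (hP.pres _ hr0) hM0 hd0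
  have h5 := rel1 hθ hB hS hx hP hg hr0 hg1 hM0
  rw [he0, zero_mul, zero_mul, add_zero] at h5
  exact (mul_eq_zero.mp h5).resolve_right hd0
-- END row szero

-- BEGIN row rmat
/-- r z = z. `mtex` entries; a = 0 by `stwo`, s = 0 by `szero`. If c ≠ 0: `othree2`. If c = 0:
`ethree` gives r m' = m', r z' = z', so u = e = t = v = 0 (compare, `indep`). f = - bar e. -/
theorem rmat [Finite K] [Finite V] (hK : Nat.card K = q ^ 2)
    (hbar : ∀ a, F.bar a = a ^ q) {θ : K} (hθ : θ + F.bar θ = 1)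
    (hB : Bs F x z m m' z' x') (hS : F.Ov S) (hx : S x) (hP : Pg F S P x z m q)
    {r : V ≃ₗ[K] V} (hr : r ∈ P) (hz : r z = z) :
    ∃ c u t v : K, Mt F x z m m' z' r 0 0 c 0 0 u 0 t v ∧
      (c ≠ 0 → F.bar c * u + c * F.bar u ≠ 0) := by
  obtain ⟨a, c, hm⟩ := hP.fm r hr
  have hx' := hP.fx r hr
  have hi := hP.iso r hr
  have hz0 : r z = z + (0 : K) • x := by rw [hz, zero_smul, add_zero]
  obtain ⟨s, e, u, f, t, v, hM⟩ := mtex hB hi hx' hz0 hm
  have ha : a = 0 := stwo hθ hB hS hx hP hr hz hm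
  subst ha
  have hs : s = 0 := szero hK hbar hθ hB hS hx hP hr hM
  subst hs
  by_cases hc : c = 0
  · subst hc
    have hm0 : r m = m := by rw [hm, zero_smul, zero_smul, add_zero, add_zero]
    obtain ⟨h1, h2⟩ := ethree hθ hB hS hx hP hr hz hm0
    have h3 := hM.gm'
    rw [h1] at h3
    have h4 := hM.gz'
    rw [h2] at h4
    have he := congrArg (fun w => F.H w z') h3
    have hu := congrArg (fun w => F.H w x') h3
    have ht := congrArg (fun w => F.H w z') h4
    have hv := congrArg (fun w => F.H w x') h4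
    simp only [F.addl, F.subl, F.smull, hB.xx', hB.zx', hB.mx', hB.m'x', hB.xz', hB.zz', hB.mz',
      hB.m'z', hB.z'z', hB.z'x'] at he hu ht hv
    have he' : e = 0 := by linear_combination -he
    have hu' : u = 0 := by linear_combination -hu
    have ht' : t = 0 := by linear_combination -ht
    have hv' : v = 0 := by linear_combination -hv
    subst he' hu' ht' hv'
    have hf : f = 0 := by
      have := hM.hf
      simpa using this
    subst hf
    exact ⟨0, 0, 0, 0, hM, fun h => absurd rfl h⟩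
  · obtain ⟨he, hn⟩ := othree2 hθ hB hS hx hi (hP.pres r hr) hM hc
    subst he
    have hf : f = 0 := by
      have := hM.hf
      simpa using this
    subst hf
    exact ⟨c, u, t, v, hM, fun _ => hn⟩
-- END row rmat

-- BEGIN row rel2
/-- g and r commute on z and m, so by `comm` on z'; compare the coefficients of x in
r (g z') = g (r z'): - bar a u1 + f c1 = t1 b. -/
theorem rel2 [Finite V] {θ : K} (hθ : θ + F.bar θ = 1) (hB : Bs F x z m m' z' x')
    (hS : F.Ov S) (hx : S x) (hP : Pg F S P x z m q) {g r : V ≃ₗ[K] V} (hg : g ∈ P) (hr : r ∈ P)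
    {b a c s e u f t v c1 u1 t1 v1 : K}
    (hg1 : Mt F x z m m' z' g b a c s e u f t v)
    (hr1 : Mt F x z m m' z' r 0 0 c1 0 0 u1 0 t1 v1) :
    f * c1 - F.bar a * u1 = t1 * b := by
  have rz : r z = z := by rw [hr1.gz, zero_smul, add_zero]
  have rm : r m = m + c1 • x := by rw [hr1.gm, zero_smul, add_zero]
  have rm' : r m' = m' + u1 • x := by
    rw [hr1.gm', zero_smul, zero_smul, add_zero, add_zero]
  have rz' : r z' = z' + t1 • z + v1 • x := by
    rw [hr1.gz', map_zero, zero_smul, zero_smul, sub_zero, add_zero]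
  obtain ⟨-, h⟩ := comm hθ hB hS hx hP hg hr
    (by rw [rz, hg1.gz, map_add, map_smul, rz, hr1.gx])
    (by rw [rm, hg1.gm, map_add, map_add, map_add, map_smul, map_smul, map_smul, rz, rm, hr1.gx,
          hg1.gx, hg1.gm]
        abel)
  rw [rz', hg1.gz'] at h
  simp only [map_add, map_sub, map_smul, hg1.gx, hg1.gz, hg1.gz', hr1.gx, rz, rm, rm', rz'] at h
  have h2 := congrArg (fun w => F.H w x') h
  simp only [F.addl, F.subl, F.smull, hB.xx', hB.zx', hB.mx', hB.m'x', hB.z'x'] at h2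
  linear_combination -h2
-- END row rel2

-- BEGIN row muz
/-- The v1 body with `pigt` on the type of hP.hC (a = 0 by `stwo`) in place of `pig`. -/
theorem muz [Finite K] [Finite V] (hK : Nat.card K = q ^ 2)
    (hbar : ∀ a, F.bar a = a ^ q) {θ : K} (hθ : θ + F.bar θ = 1)
    (hB : Bs F x z m m' z' x') (hS : F.Ov S) (hx : S x) (hP : Pg F S P x z m q) :
    ∃ n : K, n + F.bar n ≠ 0 ∧ ∀ g ∈ P, ∀ b a c s e u f t v : K,
      Mt F x z m m' z' g b a c s e u f t v → f = F.bar a * n := by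
  obtain ⟨b1, hC⟩ := hP.hC
  have hex : ∀ c : {d : K // ∃ g ∈ P, g z = z ∧ ∃ a c : K,
      g m = m + a • z + c • x ∧ d = c - a * b1},
      ∃ r ∈ P, ∃ u t v : K, Mt F x z m m' z' r 0 0 c.1 0 0 u 0 t v := by
    rintro ⟨d, r, hr, hz, a, c, hm, hd⟩
    have ha : a = 0 := stwo hθ hB hS hx hP hr hz hm
    obtain ⟨c', u, t, v, hM, -⟩ := rmat hK hbar hθ hB hS hx hP hr hz
    have h1 := hM.gm
    rw [hm] at h1
    have h2 := congrArg (fun w => F.H w x') h1
    simp only [F.addl, F.smull, hB.xx', hB.zx', hB.mx'] at h2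
    have h3 : c' = d := by
      rw [hd, ha]
      linear_combination -h2
    subst h3
    exact ⟨r, hr, u, t, v, hM⟩
  choose r hr u t v hM using hex
  obtain ⟨c, c', hcc, htt⟩ := pigt hK hbar hC t (fun c => by
    have h1 := (hM c).ht
    rw [h1, map_zero]
    ring)
  have hr0 : (r c')⁻¹ * r c ∈ P := P.mul_mem (P.inv_mem (hr c')) (hr c)
  have key : ∀ w, r c' (((r c')⁻¹ * r c) w) = r c w := fun w => (r c').apply_symm_apply (r c w)
  have hrz : ∀ d, r d z = z := fun d => by rw [(hM d).gz, zero_smul, add_zero]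
  have hz0 : ((r c')⁻¹ * r c) z = z := by
    apply (r c').injective
    rw [key, hrz, hrz]
  obtain ⟨c0, u0, t0, v0, hM0, hn0⟩ := rmat hK hbar hθ hB hS hx hP hr0 hz0
  have k1 := key m
  rw [hM0.gm, (hM c).gm, map_add, map_add, map_smul, map_smul, (hM c').gm, (hM c').gx, hrz] at k1
  have k2 := congrArg (fun w => F.H w x') k1
  simp only [F.addl, F.smull, hB.xx', hB.zx', hB.mx'] at k2
  have hc0 : c0 = c.1 - c'.1 := by linear_combination k2
  have hc0' : c0 ≠ 0 := by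
    rw [hc0]
    exact sub_ne_zero.mpr (fun h => hcc (Subtype.ext h))
  have k3 := key z'
  rw [hM0.gz', (hM c).gz'] at k3
  simp only [map_add, map_sub, map_smul, (hM c').gz', (hM c').gx, (hM c').gm, (hM c').gm', hrz] at k3
  have k4 := congrArg (fun w => F.H w z') k3
  simp only [F.addl, F.subl, F.smull, hB.xz', hB.zz', hB.mz', hB.m'z', hB.z'z'] at k4
  have ht0 : t0 = 0 := by
    simp only [map_zero] at k4
    linear_combination k4 + htt
  have hnn := hn0 hc0'
  have hbc : F.bar c0 ≠ 0 := by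
    intro h
    apply hc0'
    have := F.bb c0
    rw [h, map_zero] at this
    exact this.symm
  refine ⟨u0 / c0, ?_, ?_⟩
  · intro h
    apply hnn
    rw [map_div₀] at h
    field_simp at h
    linear_combination h
  · intro g hg b a c s e u f t v hg1
    have h1 := rel2 hθ hB hS hx hP hg hr0 hg1 hM0
    rw [ht0] at h1
    field_simp
    linear_combination h1
-- END row muz

-- BEGIN row cmt
/-- s = 0 for both (hypothesis), e = - a bar n, e1 = - a1 bar n (from hf: f = - bar e). Let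
r = (h g)^{-1} (g h), in P; r z = z, so `rmat` gives its entries (c2, u2, t2). g (h m) =
h (g m) + c2 x gives c2 = a1 b - a b1; on m': u2 = e1 b - e b1 = - bar n c2; on z' (coefficient
of z): t + t1 + bar a1 a (n + bar n) = t + t1 + bar a a1 (n + bar n) + t2. -/
theorem cmt [Finite K] [Finite V] (hK : Nat.card K = q ^ 2)
    (hbar : ∀ a, F.bar a = a ^ q) {θ : K} (hθ : θ + F.bar θ = 1)
    (hB : Bs F x z m m' z' x') (hS : F.Ov S) (hx : S x) (hP : Pg F S P x z m q)
    {n : K} {g h : V ≃ₗ[K] V} (hg : g ∈ P) (hh : h ∈ P)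
    {b a c e u f t v b1 a1 c1 e1 u1 f1 t1 v1 : K}
    (hg1 : Mt F x z m m' z' g b a c 0 e u f t v)
    (hh1 : Mt F x z m m' z' h b1 a1 c1 0 e1 u1 f1 t1 v1)
    (hf : f = F.bar a * n) (hf1 : f1 = F.bar a1 * n) :
    ∃ r ∈ P, ∃ c2 u2 t2 v2 : K, Mt F x z m m' z' r 0 0 c2 0 0 u2 0 t2 v2 ∧
      c2 = a1 * b - a * b1 ∧ u2 = - F.bar n * c2 ∧
      t2 = (n + F.bar n) * (F.bar a1 * a - F.bar a * a1) := by
  have he : e = -(a * F.bar n) := by
    have h1 := hg1.hf
    rw [zero_mul, map_zero, hf] at h1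
    have h2 := congrArg F.bar h1
    rw [map_mul, map_sub, map_zero, F.bb, F.bb] at h2
    linear_combination h2
  have he1 : e1 = -(a1 * F.bar n) := by
    have h1 := hh1.hf
    rw [zero_mul, map_zero, hf1] at h1
    have h2 := congrArg F.bar h1
    rw [map_mul, map_sub, map_zero, F.bb, F.bb] at h2
    linear_combination h2
  have hE : ∀ y, h (g (((h * g)⁻¹ * (g * h)) y)) = g (h y) := by
    intro y
    have h1 : (h * g) (((h * g)⁻¹ * (g * h)) y) = (g * h) y := by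
      rw [← LinearEquiv.mul_apply, ← mul_assoc, mul_inv_cancel, one_mul]
    exact h1
  have hr : (h * g)⁻¹ * (g * h) ∈ P :=
    P.mul_mem (P.inv_mem (P.mul_mem hh hg)) (P.mul_mem hg hh)
  generalize (h * g)⁻¹ * (g * h) = r at hE hr
  have hz : r z = z := by
    apply g.injective
    apply h.injective
    rw [hE]
    simp only [hg1.gz, hh1.gz, map_add, map_smul, hg1.gx, hh1.gx]
    abel
  obtain ⟨c2, u2, t2, v2, hm, -⟩ := rmat hK hbar hθ hB hS hx hP hr hz
  have x'x : F.H x' x' = 0 := hB.x'x'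
  have hc2 : c2 = a1 * b - a * b1 := by
    have E := congrArg (fun y => F.H y x') (hE m)
    simp only [hm.gm, hg1.gm, hh1.gm, map_add, map_smul, hg1.gz, hh1.gz, hg1.gx, hh1.gx,
      F.addl, F.smull, hB.mx', hB.zx', hB.xx'] at E
    linear_combination E
  refine ⟨r, hr, c2, u2, t2, v2, hm, hc2, ?_, ?_⟩
  · have E := congrArg (fun y => F.H y x') (hE m')
    simp only [hm.gm', hg1.gm', hh1.gm', map_add, map_smul, hg1.gm, hh1.gm, hg1.gz, hh1.gz,
      hg1.gx, hh1.gx, F.addl, F.smull, hB.mx', hB.zx', hB.xx', hB.m'x'] at E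
    rw [hc2]
    rw [he, he1] at E
    linear_combination E
  · have E := congrArg (fun y => F.H y z') (hE z')
    simp only [hm.gz', hg1.gz', hh1.gz', map_add, map_sub, map_smul, hg1.gm', hh1.gm', hg1.gm,
      hh1.gm, hg1.gz, hh1.gz, hg1.gx, hh1.gx, F.addl, F.subl, F.smull, hB.mz', hB.zz', hB.xz',
      hB.m'z', hB.z'z', map_zero] at E
    rw [he, he1, hf, hf1] at E
    linear_combination E
-- END row cmt

-- BEGIN row caseAi
/-- As v1 with h0 from hP.hb: u = n c for all r; a1 b = a b1 for all g, h, so a = kap b with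
kap = a(h0) / b(h0), kap ≠ 0 since a(g0) ≠ 0 (b(g0) ≠ 0 then, or a b(h0) = a(h0) b(g0)). t2 = 0:
bar a1 a = bar a a1 for all g, h; with g = h0' (b ≠ 0, a ≠ 0): a1 / a is fixed by bar, so the
values a, hence the values b = a / kap, number at most q (`Ovo.card_fixed`), against hP.hB. -/
theorem caseAi [Finite K] [Finite V] (hK : Nat.card K = q ^ 2)
    (hbar : ∀ a, F.bar a = a ^ q) {θ : K} (hθ : θ + F.bar θ = 1) {ω : K} (hω : F.bar ω ≠ ω)
    (hB : Bs F x z m m' z' x') (hS : F.Ov S) (hx : S x) (hP : Pg F S P x z m q)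
    {n : K} (hn : n + F.bar n ≠ 0)
    (hf : ∀ g ∈ P, ∀ b a c s e u f t v : K,
      Mt F x z m m' z' g b a c s e u f t v → f = F.bar a * n)
    (ht : ∀ r ∈ P, ∀ c u t v : K, Mt F x z m m' z' r 0 0 c 0 0 u 0 t v → t = 0)
    {g0 : V ≃ₗ[K] V} (hg0 : g0 ∈ P) {b a c s e u f t v : K}
    (hg1 : Mt F x z m m' z' g0 b a c s e u f t v) (ha : a ≠ 0) : False := by
  have hE : ∀ β : K, (∃ g ∈ P, g z = z + β • x) → ∃ g ∈ P, ∃ a c e u f t v : K,
      Mt F x z m m' z' g β a c 0 e u f t v := by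
    rintro β ⟨g, hg, hz⟩
    obtain ⟨a, c, hm⟩ := hP.fm g hg
    obtain ⟨s, e, u, f, t, v, hM⟩ := mtex hB (hP.iso g hg) (hP.fx g hg) hz hm
    have hs : s = 0 := szero hK hbar hθ hB hS hx hP hg hM
    subst hs
    exact ⟨g, hg, a, c, e, u, f, t, v, hM⟩
  have hs0 : s = 0 := szero hK hbar hθ hB hS hx hP hg0 hg1
  subst hs0
  have hbar0 : ∀ y : K, F.bar y = 0 → y = 0 := by
    intro y hy
    have := F.bb y
    rw [hy, map_zero] at this
    exact this.symm
  have hf0 := hf g0 hg0 _ _ _ _ _ _ _ _ _ hg1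
  have hu : ∀ r ∈ P, ∀ c u t v : K, Mt F x z m m' z' r 0 0 c 0 0 u 0 t v → u = n * c := by
    intro r hr c' u' t' v' hM
    have h1 := rel2 hθ hB hS hx hP hg0 hr hg1 hM
    rw [ht r hr _ _ _ _ hM, hf0, zero_mul] at h1
    have h2 : F.bar a * (n * c' - u') = 0 := by linear_combination h1
    have h3 := (mul_eq_zero.mp h2).resolve_left (fun h => ha (hbar0 a h))
    linear_combination -h3
  have hc : ∀ g ∈ P, ∀ h ∈ P, ∀ b a c e u f t v b1 a1 c1 e1 u1 f1 t1 v1 : K,
      Mt F x z m m' z' g b a c 0 e u f t v → Mt F x z m m' z' h b1 a1 c1 0 e1 u1 f1 t1 v1 →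
      a1 * b - a * b1 = 0 ∧ F.bar a1 * a - F.bar a * a1 = 0 := by
    intro g hg h hh b a c e u f t v b1 a1 c1 e1 u1 f1 t1 v1 hM hM1
    obtain ⟨r, hr, c2, u2, t2, v2, hM2, hc2, hu2, ht2⟩ := cmt hK hbar hθ hB hS hx hP hg hh hM hM1
      (hf g hg _ _ _ _ _ _ _ _ _ hM) (hf h hh _ _ _ _ _ _ _ _ _ hM1)
    have h1 := hu r hr _ _ _ _ hM2
    have h2 := ht r hr _ _ _ _ hM2
    rw [hu2] at h1
    have h3 : (n + F.bar n) * c2 = 0 := by linear_combination -h1
    have h4 := (mul_eq_zero.mp h3).resolve_left hn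
    rw [h2] at ht2
    exact ⟨by rw [← hc2]; exact h4, (mul_eq_zero.mp ht2.symm).resolve_left hn⟩
  obtain ⟨h0', hh0', β, hβ, hz0'⟩ := hP.hb
  obtain ⟨h0, hh0, κ, c0, e0, u0, f0, t0, v0, hM0⟩ := hE β ⟨h0', hh0', hz0'⟩
  have hk := (hc g0 hg0 h0 hh0 _ _ _ _ _ _ _ _ _ _ _ _ _ _ _ _ hg1 hM0).1
  have hκ : κ ≠ 0 := by
    intro h
    rw [h] at hk
    have h1 : a * β = 0 := by linear_combination -hk
    exact (mul_ne_zero ha hβ) h1
  have hκb : F.bar κ ≠ 0 := fun h => hκ (hbar0 κ h)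
  have hβb : F.bar β ≠ 0 := fun h => hβ (hbar0 β h)
  have hfix : ∀ b : K, (∃ g ∈ P, g z = z + b • x) → (b / β) ^ q = b / β := by
    intro b' hb'
    obtain ⟨g, hg, a', c', e', u', f', t', v', hM⟩ := hE b' hb'
    obtain ⟨k1, k2⟩ := hc g hg h0 hh0 _ _ _ _ _ _ _ _ _ _ _ _ _ _ _ _ hM hM0
    have k3 := congrArg F.bar k1
    rw [map_sub, map_mul, map_mul, map_zero] at k3
    have k4 : F.bar κ * κ * (b' * F.bar β - F.bar b' * β) = 0 := by
      linear_combination F.bar κ * F.bar β * k1 - κ * β * k3 + β * F.bar β * k2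
    have k5 := (mul_eq_zero.mp k4).resolve_left (mul_ne_zero hκb hκ)
    rw [← hbar, map_div₀]
    field_simp
    linear_combination -k5
  have hle : Nat.card {b : K // ∃ g ∈ P, g z = z + b • x} ≤ Nat.card {a : K // a ^ q = a} :=
    Nat.card_le_card_of_injective (fun b => (⟨b.1 / β, hfix b.1 b.2⟩ : {a : K // a ^ q = a}))
      (fun b b' h => by
        have h1 : b.1 / β = b'.1 / β := congrArg Subtype.val h
        rw [div_left_inj' hβ] at h1
        exact Subtype.ext h1)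
  exact absurd (hle.trans (Ovo.card_fixed hK)) (not_le.mpr hP.hB)
-- END row caseAi

-- BEGIN row caseAii
private theorem caseAii_inv {F : Ovo.HF K V} {x : V} {g : V ≃ₗ[K] V} (hg : F.El x g) :
    F.El x g⁻¹ where
  isom := fun u v => by
    have h := hg.isom (g⁻¹ u) (g⁻¹ v)
    rw [← LinearEquiv.mul_apply, ← LinearEquiv.mul_apply, mul_inv_cancel] at h
    exact h.symm
  fix := by
    have h := congrArg (fun y => g⁻¹ y) hg.fix
    simp only [← LinearEquiv.mul_apply, inv_mul_cancel] at h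
    exact h.symm
  triv := fun u hu => by
    have e1 : g (g⁻¹ u) = u := by
      rw [← LinearEquiv.mul_apply, mul_inv_cancel]; rfl
    have h0 : F.H (g⁻¹ u) x = 0 := by
      have h := hg.isom (g⁻¹ u) x
      rw [e1, hg.fix, hu] at h
      exact h.symm
    obtain ⟨a, ha⟩ := hg.triv _ h0
    rw [e1] at ha
    refine ⟨-a, ?_⟩
    rw [neg_smul, ← sub_eq_add_neg, eq_sub_iff_add_eq]
    exact ha.symm

private theorem caseAii_el (hB : Bs F x z m m' z' x') {g : V ≃ₗ[K] V}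
    (hi : ∀ u v, F.H (g u) (g v) = F.H u v) {b c u v : K}
    (hg : Mt F x z m m' z' g b 0 c 0 0 u 0 0 v) : F.El x g where
  isom := hi
  fix := hg.gx
  triv := fun y hy => by
    obtain ⟨A, B, C, D, E, G, h1⟩ := hB.span y
    have x'x : F.H x' x = 1 := by rw [← F.symm x x', hB.xx', map_one]
    have hG : G = 0 := by
      rw [h1] at hy
      simp only [F.addl, F.smull, hB.xx, F.sw hB.xz, F.sw hB.xm, F.sw hB.xm', F.sw hB.xz', x'x]
        at hy
      linear_combination hy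
    rw [hG, zero_smul, add_zero] at h1
    refine ⟨B * b + C * c + D * u + E * v, ?_⟩
    rw [h1]
    simp only [map_add, map_smul, hg.gx, hg.gz, hg.gm, hg.gm', hg.gz', map_zero]
    module

/-- Every g in P has a = 0, s = 0, e = 0, f = 0. E = {g in P with g z' = z' + t z + v x, t = 0}
is a subgroup (t is additive) of elations, and |P| ≤ |E| q (t has trace zero, at most q values,
`Ovo.card_trace_zero`). By `Ovo.HF.card_G_lt` (n = 2, some z0 with S z0, H x z0 ≠ 0 from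
`Ovo.HF.exists_z`) |E| < q^3, so |P| < q^4 (hN). -/
theorem caseAii [Finite K] [Finite V] (hK : Nat.card K = q ^ 2)
    (hbar : ∀ a, F.bar a = a ^ q) (hV : Nat.card V = q ^ 12) {θ : K} (hθ : θ + F.bar θ = 1)
    (hB : Bs F x z m m' z' x') (hS : F.Ov S) (hx : S x) (hP : Pg F S P x z m q)
    (hN : q ^ 4 ≤ Nat.card P)
    (ha : ∀ g ∈ P, ∀ b a c s e u f t v : K,
      Mt F x z m m' z' g b a c s e u f t v → a = 0 ∧ s = 0 ∧ e = 0) : False := by
  classical
  have hq := Ovo.two_le_q hK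
  -- the matrix of an element of `P`
  have mat : ∀ g ∈ P, ∃ b c u t v : K, Mt F x z m m' z' g b 0 c 0 0 u 0 t v := by
    intro g hg
    obtain ⟨b, hz⟩ := hP.fz g hg
    obtain ⟨a, c, hm⟩ := hP.fm g hg
    obtain ⟨s, e, u, f, t, v, hM⟩ := mtex hB (hP.iso g hg) (hP.fx g hg) hz hm
    obtain ⟨h1, h2, h3⟩ := ha g hg _ _ _ _ _ _ _ _ _ hM
    subst h1 h2 h3
    have h4 : f = 0 := by
      have := hM.hf
      simpa using this
    subst h4
    exact ⟨b, c, u, t, v, hM⟩
  have hT : ∀ g, ∀ b c u t v : K, Mt F x z m m' z' g b 0 c 0 0 u 0 t v →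
      F.H (g z') z' = t := by
    intro g b c u t v hM
    rw [hM.gz', map_zero, zero_smul, zero_smul, sub_zero, add_zero, F.addl, F.addl, F.smull,
      F.smull, hB.z'z', hB.zz', hB.xz']
    ring
  have htr : ∀ g ∈ P, F.H (g z') z' + (F.H (g z') z') ^ q = 0 := by
    intro g hg
    obtain ⟨b, c, u, t, v, hM⟩ := mat g hg
    rw [hT g _ _ _ _ _ hM, ← hbar, hM.ht, map_zero, zero_mul, add_zero]
  have key : ∀ g ∈ P, ∀ h ∈ P, F.H (g z') z' = F.H (h z') z' → F.El x (h⁻¹ * g) := by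
    intro g hg h hh e
    have hk : h⁻¹ * g ∈ P := P.mul_mem (P.inv_mem hh) hg
    have h0 : h ((h⁻¹ * g) z') = g z' := by
      rw [← LinearEquiv.mul_apply, mul_inv_cancel_left]
    generalize h⁻¹ * g = k at hk h0 ⊢
    obtain ⟨b2, c2, u2, t2, v2, hM2⟩ := mat h hh
    obtain ⟨b3, c3, u3, t3, v3, hM3⟩ := mat k hk
    have h1 := congrArg (fun y => F.H y z') h0
    rw [e, hT h _ _ _ _ _ hM2, hM3.gz'] at h1
    simp only [map_add, map_sub, map_smul, hM2.gz, hM2.gz', hM2.gx, map_zero, zero_smul,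
      sub_zero, add_zero, F.addl, F.smull, hB.z'z', hB.zz', hB.xz'] at h1
    have h3 : t3 = 0 := by linear_combination h1
    subst h3
    exact caseAii_el hB (hP.iso k hk) hM3
  -- the group of the elations of `P`
  let G : Subgroup (V ≃ₗ[K] V) :=
    { carrier := {g | g ∈ P ∧ F.El x g}
      mul_mem' := fun {g h} hg hh => ⟨P.mul_mem hg.1 hh.1, hg.2.mul hh.2⟩
      one_mem' := ⟨P.one_mem, ⟨fun _ _ => rfl, rfl, fun u _ => ⟨0, by
        rw [zero_smul, add_zero]; rfl⟩⟩⟩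
      inv_mem' := fun {g} hg => ⟨P.inv_mem hg.1, caseAii_inv hg.2⟩ }
  have hG : ∀ g ∈ G, F.El x g := fun g hg => hg.2
  have hGS : ∀ g ∈ G, ∀ v, S v → S (g v) := fun g hg v hv => hP.pres g hg.1 v hv
  obtain ⟨z0, hz0, hxz0⟩ := Ovo.HF.exists_z hK hbar hS hx
  have hlt := Ovo.HF.card_G_lt hK hbar hS hx hz0 hxz0 G hG hGS (n := 2) le_rfl hV
  let T : P → {a : K // a + a ^ q = 0} := fun g => ⟨F.H ((g : V ≃ₗ[K] V) z') z', htr g g.2⟩
  have hch : ∀ a : {a : K // a + a ^ q = 0}, ∃ h : P, ∀ g : P, T g = a → T h = a := by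
    intro a
    by_cases hex : ∃ g : P, T g = a
    · obtain ⟨g, hg⟩ := hex
      exact ⟨g, fun _ _ => hg⟩
    · exact ⟨1, fun g hg => absurd ⟨g, hg⟩ hex⟩
  choose rep hrep using hch
  let φ : P → G × {a : K // a + a ^ q = 0} := fun g =>
    (⟨(rep (T g) : V ≃ₗ[K] V)⁻¹ * g, P.mul_mem (P.inv_mem (rep (T g)).2) g.2,
      key g g.2 (rep (T g)) (rep (T g)).2
        (congrArg Subtype.val (hrep (T g) g rfl)).symm⟩, T g)
  have hinj : Function.Injective φ := by
    intro g g' h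
    have h1 : T g = T g' := congrArg Prod.snd h
    have h2 : (rep (T g) : V ≃ₗ[K] V)⁻¹ * g = (rep (T g') : V ≃ₗ[K] V)⁻¹ * g' :=
      congrArg (fun p => ((p.1 : G) : V ≃ₗ[K] V)) h
    rw [h1] at h2
    exact Subtype.ext (mul_left_cancel h2)
  have h5 := Nat.card_le_card_of_injective φ hinj
  rw [Nat.card_prod] at h5
  have h6 := Ovo.card_trace_zero hK
  have h7 : Nat.card G * Nat.card {a : K // a + a ^ q = 0} ≤ Nat.card G * q :=
    Nat.mul_le_mul_left _ h6
  have h8 : Nat.card G * q < q ^ 3 * q := Nat.mul_lt_mul_of_pos_right hlt (by omega)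
  have h9 : q ^ 3 * q = q ^ 4 := by ring
  omega
-- END row caseAii

-- BEGIN row caseBo
/-- As v1; g with b ≠ 0 from hP.hb: t1 b = bar a (n c1 - u1) shows n c1 - u1 ≠ 0 and a ≠ 0. -/
theorem caseBo [Finite K] [Finite V] (hK : Nat.card K = q ^ 2)
    (hbar : ∀ a, F.bar a = a ^ q) {θ : K} (hθ : θ + F.bar θ = 1)
    (hB : Bs F x z m m' z' x') (hS : F.Ov S) (hx : S x) (hP : Pg F S P x z m q)
    {n : K}
    (hf : ∀ g ∈ P, ∀ b a c s e u f t v : K,
      Mt F x z m m' z' g b a c s e u f t v → f = F.bar a * n)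
    {r1 : V ≃ₗ[K] V} (hr1 : r1 ∈ P) {c1 u1 t1 v1 : K}
    (hr2 : Mt F x z m m' z' r1 0 0 c1 0 0 u1 0 t1 v1) (ht1 : t1 ≠ 0) :
    ∃ w : K, w ≠ 0 ∧ (∀ g ∈ P, ∀ b a c s e u f t v : K,
      Mt F x z m m' z' g b a c s e u f t v → b = w * F.bar a) ∧
      (∀ r ∈ P, ∀ c u t v : K, Mt F x z m m' z' r 0 0 c 0 0 u 0 t v → u = n * c - w * t) := by
  have key : ∀ g ∈ P, ∀ b a c s e u f t v : K,
      Mt F x z m m' z' g b a c s e u f t v → F.bar a * (n * c1 - u1) = t1 * b := by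
    intro g hg b a c s e u f t v hM
    have h1 := rel2 hθ hB hS hx hP hg hr1 hM hr2
    have h2 := hf g hg b a c s e u f t v hM
    rw [h2] at h1
    linear_combination h1
  obtain ⟨g0, hg0, b0, hb0, hz0⟩ := hP.hb
  obtain ⟨a0, c0, hm0⟩ := hP.fm g0 hg0
  obtain ⟨s0, e0, u0, f0, t0, v0, hM0⟩ := mtex hB (hP.iso g0 hg0) (hP.fx g0 hg0) hz0 hm0
  have h0 := key g0 hg0 _ _ _ _ _ _ _ _ _ hM0
  have htb : t1 * b0 ≠ 0 := mul_ne_zero ht1 hb0
  have hd : n * c1 - u1 ≠ 0 := by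
    intro h
    rw [h, mul_zero] at h0
    exact htb h0.symm
  have ha0 : F.bar a0 ≠ 0 := by
    intro h
    rw [h, zero_mul] at h0
    exact htb h0.symm
  refine ⟨(n * c1 - u1) / t1, div_ne_zero hd ht1, ?_, ?_⟩
  · intro g hg b a c s e u f t v hM
    have h1 := key g hg _ _ _ _ _ _ _ _ _ hM
    field_simp
    linear_combination -h1
  · intro r hr c u t v hM
    have h1 := rel2 hθ hB hS hx hP hg0 hr hM0 hM
    have h2 := hf g0 hg0 _ _ _ _ _ _ _ _ _ hM0
    rw [h2] at h1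
    have h3 : F.bar a0 * (t1 * (n * c - u) - (n * c1 - u1) * t) = 0 := by
      linear_combination t1 * h1 - t * h0
    have h4 := (mul_eq_zero.mp h3).resolve_left ha0
    field_simp
    linear_combination -h4
-- END row caseBo

-- BEGIN row caseB
/-- `caseBo`: b = w bar a on P, u = n c - w t on R. `cmt` for g, h: c2 = a1 b - a b1 = w S with
S = a1 bar a - a bar a1, u2 = - bar n c2, t2 = - (n + bar n) S. u2 = n c2 - w t2 reads
- bar n w S = n w S + w (n + bar n) S, so (1 + 1) (n + bar n) S = 0, S = 0 for all g, h in P. Take g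
with b ≠ 0 (hP.hb), so a ≠ 0: a1 / a is fixed by bar for all h, at most q values of a1 and so
of b1 = w bar a1 (`Ovo.card_fixed`), against hP.hB. -/
theorem caseB [Finite K] [Finite V] (hK : Nat.card K = q ^ 2)
    (hbar : ∀ a, F.bar a = a ^ q) (h2 : (1 + 1 : K) ≠ 0) {θ : K} (hθ : θ + F.bar θ = 1)
    (hB : Bs F x z m m' z' x') (hS : F.Ov S) (hx : S x) (hP : Pg F S P x z m q)
    {n : K} (hn : n + F.bar n ≠ 0)
    (hf : ∀ g ∈ P, ∀ b a c s e u f t v : K,
      Mt F x z m m' z' g b a c s e u f t v → f = F.bar a * n)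
    {r1 : V ≃ₗ[K] V} (hr1 : r1 ∈ P) {c1 u1 t1 v1 : K}
    (hr2 : Mt F x z m m' z' r1 0 0 c1 0 0 u1 0 t1 v1) (ht1 : t1 ≠ 0) : False := by
  obtain ⟨w, hw, hb, hu⟩ := caseBo hK hbar hθ hB hS hx hP hf hr1 hr2 ht1
  have hmt : ∀ g ∈ P, ∀ b : K, g z = z + b • x →
      ∃ a c e u f t v : K, Mt F x z m m' z' g b a c 0 e u f t v := by
    intro g hg b hz
    obtain ⟨a, c, hm⟩ := hP.fm g hg
    obtain ⟨s, e, u, f, t, v, hM⟩ := mtex hB (hP.iso g hg) (hP.fx g hg) hz hm
    have hs : s = 0 := szero hK hbar hθ hB hS hx hP hg hM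
    subst hs
    exact ⟨a, c, e, u, f, t, v, hM⟩
  have hSS : ∀ g ∈ P, ∀ h ∈ P, ∀ b a c e u f t v b' a' c' e' u' f' t' v' : K,
      Mt F x z m m' z' g b a c 0 e u f t v → Mt F x z m m' z' h b' a' c' 0 e' u' f' t' v' →
      a' * F.bar a = a * F.bar a' := by
    intro g hg h hh b a c e u f t v b' a' c' e' u' f' t' v' hM hM'
    obtain ⟨r, hr, c2, u2, t2, v2, hr3, hc2, hu2, ht2⟩ :=
      cmt hK hbar hθ hB hS hx hP hg hh hM hM' (hf g hg _ _ _ _ _ _ _ _ _ hM)
        (hf h hh _ _ _ _ _ _ _ _ _ hM')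
    have h3 := hu r hr _ _ _ _ hr3
    have hb1 := hb g hg _ _ _ _ _ _ _ _ _ hM
    have hb2 := hb h hh _ _ _ _ _ _ _ _ _ hM'
    rw [hb1, hb2] at hc2
    have h4 : (1 + 1) * ((n + F.bar n) * (w * (a' * F.bar a - a * F.bar a'))) = 0 := by
      rw [hu2, ht2, hc2] at h3
      linear_combination -h3
    have h5 : a' * F.bar a - a * F.bar a' = 0 := by
      rcases mul_eq_zero.1 h4 with h6 | h6
      · exact absurd h6 h2
      · rcases mul_eq_zero.1 h6 with h7 | h7
        · exact absurd h7 hn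
        · rcases mul_eq_zero.1 h7 with h8 | h8
          · exact absurd h8 hw
          · exact h8
    exact sub_eq_zero.1 h5
  obtain ⟨g0, hg0, b0, hb0, hgz0⟩ := hP.hb
  obtain ⟨a0, c0, e0, u0, f0, t0, v0, hM0⟩ := hmt g0 hg0 b0 hgz0
  have hb00 := hb g0 hg0 _ _ _ _ _ _ _ _ _ hM0
  have ha0 : a0 ≠ 0 := by
    intro h
    rw [h, map_zero, mul_zero] at hb00
    exact hb0 hb00
  have hba0 : F.bar a0 ≠ 0 := fun h => ha0 ((map_eq_zero F.bar).1 h)
  let fn : {b : K // ∃ g ∈ P, g z = z + b • x} → {a : K // a ^ q = a} := fun b =>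
    ⟨F.bar (b.1 / w) / a0, by
      obtain ⟨h, hh, hz⟩ := b.2
      obtain ⟨a, c, e, u, f, t, v, hM⟩ := hmt h hh b.1 hz
      have h3 := hSS g0 hg0 h hh _ _ _ _ _ _ _ _ _ _ _ _ _ _ _ _ hM0 hM
      have h4 := hb h hh _ _ _ _ _ _ _ _ _ hM
      have h5 : F.bar (b.1 / w) = a := by
        rw [h4, mul_div_cancel_left₀ _ hw, F.bb]
      rw [h5, ← hbar, map_div₀, div_eq_div_iff hba0 ha0]
      linear_combination -h3⟩
  have hfn : Function.Injective fn := by
    intro b b' h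
    have h3 : F.bar (b.1 / w) / a0 = F.bar (b'.1 / w) / a0 := congrArg Subtype.val h
    have h4 : F.bar (b.1 / w) = F.bar (b'.1 / w) := by
      rw [div_left_inj' ha0] at h3
      exact h3
    have h5 := F.bar.injective h4
    rw [div_left_inj' hw] at h5
    exact Subtype.ext h5
  have h6 := Nat.card_le_card_of_injective fn hfn
  have h7 := Ovo.card_fixed hK
  exact absurd hP.hB (not_lt.2 (h6.trans h7))
-- END row caseB

-- BEGIN row spn
private theorem spn_arith {q A s : ℕ} (hq : 2 ≤ q) (hA : q < A)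
    (h1 : s ≤ (q ^ 2 - 1) + (A - 1) * (q - 1)) (h2 : (q ^ 2 - 1) * (2 * A) ≤ q * s) : False := by
  obtain ⟨m, rfl⟩ := Nat.exists_eq_add_of_le hq
  obtain ⟨t, rfl⟩ := Nat.exists_eq_add_of_lt hA
  have e1 : (2 + m) ^ 2 - 1 = (m + 1) * (m + 3) := by
    have : (2 + m) ^ 2 = (m + 1) * (m + 3) + 1 := by ring
    omega
  have e2 : 2 + m + t + 1 - 1 = 2 + m + t := by omega
  have e3 : 2 + m - 1 = m + 1 := by omega
  rw [e1, e2, e3] at h1
  rw [e1] at h2
  have h3 : (m + 1) * (m + 3) * (2 * (2 + m + t + 1)) ≤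
      (2 + m) * ((m + 1) * (m + 3) + (2 + m + t) * (m + 1)) := h2.trans (Nat.mul_le_mul_left _ h1)
  have h4 : (m + 1) * ((m + 3) * (2 * (2 + m + t + 1))) ≤
      (m + 1) * ((2 + m) * ((m + 3) + (2 + m + t))) := by
    calc (m + 1) * ((m + 3) * (2 * (2 + m + t + 1))) =
        (m + 1) * (m + 3) * (2 * (2 + m + t + 1)) := by ring
      _ ≤ _ := h3
      _ = _ := by ring
  have h5 := Nat.le_of_mul_le_mul_left h4 (Nat.succ_pos m)
  nlinarith

/-- For a in K, a ≠ 0 let φ_a : A → {trace zero} (q elements, `trz`), a' ↦ a' bar a - a bar a', with kernel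
A_a = {a' in A | a' bar a fixed by bar}; |A_a| ≥ |A| / q, and |A_a| ≥ 2 |A| / q if φ_a is not onto.
Double count of the pairs (a, a'), a ≠ 0 in K, a' in A_a: a' = 0 gives q^2 - 1 pairs, every a' ≠ 0
gives the a in a' F_q, a ≠ 0: at most q - 1 (`Ovo.card_fixed`). So the sum over a ≠ 0 of |A_a| is at most
(q^2 - 1) + (|A| - 1)(q - 1) = (q - 1)(q + |A|). If no φ_a with a ≠ 0 in K is onto, the sum is at
least (q^2 - 1) 2 |A| / q, so q (q + |A|) ≥ 2 (q + 1) |A|, q^2 ≥ (q + 2) |A|, against q < |A|. So φ_a is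
onto for some a ≠ 0 in K. As |A_a| ≥ |A| / q > 1 there is a'' ≠ 0 in A_a, a'' = l a with l
fixed by bar (l = a'' / a = a'' bar a / (a bar a)), and φ_a'' = l φ_a is onto too. -/
theorem spn [Finite K] (F : Ovo.HF K V) (hK : Nat.card K = q ^ 2) (hbar : ∀ a, F.bar a = a ^ q)
    (A : AddSubgroup K) (hA : q < Nat.card A) :
    ∃ a ∈ A, ∀ σ : K, σ + F.bar σ = 0 → ∃ a' ∈ A, a' * F.bar a - a * F.bar a' = σ := by
  classical
  have hq := Ovo.two_le_q hK
  have i0 : Fintype K := Fintype.ofFinite K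
  let T : AddSubgroup K :=
    { carrier := {σ | σ + F.bar σ = 0}
      add_mem' := fun {a b} ha hb => by
        show a + b + F.bar (a + b) = 0
        have ha' : a + F.bar a = 0 := ha
        have hb' : b + F.bar b = 0 := hb
        rw [map_add]
        linear_combination ha' + hb'
      zero_mem' := by
        show (0 : K) + F.bar 0 = 0
        rw [map_zero, add_zero]
      neg_mem' := fun {a} ha => by
        show -a + F.bar (-a) = 0
        have ha' : a + F.bar a = 0 := ha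
        rw [map_neg]
        linear_combination -ha' }
  have hT : Nat.card T = q := trz (F := F) hK hbar
  let φ : K → (A →+ T) := fun a => AddMonoidHom.mk' (fun a' => (⟨a'.1 * F.bar a - a * F.bar a'.1, by
      show a'.1 * F.bar a - a * F.bar a'.1 + F.bar (a'.1 * F.bar a - a * F.bar a'.1) = 0
      rw [map_sub, map_mul, map_mul, F.bb, F.bb]
      ring⟩ : T)) (fun u v => Subtype.ext (by
      show (u.1 + v.1) * F.bar a - a * F.bar (u.1 + v.1) =
        u.1 * F.bar a - a * F.bar u.1 + (v.1 * F.bar a - a * F.bar v.1)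
      rw [map_add]
      ring))
  have hφ : ∀ a (a' : A), ((φ a a' : T) : K) = a'.1 * F.bar a - a * F.bar a'.1 := fun _ _ => rfl
  have hcard : ∀ a, Nat.card (φ a).ker * Nat.card (φ a).range = Nat.card A := by
    intro a
    rw [← AddSubgroup.card_mul_index (φ a).ker, AddSubgroup.index_ker]
  -- the double count
  have hbarl : ∀ l : K, F.bar l = l ↔ l ^ q = l := fun l => by rw [hbar]
  let AF : Finset K := Finset.univ.filter (· ∈ A)
  have hAF : AF.card = Nat.card A := by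
    rw [Nat.card_eq_fintype_card, Fintype.card_subtype]
  let R : K → K → Prop := fun a a' => a' * F.bar a - a * F.bar a' = 0
  have hker : ∀ a, (AF.filter (R a)).card = Nat.card (φ a).ker := by
    intro a
    have e : (φ a).ker ≃ {a' : K // a' ∈ AF.filter (R a)} :=
      { toFun := fun u => ⟨u.1.1, Finset.mem_filter.2 ⟨Finset.mem_filter.2 ⟨Finset.mem_univ _, u.1.2⟩,
          congrArg Subtype.val ((AddMonoidHom.mem_ker).1 u.2)⟩⟩
        invFun := fun u => ⟨⟨u.1, (Finset.mem_filter.1 (Finset.mem_filter.1 u.2).1).2⟩,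
          (AddMonoidHom.mem_ker).2 (Subtype.ext (Finset.mem_filter.1 u.2).2)⟩
        left_inv := fun u => rfl
        right_inv := fun u => rfl }
    rw [Nat.card_congr e, Nat.card_eq_fintype_card, Fintype.card_coe]
  have hS : (Finset.univ.erase (0 : K)).card = q ^ 2 - 1 := by
    rw [Finset.card_erase_of_mem (Finset.mem_univ _), Finset.card_univ, ← Nat.card_eq_fintype_card,
      hK]
  have hbelow : ∀ a' : K, a' ≠ 0 →
      ((Finset.univ.erase (0 : K)).filter fun a => R a a').card ≤ q - 1 := by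
    intro a' ha'
    have h1 : ((Finset.univ.erase (0 : K)).filter fun a => R a a').card ≤
        ((Finset.univ.filter fun l : K => l ^ q = l).erase 0).card := by
      refine Finset.card_le_card_of_injOn (fun a => a / a') ?_ ?_
      · intro a ha
        have ha1 := Finset.mem_filter.1 ha
        have ha0 : a ≠ 0 := Finset.ne_of_mem_erase ha1.1
        have h2 : a' * F.bar a - a * F.bar a' = 0 := ha1.2
        have hba' : F.bar a' ≠ 0 := by
          intro h0
          apply ha'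
          rw [← F.bb a', h0, map_zero]
        refine Finset.mem_coe.2 (Finset.mem_erase.2 ⟨div_ne_zero ha0 ha', Finset.mem_filter.2
          ⟨Finset.mem_univ _, (hbarl _).1 ?_⟩⟩)
        rw [map_div₀, div_eq_div_iff hba' ha']
        linear_combination h2
      · intro a _ b _ hab
        exact (div_left_inj' ha').1 hab
    refine h1.trans ?_
    rw [Finset.card_erase_of_mem (Finset.mem_filter.2 ⟨Finset.mem_univ _, by
      rw [zero_pow]; omega⟩)]
    have h3 : (Finset.univ.filter fun l : K => l ^ q = l).card ≤ q := by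
      have h4 := Ovo.card_fixed hK
      rwa [Nat.card_eq_fintype_card, Fintype.card_subtype] at h4
    omega
  have hsum : ∑ a ∈ Finset.univ.erase (0 : K), (AF.filter (R a)).card ≤
      (q ^ 2 - 1) + (Nat.card A - 1) * (q - 1) := by
    have hcom : ∑ a ∈ Finset.univ.erase (0 : K), (AF.filter (R a)).card =
        ∑ a' ∈ AF, ((Finset.univ.erase (0 : K)).filter fun a => R a a').card :=
      Finset.sum_card_bipartiteAbove_eq_sum_card_bipartiteBelow R
    rw [hcom]
    have h0 : (0 : K) ∈ AF := Finset.mem_filter.2 ⟨Finset.mem_univ _, A.zero_mem⟩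
    rw [← Finset.add_sum_erase AF _ h0]
    refine Nat.add_le_add ?_ ?_
    · exact (Finset.card_filter_le _ _).trans hS.le
    · refine (Finset.sum_le_card_nsmul _ _ (q - 1) fun a' ha' =>
        hbelow a' (Finset.ne_of_mem_erase ha')).trans ?_
      rw [Finset.card_erase_of_mem h0, hAF, smul_eq_mul]
  have hex : ∃ a : K, a ≠ 0 ∧ Function.Surjective (φ a) := by
    by_contra hcon
    push Not at hcon
    have h1 : ∀ a ∈ Finset.univ.erase (0 : K), 2 * Nat.card A ≤ q * (AF.filter (R a)).card := by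
      intro a ha
      have h2 := hcon a (Finset.ne_of_mem_erase ha)
      have h3 : (φ a).range ≠ ⊤ := fun h => h2 (AddMonoidHom.range_eq_top.1 h)
      have h4 : Nat.card (φ a).range * (φ a).range.index = q := by
        rw [AddSubgroup.card_mul_index, hT]
      have h5 : (φ a).range.index ≠ 1 := fun h => h3 (AddSubgroup.index_eq_one.1 h)
      have h6 : (φ a).range.index ≠ 0 := by
        intro h
        rw [h, mul_zero] at h4
        omega
      have h7 : 2 * Nat.card (φ a).range ≤ q := by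
        rw [← h4, mul_comm]
        exact Nat.mul_le_mul_left _ (by omega)
      rw [hker, ← hcard a]
      calc 2 * (Nat.card (φ a).ker * Nat.card (φ a).range) =
          (2 * Nat.card (φ a).range) * Nat.card (φ a).ker := by ring
        _ ≤ q * Nat.card (φ a).ker := Nat.mul_le_mul_right _ h7
    have h2 := Finset.card_nsmul_le_sum _ _ _ h1
    rw [hS, smul_eq_mul, ← Finset.mul_sum] at h2
    exact spn_arith hq hA hsum h2
  obtain ⟨a, ha, hsur⟩ := hex
  have hk : 1 < Nat.card (φ a).ker := by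
    have h1 := hcard a
    rw [AddMonoidHom.range_eq_top.2 hsur, Nat.card_congr (AddSubgroup.topEquiv (G := T)).toEquiv, hT] at h1
    by_contra h2
    have h3 : Nat.card (φ a).ker * q ≤ 1 * q := Nat.mul_le_mul_right _ (by omega)
    omega
  have i1 : Nontrivial (φ a).ker := Finite.one_lt_card_iff_nontrivial.1 hk
  obtain ⟨⟨⟨b, hbA⟩, hb⟩, hb0⟩ := exists_ne (0 : (φ a).ker)
  have hbne : b ≠ 0 := fun h => hb0 (Subtype.ext (Subtype.ext h))
  have hb1 : b * F.bar a - a * F.bar b = 0 := congrArg Subtype.val ((AddMonoidHom.mem_ker).1 hb)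
  have hba : F.bar a ≠ 0 := by
    intro h0
    apply ha
    rw [← F.bb a, h0, map_zero]
  refine ⟨b, hbA, fun σ hσ => ?_⟩
  obtain ⟨l, hl⟩ : ∃ l, l = b / a := ⟨_, rfl⟩
  have hl0 : l ≠ 0 := by
    rw [hl]
    exact div_ne_zero hbne ha
  have hbl : b = l * a := by
    rw [hl, div_mul_cancel₀ _ ha]
  have hll : F.bar l = l := by
    rw [hl, map_div₀, div_eq_div_iff hba ha]
    linear_combination -hb1
  have hσ' : σ / l + F.bar (σ / l) = 0 := by
    rw [map_div₀, hll, ← add_div, hσ, zero_div]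
  obtain ⟨⟨a', ha'⟩, h⟩ := hsur ⟨σ / l, hσ'⟩
  have h1 : a' * F.bar a - a * F.bar a' = σ / l := congrArg Subtype.val h
  refine ⟨a', ha', ?_⟩
  rw [hbl, map_mul, hll]
  have h2 : a' * (l * F.bar a) - l * a * F.bar a' = l * (a' * F.bar a - a * F.bar a') := by ring
  rw [h2, h1, mul_div_cancel₀ _ hl0]
-- END row spn

-- BEGIN row caseBr
/-- A = {a(g) : g in P} (entries a of `mtex`) is an additive subgroup of K (a(g h) = a(g) + a(h)),
with more than q elements since b = w bar a takes more than q values (hP.hB). `spn`: a = a(g), and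
a' = a(h) with a' bar a - a bar a' = σ. `cmt` for g, h: c2 = a' b - a b' = w σ, u2 = - bar n c2,
t2 = - (n + bar n) σ. -/
theorem caseBr [Finite K] [Finite V] (hK : Nat.card K = q ^ 2)
    (hbar : ∀ a, F.bar a = a ^ q) {θ : K} (hθ : θ + F.bar θ = 1)
    (hB : Bs F x z m m' z' x') (hS : F.Ov S) (hx : S x) (hP : Pg F S P x z m q)
    {n : K}
    (hf : ∀ g ∈ P, ∀ b a c s e u f t v : K,
      Mt F x z m m' z' g b a c s e u f t v → f = F.bar a * n)
    {w : K} (hw : w ≠ 0) (hb : ∀ g ∈ P, ∀ b a c s e u f t v : K,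
      Mt F x z m m' z' g b a c s e u f t v → b = w * F.bar a)
    {σ : K} (hσ : σ + F.bar σ = 0) :
    ∃ r ∈ P, ∃ v2 : K, Mt F x z m m' z' r 0 0 (w * σ) 0 0 (- F.bar n * (w * σ)) 0
      (- (n + F.bar n) * σ) v2 := by
  have hgx : ∀ g ∈ P, ∀ b : K, g (b • x) = b • x := fun g hg b => by rw [map_smul, hP.fx g hg]
  let A : AddSubgroup K :=
    { carrier := {a | ∃ g ∈ P, g z = z + (w * F.bar a) • x}
      add_mem' := by
        rintro a a' ⟨g, hg, hgz⟩ ⟨h, hh, hhz⟩
        refine ⟨g * h, P.mul_mem hg hh, ?_⟩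
        have h1 : (g * h) z = g (h z) := rfl
        rw [h1, hhz, map_add, hgz, hgx g hg, map_add, mul_add, add_smul, add_assoc]
      zero_mem' := by
        refine ⟨1, P.one_mem, ?_⟩
        have h1 : (1 : V ≃ₗ[K] V) z = z := rfl
        rw [h1, map_zero, mul_zero, zero_smul, add_zero]
      neg_mem' := by
        rintro a ⟨g, hg, hgz⟩
        refine ⟨g⁻¹, P.inv_mem hg, ?_⟩
        have h1 : ∀ v, g ((g⁻¹ : V ≃ₗ[K] V) v) = v := fun v => LinearEquiv.apply_symm_apply g v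
        apply g.injective
        rw [h1, map_add, hgz, hgx g hg, map_neg, mul_neg, neg_smul, add_assoc, add_neg_cancel,
          add_zero] }
  have hwb : ∀ b : K, w * F.bar (F.bar (w⁻¹ * b)) = b := by
    intro b
    rw [F.bb, ← mul_assoc, mul_inv_cancel₀ hw, one_mul]
  have hcard : q < Nat.card A := by
    refine lt_of_lt_of_le hP.hB (Nat.card_le_card_of_injective
      (fun b : {b : K // ∃ g ∈ P, g z = z + b • x} => (⟨F.bar (w⁻¹ * b), ?_⟩ : A)) ?_)
    · obtain ⟨g, hg, hgz⟩ := b.2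
      exact ⟨g, hg, by rw [hwb]; exact hgz⟩
    · intro b b' hbb
      have h1 : F.bar (w⁻¹ * b) = F.bar (w⁻¹ * b') := congrArg Subtype.val hbb
      apply Subtype.ext
      rw [← hwb b, ← hwb b', h1]
  obtain ⟨a, ⟨g, hg, hgz⟩, hspn⟩ := spn F hK hbar A hcard
  obtain ⟨a1, ⟨h, hh, hhz⟩, ha1⟩ := hspn σ hσ
  obtain ⟨ag, cg, hgm⟩ := hP.fm g hg
  obtain ⟨ah, ch, hhm⟩ := hP.fm h hh
  obtain ⟨sg, eg, ug, fg, tg, vg, Mg⟩ := mtex hB (hP.iso g hg) (hP.fx g hg) hgz hgm
  obtain ⟨sh, eh, uh, fh, th, vh, Mh⟩ := mtex hB (hP.iso h hh) (hP.fx h hh) hhz hhm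
  have hag : ag = a := by
    have h2 := mul_left_cancel₀ hw (hb g hg _ _ _ _ _ _ _ _ _ Mg)
    rw [← F.bb ag, ← h2, F.bb]
  have hah : ah = a1 := by
    have h2 := mul_left_cancel₀ hw (hb h hh _ _ _ _ _ _ _ _ _ Mh)
    rw [← F.bb ah, ← h2, F.bb]
  have hsg := szero hK hbar hθ hB hS hx hP hg Mg
  have hsh := szero hK hbar hθ hB hS hx hP hh Mh
  rw [hag, hsg] at Mg
  rw [hah, hsh] at Mh
  obtain ⟨r, hr, c2, u2, t2, v2, Mr, e1, e2, e3⟩ := cmt hK hbar hθ hB hS hx hP hg hh Mg Mh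
    (hf g hg _ _ _ _ _ _ _ _ _ Mg) (hf h hh _ _ _ _ _ _ _ _ _ Mh)
  have q1 : c2 = w * σ := by rw [e1, ← ha1]; ring
  have q2 : u2 = - F.bar n * (w * σ) := by rw [e2, q1]
  have q3 : t2 = - (n + F.bar n) * σ := by rw [e3, ← ha1]; ring
  rw [q2, q3, q1] at Mr
  exact ⟨r, hr, v2, Mr⟩
-- END row caseBr

-- BEGIN row caseBe
/-- The body of v1 `caseB` (in characteristic 2) with one change: r2 in P with r2 z = z and
c = w ω, ω not fixed by bar, exists because hP.hC gives more than q values d = c (a = 0 by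
`stwo`), and at most q of the c / w are fixed by bar (`Ovo.card_fixed`). `caseBo`, `caseBr` as there. -/
theorem caseBe [Finite K] [Finite V] (hK : Nat.card K = q ^ 2)
    (hbar : ∀ a, F.bar a = a ^ q) (h2 : (1 + 1 : K) = 0) {θ : K} (hθ : θ + F.bar θ = 1)
    (hB : Bs F x z m m' z' x') (hS : F.Ov S) (hx : S x) (hP : Pg F S P x z m q)
    {n : K} (hn : n + F.bar n ≠ 0)
    (hf : ∀ g ∈ P, ∀ b a c s e u f t v : K,
      Mt F x z m m' z' g b a c s e u f t v → f = F.bar a * n)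
    {r1 : V ≃ₗ[K] V} (hr1 : r1 ∈ P) {c1 u1 t1 v1 : K}
    (hr2 : Mt F x z m m' z' r1 0 0 c1 0 0 u1 0 t1 v1) (ht1 : t1 ≠ 0) : False := by
  obtain ⟨w, hw, hb, hu⟩ := caseBo hK hbar hθ hB hS hx hP hf hr1 hr2 ht1
  obtain ⟨g, hg, hgz, c2, u2, t2, v2', hm2, hω⟩ : ∃ g ∈ P, g z = z ∧ ∃ c2 u2 t2 v2 : K,
      Mt F x z m m' z' g 0 0 c2 0 0 u2 0 t2 v2 ∧ F.bar (c2 / w) ≠ c2 / w := by
    by_contra hcon
    push Not at hcon
    obtain ⟨b1, hC⟩ := hP.hC
    have hd : ∀ d : {d : K // ∃ g ∈ P, g z = z ∧ ∃ a c : K,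
        g m = m + a • z + c • x ∧ d = c - a * b1}, F.bar (d.1 / w) = d.1 / w := by
      rintro ⟨d, g, hg, hgz, a, c, hm, hd⟩
      have ha : a = 0 := stwo hθ hB hS hx hP hg hgz hm
      obtain ⟨c2, u2, t2, v2, hM, -⟩ := rmat hK hbar hθ hB hS hx hP hg hgz
      have E := congrArg (fun y => F.H y x') (hM.gm.symm.trans hm)
      simp only [F.addl, F.smull, hB.mx', hB.zx', hB.xx'] at E
      have hc : c2 = d := by
        rw [hd, ha]
        linear_combination E
      have h1 := hcon g hg hgz c2 u2 t2 v2 hM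
      rw [hc] at h1
      exact h1
    have h1 : Nat.card {d : K // ∃ g ∈ P, g z = z ∧ ∃ a c : K,
        g m = m + a • z + c • x ∧ d = c - a * b1} ≤ Nat.card {a : K // a ^ q = a} := by
      refine Nat.card_le_card_of_injective (fun d => ⟨d.1 / w, by rw [← hbar]; exact hd d⟩) ?_
      intro d d' h
      have h3 : d.1 / w = d'.1 / w := congrArg Subtype.val h
      exact Subtype.ext ((div_left_inj' hw).1 h3)
    exact absurd (lt_of_lt_of_le hC (h1.trans (Ovo.card_fixed hK))) (lt_irrefl _)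
  obtain ⟨ω, hωe⟩ : ∃ ω, ω = c2 / w := ⟨_, rfl⟩
  rw [← hωe] at hω
  have hc2 : c2 = w * ω := by
    rw [hωe]
    field_simp
  have ht2 : F.bar t2 = t2 := by
    have h3 := hm2.ht
    rw [map_zero] at h3
    linear_combination h3 - t2 * h2
  have hN : F.bar (n + F.bar n) = n + F.bar n := by
    rw [map_add, F.bb]
    ring
  have hA : F.bar (ω * F.bar ω + (ω + F.bar ω) * (t2 / (n + F.bar n))) =
      ω * F.bar ω + (ω + F.bar ω) * (t2 / (n + F.bar n)) := by
    rw [map_add, map_mul, map_mul, map_div₀, hN, ht2, map_add, F.bb]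
    ring
  obtain ⟨σ, hσ, hσσ⟩ := sqr h2 hA
  have hσ1 : σ + F.bar σ = 0 := by
    rw [hσ]
    linear_combination σ * h2
  obtain ⟨r3, hr3, v3, hm3⟩ := caseBr hK hbar hθ hB hS hx hP hf hw hb hσ1
  have hz3 : (r3 * g) z = z := by
    rw [LinearEquiv.mul_apply, hgz, hm3.gz, zero_smul, add_zero]
  obtain ⟨c4, u4, t4, v4, hm4, h4⟩ := rmat hK hbar hθ hB hS hx hP (P.mul_mem hr3 hg) hz3
  have hc4 : c4 = w * (σ + ω) := by
    have E := congrArg (fun y => F.H y x') (show (r3 * g) m = r3 (g m) from rfl)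
    simp only [hm4.gm, hm2.gm, map_add, map_smul, hm3.gm, hm3.gz, hm3.gx, F.addl, F.smull,
      hB.mx', hB.zx', hB.xx'] at E
    linear_combination E + hc2
  have ht4 : t4 = -(n + F.bar n) * σ + t2 := by
    have E := congrArg (fun y => F.H y z') (show (r3 * g) z' = r3 (g z') from rfl)
    simp only [hm4.gz', hm2.gz', map_add, map_sub, map_smul, hm3.gz', hm3.gm', hm3.gm, hm3.gz,
      hm3.gx, F.addl, F.subl, F.smull, hB.mz', hB.zz', hB.xz', hB.m'z', hB.z'z', map_zero] at E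
    linear_combination E
  have hu4 := hu (r3 * g) (P.mul_mem hr3 hg) _ _ _ _ hm4
  have hc4n : c4 ≠ 0 := by
    rw [hc4]
    refine mul_ne_zero hw fun h => hω ?_
    have h3 : ω = -σ := by linear_combination h
    rw [h3, map_neg, hσ]
  have hs : (n + F.bar n) * (σ * σ) = (n + F.bar n) * (ω * F.bar ω) + (ω + F.bar ω) * t2 := by
    rw [hσσ]
    field_simp
  apply h4 hc4n
  rw [hu4, hc4, ht4]
  simp only [map_mul, map_sub, map_add, map_neg, F.bb, hσ, ht2]
  linear_combination (w * F.bar w) * hs + (w * F.bar w * ((n + F.bar n) * (ω * F.bar ω) +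
    (n + F.bar n) * σ * (ω + F.bar ω) + (n + F.bar n) * (σ * σ) - σ * t2)) * h2
-- END row caseBe

-- BEGIN row core
/-- As v1: theta from `Ovo.exists_theta`, n from `muz`; cases `caseAi`, `caseAii`, `caseB`, `caseBe`. -/
theorem core [Finite K] [Finite V] (hK : Nat.card K = q ^ 2)
    (hbar : ∀ a, F.bar a = a ^ q) (hV : Nat.card V = q ^ 12)
    (hB : Bs F x z m m' z' x') (hS : F.Ov S) (hx : S x)
    (hP : Pg F S P x z m q) (hN : q ^ 4 ≤ Nat.card P) : False := by
  obtain ⟨θ, hθ⟩ := Ovo.exists_theta hK F.bar hbar F.bb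
  obtain ⟨ω, hω⟩ := nebar (F := F) hK hbar
  obtain ⟨n, hn, hf⟩ := muz hK hbar hθ hB hS hx hP
  by_cases ht : ∀ r ∈ P, ∀ c u t v : K, Mt F x z m m' z' r 0 0 c 0 0 u 0 t v → t = 0
  · by_cases ha : ∃ g0 ∈ P, ∃ b a c s e u f t v : K, Mt F x z m m' z' g0 b a c s e u f t v ∧ a ≠ 0
    · obtain ⟨g0, hg0, b, a, c, s, e, u, f, t, v, hg1, ha⟩ := ha
      exact caseAi hK hbar hθ hω hB hS hx hP hn hf ht hg0 hg1 ha
    · push Not at ha
      refine caseAii hK hbar hV hθ hB hS hx hP hN ?_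
      intro g hg b a c s e u f t v hg1
      have h1 : a = 0 := ha g hg b a c s e u f t v hg1
      have h2 : s = 0 := szero hK hbar hθ hB hS hx hP hg hg1
      have h3 := hf g hg b a c s e u f t v hg1
      have h4 := hg1.hf
      refine ⟨h1, h2, ?_⟩
      rw [h3, h1, h2, map_zero, zero_mul, zero_mul, map_zero, zero_sub, eq_comm, neg_eq_zero] at h4
      have h5 := F.bb e
      rw [h4, map_zero] at h5
      exact h5.symm
  · push Not at ht
    obtain ⟨r1, hr1, c1, u1, t1, v1, hr2, ht1⟩ := ht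
    by_cases h2 : (1 + 1 : K) = 0
    · exact caseBe hK hbar h2 hθ hB hS hx hP hn hf hr1 hr2 ht1
    · exact caseB hK hbar h2 hθ hB hS hx hP hn hf hr1 hr2 ht1
-- END row core

-- BEGIN row hcex
/-- Suppose c = a b1 for all g in P with g z = z. If all those a are 0 so are the c, against hc0.
So some r has a ≠ 0, c = a b1. With g from hb (b ≠ 0), r' = g r g^{-1} has r' z = z,
r' m = m + a z + (c + a b) x, so c + a b = a b1 and a b = 0. Contradiction. -/
theorem hcex (fx : ∀ g ∈ P, g x = x) (fz : ∀ g ∈ P, ∃ b : K, g z = z + b • x)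
    (fm : ∀ g ∈ P, ∃ a c : K, g m = m + a • z + c • x)
    (hlx : LinearIndependent K ![x, z, m])
    (hb : ∃ g ∈ P, ∃ b : K, b ≠ 0 ∧ g z = z + b • x)
    (hc0 : ∃ g ∈ P, g z = z ∧ ∃ a c : K, g m = m + a • z + c • x ∧ c ≠ 0) (b1 : K) :
    ∃ g ∈ P, g z = z ∧ ∃ a c : K, g m = m + a • z + c • x ∧ c - a * b1 ≠ 0 := by
  by_contra hcon
  push Not at hcon
  obtain ⟨g0, hg0, hz0, a0, c0, hm0, hc1⟩ := hc0
  obtain ⟨h, hh, b, hb0, hz⟩ := hb
  obtain ⟨a, c, hm⟩ := fm h hh
  have hx := fx h hh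
  have gx := fx g0 hg0
  have e1 := hcon g0 hg0 hz0 a0 c0 hm0
  have iz : (h⁻¹ : V ≃ₗ[K] V) z = z - b • x := by
    apply h.injective
    change h (h.symm z) = _
    rw [LinearEquiv.apply_symm_apply, map_sub, map_smul, hz, hx]
    abel
  have im : (h⁻¹ : V ≃ₗ[K] V) m = m - a • z + (a * b - c) • x := by
    apply h.injective
    change h (h.symm m) = _
    rw [LinearEquiv.apply_symm_apply, map_add, map_sub, map_smul, map_smul, hm, hz, hx, smul_add,
      smul_smul, sub_smul]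
    abel
  have e2 := hcon (h * g0 * h⁻¹) (P.mul_mem (P.mul_mem hh hg0) (P.inv_mem hh)) (by
      change h (g0 ((h⁻¹ : V ≃ₗ[K] V) z)) = z
      rw [iz, map_sub, map_smul, hz0, gx, map_sub, map_smul, hz, hx]
      abel) a0 (c0 + a0 * b) (by
      change h (g0 ((h⁻¹ : V ≃ₗ[K] V) m)) = _
      rw [im, map_add, map_sub, map_smul, map_smul, hm0, hz0, gx]
      simp only [map_add, map_sub, map_smul, hm, hz, hx, smul_add, smul_smul, sub_smul, add_smul]
      abel)
  have e3 : a0 * b = 0 := by linear_combination e2 - e1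
  rcases mul_eq_zero.1 e3 with h0 | h0
  · apply hc1
    rw [h0] at e1
    linear_combination e1
  · exact hb0 h0
-- END row hcex

-- BEGIN row fib
/-- General count. f maps the orbit {g y0} to a type with at most N values, and f (g y) depends
only on g and f y. Each fibre of f on the orbit has at most as many elements as the fibre of y0
(translate), so |orbit| ≤ N |fibre of y0|. -/
theorem fib [Finite V] {T : Type} [Finite T] (P : Subgroup (V ≃ₗ[K] V)) (y0 : V) (f : V → T)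
    (hf : ∀ g ∈ P, ∀ y y', f y = f y' → f (g y) = f (g y')) :
    Nat.card {y : V // ∃ g ∈ P, g y0 = y} ≤
      Nat.card {t : T // ∃ g ∈ P, f (g y0) = t} *
        Nat.card {y : V // (∃ g ∈ P, g y0 = y) ∧ f y = f y0} := by
  have h1 : ∀ t : {t : T // ∃ g ∈ P, f (g y0) = t}, ∃ g ∈ P, f (g y0) = t.1 := fun t => t.2
  choose G hG1 hG2 using h1
  have hv : ∀ y : {y : V // ∃ g ∈ P, g y0 = y}, ∃ g ∈ P, f (g y0) = f y.1 := by
    rintro ⟨y, g, hg, rfl⟩
    exact ⟨g, hg, rfl⟩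
  have hinv : ∀ (g : V ≃ₗ[K] V) (v : V), g ((g⁻¹ : V ≃ₗ[K] V) v) = v := fun g v =>
    LinearEquiv.apply_symm_apply g v
  have hinv' : ∀ (g : V ≃ₗ[K] V) (v : V), (g⁻¹ : V ≃ₗ[K] V) (g v) = v := fun g v =>
    LinearEquiv.symm_apply_apply g v
  have hΦ : ∀ y : {y : V // ∃ g ∈ P, g y0 = y},
      (∃ g ∈ P, g y0 = ((G ⟨f y.1, hv y⟩)⁻¹ : V ≃ₗ[K] V) y.1) ∧
        f (((G ⟨f y.1, hv y⟩)⁻¹ : V ≃ₗ[K] V) y.1) = f y0 := by
    intro y
    constructor
    · obtain ⟨g, hg, h⟩ := y.2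
      refine ⟨(G ⟨f y.1, hv y⟩)⁻¹ * g, P.mul_mem (P.inv_mem (hG1 _)) hg, ?_⟩
      rw [LinearEquiv.mul_apply, h]
    · have h2 := hf _ (P.inv_mem (hG1 ⟨f y.1, hv y⟩)) y.1 (G ⟨f y.1, hv y⟩ y0)
        (hG2 ⟨f y.1, hv y⟩).symm
      rw [h2, hinv']
  rw [← Nat.card_prod]
  refine Nat.card_le_card_of_injective
    (fun y : {y : V // ∃ g ∈ P, g y0 = y} =>
      ((⟨f y.1, hv y⟩ : {t : T // ∃ g ∈ P, f (g y0) = t}),
        (⟨((G ⟨f y.1, hv y⟩)⁻¹ : V ≃ₗ[K] V) y.1, hΦ y⟩ :
          {y : V // (∃ g ∈ P, g y0 = y) ∧ f y = f y0}))) ?_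
  intro y y' h
  rw [Prod.mk.injEq, Subtype.mk.injEq, Subtype.mk.injEq] at h
  obtain ⟨h3, h4⟩ := h
  have h5 : (⟨f y.1, hv y⟩ : {t : T // ∃ g ∈ P, f (g y0) = t}) = ⟨f y'.1, hv y'⟩ :=
    Subtype.ext h3
  rw [h5] at h4
  apply Subtype.ext
  have h6 := congrArg (G ⟨f y'.1, hv y'⟩) h4
  rwa [hinv, hinv] at h6
-- END row fib

-- BEGIN row oB
private theorem oB_co (hB : Bs F x z m m' z' x') (r s p t w k : K) :
    F.H (r • x + s • z + p • m + t • m' + w • z' + k • x') x = k ∧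
    F.H (r • x + s • z + p • m + t • m' + w • z' + k • x') z = w ∧
    F.H (r • x + s • z + p • m + t • m' + w • z' + k • x') m = t ∧
    F.H (r • x + s • z + p • m + t • m' + w • z' + k • x') m' = p ∧
    F.H (r • x + s • z + p • m + t • m' + w • z' + k • x') z' = s ∧
    F.H (r • x + s • z + p • m + t • m' + w • z' + k • x') x' = r := by
  refine ⟨?_, ?_, ?_, ?_, ?_, ?_⟩
  · simpa using hcomb hB r s p t w k 1 0 0 0 0 0
  · simpa using hcomb hB r s p t w k 0 1 0 0 0 0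
  · simpa using hcomb hB r s p t w k 0 0 1 0 0 0
  · simpa using hcomb hB r s p t w k 0 0 0 1 0 0
  · simpa using hcomb hB r s p t w k 0 0 0 0 1 0
  · simpa using hcomb hB r s p t w k 0 0 0 0 0 1

private theorem oB_prod (hB : Bs F x z m m' z' x') (y y2 : V) :
    F.H y y2 = F.H y x' * F.bar (F.H y2 x) + F.H y z' * F.bar (F.H y2 z) +
      F.H y m' * F.bar (F.H y2 m) + F.H y m * F.bar (F.H y2 m') + F.H y z * F.bar (F.H y2 z') +
      F.H y x * F.bar (F.H y2 x') := by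
  have hy0 : ∀ y : V, y = F.H y x' • x + F.H y z' • z + F.H y m' • m + F.H y m • m' +
      F.H y z • z' + F.H y x • x' := by
    intro y
    obtain ⟨r, s, p, t, w, k, hy⟩ := hB.span y
    obtain ⟨h1, h2, h3, h4, h5, h6⟩ := oB_co hB r s p t w k
    rw [← hy] at h1 h2 h3 h4 h5 h6
    rw [h1, h2, h3, h4, h5, h6]
    exact hy
  have h := hcomb hB (F.H y x') (F.H y z') (F.H y m') (F.H y m) (F.H y z) (F.H y x)
    (F.H y2 x') (F.H y2 z') (F.H y2 m') (F.H y2 m) (F.H y2 z) (F.H y2 x)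
  rw [← hy0 y, ← hy0 y2] at h
  exact h

private theorem oB_tr (hB : Bs F x z m m' z' x') (hS : F.Ov S) {y : V} (h1 : S y)
    (h2 : F.H y x = 1) :
    (F.H y x' + F.H y z' * F.bar (F.H y z) + F.H y m' * F.bar (F.H y m)) +
      F.bar (F.H y x' + F.H y z' * F.bar (F.H y z) + F.H y m' * F.bar (F.H y m)) = 0 := by
  have h3 := oB_prod hB y y
  rw [hS.iso y h1, h2] at h3
  simp only [map_add, map_mul, F.bb]
  simp only [map_one] at h3
  linear_combination -h3

private theorem oB_inj [Finite V] (hB : Bs F x z m m' z' x') (hS : F.Ov S) {y y2 : V}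
    (hy1 : S y) (hy2 : F.H y x = 1) (hy3 : S y2) (hy4 : F.H y2 x = 1) (h1 : F.H y z = F.H y2 z)
    (h2 : F.H y m = F.H y2 m)
    (h3 : F.H y x' + F.H y z' * F.bar (F.H y z) + F.H y m' * F.bar (F.H y m) =
      F.H y2 x' + F.H y2 z' * F.bar (F.H y2 z) + F.H y2 m' * F.bar (F.H y2 m)) : y = y2 := by
  have h4 := oB_tr hB hS hy3 hy4
  have h5 : F.H y y2 = 0 := by
    rw [oB_prod hB y y2, hy2, hy4, h1, h2, map_one]
    rw [h1, h2] at h3
    simp only [map_add, map_mul, F.bb] at h4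
    linear_combination h3 + h4
  obtain ⟨l, hl⟩ := hS.par hy1 hy3 h5
  have h6 : l = 1 := by
    have h7 := hy4
    rw [hl, F.smull, hy2, mul_one] at h7
    exact h7
  rw [h6, one_smul] at hl
  exact hl.symm

/-- y = g y0 = x' + w z' + t m' + p m + s z + r x; H y z = w = H y0 z - bar b(g), so w determines
a value b; y ↦ (b, t, r + s bar w + p bar t) is injective (as in `cnt`: same triple gives
H y y' = 0, so y = y'), into (values b) × K × (trace zero): q^4 < |values| q^2 q (`trz`). -/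
theorem oB [Finite K] [Finite V] (hK : Nat.card K = q ^ 2)
    (hbar : ∀ a, F.bar a = a ^ q) (hB : Bs F x z m m' z' x') (hS : F.Ov S)
    (hi : ∀ g ∈ P, ∀ u v, F.H (g u) (g v) = F.H u v) (hp : ∀ g ∈ P, ∀ y, S y → S (g y))
    (fx : ∀ g ∈ P, g x = x) (fz : ∀ g ∈ P, ∃ b : K, g z = z + b • x)
    {y0 : V} (hy0 : S y0) (hy1 : F.H y0 x = 1)
    (hO : q ^ 4 < Nat.card {y : V // ∃ g ∈ P, g y0 = y}) :
    q < Nat.card {b : K // ∃ g ∈ P, g z = z + b • x} := by
  have hy : ∀ y : {y : V // ∃ g ∈ P, g y0 = y}, S y.1 ∧ F.H y.1 x = 1 := by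
    rintro ⟨y, g, hg, rfl⟩
    refine ⟨hp g hg y0 hy0, ?_⟩
    have h1 := hi g hg y0 x
    rw [fx g hg, hy1] at h1
    exact h1
  have hbv : ∀ y : {y : V // ∃ g ∈ P, g y0 = y},
      ∃ g ∈ P, g z = z + F.bar (F.H y0 z - F.H y.1 z) • x := by
    rintro ⟨y, g, hg, rfl⟩
    obtain ⟨b, hb⟩ := fz g hg
    refine ⟨g, hg, ?_⟩
    have h1 := hi g hg y0 z
    have h2 := (hy ⟨g y0, g, hg, rfl⟩).2
    rw [hb, F.addr, F.smulr, h2, mul_one] at h1
    have h3 : F.H y0 z - F.H (g y0) z = F.bar b := by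
      rw [← h1]
      ring
    rw [hb, h3, F.bb]
  let f : {y : V // ∃ g ∈ P, g y0 = y} →
      {b : K // ∃ g ∈ P, g z = z + b • x} × K × {a : K // a + F.bar a = 0} := fun y =>
    (⟨F.bar (F.H y0 z - F.H y.1 z), hbv y⟩, F.H y.1 m, ⟨F.H y.1 x' +
      F.H y.1 z' * F.bar (F.H y.1 z) + F.H y.1 m' * F.bar (F.H y.1 m),
      oB_tr hB hS (hy y).1 (hy y).2⟩)
  have hf : Function.Injective f := by
    intro y y2 h
    have h1 : F.bar (F.H y0 z - F.H y.1 z) = F.bar (F.H y0 z - F.H y2.1 z) :=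
      congrArg (fun a => a.1.1) h
    have h2 : F.H y.1 m = F.H y2.1 m := congrArg (fun a => a.2.1) h
    have h3 : F.H y.1 x' + F.H y.1 z' * F.bar (F.H y.1 z) + F.H y.1 m' * F.bar (F.H y.1 m) =
        F.H y2.1 x' + F.H y2.1 z' * F.bar (F.H y2.1 z) + F.H y2.1 m' * F.bar (F.H y2.1 m) :=
      congrArg (fun a => a.2.2.1) h
    have h4 : F.H y.1 z = F.H y2.1 z := by
      have h5 := F.bar.injective h1
      linear_combination -h5
    exact Subtype.ext (oB_inj hB hS (hy y).1 (hy y).2 (hy y2).1 (hy y2).2 h4 h2 h3)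
  have h1 := Nat.card_le_card_of_injective f hf
  rw [Nat.card_prod, Nat.card_prod, hK, trz hK hbar] at h1
  by_contra hc
  have h2 := Nat.mul_le_mul_right (q ^ 2 * q) (not_lt.1 hc)
  have h3 : q * (q ^ 2 * q) = q ^ 4 := by ring
  omega
-- END row oB

-- BEGIN row oC
private theorem oC_dec (hB : Bs F x z m m' z' x') (y : V) (h1 : F.H y x = 1) :
    y = F.H y x' • x + F.H y z' • z + F.H y m' • m + F.H y m • m' + F.H y z • z' + x' := by
  obtain ⟨a, b, c, d, e, f, rfl⟩ := hB.span y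
  have e1 := F.sw hB.xz
  have e2 := F.sw hB.xm
  have e3 := F.sw hB.xm'
  have e4 := F.sw hB.xz'
  have e5 : F.H x' x = 1 := by rw [← F.symm, hB.xx', map_one]
  have e6 := F.sw hB.zm
  have e7 := F.sw hB.zm'
  have e8 : F.H z' z = 1 := by rw [← F.symm, hB.zz', map_one]
  have e9 := F.sw hB.zx'
  have e10 : F.H m' m = 1 := by rw [← F.symm, hB.mm', map_one]
  have e11 := F.sw hB.mz'
  have e12 := F.sw hB.mx'
  have e13 := F.sw hB.m'z'
  have e14 := F.sw hB.m'x'
  have e15 := F.sw hB.z'x'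
  simp only [F.addl, F.smull, hB.xx, hB.xz, hB.xm, hB.xm', hB.xz', hB.xx', hB.zz, hB.zm, hB.zm',
    hB.zz', hB.zx', hB.mm, hB.mm', hB.mz', hB.mx', hB.m'm', hB.m'z', hB.m'x', hB.z'z', hB.z'x',
    hB.x'x', e1, e2, e3, e4, e5, e6, e7, e8, e9, e10, e11, e12, e13, e14, e15, mul_zero, mul_one,
    add_zero, zero_add] at h1 ⊢
  rw [h1, one_smul]

private theorem oC_prod (hB : Bs F x z m m' z' x') (y y2 : V) (h1 : F.H y x = 1)
    (h2 : F.H y2 x = 1) :
    F.H y y2 = (F.H y x' + F.H y z' * F.bar (F.H y2 z) + F.H y m' * F.bar (F.H y2 m)) +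
      F.bar (F.H y2 x' + F.H y2 z' * F.bar (F.H y z) + F.H y2 m' * F.bar (F.H y m)) := by
  have k : F.H y y2 = F.H y (F.H y2 x' • x + F.H y2 z' • z + F.H y2 m' • m + F.H y2 m • m' +
      F.H y2 z • z' + x') := congrArg (F.H y) (oC_dec hB y2 h2)
  rw [k]
  simp only [F.addr, F.smulr, map_add, map_mul, F.bb, h1]
  ring

/-- H y0 z = 0. `fib` with f y = H y z (at most q^2 values): the fibre of y0 has more than q^2
elements. If y = g y0 is in it then H (g y0) (g z) = 0 gives b(g) = 0, g z = z, and g m =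
m + a z + c x gives H y m = H y0 m - bar c. y ↦ (c, ε(y)) (as in `oB`, w = 0, t = H y m) is injective
into (values c) × (trace zero), so q^2 < |values| q. d = c - a 0. -/
theorem oC [Finite K] [Finite V] (hK : Nat.card K = q ^ 2)
    (hbar : ∀ a, F.bar a = a ^ q) (hB : Bs F x z m m' z' x') (hS : F.Ov S)
    (hi : ∀ g ∈ P, ∀ u v, F.H (g u) (g v) = F.H u v) (hp : ∀ g ∈ P, ∀ y, S y → S (g y))
    (fx : ∀ g ∈ P, g x = x) (fz : ∀ g ∈ P, ∃ b : K, g z = z + b • x)
    (fm : ∀ g ∈ P, ∃ a c : K, g m = m + a • z + c • x)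
    {y0 : V} (hy0 : S y0) (hy1 : F.H y0 x = 1) (hyz : F.H y0 z = 0)
    (hO : q ^ 4 < Nat.card {y : V // ∃ g ∈ P, g y0 = y}) :
    q < Nat.card {d : K // ∃ g ∈ P, g z = z ∧ ∃ a c : K,
      g m = m + a • z + c • x ∧ d = c - a * 0} := by
  classical
  have hq : 0 < q := by
    rcases Nat.eq_zero_or_pos q with h | h
    · rw [h] at hK
      have := Nat.card_pos (α := K)
      rw [hK] at this
      simp at this
    · exact h
  have hx1 : ∀ g ∈ P, ∀ y, F.H (g y) x = F.H y x := by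
    intro g hg y
    have h := hi g hg y x
    rwa [fx g hg] at h
  let f : V → K × K := fun y => (F.H y x, F.H y z)
  have hf : ∀ g ∈ P, ∀ y y', f y = f y' → f (g y) = f (g y') := by
    intro g hg y y' h
    obtain ⟨b, hb⟩ := fz g hg
    have h1 : F.H y x = F.H y' x := congrArg Prod.fst h
    have h2 : F.H y z = F.H y' z := congrArg Prod.snd h
    have h3 : ∀ u, F.H (g u) z = F.H u z - F.bar b * F.H u x := by
      intro u
      have h4 := hi g hg u z
      rw [hb, F.addr, F.smulr, hx1 g hg u] at h4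
      rw [← h4]
      ring
    show (F.H (g y) x, F.H (g y) z) = (F.H (g y') x, F.H (g y') z)
    rw [hx1 g hg, hx1 g hg, h3, h3, h1, h2]
  have hfib := fib P y0 f hf
  have hN : Nat.card {t : K × K // ∃ g ∈ P, f (g y0) = t} ≤ q ^ 2 := by
    rw [← hK]
    refine Nat.card_le_card_of_injective (fun t => t.1.2) ?_
    rintro ⟨⟨t1, t2⟩, g, hg, h⟩ ⟨⟨s1, s2⟩, g', hg', h'⟩ he
    have h1 : F.H (g y0) x = t1 := congrArg Prod.fst h
    have h2 : F.H (g' y0) x = s1 := congrArg Prod.fst h'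
    rw [hx1 g hg] at h1
    rw [hx1 g' hg'] at h2
    have h3 : t2 = s2 := he
    subst h3
    apply Subtype.ext
    show (t1, t2) = (s1, t2)
    rw [← h1, ← h2]
  have hF : q ^ 2 < Nat.card {y : V // (∃ g ∈ P, g y0 = y) ∧ f y = f y0} := by
    by_contra hcon
    have h1 := Nat.mul_le_mul hN (not_lt.1 hcon)
    have h2 : q ^ 2 * q ^ 2 = q ^ 4 := by ring
    omega
  have hval : ∀ y : {y : V // (∃ g ∈ P, g y0 = y) ∧ f y = f y0},
      S y.1 ∧ F.H y.1 x = 1 ∧ F.H y.1 z = 0 ∧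
      (∃ g ∈ P, g z = z ∧ ∃ a c : K, g m = m + a • z + c • x ∧
        F.bar (F.H y0 m - F.H y.1 m) = c - a * 0) := by
    rintro ⟨y, ⟨g, hg, rfl⟩, h⟩
    have h1 : F.H (g y0) x = 1 := by rw [hx1 g hg, hy1]
    have h2 : F.H (g y0) z = 0 := (congrArg Prod.snd h).trans hyz
    refine ⟨hp g hg y0 hy0, h1, h2, g, hg, ?_, ?_⟩
    · obtain ⟨b, hb⟩ := fz g hg
      have h3 := hi g hg y0 z
      rw [hb, F.addr, F.smulr, h1, h2, hyz, zero_add, mul_one] at h3
      have h4 : b = 0 := by rw [← F.bb b, h3, map_zero]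
      rw [hb, h4, zero_smul, add_zero]
    · obtain ⟨a, c, hac⟩ := fm g hg
      refine ⟨a, c, hac, ?_⟩
      have h3 := hi g hg y0 m
      rw [hac, F.addr, F.addr, F.smulr, F.smulr, h1, h2] at h3
      rw [← h3, mul_zero, mul_zero, add_zero, mul_one, sub_zero]
      show F.bar (F.H (g y0) m + F.bar c - F.H (g y0) m) = c
      rw [add_sub_cancel_left, F.bb]
  let e : {y : V // (∃ g ∈ P, g y0 = y) ∧ f y = f y0} →
      {d : K // ∃ g ∈ P, g z = z ∧ ∃ a c : K, g m = m + a • z + c • x ∧ d = c - a * 0} ×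
        {a : K // a + F.bar a = 0} := fun y =>
    (⟨F.bar (F.H y0 m - F.H y.1 m), (hval y).2.2.2⟩,
      ⟨F.H y.1 x' + F.H y.1 z' * F.bar (F.H y.1 z) + F.H y.1 m' * F.bar (F.H y.1 m), by
        rw [← oC_prod hB y.1 y.1 (hval y).2.1 (hval y).2.1]
        exact hS.iso _ (hval y).1⟩)
  have he : Function.Injective e := by
    intro y y2 h
    have h1 : F.bar (F.H y0 m - F.H y.1 m) = F.bar (F.H y0 m - F.H y2.1 m) :=
      congrArg (fun t => t.1.1) h
    have h2 : F.H y.1 x' + F.H y.1 z' * F.bar (F.H y.1 z) + F.H y.1 m' * F.bar (F.H y.1 m) =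
        F.H y2.1 x' + F.H y2.1 z' * F.bar (F.H y2.1 z) + F.H y2.1 m' * F.bar (F.H y2.1 m) :=
      congrArg (fun t => t.2.1) h
    have h3 : F.H y.1 m = F.H y2.1 m := sub_right_inj.1 (F.bar.injective h1)
    have h3z : F.H y.1 z = F.H y2.1 z := by rw [(hval y).2.2.1, (hval y2).2.2.1]
    have h4 : F.H y.1 y2.1 = 0 := by
      rw [oC_prod hB y.1 y2.1 (hval y).2.1 (hval y2).2.1, ← h3z, ← h3]
      rw [← h3z, ← h3] at h2
      rw [← h2, ← oC_prod hB y.1 y.1 (hval y).2.1 (hval y).2.1]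
      exact hS.iso _ (hval y).1
    obtain ⟨l, hl⟩ := hS.par (hval y).1 (hval y2).1 h4
    have h5 := (hval y2).2.1
    rw [hl, F.smull, (hval y).2.1, mul_one] at h5
    rw [h5, one_smul] at hl
    exact Subtype.ext hl.symm
  have hle := Nat.card_le_card_of_injective e he
  rw [Nat.card_prod, trz (F := F) hK hbar] at hle
  by_contra hcon
  have h6 := Nat.mul_le_mul_right q (not_lt.1 hcon)
  have h7 : q * q = q ^ 2 := by ring
  omega
-- END row oC

-- BEGIN row asm
/-- `flag` gives z0, m; z = z0 + b1 x with H y0 z = 0 (b1 = - bar ... : H y0 z0 + bar b1 = 0); the flag data for z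
(as in `pshift`). `bsex`; `oB`, `oC`; more than q ≥ 2 values give nonzero ones; `hcex`; |P| is at
least the size of the orbit. Nat.card V = q^12 from finrank 6. `core`. -/
theorem asm [Finite V] [Finite K] (hK : Nat.card K = q ^ 2)
    (hbar : ∀ a, F.bar a = a ^ q) (hV : Module.finrank K V = 6)
    (hS : F.Ov S) (hSx : S x) {p : ℕ} [Fact p.Prime] (hp : ∀ v : V, p • v = 0)
    (P : Subgroup (V ≃ₗ[K] V)) (hPp : IsPGroup p P)
    (hi : ∀ g ∈ P, ∀ u v, F.H (g u) (g v) = F.H u v) (hG : ∀ g ∈ P, ∀ y, S y → S (g y))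
    (hx : ∀ g ∈ P, ∃ a : K, g x = a • x) {y0 : V} (hy0 : S y0) (hy1 : F.H y0 x = 1) :
    Nat.card {y : V // ∃ g ∈ P, g y0 = y} ≤ q ^ 4 := by
  by_contra hcon
  push Not at hcon
  have hx0 := hS.ne x hSx
  have hxx := hS.iso x hSx
  obtain ⟨hfx, z0, m, k2, k3, k4, k5, k6, k7, kz, km⟩ := flag hK hbar hV hp P hPp hi hx0 hxx hx
  obtain ⟨θ, hθ⟩ := Ovo.exists_theta hK F.bar hbar F.bb
  have k4' := F.sw k4
  obtain ⟨b1, hb1⟩ : ∃ b1 : K, F.bar b1 = -F.H y0 z0 := ⟨F.bar (-F.H y0 z0), F.bb _⟩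
  obtain ⟨z, hzd⟩ : ∃ z : V, z = z0 + b1 • x := ⟨_, rfl⟩
  have l1 : F.H y0 z = 0 := by rw [hzd, F.addr, F.smulr, hb1, hy1]; ring
  have l2 : F.H z z = 0 := by
    rw [hzd, F.addl, F.addr, F.addr, F.smulr, F.smull, F.smull, F.smulr, k2, k4, k4', hxx]; ring
  have l4 : F.H x z = 0 := by rw [hzd, F.addr, F.smulr, k4, hxx]; ring
  have l6 : F.H z m = 0 := by rw [hzd, F.addl, F.smull, k6, k5]; ring
  have l7 : LinearIndependent K ![x, z, m] := by
    rw [Fintype.linearIndependent_iff] at k7 ⊢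
    intro c hc
    have h := k7 ![c 0 + c 1 * b1, c 1, c 2] (by
      rw [Fin.sum_univ_three] at hc ⊢
      simp only [Matrix.cons_val_zero, Matrix.cons_val_one, Matrix.cons_val_two, Matrix.head_cons,
        Matrix.tail_cons, Matrix.cons_val] at hc ⊢
      rw [← hc, hzd]
      module)
    have c1 : c 1 = 0 := h 1
    have c2 : c 2 = 0 := h 2
    have c0 : c 0 + c 1 * b1 = 0 := h 0
    rw [c1, zero_mul, add_zero] at c0
    intro i
    fin_cases i
    · exact c0
    · exact c1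
    · exact c2
  have lz : ∀ g ∈ P, ∃ b : K, g z = z + b • x := by
    intro g hg
    obtain ⟨b, hb⟩ := kz g hg
    refine ⟨b, ?_⟩
    rw [hzd, map_add, map_smul, hfx g hg, hb]
    abel
  have lm : ∀ g ∈ P, ∃ a c : K, g m = m + a • z + c • x := by
    intro g hg
    obtain ⟨a, c, hac⟩ := km g hg
    refine ⟨a, c - a * b1, ?_⟩
    rw [hac, hzd]
    module
  obtain ⟨m', z', x', hB⟩ := bsex hθ hV hxx l2 k3 l4 k5 l6 l7
  have hq2 := Ovo.two_le_q hK
  have o1 := oB hK hbar hB hS hi hG hfx lz hy0 hy1 hcon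
  have o2 := oC hK hbar hB hS hi hG hfx lz lm hy0 hy1 l1 hcon
  have hb : ∃ g ∈ P, ∃ b : K, b ≠ 0 ∧ g z = z + b • x := by
    by_contra hno
    push Not at hno
    have h1 : Subsingleton {b : K // ∃ g ∈ P, g z = z + b • x} := by
      refine ⟨fun b b' => ?_⟩
      obtain ⟨b, g, hg, hgb⟩ := b
      obtain ⟨b', g', hg', hgb'⟩ := b'
      apply Subtype.ext
      have e1 : b = 0 := by
        by_contra h
        exact hno g hg b h hgb
      have e2 : b' = 0 := by
        by_contra h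
        exact hno g' hg' b' h hgb'
      exact e1.trans e2.symm
    have h2 := Finite.card_le_one_iff_subsingleton.2 h1
    omega
  have hc0 : ∃ g ∈ P, g z = z ∧ ∃ a c : K, g m = m + a • z + c • x ∧ c ≠ 0 := by
    by_contra hno
    push Not at hno
    have h1 : Subsingleton {d : K // ∃ g ∈ P, g z = z ∧ ∃ a c : K,
        g m = m + a • z + c • x ∧ d = c - a * 0} := by
      refine ⟨fun b b' => ?_⟩
      obtain ⟨b, g, hg, hgz, a, c, hgm, hb⟩ := b
      obtain ⟨b', g', hg', hgz', a', c', hgm', hb'⟩ := b'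
      apply Subtype.ext
      change b = b'
      rw [hb, hb', hno g hg hgz a c hgm, hno g' hg' hgz' a' c' hgm']
      ring
    have h2 := Finite.card_le_one_iff_subsingleton.2 h1
    omega
  have hVc : Nat.card V = q ^ 12 := by
    rw [Module.natCard_eq_pow_finrank (K := K) (V := V), hV, hK, ← pow_mul]
  have hN : q ^ 4 ≤ Nat.card P := by
    refine hcon.le.trans (Nat.card_le_card_of_surjective
      (fun g : P => (⟨g.1 y0, g.1, g.2, rfl⟩ : {y : V // ∃ g ∈ P, g y0 = y})) ?_)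
    rintro ⟨y, g, hg, hgy⟩
    exact ⟨⟨g, hg⟩, Subtype.ext hgy⟩
  exact core hK hbar hVc hB hS hSx ⟨hi, hG, hfx, lz, lm, hb,
    fun b2 => hcex hfx lz lm l7 hb hc0 b2, o1, ⟨0, o2⟩⟩ hN
-- END row asm

-- BEGIN row pwp
/-- h in PW with g: h^k w - g^k w in Z for all k (PW is a subgroup construction: induction); if
g^k = 1, k = p^j, then h^k w - w in Z ⊓ W = ⊥. -/
theorem pwp {p : ℕ} [Fact p.Prime] (P : Subgroup (V ≃ₗ[K] V)) (hPp : IsPGroup p P)
    {Z W : Submodule K V} (hd : Z ⊓ W = ⊥) : IsPGroup p (PW P Z W) := by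
  rintro ⟨h, g, hg, hg1, hg2⟩
  obtain ⟨j, hj⟩ := hPp ⟨g, hg⟩
  refine ⟨j, ?_⟩
  have hk : ∀ k : ℕ, ∀ w : W,
      (((h ^ k : W ≃ₗ[K] W) w : W) : V) - (g ^ k : V ≃ₗ[K] V) (w : V) ∈ Z := by
    intro k
    induction k with
    | zero =>
      intro w
      rw [pow_zero, pow_zero]
      change (w : V) - (w : V) ∈ Z
      rw [sub_self]
      exact Z.zero_mem
    | succ k ih =>
      intro w
      rw [pow_succ', pow_succ']
      change ((h ((h ^ k : W ≃ₗ[K] W) w) : W) : V) - g ((g ^ k : V ≃ₗ[K] V) (w : V)) ∈ Z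
      have h1 := Z.add_mem (hg2 ((h ^ k : W ≃ₗ[K] W) w)) ((hg1 _).2 (ih w))
      rw [map_sub, sub_add_sub_cancel] at h1
      exact h1
  have hgk : g ^ (p ^ j) = 1 := congrArg Subtype.val hj
  apply Subtype.ext
  change h ^ (p ^ j) = 1
  apply LinearEquiv.ext
  intro w
  have h1 := hk (p ^ j) w
  rw [hgk] at h1
  change (((h ^ (p ^ j) : W ≃ₗ[K] W) w : W) : V) - (w : V) ∈ Z at h1
  have h2 : (((h ^ (p ^ j) : W ≃ₗ[K] W) w : W) : V) - (w : V) ∈ Z ⊓ W :=
    ⟨h1, W.sub_mem (Subtype.mem _) w.2⟩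
  rw [hd, Submodule.mem_bot] at h2
  exact Subtype.ext (sub_eq_zero.1 h2)
-- END row pwp

-- BEGIN row red
private theorem red_N [Finite V] [Finite K] {n : ℕ} (hn : 2 ≤ n) (hK : Nat.card K = q ^ 2)
    (P : Subgroup (V ≃ₗ[K] V)) {Z D : Submodule K V}
    (hi : ∀ g ∈ P, ∀ u v, F.H (g u) (g v) = F.H u v)
    (hxD : x ∈ D) (hZD : Z ≤ D) (hDn : Module.finrank K D = n - 1)
    (fx : ∀ g ∈ P, g x = x) {y0 : V}
    (hc0 : ∀ v, v ∈ Z ↔ (v ∈ D ∧ F.H y0 v = 0)) (hy1 : F.H y0 x = 1) :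
    Nat.card {t : D → K // ∃ g ∈ P, (fun v : D => F.H (g y0) (v : V)) = t} ≤
      q ^ (2 * (n - 2)) := by
  classical
  have hch : ∀ t : {t : D → K // ∃ g ∈ P, (fun v : D => F.H (g y0) (v : V)) = t},
      ∃ g ∈ P, (fun v : D => F.H (g y0) (v : V)) = t.1 := fun t => t.2
  choose g hg hgt using hch
  have h3 : ∀ t, F.H (g t y0) x = 1 := fun t => by
    have h := hi (g t) (hg t) y0 x
    rwa [fx _ (hg t), hy1] at h
  have hinj : Function.Injective fun t => (Submodule.Quotient.mk (g t y0) : V ⧸ pp F Z) := by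
    intro t t' h
    have h1 : g t y0 - g t' y0 ∈ pp F Z := (Submodule.Quotient.eq _).1 h
    apply Subtype.ext
    rw [← hgt t, ← hgt t']
    funext v
    have hζ : (v : V) - F.bar (F.H y0 v) • x ∈ Z := by
      refine (hc0 _).2 ⟨D.sub_mem v.2 (D.smul_mem _ hxD), ?_⟩
      rw [F.subr, F.smulr, F.bb, hy1, mul_one, sub_self]
    have h2 := h1 _ hζ
    rw [F.subl, F.subr, F.subr, F.smulr, F.smulr, h3, h3] at h2
    linear_combination h2
  have hfin : Finite (V ⧸ pp F Z) := Finite.of_surjective _ (Submodule.mkQ_surjective (pp F Z))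
  have h4 := Nat.card_le_card_of_injective _ hinj
  have h5 : Nat.card (V ⧸ pp F Z) = Nat.card K ^ Module.finrank K (V ⧸ pp F Z) :=
    Module.natCard_eq_pow_finrank
  have h6 : Module.finrank K (V ⧸ pp F Z) = Module.finrank K Z := by
    have a := Submodule.finrank_quotient_add_finrank (pp F Z)
    have b := ppeq F Z
    omega
  have h7 : Module.finrank K Z < Module.finrank K D := by
    refine Submodule.finrank_lt_finrank_of_lt (lt_of_le_of_ne hZD ?_)
    intro h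
    have h8 := ((hc0 x).1 (h ▸ hxD)).2
    rw [hy1] at h8
    exact one_ne_zero h8
  have hq : 0 < q := by
    rcases Nat.eq_zero_or_pos q with h | h
    · rw [h] at hK
      exact absurd hK (by simpa using Nat.card_pos.ne')
    · exact h
  calc _ ≤ _ := h4
    _ = q ^ (2 * Module.finrank K Z) := by rw [h5, h6, hK, ← pow_mul]
    _ ≤ q ^ (2 * (n - 2)) := Nat.pow_le_pow_right hq (by omega)

/-- `fib` with f y = the restriction of H y · to D (a function D → K; f is a linear functional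
bar-twisted with value 1 at x, so at most |D| / q^2 = q^(2(n-2)) values on the orbit: D has
q^(2(n-1)) elements): the fibre of y0, call it Y, has more than q^4 elements. y0 = y0w + ζ0 in
pp F Z = Z ⊔ W (y0 perpendicular to Z), xw as in `pwx`, H y0w xw = 1. For y in Y, y = g y0: g
maps Z to Z (v in Z iff v in D and H y v = 0, by hc), so `lif` gives h in PW with
h y0w = (component of y in W); different y in Y have different components (y - y' in Z gives
H y y' = 0, so y' = l y, l = 1). So the orbit of y0w under PW has more than q^4 elements. -/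
theorem red [Finite V] [Finite K] {n : ℕ} (hn : 2 ≤ n) (hK : Nat.card K = q ^ 2)
    (P : Subgroup (V ≃ₗ[K] V)) {Z W D : Submodule K V}
    (hi : ∀ g ∈ P, ∀ u v, F.H (g u) (g v) = F.H u v) (hp : ∀ g ∈ P, ∀ y, S y → S (g y))
    (hS : F.Ov S) (hZ : F.TI Z)
    (hd : Z ⊓ W = ⊥) (hs : Z ⊔ W = pp F Z) (hD : F.TI D) (hxD : x ∈ D) (hZD : Z ≤ D)
    (hDn : Module.finrank K D = n - 1) (hDg : ∀ g ∈ P, ∀ v ∈ D, g v ∈ D)
    (fx : ∀ g ∈ P, g x = x)
    (hc : ∀ y, F.H y x ≠ 0 → (∀ ζ ∈ Z, F.H y ζ = 0) → ∀ v, v ∈ Z ↔ (v ∈ D ∧ F.H y v = 0))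
    {xw y0w : W} (hxw : x - (xw : V) ∈ Z) {y0 : V} (hyw : y0 - (y0w : V) ∈ Z)
    (hy0 : S y0) (hy1 : F.H y0 x = 1) (hyZ : ∀ ζ ∈ Z, F.H y0 ζ = 0)
    (hO : q ^ (2 * n) < Nat.card {y : V // ∃ g ∈ P, g y0 = y}) :
    q ^ 4 < Nat.card {w : W // ∃ h ∈ PW P Z W, h y0w = w} := by
  classical
  have hc0 := hc y0 (by rw [hy1]; exact one_ne_zero) hyZ
  obtain ⟨f, hfd⟩ : ∃ f : V → (D → K), ∀ y, f y = fun v : D => F.H y (v : V) := ⟨_, fun _ => rfl⟩
  have hf : ∀ g ∈ P, ∀ y y', f y = f y' → f (g y) = f (g y') := by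
    intro g hg y y' h
    rw [hfd, hfd] at h ⊢
    funext v
    have hgi : g ((g⁻¹ : V ≃ₗ[K] V) (v : V)) = v := LinearEquiv.apply_symm_apply g v
    have h1 : ∀ y : V, F.H (g y) (v : V) = F.H y ((g⁻¹ : V ≃ₗ[K] V) (v : V)) := fun y => by
      rw [← hi g hg y, hgi]
    have h2 := congrFun h ⟨(g⁻¹ : V ≃ₗ[K] V) (v : V), hDg _ (P.inv_mem hg) _ v.2⟩
    show F.H (g y) (v : V) = F.H (g y') (v : V)
    rw [h1, h1]
    exact h2
  have h1 := fib P y0 f hf
  have h2 : Nat.card {t : D → K // ∃ g ∈ P, f (g y0) = t} ≤ q ^ (2 * (n - 2)) := by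
    simp only [hfd]
    exact red_N hn hK P hi hxD hZD hDn fx hc0 hy1
  have hval : ∀ y : {y : V // (∃ g ∈ P, g y0 = y) ∧ f y = f y0},
      S (y : V) ∧ F.H (y : V) x = 1 ∧ ∀ ζ ∈ Z, F.H (y : V) ζ = 0 := by
    rintro ⟨y, ⟨g, hg, rfl⟩, hfy⟩
    refine ⟨hp g hg _ hy0, ?_, fun ζ hζ => ?_⟩
    · have h := hi g hg y0 x
      rwa [fx g hg, hy1] at h
    · rw [hfd, hfd] at hfy
      exact (congrFun hfy ⟨ζ, hZD hζ⟩).trans (hyZ ζ hζ)
  have hex : ∀ y : {y : V // (∃ g ∈ P, g y0 = y) ∧ f y = f y0},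
      ∃ w : W, (∃ h ∈ PW P Z W, h y0w = w) ∧ (y : V) - (w : V) ∈ Z := by
    intro y
    obtain ⟨-, hyx, hyz⟩ := hval y
    obtain ⟨y, ⟨g, hg, rfl⟩, hfy⟩ := y
    have hcg := hc (g y0) (by rw [hyx]; exact one_ne_zero) hyz
    have hgi : ∀ v, (g⁻¹ : V ≃ₗ[K] V) (g v) = v := fun v => LinearEquiv.symm_apply_apply g v
    have hgZ : ∀ v, g v ∈ Z ↔ v ∈ Z := by
      intro v
      rw [hcg, hc0, hi g hg]
      constructor
      · rintro ⟨h6, h7⟩
        refine ⟨?_, h7⟩
        have h8 := hDg _ (P.inv_mem hg) _ h6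
        rwa [hgi] at h8
      · rintro ⟨h6, h7⟩
        exact ⟨hDg g hg v h6, h7⟩
    obtain ⟨h, hh⟩ := lif hd hs (hi g hg) hgZ
    refine ⟨h y0w, ⟨h, ⟨g, hg, hgZ, hh⟩, rfl⟩, ?_⟩
    have e : g y0 - ((h y0w : W) : V) =
        g (y0 - (y0w : V)) - (((h y0w : W) : V) - g (y0w : V)) := by
      rw [map_sub]
      abel
    show g y0 - ((h y0w : W) : V) ∈ Z
    rw [e]
    exact Z.sub_mem ((hgZ _).2 hyw) (hh y0w)
  choose w hw hwZ using hex
  have h3 : Nat.card {y : V // (∃ g ∈ P, g y0 = y) ∧ f y = f y0} ≤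
      Nat.card {w : W // ∃ h ∈ PW P Z W, h y0w = w} := by
    refine Nat.card_le_card_of_injective
      (fun y => (⟨w y, hw y⟩ : {w : W // ∃ h ∈ PW P Z W, h y0w = w})) ?_
    intro y y' h
    have h4 : w y = w y' := Subtype.ext_iff.1 h
    have h5 : (y' : V) - (y : V) ∈ Z := by
      have h6 := Z.sub_mem (hwZ y') (hwZ y)
      rw [h4, sub_sub_sub_cancel_right] at h6
      exact h6
    obtain ⟨a1, a2, a3⟩ := hval y
    obtain ⟨b1, b2, b3⟩ := hval y'
    have h7 : F.H (y : V) (y' : V) = 0 := by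
      have h8 := a3 _ h5
      rw [F.subr, hS.iso _ a1, sub_zero] at h8
      exact h8
    obtain ⟨l, hl⟩ := hS.par a1 b1 h7
    have h9 : l = 1 := by
      rw [hl, F.smull, a2, mul_one] at b2
      exact b2
    rw [h9, one_smul] at hl
    exact (Subtype.ext hl).symm
  have h4 : q ^ (2 * (n - 2)) * q ^ 4 <
      q ^ (2 * (n - 2)) * Nat.card {w : W // ∃ h ∈ PW P Z W, h y0w = w} := by
    calc q ^ (2 * (n - 2)) * q ^ 4 = q ^ (2 * n) := by
          rw [← pow_add]
          congr 1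
          omega
      _ < _ := hO
      _ ≤ _ := h1
      _ ≤ _ := Nat.mul_le_mul h2 h3
  exact Nat.lt_of_mul_lt_mul_left h4
-- END row red

-- BEGIN row exZ2
/-- the functional v ↦ H v y of D -/
private def exZ2_f (F : Ovo.HF K V) (D : Submodule K V) (y : V) : D →ₗ[K] K where
  toFun := fun v => F.H (v : V) y
  map_add' := fun _ _ => F.addl _ _ _
  map_smul' := fun _ _ => F.smull _ _ _

private theorem exZ2_mem (F : Ovo.HF K V) (D : Submodule K V) (y v : V) :
    v ∈ (LinearMap.ker (exZ2_f F D y)).map D.subtype ↔ v ∈ D ∧ F.H y v = 0 := by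
  rw [Submodule.mem_map]
  constructor
  · rintro ⟨u, hu, rfl⟩
    exact ⟨u.2, F.sw hu⟩
  · rintro ⟨h1, h2⟩
    exact ⟨⟨v, h1⟩, F.sw h2, rfl⟩

private theorem exZ2_fr [Finite V] [Finite K] (F : Ovo.HF K V) (D : Submodule K V) {x y : V}
    (hxD : x ∈ D) (hy : F.H y x ≠ 0) :
    Module.finrank K ((LinearMap.ker (exZ2_f F D y)).map D.subtype) + 1 = Module.finrank K D := by
  have hfin : Module.Finite K V := Module.Finite.of_finite
  have h1 : Function.Surjective (exZ2_f F D y) := by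
    intro c
    have h2 : F.H x y ≠ 0 := fun h => hy (F.sw h)
    refine ⟨(c * (F.H x y)⁻¹) • ⟨x, hxD⟩, ?_⟩
    rw [map_smul]
    show c * (F.H x y)⁻¹ * F.H x y = c
    rw [mul_assoc, inv_mul_cancel₀ h2, mul_one]
  have h3 := LinearMap.finrank_range_add_finrank_ker (exZ2_f F D y)
  rw [LinearMap.range_eq_top.2 h1, finrank_top, Module.finrank_self] at h3
  rw [Submodule.finrank_map_subtype_eq, ← h3, add_comm]

/-- The body of `exZ`; Z = D ⊓ {v | H y0 v = 0}, so y0 is perpendicular to Z. -/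
theorem exZ2 [Finite V] [Finite K] {D : Submodule K V} {y0 : V} (hxD : x ∈ D)
    (hy : F.H y0 x ≠ 0) :
    ∃ Z : Submodule K V, Z ≤ D ∧ x ∉ Z ∧ Module.finrank K Z + 1 = Module.finrank K D ∧
      (∀ ζ ∈ Z, F.H y0 ζ = 0) ∧
      ∀ y, F.H y x ≠ 0 → (∀ ζ ∈ Z, F.H y ζ = 0) → ∀ v, v ∈ Z ↔ (v ∈ D ∧ F.H y v = 0) := by
  have hfin : Module.Finite K V := Module.Finite.of_finite
  refine ⟨(LinearMap.ker (exZ2_f F D y0)).map D.subtype, ?_, ?_, exZ2_fr F D hxD hy, ?_, ?_⟩
  · intro v hv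
    exact ((exZ2_mem F D y0 v).1 hv).1
  · intro hx
    exact hy ((exZ2_mem F D y0 x).1 hx).2
  · intro ζ hζ
    exact ((exZ2_mem F D y0 ζ).1 hζ).2
  · intro y hyx hyZ v
    have h1 : (LinearMap.ker (exZ2_f F D y0)).map D.subtype =
        (LinearMap.ker (exZ2_f F D y)).map D.subtype := by
      apply Submodule.eq_of_le_of_finrank_eq
      · intro u hu
        exact (exZ2_mem F D y u).2 ⟨((exZ2_mem F D y0 u).1 hu).1, hyZ u hu⟩
      · have h2 := exZ2_fr F D hxD hy
        have h3 := exZ2_fr F D hxD hyx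
        omega
    rw [h1]
    exact exZ2_mem F D y v
-- END row exZ2

-- BEGIN row asmg
private theorem asmg_fx [Finite V] {p : ℕ} [Fact p.Prime] (hp : ∀ v : V, p • v = 0)
    (P : Subgroup (V ≃ₗ[K] V)) (hP : IsPGroup p P) (hx0 : x ≠ 0)
    (hx : ∀ g ∈ P, ∃ a : K, g x = a • x) : ∀ g ∈ P, g x = x := by
  have hlt : (⊥ : Submodule K V) < Submodule.span K {x} := by
    rw [bot_lt_iff_ne_bot]
    intro h
    exact hx0 (Submodule.span_singleton_eq_bot.1 h)
  obtain ⟨v, hv, hv0, hgv⟩ := fixq hp P hP ⊥ (Submodule.span K {x}) hlt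
    (fun g _ v hv => by
      rw [Submodule.mem_bot] at hv ⊢
      rw [hv, map_zero])
    (fun g hg v hv => by
      obtain ⟨a, ha⟩ := hx g hg
      obtain ⟨c, rfl⟩ := Submodule.mem_span_singleton.1 hv
      rw [map_smul, ha, smul_smul]
      exact Submodule.mem_span_singleton.2 ⟨c * a, rfl⟩)
  intro g hg
  obtain ⟨c, hc⟩ := Submodule.mem_span_singleton.1 hv
  have hc0 : c ≠ 0 := by
    rintro rfl
    rw [zero_smul] at hc
    exact hv0 (by rw [← hc]; exact Submodule.zero_mem _)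
  have h1 := hgv g hg
  rw [Submodule.mem_bot, sub_eq_zero, ← hc, map_smul] at h1
  exact smul_right_injective V hc0 h1

/-- g x = x on P as in `flag`. If the orbit has more than q^(2n) elements: D from `exD` (j = n - 2),
Z from `exZ2`, W from `exW`, x and y0 in pp F Z = Z ⊔ W give xw, y0w, then `red`, and `asm` for
FW F W, SW S Z W, PW P Z W with `swov`, `pwiso`, `pwpres`, `pwx`, `pwp`. -/
theorem asmg [Finite V] [Finite K] {n : ℕ} (hn : 2 ≤ n) (hK : Nat.card K = q ^ 2)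
    (hbar : ∀ a, F.bar a = a ^ q)
    (hV : Module.finrank K V = 2 * n + 2)
    (hS : F.Ov S) (hSx : S x) {p : ℕ} [Fact p.Prime] (hp : ∀ v : V, p • v = 0)
    (P : Subgroup (V ≃ₗ[K] V)) (hPp : IsPGroup p P)
    (hi : ∀ g ∈ P, ∀ u v, F.H (g u) (g v) = F.H u v) (hG : ∀ g ∈ P, ∀ y, S y → S (g y))
    (hx : ∀ g ∈ P, ∃ a : K, g x = a • x) {y0 : V} (hy0 : S y0) (hy1 : F.H y0 x = 1) :
    Nat.card {y : V // ∃ g ∈ P, g y0 = y} ≤ q ^ (2 * n) := by
  by_contra hcon
  rw [not_le] at hcon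
  have hx0 := hS.ne x hSx
  have hxx := hS.iso x hSx
  have fx := asmg_fx hp P hPp hx0 hx
  obtain ⟨D, hD, hxD, hDg, hDd⟩ := exD hK hbar hp P hPp hi hx0 hxx hx (n - 2)
    (by rw [hV]; omega)
  have hy0x : F.H y0 x ≠ 0 := by
    rw [hy1]
    exact one_ne_zero
  obtain ⟨Z, hZD, hxZ, hZd, hyZ, hcZ⟩ := exZ2 hxD hy0x
  have hZ : F.TI Z := fun u hu v hv => hD u (hZD hu) v (hZD hv)
  obtain ⟨W, hd, hs, hWd, hW⟩ := exW hZ
  have hW6 : Module.finrank K W = 6 := by omega
  have hno : ∀ ζ ∈ Z, ¬ S ζ := by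
    intro ζ hζ hSζ
    obtain ⟨l, hl⟩ := hS.par hSx hSζ (hD x hxD ζ (hZD hζ))
    have hl0 : l ≠ 0 := by
      intro h
      apply hS.ne ζ hSζ
      rw [hl, h, zero_smul]
    apply hxZ
    have h1 : x = l⁻¹ • ζ := by rw [hl, smul_smul, inv_mul_cancel₀ hl0, one_smul]
    rw [h1]
    exact Z.smul_mem _ hζ
  have hWp : ∀ w ∈ W, ∀ t ∈ Z, F.H w t = 0 := by
    intro w hw t ht
    have h1 : w ∈ pp F Z := by
      rw [← hs]
      exact Submodule.mem_sup_right hw
    exact h1 t ht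
  have hxp : x ∈ pp F Z := fun t ht => hD x hxD t (hZD ht)
  rw [← hs] at hxp
  obtain ⟨ζ0, hζ0, w0, hw0, hxw⟩ := Submodule.mem_sup.mp hxp
  have hyp : y0 ∈ pp F Z := fun t ht => hyZ t ht
  rw [← hs] at hyp
  obtain ⟨ζ1, hζ1, v0, hv0, hyw⟩ := Submodule.mem_sup.mp hyp
  have hxw1 : x - w0 = ζ0 := by
    rw [← hxw]
    abel
  have hyw1 : y0 - v0 = ζ1 := by
    rw [← hyw]
    abel
  have hxw' : x - ((⟨w0, hw0⟩ : W) : V) ∈ Z := by
    show x - w0 ∈ Z
    rw [hxw1]
    exact hζ0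
  have hyw' : y0 - ((⟨v0, hv0⟩ : W) : V) ∈ Z := by
    show y0 - v0 ∈ Z
    rw [hyw1]
    exact hζ1
  have hSxw : SW S Z W ⟨w0, hw0⟩ := by
    refine ⟨?_, ζ0, hζ0, ?_⟩
    · intro h
      have h1 : w0 = 0 := congrArg Subtype.val h
      apply hxZ
      rw [← hxw, h1, add_zero]
      exact hζ0
    · show S (w0 + ζ0)
      rw [add_comm, hxw]
      exact hSx
  have hSyw : SW S Z W ⟨v0, hv0⟩ := by
    refine ⟨?_, ζ1, hζ1, ?_⟩
    · intro h
      have h1 : v0 = 0 := congrArg Subtype.val h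
      have h3 : y0 ∈ Z := by
        rw [← hyw, h1, add_zero]
        exact hζ1
      exact hno y0 h3 hy0
    · show S (v0 + ζ1)
      rw [add_comm, hyw]
      exact hy0
  have hSO := swov hS hZ hd hs hW hno
  have h1 : (FW F W hW).H ⟨v0, hv0⟩ ⟨w0, hw0⟩ = 1 := by
    show F.H v0 w0 = 1
    have h3 := hy1
    rw [← hyw, ← hxw, F.addl, F.addr, F.addr, hZ ζ1 hζ1 ζ0 hζ0, F.sw (hWp w0 hw0 ζ1 hζ1),
      hWp v0 hv0 ζ0 hζ0, zero_add, zero_add, zero_add] at h3
    exact h3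
  have hred := red hn hK P hi hG hS hZ hd hs hD hxD hZD (by omega) hDg fx hcZ hxw' hyw' hy0 hy1
    hyZ hcon
  have hasm := asm (F := FW F W hW) (S := SW S Z W) (x := ⟨w0, hw0⟩) hK hbar hW6 hSO hSxw
    (p := p) (fun v => Subtype.ext (hp v)) (PW P Z W) (pwp P hPp hd)
    (fun h hh u v => pwiso hi hZ hs hW hh u v)
    (fun h hh y hy => pwpres hG hh y hy)
    (fun h hh => pwx hd hx hxw' hh) hSyw h1
  exact absurd hred (not_lt.2 hasm)
-- END row asmg

end Pool.Agent.Ovp.Two
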