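import Pool.Agent.Ovp.Two

namespace Pool.Agent.Ovp.Two

open scoped LinearAlgebra.Projectivization

variable {K V : Type} [Field K] [AddCommGroup V] [Module K V]
variable {F : Ovo.HF K V} {S : V → Prop} {x : V} {q : ℕ}

-- BEGIN row sylo
/-- As `syl`: |Q| is the p part of |G|, Q_a injects into G_a and is a p-group, so |Q_a| divides
the p part of |G_a|; |orbit Q a| = |Q| / |Q_a| is at least the p part of |G| / |G_a| =
|orbit G a|, which is at least p^k. -/
theorem sylo {G α : Type} [Group G] [Finite G] [MulAction G α] {p k : ℕ} [Fact p.Prime]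
    (Q : Sylow p G) (a : α) (h : p ^ k ∣ Nat.card (MulAction.orbit G a)) :
    p ^ k ≤ Nat.card (MulAction.orbit (Q : Subgroup G) a) := by
  classical
  have hp : p.Prime := Fact.out
  have hn : Nat.card (Q : Subgroup G) = p ^ (Nat.card G).factorization p := Q.card_eq_multiplicity
  have hH : Nat.card (MulAction.stabilizer G a) * Nat.card (MulAction.orbit G a) =
      Nat.card G := by
    rw [← Subgroup.card_mul_index (MulAction.stabilizer G a), MulAction.index_stabilizer,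
      Nat.card_coe_set_eq]
  have hQ : Nat.card (MulAction.stabilizer (Q : Subgroup G) a) *
      (MulAction.orbit (Q : Subgroup G) a).ncard = Nat.card (Q : Subgroup G) := by
    rw [← Subgroup.card_mul_index (MulAction.stabilizer (Q : Subgroup G) a),
      MulAction.index_stabilizer]
  have hdvd : Nat.card (MulAction.stabilizer (Q : Subgroup G) a) ∣
      Nat.card (MulAction.stabilizer G a) := by
    have h1 : (MulAction.stabilizer (Q : Subgroup G) a).map (Q : Subgroup G).subtype ≤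
        MulAction.stabilizer G a := by
      rintro g ⟨g', hg', rfl⟩
      exact hg'
    have h2 := Subgroup.card_dvd_of_le h1
    rwa [Subgroup.card_map_of_injective (Q : Subgroup G).subtype_injective] at h2
  obtain ⟨j, hj, hj2⟩ := (Nat.dvd_prime_pow hp).1 (hn ▸ Dvd.intro _ hQ)
  have h3 : p ^ (j + k) ∣ Nat.card G := by
    rw [← hH, pow_add, ← hj2]
    exact Nat.mul_dvd_mul hdvd h
  have h4 : j + k ≤ (Nat.card G).factorization p :=
    (hp.pow_dvd_iff_le_factorization (Nat.card_pos).ne').1 h3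
  rw [Nat.card_coe_set_eq]
  rw [hj2, hn] at hQ
  have h6 : p ^ j * p ^ k ≤ p ^ j * (MulAction.orbit (Q : Subgroup G) a).ncard := by
    rw [hQ, ← pow_add]
    exact Nat.pow_le_pow_right hp.pos h4
  exact Nat.le_of_mul_le_mul_left h6 (pow_pos hp.pos _)
-- END row sylo

-- BEGIN row asmo
/-- Q a Sylow p-subgroup of G, P = Q.map G.subtype; y1 = y0 scaled to H y1 x = 1. The map y ↦ point of y
is onto the orbit of the point of y0 under Q from {y | ∃ g in P, g y1 = y}: `sylo` and `asmg`. -/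
theorem asmo [Finite V] [Finite K] {n : ℕ} (hn : 2 ≤ n) (hK : Nat.card K = q ^ 2)
    (hbar : ∀ a, F.bar a = a ^ q)
    (hV : Module.finrank K V = 2 * n + 2)
    (hS : F.Ov S) (hSx : S x) {p : ℕ} [Fact p.Prime] (hp : ∀ v : V, p • v = 0)
    (G : Subgroup (V ≃ₗ[K] V))
    (hi : ∀ g ∈ G, ∀ u v, F.H (g u) (g v) = F.H u v) (hG : ∀ g ∈ G, ∀ y, S y → S (g y))
    (hx : ∀ g ∈ G, ∃ a : K, g x = a • x) {y0 : V} (hy : y0 ≠ 0) (hy0 : S y0)
    (hy1 : F.H y0 x ≠ 0) {k : ℕ}
    (h : p ^ k ∣ Nat.card (MulAction.orbit G (Projectivization.mk K y0 hy))) :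
    p ^ k ≤ q ^ (2 * n) := by
  classical
  have i1 : Finite (V ≃ₗ[K] V) :=
    Finite.of_injective (fun g : V ≃ₗ[K] V => (g : V → V)) DFunLike.coe_injective
  let Q : Sylow p G := default
  have hPG : ∀ g ∈ (Q : Subgroup G).map G.subtype, g ∈ G := by
    rintro g ⟨y, -, rfl⟩
    exact y.2
  have hP : IsPGroup p ((Q : Subgroup G).map G.subtype) := Q.isPGroup'.map _
  have hc : (F.H y0 x)⁻¹ ≠ 0 := inv_ne_zero hy1
  obtain ⟨y1, hy1e⟩ : ∃ y1, y1 = (F.H y0 x)⁻¹ • y0 := ⟨_, rfl⟩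
  have hSy1 : S y1 := by
    rw [hy1e]
    exact hS.sm _ _ hc hy0
  have hy1x : F.H y1 x = 1 := by
    rw [hy1e, F.smull, inv_mul_cancel₀ hy1]
  have hy10 : y1 ≠ 0 := hS.ne _ hSy1
  have hmk : Projectivization.mk K y0 hy = Projectivization.mk K y1 hy10 :=
    (Projectivization.mk_eq_mk_iff' K y0 y1 hy hy10).2
      ⟨F.H y0 x, by rw [hy1e, smul_smul, mul_inv_cancel₀ hy1, one_smul]⟩
  rw [hmk] at h
  have h3 := sylo Q _ h
  have h4 := asmg hn hK hbar hV hS hSx hp ((Q : Subgroup G).map G.subtype) hP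
    (fun g hg => hi g (hPG g hg)) (fun g hg => hG g (hPG g hg)) (fun g hg => hx g (hPG g hg))
    hSy1 hy1x
  refine h3.trans (le_trans ?_ h4)
  have hne : ∀ y : {y : V // ∃ g ∈ (Q : Subgroup G).map G.subtype, g y1 = y}, y.1 ≠ 0 := by
    rintro ⟨y, g, -, rfl⟩
    exact fun h0 => hy10 (g.map_eq_zero_iff.1 h0)
  have hin : ∀ y : {y : V // ∃ g ∈ (Q : Subgroup G).map G.subtype, g y1 = y},
      Projectivization.mk K y.1 (hne y) ∈
        MulAction.orbit (Q : Subgroup G) (Projectivization.mk K y1 hy10) := by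
    rintro ⟨y, g, ⟨g', hg', rfl⟩, rfl⟩
    exact ⟨⟨g', hg'⟩, rfl⟩
  refine Nat.card_le_card_of_surjective (fun y => (⟨_, hin y⟩ :
    MulAction.orbit (Q : Subgroup G) (Projectivization.mk K y1 hy10))) ?_
  rintro ⟨_, ⟨g, rfl⟩⟩
  exact ⟨⟨(g : G).1 y1, (g : G).1, ⟨g, g.2, rfl⟩, rfl⟩, Subtype.ext rfl⟩
-- END row asmo

end Pool.Agent.Ovp.Two
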